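import Pool.Agent.Lib.H59T.UL

/-!
# Project H59T, chunk UV (S): the form of `LK_diff` used in module STAR (H9S)
-/

open Finset

namespace Pool.Agent.Lib.H59T

open Pool.Agent.Lib.H68T Pool.Agent.Lib.H18Q Pool.Agent.Lib.H59P

/-- Proof. `LK_diff` with `n = 3 X`, `f` cut off to `[2X, 3X)` and `g` to `(-X, X)`: then `x + y ∈ [X, 4X]` for the terms which are not `0`
(`Finset.sum_subset`, `Finset.sum_filter`-type manipulations); the constant is `9 C`. -/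
theorem LK_box : ∃ K C : ℝ, 1 ≤ K ∧ 0 < C ∧ ∀ Q Q' X : ℕ, RegP K Q X → 1 ≤ Q' → Q' ≤ Q →
    ∀ f g W : ℤ → ℂ, (∀ x, ‖f x‖ ≤ 1) → (∀ x, ‖g x‖ ≤ 1) → (∀ x, ‖W x‖ ≤ 1) →
    ‖∑ x ∈ Ico (2 * (X : ℤ)) (3 * X), ∑ y ∈ Ioo (-(X : ℤ)) X, f x * g y *
      ((Lk Q (X / Q ^ 2) (x + y) - Lk Q' (X / Q ^ 2) (x + y) : ℝ) : ℂ) * W (x - y)‖ ≤
      C * (X : ℝ) ^ 2 * (Q' : ℝ) ^ (-(1 / 1152 : ℝ)) := by
  classical
  obtain ⟨K, C, hK, hC, h⟩ := LK_diff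
  refine ⟨K, 9 * C, hK, by positivity, ?_⟩
  intro Q Q' X hR hQ' hQQ f g W hf hg hW
  obtain ⟨f', hf'⟩ : ∃ f' : ℤ → ℂ, ∀ x, f' x = if x ∈ Ico (2 * (X : ℤ)) (3 * X) then f x else 0 := ⟨_, fun _ => rfl⟩
  obtain ⟨g', hg'⟩ : ∃ g' : ℤ → ℂ, ∀ y, g' y = if y ∈ Ioo (-(X : ℤ)) X then g y else 0 := ⟨_, fun _ => rfl⟩
  have hf1 : ∀ x, ‖f' x‖ ≤ 1 := by
    intro x
    rw [hf' x]
    split_ifs
    · exact hf x
    · rw [norm_zero]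
      exact zero_le_one
  have hg1 : ∀ y, ‖g' y‖ ≤ 1 := by
    intro y
    rw [hg' y]
    split_ifs
    · exact hg y
    · rw [norm_zero]
      exact zero_le_one
  have h1 := h Q Q' X (3 * X) hR hQ' hQQ (by omega) f' g' W hf1 hg1 hW
  have h2 : ∑ x ∈ Icc (-((3 * X : ℕ) : ℤ)) ((3 * X : ℕ) : ℤ), ∑ y ∈ Icc (-((3 * X : ℕ) : ℤ)) ((3 * X : ℕ) : ℤ), f' x * g' y *
      (if (X : ℤ) ≤ x + y ∧ x + y ≤ 4 * X then
        ((Lk Q (X / Q ^ 2) (x + y) - Lk Q' (X / Q ^ 2) (x + y) : ℝ) : ℂ) else 0) * W (x - y) =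
      ∑ x ∈ Ico (2 * (X : ℤ)) (3 * X), ∑ y ∈ Ioo (-(X : ℤ)) X, f x * g y *
      ((Lk Q (X / Q ^ 2) (x + y) - Lk Q' (X / Q ^ 2) (x + y) : ℝ) : ℂ) * W (x - y) := by
    have hs1 : Ico (2 * (X : ℤ)) (3 * X) ⊆ Icc (-((3 * X : ℕ) : ℤ)) ((3 * X : ℕ) : ℤ) := by
      intro x hx
      rw [mem_Ico] at hx
      rw [mem_Icc]
      push_cast
      omega
    have hs2 : Ioo (-(X : ℤ)) X ⊆ Icc (-((3 * X : ℕ) : ℤ)) ((3 * X : ℕ) : ℤ) := by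
      intro x hx
      rw [mem_Ioo] at hx
      rw [mem_Icc]
      push_cast
      omega
    rw [← Finset.sum_subset hs1 (fun x _ hx => Finset.sum_eq_zero fun y _ => by
      rw [hf' x, if_neg hx, zero_mul, zero_mul, zero_mul])]
    refine Finset.sum_congr rfl fun x hx => ?_
    rw [← Finset.sum_subset hs2 (fun y _ hy => by
      rw [hg' y, if_neg hy, mul_zero, zero_mul, zero_mul])]
    refine Finset.sum_congr rfl fun y hy => ?_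
    rw [hf' x, if_pos hx, hg' y, if_pos hy]
    rw [mem_Ico] at hx
    rw [mem_Ioo] at hy
    rw [if_pos (by constructor <;> omega)]
  rw [h2] at h1
  refine h1.trans (le_of_eq ?_)
  push_cast
  ring

end Pool.Agent.Lib.H59T
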