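import Pool.Agent.Lib.H59T.F5
import Pool.Agent.Lib.H24Q.R0

/-!
# Project H59T, chunk F6 (S): the interface with H24Q
-/

open Finset

namespace Pool.Agent.Lib.H59T

open Pool.Agent.Lib.H68T Pool.Agent.Lib.H18Q Pool.Agent.Lib.H59P Pool.Agent.Lib.H24P
  Pool.Agent.Lib.H24Q

theorem f6_two (b s : Fin 2 → ℕ) (F : (Fin 2 → ℕ) → ℝ) :
    ∑ ω ∈ cub b s, F ω = ∑ x ∈ Ico (b 0) (b 0 + s 0), ∑ x' ∈ Ico (b 1) (b 1 + s 1), F ![x, x'] := by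
  rw [← sum_product']
  refine sum_bij' (fun ω _ => (ω 0, ω 1)) (fun q _ => ![q.1, q.2]) ?_ ?_ ?_ ?_ ?_
  · intro ω hω
    unfold cub at hω
    rw [Fintype.mem_piFinset] at hω
    rw [mem_product]
    exact ⟨hω 0, hω 1⟩
  · intro q hq
    rw [mem_product] at hq
    unfold cub
    rw [Fintype.mem_piFinset]
    intro i
    fin_cases i
    · exact hq.1
    · exact hq.2
  · intro ω _
    funext i
    fin_cases i <;> rfl
  · intro q _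
    rfl
  · intro ω _
    congr 1
    funext i
    fin_cases i <;> rfl

theorem f6_one (b s : Fin 1 → ℕ) (F : (Fin 1 → ℕ) → ℝ) :
    ∑ ω ∈ cub b s, F ω = ∑ x ∈ Ico (b 0) (b 0 + s 0), F ![x] := by
  refine sum_bij' (fun ω _ => ω 0) (fun q _ => ![q]) ?_ ?_ ?_ ?_ ?_
  · intro ω hω
    unfold cub at hω
    rw [Fintype.mem_piFinset] at hω
    exact hω 0
  · intro q hq
    unfold cub
    rw [Fintype.mem_piFinset]
    intro i
    fin_cases i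
    exact hq
  · intro ω _
    funext i
    fin_cases i
    rfl
  · intro q _
    rfl
  · intro ω _
    congr 1
    funext i
    fin_cases i
    rfl

theorem f6_card2 (b s : Fin 2 → ℕ) : ((cub b s).card : ℝ) = (s 0 : ℝ) * s 1 := by
  unfold cub
  rw [Fintype.card_piFinset, Fin.prod_univ_two, Nat.card_Ico, Nat.card_Ico, Nat.add_sub_cancel_left,
    Nat.add_sub_cancel_left]
  push_cast
  rfl

theorem f6_card1 (b s : Fin 1 → ℕ) : ((cub b s).card : ℝ) = (s 0 : ℝ) := by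
  unfold cub
  rw [Fintype.card_piFinset, Fin.prod_univ_one, Nat.card_Ico, Nat.add_sub_cancel_left]

theorem f6_log (C0 : ℝ) (Q : ℕ) (hQ : 2 ≤ Q) (X : ℝ) (hX : 0 ≤ X) :
    C0 * X ≤ max 1 C0 * (1 + Real.log Q) ^ (max 1 C0) * X := by
  have h1 : (0 : ℝ) ≤ Real.log Q := Real.log_natCast_nonneg Q
  have h2 : (1 : ℝ) ≤ (1 + Real.log Q) ^ (max 1 C0) :=
    Real.one_le_rpow (by linarith) (le_trans zero_le_one (le_max_left _ _))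
  have h3 : (0 : ℝ) ≤ max 1 C0 := le_trans zero_le_one (le_max_left _ _)
  refine mul_le_mul_of_nonneg_right ?_ hX
  calc C0 ≤ max 1 C0 * 1 := by rw [mul_one]; exact le_max_right _ _
    _ ≤ _ := mul_le_mul_of_nonneg_left h2 h3

/-- Proof. `F4_four`; `cub b s` for `Fin 2 → ℕ` is in bijection with `Ico (b 0) (b 0 + s 0) ×ˢ Ico (b 1) (b 1 + s 1)`, its number of elements is
`s 0 s 1`; `L4.map ω i n` is `![x + n, x - n, x' + n, x' - n] i` with `x = ω 0`, `x' = ω 1`. `1 ≤ (1 + log Q)^C`. -/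
theorem F6_FG : ∃ C : ℝ, 1 ≤ C ∧ ∀ Q : ℕ, 2 ≤ Q → ∀ b s : Fin 2 → ℕ, (∀ j, Q ^ 40 ≤ s j) →
    FG C (1 / 36) Q (Q ^ 40) (cub b s) L4.map := by
  obtain ⟨C0, hC0, h⟩ := F4_four
  refine ⟨max 1 C0, le_max_left _ _, ?_⟩
  intro Q hQ b s hs p hp T hT D hD hTD a H hH
  have h1 := h Q D hD p hp T hT hTD (b 0) (b 1) a (s 0) (s 1) H (hs 0) (hs 1) hH
  rw [f6_two, f6_card2]
  have e1 : ∑ x ∈ Ico (b 0) (b 0 + s 0), ∑ x' ∈ Ico (b 1) (b 1 + s 1),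
      ‖∑ n ∈ Ico a (a + H), ∑ κ ∈ T, ∏ i, gk (p i) (κ i) (L4.map ![x, x'] i (n : ℤ))‖ ^ 2 =
      ∑ y ∈ Ico (b 0) (b 0 + s 0), ∑ y' ∈ Ico (b 1) (b 1 + s 1), ‖∑ z ∈ Ico a (a + H), ∑ κ ∈ T,
      ∏ i, gk (p i) (κ i) ((![(y : ℤ) + z, y - z, y' + z, y' - z] : Fin 4 → ℤ) i)‖ ^ 2 := by
    refine sum_congr rfl fun x _ => sum_congr rfl fun x' _ => ?_
    have e2 : ∀ (n : ℕ) (i : Fin 4), L4.map ![x, x'] i (n : ℤ) =
        (![(x : ℤ) + n, x - n, x' + n, x' - n] : Fin 4 → ℤ) i := by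
      intro n i
      fin_cases i <;> simp [LF.map, L4] <;> ring
    simp only [e2]
  rw [e1]
  refine h1.trans ?_
  have h2 := f6_log C0 Q hQ (((s 0 : ℝ) * s 1 * H ^ 2) * (D : ℝ) ^ (-(1 / 36 : ℝ))) (by positivity)
  calc _ = C0 * (((s 0 : ℝ) * s 1 * H ^ 2) * (D : ℝ) ^ (-(1 / 36 : ℝ))) := by ring
    _ ≤ _ := h2
    _ = _ := by ring

/-- Proof. As `F6_FG`, with `F5_weights`. -/
theorem F6_FW : ∃ C : ℝ, 1 ≤ C ∧ ∀ Q : ℕ, 2 ≤ Q → ∀ b s : Fin 1 → ℕ, (∀ j, Q ^ 40 ≤ s j) →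
    FW C (1 / 72) Q (Q ^ 40) (cub b s) L2.map := by
  obtain ⟨C0, hC0, h⟩ := F5_weights
  refine ⟨max 1 C0, le_max_left _ _, ?_⟩
  intro Q hQ b s hs p hp T hT D hD hTD w a H hH
  have h1 := h Q D hD p hp T hT hTD w (b 0) a (s 0) H (hs 0) hH
  rw [f6_one, f6_card1]
  have e1 : ∑ x ∈ Ico (b 0) (b 0 + s 0),
      ‖∑ n ∈ Ico a (a + H), w n * ∑ κ ∈ T, ∏ i, gk (p i) (κ i) (L2.map ![x] i (n : ℤ))‖ ^ 2 =
      ∑ x ∈ Ico (b 0) (b 0 + s 0), ‖∑ y ∈ Ico a (a + H), w y * ∑ κ ∈ T,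
      ∏ i, gk (p i) (κ i) ((![(x : ℤ) + y, x - y] : Fin 2 → ℤ) i)‖ ^ 2 := by
    refine sum_congr rfl fun x _ => ?_
    have e2 : ∀ (n : ℕ) (i : Fin 2), L2.map ![x] i (n : ℤ) =
        (![(x : ℤ) + n, x - n] : Fin 2 → ℤ) i := by
      intro n i
      fin_cases i <;> simp [LF.map, L2] <;> ring
    simp only [e2]
  rw [e1]
  refine h1.trans ?_
  have h2 := f6_log C0 Q hQ (((s 0 : ℝ) * (H * ∑ y ∈ Ico a (a + H), ‖w y‖ ^ 2)) * (D : ℝ) ^ (-(1 / 72 : ℝ)))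
    (mul_nonneg (mul_nonneg (Nat.cast_nonneg _) (mul_nonneg (Nat.cast_nonneg _) (sum_nonneg fun _ _ => sq_nonneg _)))
      (Real.rpow_nonneg (Nat.cast_nonneg _) _))
  calc _ = C0 * (((s 0 : ℝ) * (H * ∑ y ∈ Ico a (a + H), ‖w y‖ ^ 2)) * (D : ℝ) ^ (-(1 / 72 : ℝ))) := by ring
    _ ≤ _ := h2
    _ = _ := by ring

end Pool.Agent.Lib.H59T
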