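import Mathlib

/-! Win's theorem: a connected graph `G` such that `G - S` has at most `(k - 2) |S| + 2` components for every nonempty
`S` has a spanning tree of maximum degree at most `k` (`k ≥ 2`; here in the form needed for `k = 3` and in general). -/

namespace Pool.Agent.Lib.H59T

open Finset

variable {V : Type*} [DecidableEq V] (G : SimpleGraph V)

/-- `Tr G W δ`: there is a spanning tree of `G[W]` with the degree function `δ`. -/
inductive Tr : Finset V → (V → ℕ) → Prop
  | single (v : V) : Tr {v} 0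
  | glue {W₁ W₂ : Finset V} {δ₁ δ₂ : V → ℕ} {u w : V} : Tr W₁ δ₁ → Tr W₂ δ₂ → Disjoint W₁ W₂ → u ∈ W₁ → w ∈ W₂ →
      G.Adj u w → Tr (W₁ ∪ W₂) (δ₁ + δ₂ + Pi.single u 1 + Pi.single w 1)

variable {G}

theorem Tr.supp {W : Finset V} {δ : V → ℕ} (h : Tr G W δ) : ∀ v, v ∉ W → δ v = 0 := by
  induction h with
  | single v => intro x _; rfl
  | @glue W₁ W₂ δ₁ δ₂ u w _ _ _ hu hw _ ih1 ih2 =>
    intro x hx
    rw [mem_union, not_or] at hx
    have hxu : x ≠ u := fun h => hx.1 (h ▸ hu)
    have hxw : x ≠ w := fun h => hx.2 (h ▸ hw)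
    simp [ih1 x hx.1, ih2 x hx.2, hxu, hxw]

theorem Tr.nonempty {W : Finset V} {δ : V → ℕ} (h : Tr G W δ) : W.Nonempty := by
  induction h with
  | single v => exact singleton_nonempty v
  | glue _ _ _ hu _ _ _ _ => exact ⟨_, mem_union_left _ hu⟩

theorem Tr.card_one {W : Finset V} {δ : V → ℕ} (h : Tr G W δ) (hW : W.card = 1) : ∀ v, δ v = 0 := by
  induction h with
  | single v => intro x; rfl
  | glue h1 h2 hd _ _ _ _ _ =>
    rw [card_union_of_disjoint hd] at hW
    have := card_pos.2 h1.nonempty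
    have := card_pos.2 h2.nonempty
    omega

theorem Tr.split {W : Finset V} {δ : V → ℕ} (h : Tr G W δ) {v : V} (hv : v ∈ W) (hne : W ≠ {v}) :
    ∃ W₁ W₂ δ₁ δ₂ x, Tr G W₁ δ₁ ∧ Tr G W₂ δ₂ ∧ Disjoint W₁ W₂ ∧ v ∈ W₁ ∧ x ∈ W₂ ∧ G.Adj v x ∧ W = W₁ ∪ W₂ ∧
      δ = δ₁ + δ₂ + Pi.single v 1 + Pi.single x 1 := by
  induction h with
  | single w =>
    rw [mem_singleton] at hv
    exact absurd (by rw [hv]) hne
  | @glue W₁ W₂ δ₁ δ₂ u w h1 h2 hd hu hw ha ih1 ih2 =>
    rcases eq_or_ne v u with rfl | hvu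
    · exact ⟨W₁, W₂, δ₁, δ₂, w, h1, h2, hd, hu, hw, ha, rfl, rfl⟩
    rcases eq_or_ne v w with rfl | hvw
    · exact ⟨W₂, W₁, δ₂, δ₁, u, h2, h1, hd.symm, hw, hu, ha.symm, union_comm _ _, by
        rw [add_comm δ₁ δ₂, add_assoc, add_comm (Pi.single u 1), ← add_assoc]⟩
    rcases mem_union.1 hv with hv1 | hv2
    · have hne1 : W₁ ≠ {v} := by
        rintro rfl
        exact hvu (mem_singleton.1 hu).symm
      obtain ⟨A, B, α, β, x, hA, hB, hAB, hvA, hxB, hax, rfl, rfl⟩ := ih1 hv1 hne1
      rw [disjoint_union_left] at hd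
      rcases mem_union.1 hu with huA | huB
      · refine ⟨A ∪ W₂, B, _, β, x, Tr.glue hA h2 hd.1 huA hw ha, hB, ?_, mem_union_left _ hvA, hxB, hax, ?_, ?_⟩
        · rw [disjoint_union_left]
          exact ⟨hAB, hd.2.symm⟩
        · rw [union_assoc, union_comm B W₂, ← union_assoc]
        · ext y
          simp only [Pi.add_apply]
          ring
      · refine ⟨A, B ∪ W₂, α, _, x, hA, Tr.glue hB h2 hd.2 huB hw ha, ?_, hvA, mem_union_left _ hxB, hax, ?_, ?_⟩
        · rw [disjoint_union_right]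
          exact ⟨hAB, hd.1⟩
        · rw [union_assoc]
        · ext y
          simp only [Pi.add_apply]
          ring
    · have hne2 : W₂ ≠ {v} := by
        rintro rfl
        exact hvw (mem_singleton.1 hw).symm
      obtain ⟨A, B, α, β, x, hA, hB, hAB, hvA, hxB, hax, rfl, rfl⟩ := ih2 hv2 hne2
      rw [disjoint_union_right] at hd
      rcases mem_union.1 hw with hwA | hwB
      · refine ⟨W₁ ∪ A, B, _, β, x, Tr.glue h1 hA hd.1 hu hwA ha, hB, ?_, mem_union_right _ hvA, hxB, hax, ?_, ?_⟩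
        · rw [disjoint_union_left]
          exact ⟨hd.2, hAB⟩
        · rw [union_assoc]
        · ext y
          simp only [Pi.add_apply]
          ring
      · refine ⟨A, W₁ ∪ B, α, _, x, hA, Tr.glue h1 hB hd.2 hu hwB ha, ?_, hvA, mem_union_right _ hxB, hax, ?_, ?_⟩
        · rw [disjoint_union_right]
          exact ⟨hd.1.symm, hAB⟩
        · rw [← union_assoc, union_comm W₁ A, union_assoc]
        · ext y
          simp only [Pi.add_apply]
          ring

/-- The certificate. -/
theorem cert (n : ℕ) : ∀ (W : Finset V) (δ d : V → ℕ), W.card ≤ n → Tr G W δ → (∀ v ∈ W, δ v ≤ d v) →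
    ∃ (S : Finset V) (f : V → V), S ⊆ W ∧
      (∀ v ∈ W, (∀ δ' : V → ℕ, Tr G W δ' → (∀ x ∈ W, δ' x ≤ d x) → δ' v = d v) → v ∈ S) ∧
      (∀ s ∈ S, δ s = d s) ∧ (∀ x ∈ W \ S, f x ∈ W) ∧
      (∀ u ∈ W \ S, ∀ w ∈ W \ S, G.Adj u w → f u = f w) ∧
      (∑ s ∈ S, ((δ s : ℤ) - 2)) + (if S = ∅ then 1 else 2) ≤ (((W \ S).image f).card : ℤ) := by
  induction n with
  | zero =>
    intro W δ d hn h _
    exact absurd (card_pos.2 h.nonempty) (by omega)
  | succ n ih =>
    intro W δ d hn h hδ
    by_cases hN : ∃ v ∈ W, ∀ δ' : V → ℕ, Tr G W δ' → (∀ x ∈ W, δ' x ≤ d x) → δ' v = d v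
    swap
    · -- no tight vertex
      obtain ⟨w0, hw0⟩ := h.nonempty
      refine ⟨∅, fun _ => w0, empty_subset _, fun v hv h' => absurd ⟨v, hv, h'⟩ hN, by simp, fun _ _ => hw0,
        fun _ _ _ _ _ => rfl, ?_⟩
      rw [if_pos rfl, sum_empty, zero_add, sdiff_empty]
      have : ((W.image fun _ => w0).card) = 1 := by
        rw [card_eq_one]
        exact ⟨w0, by ext y; simp [eq_comm]; exact fun _ => ⟨w0, hw0⟩⟩
      rw [this]
      norm_num
    obtain ⟨v, hvW, hv⟩ := hN
    by_cases hW : W = {v}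
    · subst hW
      refine ⟨{v}, id, subset_rfl, fun x hx _ => hx, ?_, ?_, ?_, ?_⟩
      · intro s hs
        rw [mem_singleton] at hs
        subst hs
        exact hv δ h hδ
      · simp
      · simp
      · have h0 : δ v = 0 := h.card_one (card_singleton v) v
        simp [h0]
    obtain ⟨W₁, W₂, δ₁, δ₂, x, h1, h2, hdis, hv1, hx2, hvx, rfl, rfl⟩ := h.split hvW hW
    have hv2 : v ∉ W₂ := disjoint_left.1 hdis hv1
    have hx1 : x ∉ W₁ := fun hx => disjoint_left.1 hdis hx hx2
    have hvx' : v ≠ x := fun h' => hx1 (h' ▸ hv1)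
    have hc1 : W₁.card ≤ n := by
      have := card_pos.2 h2.nonempty
      rw [card_union_of_disjoint hdis] at hn
      omega
    have hc2 : W₂.card ≤ n := by
      have := card_pos.2 h1.nonempty
      rw [card_union_of_disjoint hdis] at hn
      omega
    set d₁ : V → ℕ := fun y => if y = v then d v - 1 else d y with hd₁
    set d₂ : V → ℕ := fun y => if y = x then d x - 1 else d y with hd₂
    -- degrees of glued trees
    have hval : ∀ (a b : V → ℕ) (p q : V), Tr G W₁ a → Tr G W₂ b → p ∈ W₁ → q ∈ W₂ → (∀ y ∈ W₁,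
        (a + b + Pi.single p 1 + Pi.single q 1 : V → ℕ) y = a y + if y = p then 1 else 0) ∧ (∀ y ∈ W₂,
        (a + b + Pi.single p 1 + Pi.single q 1 : V → ℕ) y = b y + if y = q then 1 else 0) := by
      intro a b p q ha hb hp hq
      constructor
      · intro y hy
        have hy2 : y ∉ W₂ := disjoint_left.1 hdis hy
        have hyq : y ≠ q := fun h' => hy2 (h' ▸ hq)
        simp only [Pi.add_apply, hb.supp y hy2, add_zero, Pi.single_apply, if_neg hyq]
      · intro y hy
        have hy1 : y ∉ W₁ := fun h' => disjoint_left.1 hdis h' hy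
        have hyp : y ≠ p := fun h' => hy1 (h' ▸ hp)
        simp only [Pi.add_apply, ha.supp y hy1, zero_add, Pi.single_apply, if_neg hyp, add_zero]
    obtain ⟨hval1, hval2⟩ := hval δ₁ δ₂ v x h1 h2 hv1 hx2
    have hδ1 : ∀ y ∈ W₁, δ₁ y ≤ d₁ y := by
      intro y hy
      have h3 := hδ y (mem_union_left _ hy)
      rw [hval1 y hy] at h3
      simp only [hd₁]
      split_ifs at h3 ⊢ with h4
      · subst h4; omega
      · omega
    have hδ2 : ∀ y ∈ W₂, δ₂ y ≤ d₂ y := by
      intro y hy
      have h3 := hδ y (mem_union_right _ hy)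
      rw [hval2 y hy] at h3
      simp only [hd₂]
      split_ifs at h3 ⊢ with h4
      · subst h4; omega
      · omega
    have hdv : 0 < d v := by
      have h3 := hδ v (mem_union_left _ hv1)
      rw [hval1 v hv1, if_pos rfl] at h3
      omega
    have hdx : 0 < d x := by
      have h3 := hδ x (mem_union_right _ hx2)
      rw [hval2 x hx2, if_pos rfl] at h3
      omega
    -- a glued tree obeys `d`
    have hle : ∀ a b : V → ℕ, Tr G W₁ a → Tr G W₂ b → (∀ y ∈ W₁, a y ≤ d₁ y) → (∀ y ∈ W₂, b y ≤ d₂ y) →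
        ∀ y ∈ W₁ ∪ W₂, (a + b + Pi.single v 1 + Pi.single x 1 : V → ℕ) y ≤ d y := by
      intro a b ha hb h3 h4 y hy
      obtain ⟨h5, h6⟩ := hval a b v x ha hb hv1 hx2
      rcases mem_union.1 hy with hy | hy
      · rw [h5 y hy]
        have h7 := h3 y hy
        simp only [hd₁] at h7
        split_ifs at h7 ⊢ with h8
        · subst h8; omega
        · omega
      · rw [h6 y hy]
        have h7 := h4 y hy
        simp only [hd₂] at h7
        split_ifs at h7 ⊢ with h8
        · subst h8; omega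
        · omega
    obtain ⟨S₁, f₁, hS1, ht1, hs1, hm1, ha1, hcnt1⟩ := ih W₁ δ₁ d₁ hc1 h1 hδ1
    obtain ⟨S₂, f₂, hS2, ht2, hs2, hm2, ha2, hcnt2⟩ := ih W₂ δ₂ d₂ hc2 h2 hδ2
    -- tightness is inherited
    have hti1 : ∀ t ∈ W₁, (∀ δ' : V → ℕ, Tr G (W₁ ∪ W₂) δ' → (∀ y ∈ W₁ ∪ W₂, δ' y ≤ d y) → δ' t = d t) →
        t ∈ S₁ := by
      intro t ht h3
      refine ht1 t ht fun a ha hb => ?_
      have h4 := h3 _ (Tr.glue ha h2 hdis hv1 hx2 hvx) (hle a δ₂ ha h2 hb hδ2)
      rw [(hval a δ₂ v x ha h2 hv1 hx2).1 t ht] at h4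
      simp only [hd₁]
      split_ifs at h4 ⊢ with h5
      · subst h5; omega
      · omega
    have hti2 : ∀ t ∈ W₂, (∀ δ' : V → ℕ, Tr G (W₁ ∪ W₂) δ' → (∀ y ∈ W₁ ∪ W₂, δ' y ≤ d y) → δ' t = d t) →
        t ∈ S₂ := by
      intro t ht h3
      refine ht2 t ht fun b hb hb' => ?_
      have h4 := h3 _ (Tr.glue h1 hb hdis hv1 hx2 hvx) (hle δ₁ b h1 hb hδ1 hb')
      rw [(hval δ₁ b v x h1 hb hv1 hx2).2 t ht] at h4
      simp only [hd₂]
      split_ifs at h4 ⊢ with h5
      · subst h5; omega
      · omega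
    have hvS : v ∈ S₁ := hti1 v hv1 hv
    -- no edge of `G` between the two sides outside `S`
    have hcross : ∀ u ∈ W₁ \ S₁, ∀ w ∈ W₂ \ S₂, ¬ G.Adj u w := by
      intro u hu w hw huw
      rw [mem_sdiff] at hu hw
      have h3 : ∃ a, Tr G W₁ a ∧ (∀ y ∈ W₁, a y ≤ d₁ y) ∧ a u ≠ d₁ u := by
        by_contra h4
        push Not at h4
        exact hu.2 (ht1 u hu.1 h4)
      have h4 : ∃ b, Tr G W₂ b ∧ (∀ y ∈ W₂, b y ≤ d₂ y) ∧ b w ≠ d₂ w := by
        by_contra h4
        push Not at h4
        exact hw.2 (ht2 w hw.1 h4)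
      obtain ⟨a, ha, hal, hau⟩ := h3
      obtain ⟨b, hb, hbl, hbw⟩ := h4
      have huv : u ≠ v := fun h' => hu.2 (h' ▸ hvS)
      obtain ⟨h5, h6⟩ := hval a b u w ha hb hu.1 hw.1
      have h7 := hv _ (Tr.glue ha hb hdis hu.1 hw.1 huw) ?_
      · rw [h5 v hv1, if_neg huv.symm] at h7
        have h8 := hal v hv1
        simp only [hd₁, if_true] at h8
        omega
      · intro y hy
        rcases mem_union.1 hy with hy | hy
        · rw [h5 y hy]
          have h8 := hal y hy
          have h9 : d₁ y ≤ d y := by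
            simp only [hd₁]
            split_ifs with h10
            · subst h10; omega
            · exact le_rfl
          split_ifs with h10
          · subst h10
            have := lt_of_le_of_ne h8 hau
            omega
          · omega
        · rw [h6 y hy]
          have h8 := hbl y hy
          have h9 : d₂ y ≤ d y := by
            simp only [hd₂]
            split_ifs with h10
            · subst h10; omega
            · exact le_rfl
          split_ifs with h10
          · subst h10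
            have := lt_of_le_of_ne h8 hbw
            omega
          · omega
    have hSd : Disjoint S₁ S₂ := disjoint_of_subset_left hS1 (disjoint_of_subset_right hS2 hdis)
    have hdiff : (W₁ ∪ W₂) \ (S₁ ∪ S₂) = (W₁ \ S₁) ∪ (W₂ \ S₂) := by
      ext y
      simp only [mem_sdiff, mem_union, not_or]
      constructor
      · rintro ⟨h3 | h3, h4, h5⟩
        · exact Or.inl ⟨h3, h4⟩
        · exact Or.inr ⟨h3, h5⟩
      · rintro (⟨h3, h4⟩ | ⟨h3, h4⟩)
        · exact ⟨Or.inl h3, h4, fun h5 => disjoint_left.1 hdis h3 (hS2 h5)⟩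
        · exact ⟨Or.inr h3, fun h5 => disjoint_left.1 hdis (hS1 h5) h3, h4⟩
    set f : V → V := fun y => if y ∈ W₁ then f₁ y else f₂ y with hf
    have hf1 : ∀ y ∈ W₁ \ S₁, f y = f₁ y := fun y hy => if_pos (mem_sdiff.1 hy).1
    have hf2 : ∀ y ∈ W₂ \ S₂, f y = f₂ y := fun y hy =>
      if_neg fun h' => disjoint_left.1 hdis h' (mem_sdiff.1 hy).1
    refine ⟨S₁ ∪ S₂, f, union_subset_union hS1 hS2, ?_, ?_, ?_, ?_, ?_⟩
    · intro t ht h3
      rcases mem_union.1 ht with ht | ht
      · exact mem_union_left _ (hti1 t ht h3)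
      · exact mem_union_right _ (hti2 t ht h3)
    · intro s hs
      rcases mem_union.1 hs with hs | hs
      · rw [hval1 s (hS1 hs), hs1 s hs]
        simp only [hd₁]
        split_ifs with h3
        · subst h3; omega
        · omega
      · rw [hval2 s (hS2 hs), hs2 s hs]
        simp only [hd₂]
        split_ifs with h3
        · subst h3; omega
        · omega
    · intro y hy
      rw [hdiff] at hy
      rcases mem_union.1 hy with hy | hy
      · rw [hf1 y hy]
        exact mem_union_left _ (hm1 y hy)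
      · rw [hf2 y hy]
        exact mem_union_right _ (hm2 y hy)
    · intro a ha b hb hab
      rw [hdiff] at ha hb
      rcases mem_union.1 ha with ha | ha <;> rcases mem_union.1 hb with hb | hb
      · rw [hf1 a ha, hf1 b hb]
        exact ha1 a ha b hb hab
      · exact absurd hab (hcross a ha b hb)
      · exact absurd hab.symm (hcross b hb a ha)
      · rw [hf2 a ha, hf2 b hb]
        exact ha2 a ha b hb hab
    · rw [hdiff, image_union, card_union_of_disjoint, sum_union hSd]
      · have e1 : ((W₁ \ S₁).image f) = (W₁ \ S₁).image f₁ := image_congr fun y hy => hf1 y hy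
        have e2 : ((W₂ \ S₂).image f) = (W₂ \ S₂).image f₂ := image_congr fun y hy => hf2 y hy
        rw [e1, e2]
        have hSne : S₁ ∪ S₂ ≠ ∅ := fun h' => by
          have : v ∈ (∅ : Finset V) := h' ▸ mem_union_left _ hvS
          simp at this
        have hS1ne : S₁ ≠ ∅ := fun h' => by
          rw [h'] at hvS
          simp at hvS
        rw [if_neg hSne]
        rw [if_neg hS1ne] at hcnt1
        have e3 : ∑ s ∈ S₁, ((((δ₁ + δ₂ + Pi.single v 1 + Pi.single x 1 : V → ℕ) s : ℕ) : ℤ) - 2) =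
            ∑ s ∈ S₁, ((δ₁ s : ℤ) - 2) + 1 := by
          have : ∀ s ∈ S₁, ((((δ₁ + δ₂ + Pi.single v 1 + Pi.single x 1 : V → ℕ) s : ℕ) : ℤ) - 2) =
              ((δ₁ s : ℤ) - 2) + if s = v then 1 else 0 := by
            intro s hs
            rw [hval1 s (hS1 hs)]
            push_cast
            ring
          rw [sum_congr rfl this, sum_add_distrib, sum_ite_eq' S₁ v fun _ => (1 : ℤ), if_pos hvS]
        have e4 : ∑ s ∈ S₂, ((((δ₁ + δ₂ + Pi.single v 1 + Pi.single x 1 : V → ℕ) s : ℕ) : ℤ) - 2) =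
            ∑ s ∈ S₂, ((δ₂ s : ℤ) - 2) + if x ∈ S₂ then 1 else 0 := by
          have : ∀ s ∈ S₂, ((((δ₁ + δ₂ + Pi.single v 1 + Pi.single x 1 : V → ℕ) s : ℕ) : ℤ) - 2) =
              ((δ₂ s : ℤ) - 2) + if s = x then 1 else 0 := by
            intro s hs
            rw [hval2 s (hS2 hs)]
            push_cast
            ring
          rw [sum_congr rfl this, sum_add_distrib, sum_ite_eq' S₂ x fun _ => (1 : ℤ)]
        rw [e3, e4]
        push_cast
        by_cases hS2e : S₂ = ∅
        · rw [if_pos hS2e] at hcnt2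
          have : x ∉ S₂ := by rw [hS2e]; simp
          rw [if_neg this]
          linarith
        · rw [if_neg hS2e] at hcnt2
          split_ifs <;> linarith
      · rw [disjoint_left]
        intro y hy1 hy2
        rw [mem_image] at hy1 hy2
        obtain ⟨a, ha, rfl⟩ := hy1
        obtain ⟨b, hb, hab⟩ := hy2
        rw [hf1 a ha, hf2 b hb] at hab
        exact disjoint_left.1 hdis (hab ▸ hm1 a ha) (hab ▸ hm2 b hb)

/-- The degrees of a spanning tree of `G[W]`. -/
theorem Tr.sum_eq [Fintype V] {W : Finset V} {δ : V → ℕ} (h : Tr G W δ) : ∑ v, δ v + 2 = 2 * W.card := by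
  induction h with
  | single v => simp
  | @glue W₁ W₂ δ₁ δ₂ u w h1 h2 hd _ _ _ ih1 ih2 =>
    rw [card_union_of_disjoint hd]
    simp only [Pi.add_apply, sum_add_distrib, sum_pi_single', mem_univ, if_true]
    omega

theorem Tr.exists_graph [Fintype V] {W : Finset V} {δ : V → ℕ} (h : Tr G W δ) :
    ∃ T : SimpleGraph V, T ≤ G ∧ (∀ x y, T.Adj x y → x ∈ W ∧ y ∈ W) ∧ (∀ x ∈ W, ∀ y ∈ W, T.Reachable x y) ∧
      ∀ v, (T.neighborSet v).ncard = δ v := by
  induction h with
  | single v =>
    refine ⟨⊥, bot_le, fun x y hxy => hxy.elim, ?_, fun x => ?_⟩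
    · intro x hx y hy
      rw [mem_singleton] at hx hy
      rw [hx, hy]
    · simp
  | @glue W₁ W₂ δ₁ δ₂ u w h1 h2 hd hu hw ha ih1 ih2 =>
    obtain ⟨T₁, hT1, hs1, hr1, hn1⟩ := ih1
    obtain ⟨T₂, hT2, hs2, hr2, hn2⟩ := ih2
    have hu2 : u ∉ W₂ := disjoint_left.1 hd hu
    have hw1 : w ∉ W₁ := fun h' => disjoint_left.1 hd h' hw
    have huw : u ≠ w := fun h' => hu2 (h' ▸ hw)
    let T : SimpleGraph V := SimpleGraph.mk
      (fun x y => T₁.Adj x y ∨ T₂.Adj x y ∨ (x = u ∧ y = w) ∨ (x = w ∧ y = u))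
      ⟨by
        rintro x y (h | h | ⟨h, h'⟩ | ⟨h, h'⟩)
        · exact Or.inl h.symm
        · exact Or.inr (Or.inl h.symm)
        · exact Or.inr (Or.inr (Or.inr ⟨h', h⟩))
        · exact Or.inr (Or.inr (Or.inl ⟨h', h⟩))⟩
      ⟨by
        rintro x (h | h | ⟨h, h'⟩ | ⟨h, h'⟩)
        · exact T₁.loopless.irrefl x h
        · exact T₂.loopless.irrefl x h
        · exact huw (h.symm.trans h')
        · exact huw (h'.symm.trans h)⟩
    have hTadj : ∀ x y, T.Adj x y ↔ (T₁.Adj x y ∨ T₂.Adj x y ∨ (x = u ∧ y = w) ∨ (x = w ∧ y = u)) :=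
      fun _ _ => Iff.rfl
    have hle1 : T₁ ≤ T := fun x y h => Or.inl h
    have hle2 : T₂ ≤ T := fun x y h => Or.inr (Or.inl h)
    have huwT : T.Adj u w := Or.inr (Or.inr (Or.inl ⟨rfl, rfl⟩))
    refine ⟨T, ?_, ?_, ?_, ?_⟩
    · intro x y hxy
      rcases hxy with h | h | ⟨rfl, rfl⟩ | ⟨rfl, rfl⟩
      · exact hT1 h
      · exact hT2 h
      · exact ha
      · exact ha.symm
    · intro x y hxy
      rcases hxy with h | h | ⟨rfl, rfl⟩ | ⟨rfl, rfl⟩
      · exact ⟨mem_union_left _ (hs1 x y h).1, mem_union_left _ (hs1 x y h).2⟩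
      · exact ⟨mem_union_right _ (hs2 x y h).1, mem_union_right _ (hs2 x y h).2⟩
      · exact ⟨mem_union_left _ hu, mem_union_right _ hw⟩
      · exact ⟨mem_union_right _ hw, mem_union_left _ hu⟩
    · have key : ∀ x ∈ W₁ ∪ W₂, T.Reachable x u := by
        intro x hx
        rcases mem_union.1 hx with hx | hx
        · exact (hr1 x hx u hu).mono hle1
        · exact ((hr2 x hx w hw).mono hle2).trans huwT.symm.reachable
      intro x hx y hy
      exact (key x hx).trans (key y hy).symm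
    · intro v
      have e : T.neighborSet v = T₁.neighborSet v ∪ (T₂.neighborSet v ∪
          ((if v = u then {w} else ∅) ∪ (if v = w then {u} else ∅) : Set V)) := by
        ext y
        simp only [SimpleGraph.mem_neighborSet, Set.mem_union, hTadj]
        by_cases h1 : v = u <;> by_cases h2 : v = w <;> simp [h1, h2]
      have d1 : Disjoint (T₁.neighborSet v) (T₂.neighborSet v ∪
          ((if v = u then {w} else ∅) ∪ (if v = w then {u} else ∅) : Set V)) := by
        rw [Set.disjoint_left]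
        intro y hy hy'
        have h3 := hs1 v y hy
        rcases hy' with h | h | h
        · exact disjoint_left.1 hd h3.1 (hs2 v y h).1
        · split_ifs at h with h4
          · exact hw1 (Set.mem_singleton_iff.1 h ▸ h3.2)
          · exact h
        · split_ifs at h with h4
          · exact hw1 (h4 ▸ h3.1)
          · exact h
      have d2 : Disjoint (T₂.neighborSet v) ((if v = u then {w} else ∅) ∪ (if v = w then {u} else ∅) : Set V) := by
        rw [Set.disjoint_left]
        intro y hy hy'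
        have h3 := hs2 v y hy
        rcases hy' with h | h
        · split_ifs at h with h4
          · exact hu2 (h4 ▸ h3.1)
          · exact h
        · split_ifs at h with h4
          · exact hu2 (Set.mem_singleton_iff.1 h ▸ h3.2)
          · exact h
      have d3 : Disjoint ((if v = u then {w} else ∅) : Set V) (if v = w then {u} else ∅) := by
        rw [Set.disjoint_left]
        intro y hy hy'
        split_ifs at hy hy' with h4 h5 <;> simp_all
      rw [e, Set.ncard_union_eq d1, Set.ncard_union_eq d2, Set.ncard_union_eq d3, hn1, hn2]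
      simp only [Pi.add_apply, Pi.single_apply]
      split_ifs <;> simp_all <;> omega

theorem exists_tr [Fintype V] (hG : G.Connected) : ∃ δ, Tr G univ δ := by
  classical
  obtain ⟨v0⟩ := hG.nonempty
  have hex : ∃ n, ∃ W : Finset V, W.card = n ∧ ∃ δ, Tr G W δ := ⟨1, {v0}, card_singleton _, _, Tr.single v0⟩
  obtain ⟨W, ⟨δ, hW⟩, hmax⟩ := Finset.exists_max_image (univ.filter fun W : Finset V => ∃ δ, Tr G W δ)
    Finset.card ⟨{v0}, by simp only [mem_filter, mem_univ, true_and]; exact ⟨_, Tr.single v0⟩⟩ |>.imp fun W h => by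
      simpa only [mem_filter, mem_univ, true_and] using h
  by_cases hu : W = univ
  · subst hu
    exact ⟨δ, hW⟩
  exfalso
  obtain ⟨y, hy⟩ : ∃ y, y ∉ W := by
    by_contra h
    push Not at h
    exact hu (eq_univ_of_forall h)
  obtain ⟨x, hx⟩ := hW.nonempty
  obtain ⟨p⟩ := hG.preconnected x y
  obtain ⟨d, hd, hd1, hd2⟩ := p.exists_boundary_dart (W : Set V) hx (by simpa using hy)
  have hd2' : d.snd ∉ W := by simpa using hd2
  have h3 := Tr.glue hW (Tr.single (G := G) d.snd) (disjoint_singleton_right.2 hd2') (by simpa using hd1)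
    (mem_singleton_self _) d.adj
  have h4 := hmax _ ⟨_, h3⟩
  rw [card_union_of_disjoint (disjoint_singleton_right.2 hd2'), card_singleton] at h4
  omega

/-- Win's theorem with prescribed bounds (Ellingham, Nam, Voss). -/
theorem win_f [Fintype V] (G : SimpleGraph V) (hG : G.Connected) (f : V → ℕ)
    (h : ∀ (S : Finset V) (g : V → V), S.Nonempty → (∀ x y, x ∉ S → y ∉ S → G.Adj x y → g x = g y) →
      (((univ \ S).image g).card : ℤ) ≤ ∑ s ∈ S, ((f s : ℤ) - 2) + 2) :
    ∃ T ≤ G, T.IsTree ∧ ∀ v, (T.neighborSet v).ncard ≤ f v := by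
  classical
  -- a spanning tree of minimal excess
  obtain ⟨δ0, hδ0⟩ := exists_tr hG
  have hex : ∃ n, ∃ δ, Tr G univ δ ∧ ∑ v, (δ v - f v) = n := ⟨_, δ0, hδ0, rfl⟩
  obtain ⟨δ, hδ, hmin⟩ := Nat.find_spec hex
  have hle : ∀ v, δ v ≤ f v := by
    by_contra hcon
    push Not at hcon
    obtain ⟨v0, hv0⟩ := hcon
    set d : V → ℕ := fun v => max (δ v) (f v) with hd
    obtain ⟨S, g, -, ht, hs, -, ha, hc⟩ := cert (Fintype.card V) univ δ d (by rw [card_univ]) hδ
      (fun v _ => le_max_left _ _)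
    have hv0S : v0 ∈ S := by
      refine ht v0 (mem_univ _) fun δ' h' hδ' => ?_
      have h1 : ∀ v, δ' v - f v ≤ δ v - f v := by
        intro v
        have := hδ' v (mem_univ _)
        simp only [hd] at this
        omega
      have h2 : ∑ v, (δ v - f v) ≤ ∑ v, (δ' v - f v) := by
        rw [hmin]
        exact Nat.find_min' hex ⟨δ', h', rfl⟩
      have h3 : ∀ v ∈ univ, δ' v - f v = δ v - f v :=
        (sum_eq_sum_iff_of_le fun v _ => h1 v).1 (le_antisymm (sum_le_sum fun v _ => h1 v) h2)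
      have h4 := h3 v0 (mem_univ _)
      have h5 := hδ' v0 (mem_univ _)
      simp only [hd] at h5 ⊢
      omega
    have h1 := h S g ⟨v0, hv0S⟩ fun x y hx hy hxy =>
      ha x (mem_sdiff.2 ⟨mem_univ _, hx⟩) y (mem_sdiff.2 ⟨mem_univ _, hy⟩) hxy
    have hSne : S ≠ ∅ := fun h' => by rw [h'] at hv0S; simp at hv0S
    rw [if_neg hSne] at hc
    have h2 : ∑ s ∈ S, ((f s : ℤ) - 2) < ∑ s ∈ S, ((δ s : ℤ) - 2) := by
      refine sum_lt_sum (fun s hs' => ?_) ⟨v0, hv0S, ?_⟩
      · have := hs s hs'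
        simp only [hd] at this
        have h3 : f s ≤ δ s := by omega
        have : (f s : ℤ) ≤ δ s := by exact_mod_cast h3
        linarith
      · have : (f v0 : ℤ) < δ v0 := by exact_mod_cast hv0
        linarith
    linarith
  obtain ⟨T, hT, -, hr, hn⟩ := hδ.exists_graph
  refine ⟨T, hT, ?_, fun v => (hn v).trans_le (hle v)⟩
  have hconn : T.Connected := by
    have : Nonempty V := hG.nonempty
    exact { preconnected := fun x y => hr x (mem_univ _) y (mem_univ _) }
  rw [SimpleGraph.isTree_iff_connected_and_card]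
  refine ⟨hconn, ?_⟩
  have h1 := hδ.sum_eq
  have h2 : ∑ v, T.degree v = 2 * T.edgeFinset.card := T.sum_degrees_eq_twice_card_edges
  have h3 : ∀ v, T.degree v = δ v := by
    intro v
    rw [← hn v, Set.ncard_eq_toFinset_card']
    rfl
  rw [sum_congr rfl fun v _ => h3 v] at h2
  rw [h2, card_univ] at h1
  have h4 : T.edgeFinset.card + 1 = Fintype.card V := by omega
  rw [Nat.card_eq_fintype_card, Nat.card_eq_fintype_card, ← SimpleGraph.edgeFinset_card]
  convert h4

/-- Win's theorem for maximum degree 3. -/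
theorem win [Fintype V] (G : SimpleGraph V) (hG : G.Connected)
    (h : ∀ (S : Finset V) (g : V → V), S.Nonempty → (∀ x y, x ∉ S → y ∉ S → G.Adj x y → g x = g y) →
      ((univ \ S).image g).card ≤ S.card + 2) :
    ∃ T ≤ G, T.IsTree ∧ ∀ v, (T.neighborSet v).ncard ≤ 3 := by
  refine win_f G hG (fun _ => 3) fun S g hS hg => ?_
  have h1 := h S g hS hg
  have h2 : ∑ s ∈ S, (((3 : ℕ) : ℤ) - 2) = S.card := by
    rw [sum_const]
    simp
  rw [h2]
  exact_mod_cast h1

/-- `win_f` with natural numbers. -/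
theorem win_nat [Fintype V] (G : SimpleGraph V) (hG : G.Connected) (f : V → ℕ)
    (h : ∀ (S : Finset V) (g : V → V), S.Nonempty →
      (∀ x y, x ∉ S → y ∉ S → G.Adj x y → g x = g y) →
      ((univ \ S).image g).card + 2 * S.card ≤ ∑ s ∈ S, f s + 2) :
    ∃ T ≤ G, T.IsTree ∧ ∀ v, (T.neighborSet v).ncard ≤ f v := by
  refine win_f G hG f fun S g hS hg => ?_
  have h1 := h S g hS hg
  have h2 : ∑ s ∈ S, ((f s : ℤ) - 2) = ((∑ s ∈ S, f s : ℕ) : ℤ) - 2 * S.card := by
    rw [sum_sub_distrib, sum_const, nsmul_eq_mul]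
    push_cast
    ring
  rw [h2]
  have h3 : ((((univ \ S).image g).card + 2 * S.card : ℕ) : ℤ) ≤ ((∑ s ∈ S, f s + 2 : ℕ) : ℤ) := by
    exact_mod_cast h1
  push_cast at h3 ⊢
  linarith

end Pool.Agent.Lib.H59T
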