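import Pool.Agent.Lib.H59T.FDefs
import Pool.Agent.Lib.H59P.M3D

/-!
# Project H59T, chunk C1 (S/M): Chinese remainder theorem in four variables
-/

open Finset

namespace Pool.Agent.Lib.H59T

/-- Proof. `M3d` (`H59P/M3D.lean`, one variable) from the inside outwards: for fixed `y, y', z` the sum over `z'` is
`(∑_{z' < a} F) (∑_{z' < b} G)`, again a product of two functions, periodic in the other variables modulo `a` and `b`; etc. -/
theorem C1_two (a b : ℕ) (ha : 0 < a) (hb : 0 < b) (hab : Nat.Coprime a b)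
    (F G : ℤ → ℤ → ℤ → ℤ → ℂ) (hF : Per4 a F) (hG : Per4 b G) :
    S4 (a * b) (fun y y' z z' => F y y' z z' * G y y' z z') = S4 a F * S4 b G := by
  have h4 : ∀ y y' z : ℤ, ∑ z' ∈ range (a * b), F y y' z z' * G y y' z z' =
      (∑ z' ∈ range a, F y y' z z') * ∑ z' ∈ range b, G y y' z z' := fun y y' z =>
    H59P.M3d (F y y' z) (G y y' z) a b ha hb hab (hF.h4 y y' z) (hG.h4 y y' z)
  have h3 : ∀ y y' : ℤ, ∑ z ∈ range (a * b), ∑ z' ∈ range (a * b), F y y' z z' * G y y' z z' =
      (∑ z ∈ range a, ∑ z' ∈ range a, F y y' z z') * ∑ z ∈ range b, ∑ z' ∈ range b, G y y' z z' := by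
    intro y y'
    rw [← H59P.M3d (fun z => ∑ z' ∈ range a, F y y' z z') (fun z => ∑ z' ∈ range b, G y y' z z') a b ha hb hab
      (fun m => Finset.sum_congr rfl fun z' _ => hF.h3 y y' m z')
      (fun m => Finset.sum_congr rfl fun z' _ => hG.h3 y y' m z')]
    exact Finset.sum_congr rfl fun z _ => h4 y y' z
  have h2 : ∀ y : ℤ, ∑ y' ∈ range (a * b), ∑ z ∈ range (a * b), ∑ z' ∈ range (a * b),
      F y y' z z' * G y y' z z' =
      (∑ y' ∈ range a, ∑ z ∈ range a, ∑ z' ∈ range a, F y y' z z') *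
        ∑ y' ∈ range b, ∑ z ∈ range b, ∑ z' ∈ range b, G y y' z z' := by
    intro y
    rw [← H59P.M3d (fun y' => ∑ z ∈ range a, ∑ z' ∈ range a, F y y' z z')
      (fun y' => ∑ z ∈ range b, ∑ z' ∈ range b, G y y' z z') a b ha hb hab
      (fun m => Finset.sum_congr rfl fun z _ => Finset.sum_congr rfl fun z' _ => hF.h2 y m z z')
      (fun m => Finset.sum_congr rfl fun z _ => Finset.sum_congr rfl fun z' _ => hG.h2 y m z z')]
    exact Finset.sum_congr rfl fun y' _ => h3 y y'
  unfold S4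
  rw [← H59P.M3d (fun y => ∑ y' ∈ range a, ∑ z ∈ range a, ∑ z' ∈ range a, F y y' z z')
    (fun y => ∑ y' ∈ range b, ∑ z ∈ range b, ∑ z' ∈ range b, G y y' z z') a b ha hb hab
    (fun m => Finset.sum_congr rfl fun y' _ => Finset.sum_congr rfl fun z _ =>
      Finset.sum_congr rfl fun z' _ => hF.h1 m y' z z')
    (fun m => Finset.sum_congr rfl fun y' _ => Finset.sum_congr rfl fun z _ =>
      Finset.sum_congr rfl fun z' _ => hG.h1 m y' z z')]
  exact Finset.sum_congr rfl fun y _ => h2 y

/-- periodic modulo a multiple -/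
theorem c1_mul (N k : ℕ) (F : ℤ → ℤ → ℤ → ℤ → ℂ) (hF : Per4 N F) : Per4 (N * k) F where
  h1 y y' z z' := by
    have h := H59P.m3c_per (fun t => F t y' z z') N (fun m => hF.h1 m y' z z') k y
    rw [← h]
    congr 1
    push_cast
    ring
  h2 y y' z z' := by
    have h := H59P.m3c_per (fun t => F y t z z') N (fun m => hF.h2 y m z z') k y'
    rw [← h]
    congr 1
    push_cast
    ring
  h3 y y' z z' := by
    have h := H59P.m3c_per (fun t => F y y' t z') N (fun m => hF.h3 y y' m z') k z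
    rw [← h]
    congr 1
    push_cast
    ring
  h4 y y' z z' := by
    have h := H59P.m3c_per (fun t => F y y' z t) N (fun m => hF.h4 y y' z m) k z'
    rw [← h]
    congr 1
    push_cast
    ring

/-- product of periodic functions -/
theorem c1_mulf (N : ℕ) (F G : ℤ → ℤ → ℤ → ℤ → ℂ) (hF : Per4 N F) (hG : Per4 N G) :
    Per4 N (fun y y' z z' => F y y' z z' * G y y' z z') where
  h1 y y' z z' := by
    rw [hF.h1, hG.h1]
  h2 y y' z z' := by
    rw [hF.h2, hG.h2]
  h3 y y' z z' := by
    rw [hF.h3, hG.h3]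
  h4 y y' z z' := by
    rw [hF.h4, hG.h4]

/-- Proof. Induction over `P` (`Finset.induction_on`) with `C1_two`; the product of the others is periodic modulo
the product of the `q l` (a period of each factor divides it), and coprime to `q l` (`Nat.Coprime.prod_right`). -/
theorem C1_prod (P : Finset ℕ) (q : ℕ → ℕ) (hq : ∀ l ∈ P, 0 < q l)
    (hc : ∀ l ∈ P, ∀ l' ∈ P, l ≠ l' → Nat.Coprime (q l) (q l')) (F : ℕ → ℤ → ℤ → ℤ → ℤ → ℂ)
    (hF : ∀ l ∈ P, Per4 (q l) (F l)) :
    Per4 (∏ l ∈ P, q l) (fun y y' z z' => ∏ l ∈ P, F l y y' z z') ∧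
    S4 (∏ l ∈ P, q l) (fun y y' z z' => ∏ l ∈ P, F l y y' z z') = ∏ l ∈ P, S4 (q l) (F l) := by
  classical
  induction P using Finset.induction_on with
  | empty =>
    refine ⟨⟨?_, ?_, ?_, ?_⟩, ?_⟩
    · intro y y' z z'
      simp
    · intro y y' z z'
      simp
    · intro y y' z z'
      simp
    · intro y y' z z'
      simp
    · simp [S4]
  | insert l P hl ih =>
    obtain ⟨i1, i2⟩ := ih (fun m hm => hq m (mem_insert_of_mem hm))
      (fun m hm m' hm' => hc m (mem_insert_of_mem hm) m' (mem_insert_of_mem hm'))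
      (fun m hm => hF m (mem_insert_of_mem hm))
    have hl1 : Per4 (q l) (F l) := hF l (mem_insert_self _ _)
    have e1 : (fun y y' z z' => ∏ m ∈ insert l P, F m y y' z z') =
        fun y y' z z' => F l y y' z z' * ∏ m ∈ P, F m y y' z z' := by
      funext y y' z z'
      rw [Finset.prod_insert hl]
    rw [e1, Finset.prod_insert hl, Finset.prod_insert hl]
    refine ⟨?_, ?_⟩
    · refine c1_mulf _ _ _ (c1_mul _ _ _ hl1) ?_
      rw [mul_comm]
      exact c1_mul _ _ _ i1
    · rw [← i2]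
      refine C1_two (q l) (∏ m ∈ P, q m) (hq l (mem_insert_self _ _))
        (Finset.prod_pos fun m hm => hq m (mem_insert_of_mem hm)) ?_ (F l) _ hl1 i1
      refine Nat.Coprime.prod_right fun m hm => ?_
      refine hc l (mem_insert_self _ _) m (mem_insert_of_mem hm) ?_
      intro h
      rw [h] at hl
      exact hl hm

end Pool.Agent.Lib.H59T
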