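import Pool.Agent.Lib.H59T.FDefs
import Pool.Agent.Lib.H59P.M3C

/-!
# Project H59T, chunk C2 (M): boxes and complete periods
-/

open Finset

namespace Pool.Agent.Lib.H59T

/-- one variable, with an approximant -/
theorem c2_step (N L : ℕ) (hN : 0 < N) (hL : 0 < L) (f g : ℤ → ℂ) (hf : ∀ m, f (m + N) = f m) (M : ℝ)
    (hM : ∀ m, ‖f m‖ ≤ M) (c e : ℝ) (hc : 0 ≤ c) (hg : ∀ m, ‖g m - (c : ℂ) * f m‖ ≤ e) (a s : ℕ)
    (hs : N * L ≤ s) :
    ‖∑ n ∈ Ico a (a + s), g n - ((c * (s / N) : ℝ) : ℂ) * ∑ n ∈ range N, f n‖ ≤ (e + c * (2 * M / L)) * s := by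
  have hM0 : 0 ≤ M := (norm_nonneg _).trans (hM 0)
  have hN0 : (0 : ℝ) < N := by exact_mod_cast hN
  have hL0 : (0 : ℝ) < L := by exact_mod_cast hL
  have hs0 : (N : ℝ) * L ≤ s := by exact_mod_cast hs
  have h1 : ‖∑ n ∈ Ico a (a + s), (g n - (c : ℂ) * f n)‖ ≤ s * e := by
    calc ‖∑ n ∈ Ico a (a + s), (g n - (c : ℂ) * f n)‖ ≤ ∑ n ∈ Ico a (a + s), ‖g n - (c : ℂ) * f n‖ :=
          norm_sum_le _ _
      _ ≤ ∑ _n ∈ Ico a (a + s), e := Finset.sum_le_sum fun n _ => hg n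
      _ = s * e := by
        rw [Finset.sum_const, Nat.card_Ico, nsmul_eq_mul]
        congr 2
        omega
  have h2 := H59P.M3c f N hN hf M hM a s
  have h3 : ∑ n ∈ Ico a (a + s), g n - ((c * (s / N) : ℝ) : ℂ) * ∑ n ∈ range N, f n =
      ∑ n ∈ Ico a (a + s), (g n - (c : ℂ) * f n) +
        (c : ℂ) * (∑ n ∈ Ico a (a + s), f n - s * ((∑ n ∈ range N, f n) / N)) := by
    rw [Finset.sum_sub_distrib, ← Finset.mul_sum]
    push_cast
    ring
  rw [h3]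
  refine (norm_add_le _ _).trans ?_
  rw [norm_mul, Complex.norm_real, Real.norm_of_nonneg hc]
  have h4 : 2 * (N : ℝ) * M ≤ 2 * M / L * s := by
    rw [div_mul_eq_mul_div, le_div_iff₀ hL0]
    nlinarith [mul_le_mul_of_nonneg_left hs0 hM0]
  have h5 := mul_le_mul_of_nonneg_left (h2.trans h4) hc
  calc _ ≤ s * e + c * (2 * M / L * s) := add_le_add h1 h5
    _ = (e + c * (2 * M / L)) * s := by ring

theorem c2_bd (N : ℕ) (f : ℤ → ℂ) (M : ℝ) (hM : ∀ m, ‖f m‖ ≤ M) : ‖∑ n ∈ range N, f n‖ ≤ N * M := by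
  calc ‖∑ n ∈ range N, f n‖ ≤ ∑ n ∈ range N, ‖f n‖ := norm_sum_le _ _
    _ ≤ ∑ _n ∈ range N, M := Finset.sum_le_sum fun n _ => hM n
    _ = N * M := by rw [Finset.sum_const, Finset.card_range, nsmul_eq_mul]

/-- Proof. One variable (`M3c` in `H59P/M3C.lean`): for `f` periodic modulo `N`, bounded by `B`,
`‖∑_{n ∈ Ico a (a+s)} f n - (s/N) ∑_{n < N} f n‖ ≤ 2 N B ≤ (2B/L) s` if `N L ≤ s`. Four times, from the inside outwards: replace
the sum over `z'` by `H/N` times the complete sum (error `(2B/L) H`, summed over the other variables), then the sum over `z` of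
`(H/N) ∑_{z' < N} F` (periodic, bounded by `H B`), etc. Total `(8B/L) s s' H H'`. -/
theorem C2_box (N L : ℕ) (hN : 0 < N) (hL : 0 < L) (F : ℤ → ℤ → ℤ → ℤ → ℂ) (hF : Per4 N F) (B : ℝ)
    (hB : ∀ y y' z z', ‖F y y' z z'‖ ≤ B) (a a' b b' s s' H H' : ℕ) (hs : N * L ≤ s) (hs' : N * L ≤ s')
    (hH : N * L ≤ H) (hH' : N * L ≤ H') :
    ‖∑ y ∈ Ico a (a + s), ∑ y' ∈ Ico a' (a' + s'), ∑ z ∈ Ico b (b + H), ∑ z' ∈ Ico b' (b' + H'),
        F y y' z z' - (((s : ℝ) * s' * H * H' / (N : ℝ) ^ 4 : ℝ) : ℂ) * S4 N F‖ ≤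
      8 * B / L * ((s : ℝ) * s' * H * H') := by
  have hN0 : (0 : ℝ) < N := by exact_mod_cast hN
  have hL0 : (0 : ℝ) < L := by exact_mod_cast hL
  have s1 := fun y y' z : ℤ => c2_step N L hN hL (fun z' => F y y' z z') (fun z' => F y y' z z') (hF.h4 y y' z)
    B (hB y y' z) 1 0 zero_le_one (fun m => by simp) b' H' hH'
  have s2 := fun y y' : ℤ => c2_step N L hN hL (fun z => ∑ z' ∈ range N, F y y' z z')
    (fun z => ∑ z' ∈ Ico b' (b' + H'), F y y' z z')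
    (fun m => Finset.sum_congr rfl fun z' _ => hF.h3 y y' m z') (N * B)
    (fun m => c2_bd N (fun z' => F y y' m z') B (hB y y' m)) _ _ (by positivity)
    (fun m => s1 y y' m) b H hH
  have s3 := fun y : ℤ => c2_step N L hN hL (fun y' => ∑ z ∈ range N, ∑ z' ∈ range N, F y y' z z')
    (fun y' => ∑ z ∈ Ico b (b + H), ∑ z' ∈ Ico b' (b' + H'), F y y' z z')
    (fun m => Finset.sum_congr rfl fun z _ => Finset.sum_congr rfl fun z' _ => hF.h2 y m z z') (N * (N * B))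
    (fun m => c2_bd N (fun z => ∑ z' ∈ range N, F y m z z') (N * B)
      (fun z => c2_bd N (fun z' => F y m z z') B (hB y m z))) _ _ (by positivity)
    (fun m => s2 y m) a' s' hs'
  have s4 := c2_step N L hN hL (fun y => ∑ y' ∈ range N, ∑ z ∈ range N, ∑ z' ∈ range N, F y y' z z')
    (fun y => ∑ y' ∈ Ico a' (a' + s'), ∑ z ∈ Ico b (b + H), ∑ z' ∈ Ico b' (b' + H'), F y y' z z')
    (fun m => Finset.sum_congr rfl fun y' _ => Finset.sum_congr rfl fun z _ =>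
      Finset.sum_congr rfl fun z' _ => hF.h1 m y' z z') (N * (N * (N * B)))
    (fun m => c2_bd N (fun y' => ∑ z ∈ range N, ∑ z' ∈ range N, F m y' z z') (N * (N * B))
      (fun y' => c2_bd N (fun z => ∑ z' ∈ range N, F m y' z z') (N * B)
        (fun z => c2_bd N (fun z' => F m y' z z') B (hB m y' z)))) _ _ (by positivity)
    (fun m => s3 m) a s hs
  have e1 : (1 * (H' / N : ℝ) * (H / N) * (s' / N) * (s / N) : ℝ) = (s : ℝ) * s' * H * H' / (N : ℝ) ^ 4 := by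
    field_simp
  rw [e1] at s4
  refine s4.trans (le_of_eq ?_)
  field_simp
  ring

end Pool.Agent.Lib.H59T
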