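import Pool.Agent.Lib.H59T.FDefs
import Pool.Agent.Lib.H18Q.CA

/-!
# Project H59T, chunk C3 (S): complete sums over `ZMod N`
-/

open Finset

namespace Pool.Agent.Lib.H59T

open Pool.Agent.Lib.H68T Pool.Agent.Lib.H18Q Pool.Agent.Lib.H59P

theorem C3_nest (N : ℕ) [NeZero N] (G : ZMod N → ZMod N → ZMod N → ZMod N → ℂ) :
    S4 N (fun y y' z z' => G y y' z z') = ∑ y, ∑ y', ∑ z, ∑ z', G y y' z z' := by
  unfold S4
  simp only [Int.cast_natCast]
  rw [← CA_range N (fun y => ∑ y', ∑ z, ∑ z', G y y' z z')]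
  refine Finset.sum_congr rfl fun y _ => ?_
  rw [← CA_range N (fun y' => ∑ z, ∑ z', G y y' z z')]
  refine Finset.sum_congr rfl fun y' _ => ?_
  rw [← CA_range N (fun z => ∑ z', G y y' z z')]
  refine Finset.sum_congr rfl fun z _ => ?_
  rw [← CA_range N (fun z' => G y y' z z')]

theorem C3_fin (N : ℕ) [NeZero N] (G : ZMod N → ZMod N → ZMod N → ZMod N → ℂ) :
    S4 N (fun y y' z z' => G y y' z z') = ∑ x : Fin 4 → ZMod N, G (x 0) (x 1) (x 2) (x 3) := by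
  rw [C3_nest]
  let e : (Fin 4 → ZMod N) ≃ ZMod N × ZMod N × ZMod N × ZMod N :=
    { toFun := fun x => (x 0, x 1, x 2, x 3)
      invFun := fun t => ![t.1, t.2.1, t.2.2.1, t.2.2.2]
      left_inv := fun x => by funext i; fin_cases i <;> rfl
      right_inv := fun t => rfl }
  have h1 : ∑ x : Fin 4 → ZMod N, G (x 0) (x 1) (x 2) (x 3) =
      ∑ t : ZMod N × ZMod N × ZMod N × ZMod N, G t.1 t.2.1 t.2.2.1 t.2.2.2 :=
    Fintype.sum_equiv e _ _ fun x => rfl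
  rw [h1, Fintype.sum_prod_type]
  refine Finset.sum_congr rfl fun y _ => ?_
  rw [Fintype.sum_prod_type]
  refine Finset.sum_congr rfl fun y' _ => ?_
  rw [Fintype.sum_prod_type]

theorem C3_fun (N : ℕ) [NeZero N] (f : ℤ → ℂ) (hf : ∀ m, f (m + N) = f m) :
    ∃ G : ZMod N → ℂ, ∀ m : ℤ, f m = G (m : ZMod N) := by
  refine ⟨fun t => f (t.val : ℤ), fun m => ?_⟩
  have h1 : ∀ (k : ℕ) (m : ℤ), f (m + (k : ℤ) * N) = f m := by
    intro k
    induction k with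
    | zero => intro m; simp
    | succ k ih =>
      intro m
      have : m + ((k + 1 : ℕ) : ℤ) * N = (m + (k : ℤ) * N) + N := by push_cast; ring
      rw [this, hf, ih]
  have h2 : ∀ (k m : ℤ), f (m + k * N) = f m := by
    intro k m
    obtain ⟨n, rfl | rfl⟩ := k.eq_nat_or_neg
    · exact h1 n m
    · have := h1 n (m + (-(n : ℤ)) * N)
      rw [← this]
      congr 1
      ring
  show f m = f (((m : ZMod N).val : ℕ) : ℤ)
  rw [ZMod.val_intCast]
  have h3 : m = m % (N : ℤ) + (m / (N : ℤ)) * N := by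
    have := Int.emod_add_mul_ediv m N
    linarith
  conv_lhs => rw [h3]
  exact h2 _ _

theorem C3_gl (l : ℕ) (m : ℤ) : gl l m = glz l (m : ZMod l) := by
  unfold gl glz
  simp only [ZMod.intCast_zmod_eq_zero_iff_dvd]

theorem C3_triv (N : ℕ) (F : ℤ → ℤ → ℤ → ℤ → ℂ) (B : ℝ) (hB : ∀ y y' z z', ‖F y y' z z'‖ ≤ B) :
    ‖S4 N F‖ ≤ (N : ℝ) ^ 4 * B := by
  have key : ∀ (g : ℕ → ℂ) (C : ℝ), (∀ j, ‖g j‖ ≤ C) → ‖∑ j ∈ range N, g j‖ ≤ N * C := by
    intro g C hg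
    calc ‖∑ j ∈ range N, g j‖ ≤ ∑ j ∈ range N, ‖g j‖ := norm_sum_le _ _
      _ ≤ ∑ _j ∈ range N, C := Finset.sum_le_sum fun j _ => hg j
      _ = N * C := by rw [Finset.sum_const, card_range, nsmul_eq_mul]
  unfold S4
  calc _ ≤ (N : ℝ) * (N * (N * (N * B))) :=
        key _ _ fun y => key _ _ fun y' => key _ _ fun z => key _ _ fun z' => hB _ _ _ _
    _ = (N : ℝ) ^ 4 * B := by ring

end Pool.Agent.Lib.H59T
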