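import Mathlib

/-!
# Project H59T (MP_443e5f_co, main terms): definitions for the local estimates
-/

open Finset

namespace Pool.Agent.Lib.H59T

noncomputable section

/-- The four-point sum of `χ` over a parallelogram. -/
def U4 {q : ℕ} [NeZero q] (χ : DirichletCharacter ℂ q) (a b : ZMod q) : ℂ :=
  ∑ s : ZMod q, χ s * star (χ (s + a)) * star (χ (s + b)) * χ (s + a + b)

/-- The additive energy of `v ↦ χ(v - α) conj χ(v - β)`. -/
def En {q : ℕ} [NeZero q] (χ : DirichletCharacter ℂ q) (α β : ZMod q) : ℝ :=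
  ∑ b : ZMod q, ‖∑ v : ZMod q, (χ (v - α) * star (χ (v - β))) *
    star (χ (v + b - α) * star (χ (v + b - β)))‖ ^ 2

/-- `∑_γ χ(γ² - P) conj χ(γ² - R)` -/
def Wc {q : ℕ} [NeZero q] (χ : DirichletCharacter ℂ q) (P R : ZMod q) : ℂ :=
  ∑ γ : ZMod q, χ (γ ^ 2 - P) * star (χ (γ ^ 2 - R))

/-- The sum of Lemma G. -/
def GS {q : ℕ} [NeZero q] (χ : DirichletCharacter ℂ q) (W W' : ZMod q → ℂ) : ℝ :=
  ∑ z1 : ZMod q, ∑ z2 : ZMod q,
    ‖∑ y : ZMod q, χ (z1 + y) * star (χ (z2 + y)) * W (z1 - y) * W' (z2 - y)‖ ^ 2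

end

end Pool.Agent.Lib.H59T
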