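import Pool.Agent.Lib.H59T.G2

/-!
# Project H59T, chunk G3 (M): the shift in the four corners
-/

open Finset

namespace Pool.Agent.Lib.H59T

private theorem g3_sq (l a m n : ℕ) (ha : a = m + n) (hmn : n ≤ m) :
    (l : ZMod (l ^ a)) ^ m * (l : ZMod (l ^ a)) ^ m = 0 := by
  have h1 : ((l ^ a : ℕ) : ZMod (l ^ a)) = 0 := ZMod.natCast_self _
  have h2 : (l : ZMod (l ^ a)) ^ a = 0 := by
    rw [← Nat.cast_pow]; exact h1
  rw [← pow_add]
  have h3 : m + m = a + (m - n) := by omega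
  rw [h3, pow_add, h2, zero_mul]

/-- units are stable under the shift by multiples of `l ^ m` -/
private theorem g3_unit (l a m n : ℕ) (ha : a = m + n) (hmn : n ≤ m) (s t : ZMod (l ^ a)) :
    IsUnit (s + (l : ZMod (l ^ a)) ^ m * t) ↔ IsUnit s := by
  have key : ∀ s t : ZMod (l ^ a), IsUnit s → IsUnit (s + (l : ZMod (l ^ a)) ^ m * t) := by
    intro s t hs
    obtain ⟨u, hu⟩ := hs
    have hsu : s * (↑(u⁻¹) : ZMod (l ^ a)) = 1 := by rw [← hu]; exact u.mul_inv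
    refine IsUnit.of_mul_eq_one (((↑(u⁻¹) : ZMod (l ^ a))
      - (l : ZMod (l ^ a)) ^ m * t * (↑(u⁻¹) : ZMod (l ^ a)) * (↑(u⁻¹) : ZMod (l ^ a)))) ?_
    have hq := g3_sq l a m n ha hmn
    set L := (l : ZMod (l ^ a)) ^ m
    set w := (↑(u⁻¹) : ZMod (l ^ a))
    linear_combination (1 - L * t * w) * hsu - t ^ 2 * w ^ 2 * hq
  constructor
  · intro h
    have h1 := key _ (-t) h
    have h2 : s + (l : ZMod (l ^ a)) ^ m * t + (l : ZMod (l ^ a)) ^ m * -t = s := by ring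
    rwa [h2] at h1
  · exact key s t

private theorem g3_star (q : ℕ) [NeZero q] (χ : DirichletCharacter ℂ q) (w w' : ZMod q)
    (h : χ w * χ w' = 1) : star (χ w) = χ w' := by
  have h3 : χ w ≠ 0 := by
    intro h0
    rw [h0, zero_mul] at h
    exact zero_ne_one h
  have hu : IsUnit w := by
    by_contra hw
    exact h3 (MulChar.map_nonunit χ hw)
  obtain ⟨u, rfl⟩ := hu
  have h1 : ‖χ (u : ZMod q)‖ = 1 := DirichletCharacter.unit_norm_eq_one χ u
  have h2 : χ (u : ZMod q) * star (χ (u : ZMod q)) = 1 := by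
    have h2 : star (χ (u : ZMod q)) = (starRingEnd ℂ) (χ (u : ZMod q)) := rfl
    rw [h2, Complex.mul_conj, Complex.normSq_eq_norm_sq, h1]
    norm_num
  exact mul_left_cancel₀ h3 (h2.trans h.symm)

/-- The sum over the common shift. Proof. If one of the four arguments `s_ij = z_i + y_j` is not a unit, all terms vanish (`s_ij + 2 l^m v` is
not a unit either, `m ≥ 1`). Otherwise `χ(s + 2 l^m v) = χ(s) χ(1 + l^m (2 s⁻¹ v))`, `star χ(s + ..)` similarly with
`-2 s⁻¹` (`star χ(u) = χ(u)⁻¹`; `χ(1 + l^m t)⁻¹ = χ(1 - l^m t)` by `G2_add`), so by `G2_add` the product of the four is a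
constant times `χ(1 + l^m (K v))`, `K = 2 (1/s11 - 1/s12 - 1/s21 + 1/s22)`, and
`K s11 s12 s21 s22 = 2 (z1+z2+y1+y2)(z1-z2)(y1-y2)` (`field_simp; ring` is not available in `ZMod`: use units and
`linear_combination`). So if `l^n` does not divide `2 (z1+z2+y1+y2)(z1-z2)(y1-y2)` it does not divide `K` and `G2_mean`
applies. -/
theorem G3 (l a m n : ℕ) (hl : l.Prime) (ha : a = m + n) (hn : 1 ≤ n) (hmn : n ≤ m)
    [NeZero (l ^ a)] (χ : DirichletCharacter ℂ (l ^ a)) (hχ : χ.IsPrimitive)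
    (z1 z2 y1 y2 : ZMod (l ^ a))
    (hK : ¬ l ^ n ∣ (2 * (z1 + z2 + y1 + y2) * (z1 - z2) * (y1 - y2)).val) :
    ∑ v : ZMod (l ^ a), χ (z1 + y1 + 2 * (l : ZMod (l ^ a)) ^ m * v) *
      star (χ (z2 + y1 + 2 * (l : ZMod (l ^ a)) ^ m * v)) *
      star (χ (z1 + y2 + 2 * (l : ZMod (l ^ a)) ^ m * v)) *
      χ (z2 + y2 + 2 * (l : ZMod (l ^ a)) ^ m * v) = 0 := by
  have hz : ∀ s v : ZMod (l ^ a), ¬ IsUnit s →
      χ (s + 2 * (l : ZMod (l ^ a)) ^ m * v) = 0 := by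
    intro s v hs
    refine MulChar.map_nonunit χ ?_
    have e : s + 2 * (l : ZMod (l ^ a)) ^ m * v = s + (l : ZMod (l ^ a)) ^ m * (2 * v) := by ring
    rw [e, g3_unit l a m n ha hmn]
    exact hs
  by_cases h11 : IsUnit (z1 + y1)
  swap
  · refine Finset.sum_eq_zero (fun v _ => ?_)
    rw [hz _ v h11]; simp
  by_cases h21 : IsUnit (z2 + y1)
  swap
  · refine Finset.sum_eq_zero (fun v _ => ?_)
    rw [hz _ v h21]; simp
  by_cases h12 : IsUnit (z1 + y2)
  swap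
  · refine Finset.sum_eq_zero (fun v _ => ?_)
    rw [hz _ v h12]; simp
  by_cases h22 : IsUnit (z2 + y2)
  swap
  · refine Finset.sum_eq_zero (fun v _ => ?_)
    rw [hz _ v h22]; simp
  have hinv : ∀ s : ZMod (l ^ a), IsUnit s → ∃ u : ZMod (l ^ a), s * u = 1 := by
    rintro s ⟨u, rfl⟩
    exact ⟨_, u.mul_inv⟩
  obtain ⟨u11, e11⟩ := hinv _ h11
  obtain ⟨u21, e21⟩ := hinv _ h21
  obtain ⟨u12, e12⟩ := hinv _ h12
  obtain ⟨u22, e22⟩ := hinv _ h22
  have hadd := G2_add l a m (by omega) χ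
  have hsplit : ∀ s u v : ZMod (l ^ a), s * u = 1 →
      χ (s + 2 * (l : ZMod (l ^ a)) ^ m * v)
        = χ s * χ (1 + (l : ZMod (l ^ a)) ^ m * (2 * u * v)) := by
    intro s u v hsu
    rw [← map_mul]
    refine congrArg χ ?_
    linear_combination (-2 * (l : ZMod (l ^ a)) ^ m * v) * hsu
  have hst : ∀ t : ZMod (l ^ a), star (χ (1 + (l : ZMod (l ^ a)) ^ m * t))
      = χ (1 + (l : ZMod (l ^ a)) ^ m * (-t)) := by
    intro t
    refine g3_star _ χ _ _ ?_
    rw [← hadd, add_neg_cancel, mul_zero, add_zero, map_one]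
  have hterm : ∀ v : ZMod (l ^ a), χ (z1 + y1 + 2 * (l : ZMod (l ^ a)) ^ m * v) *
      star (χ (z2 + y1 + 2 * (l : ZMod (l ^ a)) ^ m * v)) *
      star (χ (z1 + y2 + 2 * (l : ZMod (l ^ a)) ^ m * v)) *
      χ (z2 + y2 + 2 * (l : ZMod (l ^ a)) ^ m * v)
      = (χ (z1 + y1) * star (χ (z2 + y1)) * star (χ (z1 + y2)) * χ (z2 + y2)) *
        χ (1 + (l : ZMod (l ^ a)) ^ m * ((2 * (u11 - u21 - u12 + u22)) * v)) := by
    intro v
    have hs : (2 * (u11 - u21 - u12 + u22)) * v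
        = ((2 * u11 * v + -(2 * u21 * v)) + -(2 * u12 * v)) + 2 * u22 * v := by ring
    rw [hs, hadd, hadd, hadd, hsplit _ _ v e11, hsplit _ _ v e21, hsplit _ _ v e12,
      hsplit _ _ v e22, star_mul', star_mul', hst, hst]
    ring
  rw [Finset.sum_congr rfl (fun v _ => hterm v), ← Finset.mul_sum]
  have hK' : ¬ l ^ n ∣ (2 * (u11 - u21 - u12 + u22)).val := by
    intro hd
    apply hK
    have e : 2 * (z1 + z2 + y1 + y2) * (z1 - z2) * (y1 - y2)
        = (2 * (u11 - u21 - u12 + u22)) * ((z1 + y1) * (z2 + y1) * (z1 + y2) * (z2 + y2)) := by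
      have f1 : (z1 + y1) * (z2 + y1) * (u11 - u21) = z2 - z1 := by
        linear_combination (z2 + y1) * e11 - (z1 + y1) * e21
      have f2 : (z1 + y2) * (z2 + y2) * (u22 - u12) = z1 - z2 := by
        linear_combination (z1 + y2) * e22 - (z2 + y2) * e12
      linear_combination (-2 * (z1 + y2) * (z2 + y2)) * f1 - 2 * (z1 + y1) * (z2 + y1) * f2
    rw [e, ZMod.val_mul]
    have hna : l ^ n ∣ l ^ a := pow_dvd_pow l (by omega)
    exact (Nat.dvd_mod_iff hna).mpr (Dvd.dvd.mul_right hd _)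
  rw [G2_mean l a m n hl ha hn hmn χ hχ _ hK', mul_zero]

end Pool.Agent.Lib.H59T
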