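import Pool.Agent.Lib.H59T.Defs

/-!
# Project H59T, chunk G4 (M): counting
-/

open Finset

namespace Pool.Agent.Lib.H59T

/-- Proof. Multiples of `l^j` in `ZMod (l^a)`: `l^(a-j)` of them (`ZMod.val` between `0` and `l^a`). -/
theorem G4_one (l a j : ℕ) (hl : l.Prime) (hj : j ≤ a) [NeZero (l ^ a)] :
    ((univ : Finset (ZMod (l ^ a))).filter (fun x => l ^ j ∣ x.val)).card = l ^ (a - j) := by
  have hlj : 0 < l ^ j := Nat.pow_pos hl.pos
  have hsplit : l ^ a = l ^ j * l ^ (a - j) := by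
    rw [← pow_add]
    congr 1
    omega
  rw [← card_range (l ^ (a - j))]
  refine Finset.card_bij' (fun x _ => x.val / l ^ j) (fun m _ => ((l ^ j * m : ℕ) : ZMod (l ^ a))) ?_ ?_ ?_ ?_
  · intro x _
    rw [mem_range, Nat.div_lt_iff_lt_mul hlj, mul_comm, ← hsplit]
    exact ZMod.val_lt x
  · intro m hm
    rw [mem_range] at hm
    rw [mem_filter]
    refine ⟨mem_univ _, ?_⟩
    have h1 : l ^ j * m < l ^ a := by
      rw [hsplit]
      exact Nat.mul_lt_mul_of_pos_left hm hlj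
    rw [ZMod.val_natCast, Nat.mod_eq_of_lt h1]
    exact Dvd.intro m rfl
  · intro x hx
    have h1 := (mem_filter.1 hx).2
    rw [Nat.mul_div_cancel' h1]
    exact ZMod.natCast_zmod_val x
  · intro m hm
    rw [mem_range] at hm
    have h1 : l ^ j * m < l ^ a := by
      rw [hsplit]
      exact Nat.mul_lt_mul_of_pos_left hm hlj
    rw [ZMod.val_natCast, Nat.mod_eq_of_lt h1, Nat.mul_div_cancel_left _ hlj]

/-- one of three factors is divisible by a large power -/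
theorem g4_three (l n j u1 u2 u3 : ℕ) (hl : l.Prime)
    (hj : 3 * j ≤ n + 2) (hj2 : l = 2 → 3 * j ≤ n + 1) (h : l ^ n ∣ 2 * u1 * u2 * u3) :
    l ^ j ∣ u1 ∨ l ^ j ∣ u2 ∨ l ^ j ∣ u3 := by
  by_contra hcon
  push Not at hcon
  obtain ⟨h1, h2, h3⟩ := hcon
  have : Fact l.Prime := ⟨hl⟩
  have hj0 : 1 ≤ j := by
    rcases Nat.eq_zero_or_pos j with h0 | h0
    · rw [h0, pow_zero] at h1
      exact absurd (one_dvd _) h1
    · exact h0
  have hne : ∀ u, ¬ l ^ j ∣ u → u ≠ 0 ∧ padicValNat l u < j := by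
    intro u hu
    have hu0 : u ≠ 0 := fun h0 => hu (h0 ▸ dvd_zero _)
    refine ⟨hu0, ?_⟩
    rw [padicValNat_dvd_iff_le hu0, not_le] at hu
    exact hu
  obtain ⟨a1, b1⟩ := hne u1 h1
  obtain ⟨a2, b2⟩ := hne u2 h2
  obtain ⟨a3, b3⟩ := hne u3 h3
  have h20 : (2 : ℕ) ≠ 0 := by norm_num
  rw [padicValNat_dvd_iff_le (mul_ne_zero (mul_ne_zero (mul_ne_zero h20 a1) a2) a3),
    padicValNat.mul (mul_ne_zero (mul_ne_zero h20 a1) a2) a3,
    padicValNat.mul (mul_ne_zero h20 a1) a2, padicValNat.mul h20 a1] at h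
  by_cases hl2 : l = 2
  · have h4 := hj2 hl2
    have h5 : padicValNat l 2 = 1 := by
      rw [hl2]
      exact padicValNat_self
    omega
  · have h5 : padicValNat l 2 = 0 := by
      refine padicValNat.eq_zero_of_not_dvd fun h6 => ?_
      exact hl2 ((Nat.prime_dvd_prime_iff_eq hl Nat.prime_two).1 h6)
    omega

theorem g4_val (l a n : ℕ) (hn : n ≤ a) (x y : ZMod (l ^ a)) :
    l ^ n ∣ (x * y).val ↔ l ^ n ∣ x.val * y.val := by
  rw [ZMod.val_mul]
  exact (Nat.dvd_mod_iff (pow_dvd_pow l hn))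

theorem g4_val2 (l a n : ℕ) (hn : n ≤ a) (x y z : ZMod (l ^ a))
    (h : l ^ n ∣ (2 * x * y * z).val) : l ^ n ∣ 2 * x.val * y.val * z.val := by
  have h2 : (2 : ZMod (l ^ a)) = ((2 : ℕ) : ZMod (l ^ a)) := by norm_num
  have hd : l ^ n ∣ l ^ a := pow_dvd_pow l hn
  rw [h2] at h
  have h3 : (((2 : ℕ) : ZMod (l ^ a)) * x * y * z).val = 2 * x.val * y.val * z.val % l ^ a := by
    rw [ZMod.val_mul, ZMod.val_mul, ZMod.val_mul, ZMod.val_natCast]
    simp only [Nat.mod_mul_mod, Nat.mod_mul_mod]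
  rw [h3] at h
  exact (Nat.dvd_mod_iff hd).1 h

/-- Proof. If `l^n ∣ 2 x1 x2 x3` with `l^n ∣ l^a` then (for `l` odd; for `l = 2` with `n - 1` in place of `n`) one of
the `x_i` is divisible by `l^j`, `j = ⌈n/3⌉` (`⌈(n-1)/3⌉`); each of the three linear forms takes each value `(l^a)³`
times: so the count is at most `3 l^(3a) l^(a - j)` (`G4_one`), and `l^(-j) ≤ 2 l^(-n/3)` in both cases. -/
theorem G4 (l a n : ℕ) (hl : l.Prime) (hn : n ≤ a) [NeZero (l ^ a)] :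
    (((univ : Finset (ZMod (l ^ a) × ZMod (l ^ a) × ZMod (l ^ a) × ZMod (l ^ a))).filter
      (fun x => l ^ n ∣ (2 * (x.1 + x.2.1 + x.2.2.1 + x.2.2.2) * (x.1 - x.2.1) *
        (x.2.2.1 - x.2.2.2)).val)).card : ℝ) ≤ 6 * ((l ^ a : ℕ) : ℝ) ^ 4 * (l : ℝ) ^ (-(n / 3 : ℝ)) := by
  classical
  obtain ⟨j, hj1, hj2, hj3⟩ : ∃ j : ℕ, 3 * j ≤ n + 2 ∧ (l = 2 → 3 * j ≤ n + 1) ∧
      n ≤ 3 * j + (if l = 2 then 1 else 0) := by
    by_cases h2 : l = 2
    · refine ⟨(n + 1) / 3, by omega, fun _ => by omega, ?_⟩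
      rw [if_pos h2]
      omega
    · refine ⟨(n + 2) / 3, by omega, fun h => absurd h h2, ?_⟩
      rw [if_neg h2]
      omega
  have hja : j ≤ a := by
    rcases Nat.eq_zero_or_pos n with h0 | h0
    · omega
    · omega
  have hlr : (2 : ℝ) ≤ l := by exact_mod_cast hl.two_le
  have hl0 : (0 : ℝ) < l := by linarith
  set T := ZMod (l ^ a) × ZMod (l ^ a) × ZMod (l ^ a) × ZMod (l ^ a) with hT
  set S : Finset (ZMod (l ^ a)) := univ.filter (fun x => l ^ j ∣ x.val) with hS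
  have hSc : S.card = l ^ (a - j) := G4_one l a j hl hja
  -- one linear form
  have hform : ∀ (L : T → ZMod (l ^ a)) (R : T → ZMod (l ^ a) × ZMod (l ^ a) × ZMod (l ^ a)),
      Function.Injective (fun x => (L x, R x)) →
      ((univ : Finset T).filter (fun x => l ^ j ∣ (L x).val)).card ≤ l ^ (a - j) * (l ^ a) ^ 3 := by
    intro L R hLR
    have h1 : ((univ : Finset T).filter (fun x => l ^ j ∣ (L x).val)).card ≤
        (S ×ˢ (univ : Finset (ZMod (l ^ a) × ZMod (l ^ a) × ZMod (l ^ a)))).card := by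
      refine card_le_card_of_injOn (fun x => (L x, R x)) ?_ hLR.injOn
      intro x hx
      rw [mem_coe, mem_filter] at hx
      rw [mem_coe, mem_product, hS, mem_filter]
      exact ⟨⟨mem_univ _, hx.2⟩, mem_univ _⟩
    rw [card_product, hSc, card_univ, Fintype.card_prod, Fintype.card_prod, ZMod.card] at h1
    calc _ ≤ _ := h1
      _ = _ := by ring
  have i1 : Function.Injective (fun x : T => (x.1 + x.2.1 + x.2.2.1 + x.2.2.2, (x.2.1, x.2.2.1, x.2.2.2))) := by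
    rintro ⟨z1, z2, y1, y2⟩ ⟨z1', z2', y1', y2'⟩ h
    simp only [Prod.mk.injEq] at h
    obtain ⟨h1, rfl, rfl, rfl⟩ := h
    have : z1 = z1' := by linear_combination h1
    rw [this]
  have i2 : Function.Injective (fun x : T => (x.1 - x.2.1, (x.2.1, x.2.2.1, x.2.2.2))) := by
    rintro ⟨z1, z2, y1, y2⟩ ⟨z1', z2', y1', y2'⟩ h
    simp only [Prod.mk.injEq] at h
    obtain ⟨h1, rfl, rfl, rfl⟩ := h
    have : z1 = z1' := by linear_combination h1
    rw [this]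
  have i3 : Function.Injective (fun x : T => (x.2.2.1 - x.2.2.2, (x.1, x.2.1, x.2.2.2))) := by
    rintro ⟨z1, z2, y1, y2⟩ ⟨z1', z2', y1', y2'⟩ h
    simp only [Prod.mk.injEq] at h
    obtain ⟨h1, rfl, rfl, rfl⟩ := h
    have : y1 = y1' := by linear_combination h1
    rw [this]
  have hsub : (univ : Finset T).filter
      (fun x => l ^ n ∣ (2 * (x.1 + x.2.1 + x.2.2.1 + x.2.2.2) * (x.1 - x.2.1) *
        (x.2.2.1 - x.2.2.2)).val) ⊆
      (univ : Finset T).filter (fun x => l ^ j ∣ (x.1 + x.2.1 + x.2.2.1 + x.2.2.2).val) ∪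
      ((univ : Finset T).filter (fun x => l ^ j ∣ (x.1 - x.2.1).val) ∪
      (univ : Finset T).filter (fun x => l ^ j ∣ (x.2.2.1 - x.2.2.2).val)) := by
    intro x hx
    rw [mem_filter] at hx
    rw [mem_union, mem_union, mem_filter, mem_filter, mem_filter]
    rcases g4_three l n j _ _ _ hl hj1 hj2 (g4_val2 l a n hn _ _ _ hx.2) with h | h | h
    · exact Or.inl ⟨mem_univ _, h⟩
    · exact Or.inr (Or.inl ⟨mem_univ _, h⟩)
    · exact Or.inr (Or.inr ⟨mem_univ _, h⟩)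
  have hcard : ((univ : Finset T).filter
      (fun x => l ^ n ∣ (2 * (x.1 + x.2.1 + x.2.2.1 + x.2.2.2) * (x.1 - x.2.1) *
        (x.2.2.1 - x.2.2.2)).val)).card ≤ 3 * (l ^ (a - j) * (l ^ a) ^ 3) := by
    refine (card_le_card hsub).trans ((card_union_le _ _).trans ?_)
    have h1 := hform _ _ i1
    have h2 := hform _ _ i2
    have h3 := hform _ _ i3
    have h4 := card_union_le ((univ : Finset T).filter (fun x => l ^ j ∣ (x.1 - x.2.1).val))
      ((univ : Finset T).filter (fun x => l ^ j ∣ (x.2.2.1 - x.2.2.2).val))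
    omega
  have hcard' : (((univ : Finset T).filter
      (fun x => l ^ n ∣ (2 * (x.1 + x.2.1 + x.2.2.1 + x.2.2.2) * (x.1 - x.2.1) *
        (x.2.2.1 - x.2.2.2)).val)).card : ℝ) ≤ 3 * ((l : ℝ) ^ (a - j) * ((l : ℝ) ^ a) ^ 3) := by
    exact_mod_cast hcard
  refine hcard'.trans ?_
  have h5 : (l : ℝ) ^ (a - j) = (l : ℝ) ^ a * (l : ℝ) ^ (-(j : ℝ)) := by
    rw [← Real.rpow_natCast, ← Real.rpow_natCast, ← Real.rpow_add hl0]
    congr 1
    rw [Nat.cast_sub hja]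
    ring
  have h6 : (l : ℝ) ^ (-(j : ℝ)) ≤ 2 * (l : ℝ) ^ (-(n / 3 : ℝ)) := by
    by_cases h2 : l = 2
    · rw [if_pos h2] at hj3
      have h7 : (n : ℝ) ≤ 3 * j + 1 := by exact_mod_cast hj3
      have h8 : (l : ℝ) ^ (-(j : ℝ)) ≤ (l : ℝ) ^ (1 - (n / 3 : ℝ)) :=
        Real.rpow_le_rpow_of_exponent_le (by linarith) (by linarith)
      refine h8.trans (le_of_eq ?_)
      rw [sub_eq_add_neg, Real.rpow_add hl0, Real.rpow_one, h2]
      norm_num
    · rw [if_neg h2] at hj3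
      have h7 : (n : ℝ) ≤ 3 * j := by exact_mod_cast hj3
      have h8 : (l : ℝ) ^ (-(j : ℝ)) ≤ (l : ℝ) ^ (-(n / 3 : ℝ)) :=
        Real.rpow_le_rpow_of_exponent_le (by linarith) (by linarith)
      have h9 : 0 ≤ (l : ℝ) ^ (-(n / 3 : ℝ)) := Real.rpow_nonneg hl0.le _
      linarith
  rw [h5]
  push_cast
  have h10 : 0 ≤ 3 * ((l : ℝ) ^ a) ^ 4 := by positivity
  calc 3 * ((l : ℝ) ^ a * (l : ℝ) ^ (-(j : ℝ)) * ((l : ℝ) ^ a) ^ 3)
      = 3 * ((l : ℝ) ^ a) ^ 4 * (l : ℝ) ^ (-(j : ℝ)) := by ring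
    _ ≤ 3 * ((l : ℝ) ^ a) ^ 4 * (2 * (l : ℝ) ^ (-(n / 3 : ℝ))) := mul_le_mul_of_nonneg_left h6 h10
    _ = _ := by ring

end Pool.Agent.Lib.H59T
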