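import Pool.Agent.Lib.H59T.G1
import Pool.Agent.Lib.H59T.G3
import Pool.Agent.Lib.H59T.G4

/-!
# Project H59T, chunk G5 (M): Lemma G
-/

open Finset

namespace Pool.Agent.Lib.H59T

/-- The generic step: averaging over a common shift. -/
theorem g5_gen {q : ℕ} [NeZero q] (χ : DirichletCharacter ℂ q) (W W' : ZMod q → ℂ)
    (hW : ∀ t, ‖W t‖ ≤ 1) (hW' : ∀ t, ‖W' t‖ ≤ 1) (c : ZMod q)
    (p : ZMod q × ZMod q × ZMod q × ZMod q → Prop) [DecidablePred p]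
    (h0 : ∀ x : ZMod q × ZMod q × ZMod q × ZMod q, ¬ p x →
      ∑ v : ZMod q, χ (x.1 + x.2.2.1 + 2 * c * v) *
        star (χ (x.2.1 + x.2.2.1 + 2 * c * v)) * star (χ (x.1 + x.2.2.2 + 2 * c * v)) *
        χ (x.2.1 + x.2.2.2 + 2 * c * v) = 0) :
    GS χ W W' ≤ ((univ.filter p).card : ℝ) := by
  set F : ZMod q → ZMod q → ZMod q → ℂ := fun z1 z2 y =>
    χ (z1 + y) * star (χ (z2 + y)) * W (z1 - y) * W' (z2 - y) with hF
  set T : ZMod q × ZMod q × ZMod q × ZMod q → ℂ := fun x =>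
    F x.1 x.2.1 x.2.2.1 * star (F x.1 x.2.1 x.2.2.2) with hT
  set D : ZMod q × ZMod q × ZMod q × ZMod q → ℂ := fun x =>
    W (x.1 - x.2.2.1) * W' (x.2.1 - x.2.2.1) * star (W (x.1 - x.2.2.2)) * star (W' (x.2.1 - x.2.2.2)) with hD
  set Cf : ZMod q × ZMod q × ZMod q × ZMod q → ZMod q → ℂ := fun x v =>
    χ (x.1 + x.2.2.1 + 2 * c * v) *
        star (χ (x.2.1 + x.2.2.1 + 2 * c * v)) * star (χ (x.1 + x.2.2.2 + 2 * c * v)) *
        χ (x.2.1 + x.2.2.2 + 2 * c * v) with hC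
  have h1 : ((GS χ W W' : ℝ) : ℂ) = ∑ x, T x := by
    have e1 : ∀ z1 z2 : ZMod q, (((‖∑ y : ZMod q, F z1 z2 y‖ ^ 2 : ℝ)) : ℂ) =
        ∑ y1, ∑ y2, F z1 z2 y1 * star (F z1 z2 y2) := by
      intro z1 z2
      have e2 : (((‖∑ y : ZMod q, F z1 z2 y‖ ^ 2 : ℝ)) : ℂ) =
          (∑ y : ZMod q, F z1 z2 y) * star (∑ y : ZMod q, F z1 z2 y) := by
        rw [Complex.star_def, Complex.mul_conj, Complex.normSq_eq_norm_sq]
      rw [e2, star_sum, Finset.sum_mul_sum]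
    unfold GS
    rw [Complex.ofReal_sum, Fintype.sum_prod_type]
    refine Finset.sum_congr rfl fun z1 _ => ?_
    rw [Complex.ofReal_sum, Fintype.sum_prod_type]
    refine Finset.sum_congr rfl fun z2 _ => ?_
    rw [Fintype.sum_prod_type]
    exact e1 z1 z2
  have h2 : ∀ v : ZMod q, ∑ x, D x * Cf x v = ∑ x, T x := by
    intro v
    rw [← Equiv.sum_comp (Equiv.addRight ((c * v, c * v, c * v, c * v) :
      ZMod q × ZMod q × ZMod q × ZMod q)) T]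
    refine Finset.sum_congr rfl fun x _ => ?_
    obtain ⟨z1, z2, y1, y2⟩ := x
    simp only [hT, hF, hD, hC, Equiv.coe_addRight, Prod.mk_add_mk, star_mul']
    have a1 : z1 + c * v - (y1 + c * v) = z1 - y1 := by ring
    have a2 : z2 + c * v - (y1 + c * v) = z2 - y1 := by ring
    have a3 : z1 + c * v - (y2 + c * v) = z1 - y2 := by ring
    have a4 : z2 + c * v - (y2 + c * v) = z2 - y2 := by ring
    have b1 : z1 + c * v + (y1 + c * v) = z1 + y1 + 2 * c * v := by ring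
    have b2 : z2 + c * v + (y1 + c * v) = z2 + y1 + 2 * c * v := by ring
    have b3 : z1 + c * v + (y2 + c * v) = z1 + y2 + 2 * c * v := by ring
    have b4 : z2 + c * v + (y2 + c * v) = z2 + y2 + 2 * c * v := by ring
    rw [a1, a2, a3, a4, b1, b2, b3, b4, star_star]
    ring
  have hq0 : (0 : ℝ) < q := by exact_mod_cast Nat.pos_of_ne_zero (NeZero.ne q)
  have h3 : ((q * GS χ W W' : ℝ) : ℂ) = ∑ x, D x * ∑ v, Cf x v := by
    have e1 : ∑ x, D x * ∑ v, Cf x v = ∑ v, ∑ x, D x * Cf x v := by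
      rw [Finset.sum_comm]
      refine Finset.sum_congr rfl fun x _ => ?_
      rw [Finset.mul_sum]
    rw [e1, Finset.sum_congr rfl fun v _ => h2 v, Finset.sum_const, Finset.card_univ, ZMod.card, nsmul_eq_mul, ← h1]
    push_cast
    ring
  have hχ1 : ∀ s, ‖χ s‖ ≤ 1 := fun s => DirichletCharacter.norm_le_one χ s
  have hDn : ∀ x, ‖D x‖ ≤ 1 := by
    intro x
    simp only [hD, norm_mul, norm_star]
    have w1 := hW (x.1 - x.2.2.1)
    have w2 := hW' (x.2.1 - x.2.2.1)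
    have w3 := hW (x.1 - x.2.2.2)
    have w4 := hW' (x.2.1 - x.2.2.2)
    exact mul_le_one₀ (mul_le_one₀ (mul_le_one₀ w1 (norm_nonneg _) w2) (norm_nonneg _) w3) (norm_nonneg _) w4
  have hCn : ∀ x v, ‖Cf x v‖ ≤ 1 := by
    intro x v
    simp only [hC, norm_mul, norm_star]
    exact mul_le_one₀ (mul_le_one₀ (mul_le_one₀ (hχ1 _) (norm_nonneg _) (hχ1 _)) (norm_nonneg _) (hχ1 _))
      (norm_nonneg _) (hχ1 _)
  have h4 : q * GS χ W W' ≤ ∑ x, (if p x then (q : ℝ) else 0) := by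
    have hG0 : 0 ≤ GS χ W W' := by
      unfold GS
      positivity
    have e1 : q * GS χ W W' = ‖((q * GS χ W W' : ℝ) : ℂ)‖ := by
      rw [Complex.norm_real, Real.norm_of_nonneg (by positivity)]
    rw [e1, h3]
    refine (norm_sum_le _ _).trans (Finset.sum_le_sum fun x _ => ?_)
    split_ifs with hp
    · rw [norm_mul]
      have e2 : ‖∑ v, Cf x v‖ ≤ q := by
        refine (norm_sum_le _ _).trans ?_
        calc ∑ v : ZMod q, ‖Cf x v‖ ≤ ∑ _v : ZMod q, (1 : ℝ) := Finset.sum_le_sum fun v _ => hCn x v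
          _ = q := by rw [Finset.sum_const, Finset.card_univ, ZMod.card, nsmul_eq_mul, mul_one]
      calc ‖D x‖ * ‖∑ v, Cf x v‖ ≤ 1 * q := mul_le_mul (hDn x) e2 (norm_nonneg _) zero_le_one
        _ = q := one_mul _
    · have e3 : ∑ v, Cf x v = 0 := h0 x hp
      rw [e3, mul_zero, norm_zero]
  rw [← Finset.sum_filter, Finset.sum_const, nsmul_eq_mul, mul_comm] at h4
  exact le_of_mul_le_mul_right h4 hq0

/-- Prime powers. Proof. `n = a/2`, `m = a - n`. `GS` is the sum over `z1, z2, y1, y2` of `T(z1,z2,y1,y2)` (see `G1_expand`, first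
step). For each `v` the sum does not change if `z_i, y_j` are replaced by `z_i + l^m v, y_j + l^m v`; the arguments of `W`, `W'` do
not change. So `l^a GS = ∑_{z,y} W.. ∑_v χ(s11 + 2 l^m v) ..`, the inner sum is `0` unless `l^n` divides `2 (..)(..)(..)` (`G3`)
and at most `l^a` in absolute value. `G4`: `GS ≤ 6 l^(4a) l^(-n/3)`, and `n ≥ a/3`. -/
theorem G5_pow (l a : ℕ) (hl : l.Prime) (ha : 2 ≤ a) [NeZero (l ^ a)] (χ : DirichletCharacter ℂ (l ^ a))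
    (hχ : χ.IsPrimitive) (W W' : ZMod (l ^ a) → ℂ) (hW : ∀ t, ‖W t‖ ≤ 1) (hW' : ∀ t, ‖W' t‖ ≤ 1) :
    GS χ W W' ≤ 6 * ((l ^ a : ℕ) : ℝ) ^ 4 * (l : ℝ) ^ (-(a / 9 : ℝ)) := by
  set n := a / 2 with hn
  have h1 := g5_gen χ W W' hW hW' ((l : ZMod (l ^ a)) ^ (a - n))
    (fun x => l ^ n ∣ (2 * (x.1 + x.2.1 + x.2.2.1 + x.2.2.2) * (x.1 - x.2.1) *
        (x.2.2.1 - x.2.2.2)).val)
    (fun x hx => G3 l a (a - n) n hl (by omega) (by omega) (by omega) χ hχ x.1 x.2.1 x.2.2.1 x.2.2.2 hx)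
  refine h1.trans ((G4 l a n hl (by omega)).trans ?_)
  refine mul_le_mul_of_nonneg_left ?_ (by positivity)
  refine Real.rpow_le_rpow_of_exponent_le (by exact_mod_cast hl.one_lt.le) ?_
  have h2 : (a : ℝ) ≤ 3 * n := by exact_mod_cast (by omega : a ≤ 3 * n)
  linarith

theorem g5_two : ∀ x : ZMod 2, x ≠ 0 → x = 1 := by decide

theorem g5_prime (q l : ℕ) (hql : q = l) (hl : l.Prime) [NeZero q] (χ : DirichletCharacter ℂ q)
    (hχ : χ.IsPrimitive) (W W' : ZMod q → ℂ) (hW : ∀ t, ‖W t‖ ≤ 1) (hW' : ∀ t, ‖W' t‖ ≤ 1) :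
    GS χ W W' ≤ 4 * (l : ℝ) ^ (7 / 2 : ℝ) := by
  subst hql
  have := Fact.mk hl
  have h1 : χ ≠ 1 := by
    intro h
    rw [h, DirichletCharacter.isPrimitive_def, DirichletCharacter.conductor_one] at hχ
    exact hl.one_lt.ne hχ
  have h2 : q ≠ 2 := by
    intro h
    subst h
    refine h1 (MulChar.ext fun u => ?_)
    have hu : u = 1 := by
      apply Units.ext
      have h3 : (u : ZMod 2) ≠ 0 := u.ne_zero
      exact g5_two _ h3
    rw [hu]
    simp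
  exact G1 q h2 χ h1 W W' hW hW'

/-- **Lemma G.** Proof. `a ≥ 2`: `G5_pow`. `a = 1`: `l ≠ 2` (there is no primitive character modulo `2`: the only character
modulo `2` is `1`, whose conductor is `1`), `χ ≠ 1`; `G1` (transport along `l^1 = l`). -/
theorem G5 (l a : ℕ) (hl : l.Prime) (ha : 1 ≤ a) [NeZero (l ^ a)] (χ : DirichletCharacter ℂ (l ^ a))
    (hχ : χ.IsPrimitive) (W W' : ZMod (l ^ a) → ℂ) (hW : ∀ t, ‖W t‖ ≤ 1) (hW' : ∀ t, ‖W' t‖ ≤ 1) :
    GS χ W W' ≤ 6 * ((l ^ a : ℕ) : ℝ) ^ 4 * (l : ℝ) ^ (-(a / 9 : ℝ)) := by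
  rcases Nat.lt_or_ge a 2 with h | h
  · have ha1 : a = 1 := by omega
    subst ha1
    refine (g5_prime (l ^ 1) l (pow_one l) hl χ hχ W W' hW hW').trans ?_
    have hl1 : (1 : ℝ) ≤ l := by exact_mod_cast hl.one_lt.le
    have hl0 : (0 : ℝ) < l := by linarith
    have e1 : ((l ^ 1 : ℕ) : ℝ) ^ 4 * (l : ℝ) ^ (-(((1 : ℕ) : ℝ) / 9 : ℝ)) = (l : ℝ) ^ (4 - 1 / 9 : ℝ) := by
      rw [pow_one, ← Real.rpow_natCast, ← Real.rpow_add hl0]
      congr 1
      push_cast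
      ring
    rw [mul_assoc, e1]
    have e2 : (l : ℝ) ^ (7 / 2 : ℝ) ≤ (l : ℝ) ^ (4 - 1 / 9 : ℝ) :=
      Real.rpow_le_rpow_of_exponent_le hl1 (by norm_num)
    have e3 : 0 < (l : ℝ) ^ (7 / 2 : ℝ) := Real.rpow_pos_of_pos hl0 _
    nlinarith
  · exact G5_pow l a hl h χ hχ W W' hW hW'

end Pool.Agent.Lib.H59T
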