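import Pool.Agent.Lib.H59T.FDefs
import Pool.Agent.Lib.H59T.G5

/-!
# Project H59T, chunk E1 (S/M): Lemma G for functions bounded by 2
-/

open Finset

namespace Pool.Agent.Lib.H59T

/-- Proof. `G5` with `W t = star (g (-t))/2`, `W' t = g' (-t)/2`: the conjugate of the inner sum is
`4 ∑_y χ(z+y) star χ(z'+y) W(z-y) W'(z'-y)`, and the norm of the conjugate is the same. -/
theorem E1_plus (l a : ℕ) (hl : l.Prime) (ha : 1 ≤ a) [NeZero (l ^ a)] (χ : DirichletCharacter ℂ (l ^ a))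
    (hχ : χ.IsPrimitive) (g g' : ZMod (l ^ a) → ℂ) (hg : ∀ t, ‖g t‖ ≤ 2) (hg' : ∀ t, ‖g' t‖ ≤ 2) :
    ∑ z : ZMod (l ^ a), ∑ z' : ZMod (l ^ a), ‖∑ y : ZMod (l ^ a),
      star (χ (y + z)) * χ (y + z') * (g (y - z) * star (g' (y - z')))‖ ^ 2 ≤
      96 * ((l ^ a : ℕ) : ℝ) ^ 4 * (l : ℝ) ^ (-(a / 9 : ℝ)) := by
  have hn2 : ‖(2 : ℂ)‖ = 2 := by simp
  have h := G5 l a hl ha χ hχ (fun t => star (g (-t)) / 2) (fun t => g' (-t) / 2)
    (fun t => by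
      rw [norm_div, norm_star, hn2]
      have := hg (-t)
      linarith)
    (fun t => by
      rw [norm_div, hn2]
      have := hg' (-t)
      linarith)
  unfold GS at h
  have e1 : ∀ z z' : ZMod (l ^ a), ‖∑ y : ZMod (l ^ a),
      star (χ (y + z)) * χ (y + z') * (g (y - z) * star (g' (y - z')))‖ ^ 2 =
      16 * ‖∑ y : ZMod (l ^ a), χ (z + y) * star (χ (z' + y)) * (star (g (-(z - y))) / 2) *
        (g' (-(z' - y)) / 2)‖ ^ 2 := by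
    intro z z'
    have e2 : star (∑ y : ZMod (l ^ a), star (χ (y + z)) * χ (y + z') * (g (y - z) * star (g' (y - z')))) =
        4 * ∑ y : ZMod (l ^ a), χ (z + y) * star (χ (z' + y)) * (star (g (-(z - y))) / 2) *
        (g' (-(z' - y)) / 2) := by
      rw [star_sum, Finset.mul_sum]
      refine Finset.sum_congr rfl fun y _ => ?_
      rw [star_mul', star_mul', star_mul', star_star, star_star, neg_sub, neg_sub, add_comm z y, add_comm z' y]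
      ring
    have e3 := congrArg norm e2
    rw [norm_star, norm_mul] at e3
    have hn4 : ‖(4 : ℂ)‖ = 4 := by simp
    rw [e3, hn4]
    ring
  calc _ = 16 * ∑ z : ZMod (l ^ a), ∑ z' : ZMod (l ^ a), ‖∑ y : ZMod (l ^ a), χ (z + y) * star (χ (z' + y)) *
        (star (g (-(z - y))) / 2) * (g' (-(z' - y)) / 2)‖ ^ 2 := by
        rw [Finset.mul_sum]
        refine Finset.sum_congr rfl fun z _ => ?_
        rw [Finset.mul_sum]
        exact Finset.sum_congr rfl fun z' _ => e1 z z'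
    _ ≤ 16 * (6 * ((l ^ a : ℕ) : ℝ) ^ 4 * (l : ℝ) ^ (-(a / 9 : ℝ))) := mul_le_mul_of_nonneg_left h (by norm_num)
    _ = 96 * ((l ^ a : ℕ) : ℝ) ^ 4 * (l : ℝ) ^ (-(a / 9 : ℝ)) := by ring

/-- Proof. `E1_plus` after the substitution `z → -z`, `z' → -z'` (`Equiv.neg`). -/
theorem E1_minus (l a : ℕ) (hl : l.Prime) (ha : 1 ≤ a) [NeZero (l ^ a)] (χ : DirichletCharacter ℂ (l ^ a))
    (hχ : χ.IsPrimitive) (g g' : ZMod (l ^ a) → ℂ) (hg : ∀ t, ‖g t‖ ≤ 2) (hg' : ∀ t, ‖g' t‖ ≤ 2) :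
    ∑ z : ZMod (l ^ a), ∑ z' : ZMod (l ^ a), ‖∑ y : ZMod (l ^ a),
      star (χ (y - z)) * χ (y - z') * (g (y + z) * star (g' (y + z')))‖ ^ 2 ≤
      96 * ((l ^ a : ℕ) : ℝ) ^ 4 * (l : ℝ) ^ (-(a / 9 : ℝ)) := by
  refine le_trans (le_of_eq ?_) (E1_plus l a hl ha χ hχ g g' hg hg')
  rw [← Equiv.sum_comp (Equiv.neg (ZMod (l ^ a)))]
  refine Finset.sum_congr rfl fun z _ => ?_
  rw [← Equiv.sum_comp (Equiv.neg (ZMod (l ^ a)))]
  refine Finset.sum_congr rfl fun z' _ => ?_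
  simp only [Equiv.neg_apply, sub_neg_eq_add, ← sub_eq_add_neg]

/-- Cauchy-Schwarz: with a bounded function of `(z, z')`. Proof. `∑ ‖A‖ ‖B‖ ≤ C ∑ ‖A‖ ≤ C (q² ∑ ‖A‖²)^(1/2)`, `q = l^a`;
`l^(-a/18) = q^(-1/18)`. -/
theorem E1_cs (l a : ℕ) (hl : l.Prime) [NeZero (l ^ a)] (A B : ZMod (l ^ a) → ZMod (l ^ a) → ℂ) (M C : ℝ)
    (hC : 0 ≤ C) (hM : 0 ≤ M)
    (hA : ∑ z, ∑ z', ‖A z z'‖ ^ 2 ≤ M ^ 2 * (96 * ((l ^ a : ℕ) : ℝ) ^ 4 * (l : ℝ) ^ (-(a / 9 : ℝ))))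
    (hB : ∀ z z', ‖B z z'‖ ≤ C) :
    ‖∑ z, ∑ z', A z z' * B z z'‖ ≤
      10 * C * M * ((l ^ a : ℕ) : ℝ) ^ 3 * ((l ^ a : ℕ) : ℝ) ^ (-(1 / 18 : ℝ)) := by
  have hl0 : (0 : ℝ) < l := by exact_mod_cast hl.pos
  set q : ℝ := ((l ^ a : ℕ) : ℝ) with hq
  have hq0 : 0 < q := by
    rw [hq]
    exact_mod_cast pow_pos hl.pos a
  have hqe : q ^ (-(1 / 18 : ℝ)) = (l : ℝ) ^ (-(a / 18 : ℝ)) := by
    rw [hq]
    push_cast
    rw [← Real.rpow_natCast, ← Real.rpow_mul hl0.le]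
    congr 1
    ring
  have hsq : ((l : ℝ) ^ (-(a / 18 : ℝ))) ^ 2 = (l : ℝ) ^ (-(a / 9 : ℝ)) := by
    rw [← Real.rpow_natCast, ← Real.rpow_mul hl0.le]
    congr 1
    push_cast
    ring
  have h1 : ‖∑ z, ∑ z', A z z' * B z z'‖ ≤ C * ∑ p : ZMod (l ^ a) × ZMod (l ^ a), ‖A p.1 p.2‖ := by
    rw [Fintype.sum_prod_type, Finset.mul_sum]
    refine (norm_sum_le _ _).trans (Finset.sum_le_sum fun z _ => ?_)
    rw [Finset.mul_sum]
    refine (norm_sum_le _ _).trans (Finset.sum_le_sum fun z' _ => ?_)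
    rw [norm_mul, mul_comm]
    exact mul_le_mul_of_nonneg_right (hB z z') (norm_nonneg _)
  have h2 : (∑ p : ZMod (l ^ a) × ZMod (l ^ a), ‖A p.1 p.2‖) ^ 2 ≤
      q ^ 2 * ∑ p : ZMod (l ^ a) × ZMod (l ^ a), ‖A p.1 p.2‖ ^ 2 := by
    have h3 := sq_sum_le_card_mul_sum_sq (s := (univ : Finset (ZMod (l ^ a) × ZMod (l ^ a))))
      (f := fun p => ‖A p.1 p.2‖)
    refine h3.trans (le_of_eq ?_)
    rw [Finset.card_univ, Fintype.card_prod, ZMod.card, hq]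
    push_cast
    ring
  have h3 : (∑ p : ZMod (l ^ a) × ZMod (l ^ a), ‖A p.1 p.2‖) ^ 2 ≤
      (10 * M * q ^ 3 * (l : ℝ) ^ (-(a / 18 : ℝ))) ^ 2 := by
    rw [Fintype.sum_prod_type (f := fun p : ZMod (l ^ a) × ZMod (l ^ a) => ‖A p.1 p.2‖ ^ 2)] at h2
    refine h2.trans ((mul_le_mul_of_nonneg_left hA (by positivity)).trans ?_)
    have e1 : (10 * M * q ^ 3 * (l : ℝ) ^ (-(a / 18 : ℝ))) ^ 2 =
        100 * (M ^ 2 * q ^ 6 * (l : ℝ) ^ (-(a / 9 : ℝ))) := by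
      rw [← hsq]
      ring
    have e2 : q ^ 2 * (M ^ 2 * (96 * q ^ 4 * (l : ℝ) ^ (-(a / 9 : ℝ)))) =
        96 * (M ^ 2 * q ^ 6 * (l : ℝ) ^ (-(a / 9 : ℝ))) := by ring
    rw [e1, e2]
    exact mul_le_mul_of_nonneg_right (by norm_num) (by positivity)
  have h4 : ∑ p : ZMod (l ^ a) × ZMod (l ^ a), ‖A p.1 p.2‖ ≤
      10 * M * q ^ 3 * (l : ℝ) ^ (-(a / 18 : ℝ)) := by
    exact (pow_le_pow_iff_left₀ (Finset.sum_nonneg fun _ _ => norm_nonneg _) (by positivity) two_ne_zero).1 h3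
  refine h1.trans ((mul_le_mul_of_nonneg_left h4 hC).trans (le_of_eq ?_))
  rw [hqe]
  ring

end Pool.Agent.Lib.H59T
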