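import Pool.Agent.Lib.H59T.E3

/-!
# Project H59T, chunk E4 (M): products of the factors `gl` at pairwise independent forms
-/

open Finset

namespace Pool.Agent.Lib.H59T

theorem e4_abs (l : ℕ) [Fact l.Prime] (t : ZMod l) : |glz l t| ≤ 1 := by
  have : 2 ≤ l := (Fact.out : l.Prime).two_le
  have h : (2 : ℝ) ≤ l := by exact_mod_cast this
  rw [glz]
  split_ifs
  · simp
  · rw [abs_of_nonneg (by apply div_nonneg <;> linarith), div_le_one (by linarith)]
    linarith

theorem e4_ne (l : ℕ) [Fact l.Prime] (t : ZMod l) (ht : t ≠ 0) : |glz l t| = 1 / ((l : ℝ) - 1) := by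
  have : 2 ≤ l := (Fact.out : l.Prime).two_le
  have h : (2 : ℝ) ≤ l := by exact_mod_cast this
  rw [glz, if_neg ht, abs_of_nonneg (by apply div_nonneg <;> linarith)]

theorem e4_three (l : ℕ) [Fact l.Prime] (a b c : ZMod l) :
    |glz l a| * |glz l b| * |glz l c| ≤ (if a = 0 ∧ b = 0 then 1 else 0) + (if a = 0 ∧ c = 0 then 1 else 0) +
      (if b = 0 ∧ c = 0 then 1 else 0) + (1 / ((l : ℝ) - 1)) ^ 2 := by
  have : 2 ≤ l := (Fact.out : l.Prime).two_le
  have h : (2 : ℝ) ≤ l := by exact_mod_cast this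
  have hq0 : 0 ≤ 1 / ((l : ℝ) - 1) := by apply div_nonneg <;> linarith
  have hA := e4_abs l a
  have hB := e4_abs l b
  have hC := e4_abs l c
  have hA0 := abs_nonneg (glz l a)
  have hB0 := abs_nonneg (glz l b)
  have hC0 := abs_nonneg (glz l c)
  have hall : |glz l a| * |glz l b| * |glz l c| ≤ 1 := by
    have := mul_le_one₀ (mul_le_one₀ hA hB0 hB) hC0 hC
    exact this
  have hq2 : 0 ≤ (1 / ((l : ℝ) - 1)) ^ 2 := sq_nonneg _
  by_cases ha : a = 0
  · by_cases hb : b = 0
    · simp only [ha, hb, true_and]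
      rw [ha, hb] at hall
      split_ifs <;> linarith
    · by_cases hc : c = 0
      · simp only [ha, hc, hb, and_true, and_false, if_true, if_false]
        rw [ha, hc] at hall
        linarith
      · simp only [hb, hc, and_false, false_and, if_false]
        rw [e4_ne l b hb, e4_ne l c hc, sq, zero_add, zero_add, zero_add, mul_assoc]
        exact mul_le_of_le_one_left (mul_nonneg hq0 hq0) hA
  · by_cases hb : b = 0
    · by_cases hc : c = 0
      · simp only [ha, hc, hb, and_true, false_and, if_true, if_false]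
        rw [hb, hc] at hall
        linarith
      · simp only [ha, hc, and_false, false_and, if_false]
        rw [e4_ne l a ha, e4_ne l c hc, sq, zero_add, zero_add, zero_add, mul_right_comm]
        exact mul_le_of_le_one_right (mul_nonneg hq0 hq0) hB
    · simp only [ha, hb, false_and, if_false]
      rw [e4_ne l a ha, e4_ne l b hb, sq, zero_add, zero_add, zero_add]
      exact mul_le_of_le_one_right (mul_nonneg hq0 hq0) hC

theorem e4_count (l : ℕ) [Fact l.Prime] (u v : Fin 4 → ZMod l) (c d : ZMod l)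
    (huv : ∃ a b, u a * v b - u b * v a ≠ 0) :
    ∑ x : Fin 4 → ZMod l, (if ∑ k, u k * x k + c = 0 ∧ ∑ k, v k * x k + d = 0 then (1 : ℝ) else 0) = (l : ℝ) ^ 2 := by
  obtain ⟨a, b, h⟩ := huv
  have h1 := E3_zero l u v c d a b h
  rw [← Finset.sum_filter, Finset.sum_const, nsmul_eq_mul, mul_one, h1]
  push_cast
  rfl

/-- Proof. `S` has one element: `0` (`E3_one`, `E3_glz`); two elements: `0` (`E3_two`). At least three: choose three different
`i1, i2, i3 ∈ S`; `|glz| ≤ 1`, so the product is at most `|glz glz glz|` at these three. The number of `x` for which at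
least two of the three forms vanish is at most `3 l²` (`E3_zero`); for the others at least two factors are `1/(l-1)`, and
`l⁴/(l-1)² ≤ 4 l²`. Total `7 l²`. -/
theorem E4_gl (l : ℕ) [Fact l.Prime] (m : ℕ) (u : Fin m → Fin 4 → ZMod l) (c : Fin m → ZMod l)
    (hu : ∀ i j, i ≠ j → ∃ a b, u i a * u j b - u i b * u j a ≠ 0) (hu1 : ∀ i, ∃ a, u i a ≠ 0)
    (S : Finset (Fin m)) (hS : S.Nonempty) :
    ‖∑ x : Fin 4 → ZMod l, ∏ i ∈ S, ((glz l (∑ k, u i k * x k + c i) : ℝ) : ℂ)‖ ≤ 7 * (l : ℝ) ^ 2 := by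
  have hl2 : 2 ≤ l := (Fact.out : l.Prime).two_le
  have hl : (2 : ℝ) ≤ l := by exact_mod_cast hl2
  have hz : (∑ t : ZMod l, ((glz l t : ℝ) : ℂ)) = 0 := by
    rw [← Complex.ofReal_sum, E3_glz, Complex.ofReal_zero]
  have hc0 : 1 ≤ S.card := hS.card_pos
  rcases (by omega : S.card = 1 ∨ S.card = 2 ∨ 3 ≤ S.card) with h1 | h2 | h3
  · obtain ⟨i, rfl⟩ := Finset.card_eq_one.1 h1
    obtain ⟨a, ha⟩ := hu1 i
    have h := E3_one l (u i) (c i) a ha (fun t => ((glz l t : ℝ) : ℂ))
    simp only [Finset.prod_singleton]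
    rw [h, hz, mul_zero, norm_zero]
    positivity
  · obtain ⟨i, j, hij, rfl⟩ := Finset.card_eq_two.1 h2
    obtain ⟨a, b, hab⟩ := hu i j hij
    have h := E3_two l (u i) (u j) (c i) (c j) a b hab (fun t => ((glz l t : ℝ) : ℂ)) (fun t => ((glz l t : ℝ) : ℂ))
    simp only [Finset.prod_pair hij]
    rw [h, hz, mul_zero, mul_zero, norm_zero]
    positivity
  · obtain ⟨T, hTS, hT3⟩ := Finset.exists_subset_card_eq h3
    obtain ⟨i, j, k, hij, hik, hjk, rfl⟩ := Finset.card_eq_three.1 hT3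
    have hx : ∀ x : Fin 4 → ZMod l, ‖∏ i ∈ S, ((glz l (∑ k, u i k * x k + c i) : ℝ) : ℂ)‖ ≤
        |glz l (∑ m, u i m * x m + c i)| * |glz l (∑ m, u j m * x m + c j)| * |glz l (∑ m, u k m * x m + c k)| := by
      intro x
      rw [norm_prod]
      simp only [Complex.norm_real, Real.norm_eq_abs]
      rw [← Finset.prod_sdiff hTS]
      have h4 : ∏ i ∈ S \ {i, j, k}, |glz l (∑ k, u i k * x k + c i)| ≤ 1 :=
        Finset.prod_le_one (fun _ _ => abs_nonneg _) (fun _ _ => e4_abs l _)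
      have h5 : ∏ i ∈ ({i, j, k} : Finset (Fin m)), |glz l (∑ k, u i k * x k + c i)| =
          |glz l (∑ m, u i m * x m + c i)| * |glz l (∑ m, u j m * x m + c j)| * |glz l (∑ m, u k m * x m + c k)| := by
        rw [Finset.prod_insert (by simp [hij, hik]), Finset.prod_pair hjk, mul_assoc]
      rw [h5]
      exact mul_le_of_le_one_left (by positivity) h4
    calc ‖∑ x : Fin 4 → ZMod l, ∏ i ∈ S, ((glz l (∑ k, u i k * x k + c i) : ℝ) : ℂ)‖ ≤
        ∑ x : Fin 4 → ZMod l, ‖∏ i ∈ S, ((glz l (∑ k, u i k * x k + c i) : ℝ) : ℂ)‖ := norm_sum_le _ _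
      _ ≤ ∑ x : Fin 4 → ZMod l, ((if (∑ m, u i m * x m + c i = 0 ∧ ∑ m, u j m * x m + c j = 0) then (1 : ℝ) else 0) +
          (if (∑ m, u i m * x m + c i = 0 ∧ ∑ m, u k m * x m + c k = 0) then 1 else 0) +
          (if (∑ m, u j m * x m + c j = 0 ∧ ∑ m, u k m * x m + c k = 0) then 1 else 0) + (1 / ((l : ℝ) - 1)) ^ 2) :=
        Finset.sum_le_sum fun x _ => (hx x).trans (e4_three l _ _ _)
      _ = 3 * (l : ℝ) ^ 2 + (l : ℝ) ^ 4 * (1 / ((l : ℝ) - 1)) ^ 2 := by
        rw [Finset.sum_add_distrib, Finset.sum_add_distrib, Finset.sum_add_distrib, e4_count l _ _ _ _ (hu i j hij),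
          e4_count l _ _ _ _ (hu i k hik), e4_count l _ _ _ _ (hu j k hjk), Finset.sum_const, Finset.card_univ,
          Fintype.card_fun, ZMod.card, Fintype.card_fin, nsmul_eq_mul]
        push_cast
        ring
      _ ≤ 7 * (l : ℝ) ^ 2 := by
        have h6 : (l : ℝ) * (1 / ((l : ℝ) - 1)) ≤ 2 := by
          rw [mul_one_div, div_le_iff₀ (by linarith)]
          linarith
        have h7 : 0 ≤ (l : ℝ) * (1 / ((l : ℝ) - 1)) := by
          apply mul_nonneg (by linarith)
          apply div_nonneg <;> linarith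
        have h8 : ((l : ℝ) * (1 / ((l : ℝ) - 1))) ^ 2 ≤ 4 := by nlinarith
        have h9 : (l : ℝ) ^ 4 * (1 / ((l : ℝ) - 1)) ^ 2 = (l : ℝ) ^ 2 * ((l : ℝ) * (1 / ((l : ℝ) - 1))) ^ 2 := by ring
        rw [h9]
        have h10 : (0 : ℝ) ≤ (l : ℝ) ^ 2 := by positivity
        nlinarith

end Pool.Agent.Lib.H59T
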