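import Pool.Agent.Lib.H59T.C3
import Pool.Agent.Lib.H59T.E4

/-!
# Project H59T, chunk E6 (M): the three forms at a prime not dividing the conductors
-/

open Finset

namespace Pool.Agent.Lib.H59T

open Pool.Agent.Lib.H68T Pool.Agent.Lib.H18Q Pool.Agent.Lib.H59P

/-- The rows of the six forms. -/
def e6_U : Fin 6 → Fin 4 → ℤ := ![![1, 0, 1, 0], ![1, 0, -1, 0], ![0, 0, 2, 0],
  ![1, 0, 0, 1], ![1, 0, 0, -1], ![0, 0, 0, 2]]

/-- The constants of the six forms. -/
def e6_C : Fin 6 → ℤ := ![0, 0, -3, 0, 0, -3]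

theorem e6_minor : ∀ i j : Fin 6, i ≠ j →
    ∃ a b, (e6_U i a * e6_U j b - e6_U i b * e6_U j a) ∣ 4 := by
  decide +kernel

theorem e6_row : ∀ i : Fin 6, ∃ a, e6_U i a ∣ 4 := by
  decide +kernel

theorem e6_cast (l : ℕ) (hl : l.Prime) (h2 : l ≠ 2) (v : ℤ) (hv : v ∣ 4) : (v : ZMod l) ≠ 0 := by
  intro h
  rw [ZMod.intCast_zmod_eq_zero_iff_dvd] at h
  have h4 : (l : ℤ) ∣ ((4 : ℕ) : ℤ) := h.trans (by exact_mod_cast hv)
  have h5 : l ∣ 2 ^ 2 := by exact_mod_cast h4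
  exact h2 ((Nat.prime_dvd_prime_iff_eq hl Nat.prime_two).1 (hl.dvd_of_dvd_pow h5))

theorem e6_g (p : Prop) [Decidable p] (x : ℝ) :
    (starRingEnd ℂ) (if p then (x : ℂ) else 1) = if p then (x : ℂ) else 1 := by
  split_ifs
  · exact Complex.conj_ofReal _
  · exact map_one _

theorem e6_two (p : Prop) [Decidable p] (m : ℤ) :
    ‖(if p then ((gl 2 m : ℝ) : ℂ) else 1)‖ ≤ 1 := by
  split_ifs
  · rw [Complex.norm_real]
    unfold gl
    split_ifs <;> norm_num
  · simp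

/-- Proof. As `E5_four`, with the six forms `y+z, y-z, 2z-3, y+z', y-z', 2z'-3` (the variable `y'` does not occur). -/
theorem E6_three (l : ℕ) (hl : l.Prime) (s s' : Fin 3 → Prop) [DecidablePred s] [DecidablePred s']
    (hs : ∃ i, s i ∨ s' i) :
    ‖S4 l (Db tf (fun i m => if s i then ((gl l m : ℝ) : ℂ) else 1)
      (fun i m => if s' i then ((gl l m : ℝ) : ℂ) else 1))‖ ≤ 7 * (l : ℝ) ^ 2 := by
  classical
  by_cases h2 : l = 2
  · subst h2
    refine le_trans (C3_triv 2 _ 1 ?_) (by norm_num)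
    intro y y' z z'
    unfold Db
    rw [norm_prod]
    refine Finset.prod_le_one (fun i _ => norm_nonneg _) fun i _ => ?_
    rw [norm_mul, RCLike.norm_conj]
    exact mul_le_one₀ (e6_two _ _) (norm_nonneg _) (e6_two _ _)
  have : Fact l.Prime := ⟨hl⟩
  obtain ⟨t, ht⟩ : ∃ t : Fin 6 → Prop, t = ![s 0, s 1, s 2, s' 0, s' 1, s' 2] := ⟨_, rfl⟩
  have hS : (univ.filter fun j : Fin 6 => t j).Nonempty := by
    obtain ⟨i, hi⟩ := hs
    rw [ht]
    rcases hi with hi | hi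
    · fin_cases i
      · exact ⟨0, by simpa using hi⟩
      · exact ⟨1, by simpa using hi⟩
      · exact ⟨2, by simpa using hi⟩
    · fin_cases i
      · exact ⟨3, by simpa using hi⟩
      · exact ⟨4, by simpa using hi⟩
      · exact ⟨5, by simpa using hi⟩
  have h4 := E4_gl l 6 (fun i k => ((e6_U i k : ℤ) : ZMod l)) (fun i => ((e6_C i : ℤ) : ZMod l))
    (fun i j hij => by
      obtain ⟨a, b, hab⟩ := e6_minor i j hij
      refine ⟨a, b, ?_⟩
      have h := e6_cast l hl h2 _ hab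
      push_cast at h
      exact h)
    (fun i => by
      obtain ⟨a, ha⟩ := e6_row i
      exact ⟨a, e6_cast l hl h2 _ ha⟩) (univ.filter fun j : Fin 6 => t j) hS
  have h5 := C3_fin l (fun a b c d => ∏ i ∈ univ.filter (fun j : Fin 6 => t j),
    ((glz l (∑ k, ((e6_U i k : ℤ) : ZMod l) * ![a, b, c, d] k + ((e6_C i : ℤ) : ZMod l)) : ℝ) : ℂ))
  have h6 : S4 l (Db tf (fun i m => if s i then ((gl l m : ℝ) : ℂ) else 1)
      (fun i m => if s' i then ((gl l m : ℝ) : ℂ) else 1)) =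
      S4 l (fun y y' z z' => ∏ i ∈ univ.filter (fun j : Fin 6 => t j),
        ((glz l (∑ k, ((e6_U i k : ℤ) : ZMod l) *
          ![(y : ZMod l), (y' : ZMod l), (z : ZMod l), (z' : ZMod l)] k +
            ((e6_C i : ℤ) : ZMod l)) : ℝ) : ℂ)) := by
    congr 1
    funext y y' z z'
    rw [Finset.prod_filter, Fin.prod_univ_six]
    unfold Db tf
    rw [Fin.prod_univ_three]
    simp only [e6_g, C3_gl, ht, e6_U, e6_C, Fin.sum_univ_four]
    simp [-mul_ite, -ite_mul]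
    ring_nf
  rw [h6, h5]
  have h7 : ∀ x : Fin 4 → ZMod l, ![x 0, x 1, x 2, x 3] = x := by
    intro x
    funext k
    fin_cases k <;> rfl
  simp only [h7]
  exact h4

end Pool.Agent.Lib.H59T
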