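import Pool.Agent.Lib.H59T.E1
import Pool.Agent.Lib.H59T.C3

/-!
# Project H59T, chunk E8 (M): the three forms, a character at one of `y + z`, `y - z`
-/

open Finset

namespace Pool.Agent.Lib.H59T

theorem e8_range {M : Type*} [AddCommMonoid M] (q : ℕ) [NeZero q] (t : ℕ) (f : ZMod q → M) :
    ∑ m ∈ range (q * t), f (m : ZMod q) = t • ∑ x : ZMod q, f x := by
  induction t with
  | zero => simp
  | succ t ih =>
    rw [Nat.mul_succ, Finset.sum_range_add, ih, succ_nsmul]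
    congr 1
    have h : ∀ x : ℕ, f ((q * t + x : ℕ) : ZMod q) = f (x : ZMod q) := fun x => by
      congr 1
      push_cast
      simp
    rw [Finset.sum_congr rfl fun x _ => h x]
    refine Finset.sum_bij' (fun (j : ℕ) _ => (j : ZMod q)) (fun (z : ZMod q) _ => z.val)
      (fun _ _ => mem_univ _) (fun z _ => mem_range.2 (ZMod.val_lt z)) (fun j hj => ?_)
      (fun z _ => ZMod.natCast_zmod_val z) (fun _ _ => rfl)
    rw [ZMod.val_natCast, Nat.mod_eq_of_lt (mem_range.1 hj)]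

theorem e8_main (q t : ℕ) [NeZero q] (G : ZMod q → ZMod q → ZMod q → ℂ) (H : ℤ → ℤ → ℂ)
    (hH : ∀ z z', ‖H z z'‖ ≤ 4) (D : ℤ → ℤ → ℤ → ℤ → ℂ)
    (hD : ∀ y y' z z' : ℤ, D y y' z z' = G (y : ZMod q) (z : ZMod q) (z' : ZMod q) * H z z') :
    ‖S4 (q * t) D‖ ≤ 4 * ((q * t : ℕ) : ℝ) * (t : ℝ) ^ 3 *
      ∑ Z : ZMod q, ∑ Z' : ZMod q, ‖∑ Y : ZMod q, G Y Z Z'‖ := by
  have h2 : ∀ z z' : ZMod q, ∑ y ∈ range (q * t), G (y : ZMod q) z z' =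
      (t : ℂ) * ∑ Y : ZMod q, G Y z z' := by
    intro z z'
    rw [e8_range q t fun y => G y z z', nsmul_eq_mul]
  have h1 : S4 (q * t) D = ((q * t : ℕ) : ℂ) * ∑ z ∈ range (q * t), ∑ z' ∈ range (q * t),
      ((t : ℂ) * ∑ Y : ZMod q, G Y (z : ZMod q) (z' : ZMod q)) * H z z' := by
    unfold S4
    rw [Finset.sum_comm]
    have key : ∀ y' : ℕ, ∑ y ∈ range (q * t), ∑ z ∈ range (q * t), ∑ z' ∈ range (q * t),
        D y y' z z' = ∑ z ∈ range (q * t), ∑ z' ∈ range (q * t),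
        ((t : ℂ) * ∑ Y : ZMod q, G Y (z : ZMod q) (z' : ZMod q)) * H z z' := by
      intro y'
      rw [Finset.sum_comm]
      refine Finset.sum_congr rfl fun z _ => ?_
      rw [Finset.sum_comm]
      refine Finset.sum_congr rfl fun z' _ => ?_
      rw [← h2, Finset.sum_mul]
      refine Finset.sum_congr rfl fun y _ => ?_
      rw [hD]
      push_cast
      rfl
    rw [Finset.sum_congr rfl fun y' _ => key y', Finset.sum_const, card_range, nsmul_eq_mul]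
  have h3 : ∀ z z' : ℕ, ‖((t : ℂ) * ∑ Y : ZMod q, G Y (z : ZMod q) (z' : ZMod q)) * H z z'‖ ≤
      (4 * t) * ‖∑ Y : ZMod q, G Y (z : ZMod q) (z' : ZMod q)‖ := by
    intro z z'
    rw [norm_mul, norm_mul, Complex.norm_natCast]
    have := mul_le_mul_of_nonneg_left (hH z z')
      (mul_nonneg (Nat.cast_nonneg t) (norm_nonneg (∑ Y : ZMod q, G Y (z : ZMod q) (z' : ZMod q))))
    linarith
  have h4 : ∑ z ∈ range (q * t), ∑ z' ∈ range (q * t),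
      ‖∑ Y : ZMod q, G Y (z : ZMod q) (z' : ZMod q)‖ =
      (t : ℝ) ^ 2 * ∑ Z : ZMod q, ∑ Z' : ZMod q, ‖∑ Y : ZMod q, G Y Z Z'‖ := by
    have h5 : ∀ z : ZMod q, ∑ z' ∈ range (q * t), ‖∑ Y : ZMod q, G Y z (z' : ZMod q)‖ =
        (t : ℝ) * ∑ Z' : ZMod q, ‖∑ Y : ZMod q, G Y z Z'‖ := by
      intro z
      rw [e8_range q t fun z' => ‖∑ Y : ZMod q, G Y z z'‖, nsmul_eq_mul]
    have h7 : ∑ z ∈ range (q * t), ∑ z' ∈ range (q * t),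
        ‖∑ Y : ZMod q, G Y (z : ZMod q) (z' : ZMod q)‖ =
        ∑ z ∈ range (q * t), (t : ℝ) * ∑ Z' : ZMod q, ‖∑ Y : ZMod q, G Y (z : ZMod q) Z'‖ :=
      Finset.sum_congr rfl fun z _ => h5 (z : ZMod q)
    rw [h7, e8_range q t fun z => (t : ℝ) * ∑ Z' : ZMod q, ‖∑ Y : ZMod q, G Y z Z'‖, nsmul_eq_mul,
      ← Finset.mul_sum]
    ring
  rw [h1, norm_mul, Complex.norm_natCast]
  have h6 : ‖∑ z ∈ range (q * t), ∑ z' ∈ range (q * t),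
      ((t : ℂ) * ∑ Y : ZMod q, G Y (z : ZMod q) (z' : ZMod q)) * H z z'‖ ≤
      (4 * t) * ((t : ℝ) ^ 2 * ∑ Z : ZMod q, ∑ Z' : ZMod q, ‖∑ Y : ZMod q, G Y Z Z'‖) := by
    rw [← h4, Finset.mul_sum]
    refine (norm_sum_le _ _).trans (Finset.sum_le_sum fun z _ => ?_)
    rw [Finset.mul_sum]
    exact (norm_sum_le _ _).trans (Finset.sum_le_sum fun z' _ => h3 z z')
  calc _ ≤ ((q * t : ℕ) : ℝ) * ((4 * t) * ((t : ℝ) ^ 2 *
        ∑ Z : ZMod q, ∑ Z' : ZMod q, ‖∑ Y : ZMod q, G Y Z Z'‖)) :=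
        mul_le_mul_of_nonneg_left h6 (Nat.cast_nonneg _)
    _ = _ := by ring

theorem e8_sum (l a : ℕ) (hl : l.Prime) [NeZero (l ^ a)] (A : ZMod (l ^ a) → ZMod (l ^ a) → ℂ)
    (hA : ∑ z, ∑ z', ‖A z z'‖ ^ 2 ≤ 96 * ((l ^ a : ℕ) : ℝ) ^ 4 * (l : ℝ) ^ (-(a / 9 : ℝ))) :
    ∑ z, ∑ z', ‖A z z'‖ ≤ 10 * ((l ^ a : ℕ) : ℝ) ^ 3 * ((l ^ a : ℕ) : ℝ) ^ (-(1 / 18 : ℝ)) := by
  have h := E1_cs l a hl A (fun z z' => (starRingEnd ℂ) (A z z') / (‖A z z'‖ : ℂ)) 1 1 zero_le_one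
    zero_le_one (by rw [one_pow, one_mul]; exact hA) (fun z z' => by
      rw [norm_div, RCLike.norm_conj, Complex.norm_real, norm_norm]
      exact div_self_le_one _)
  have h1 : ∀ z z', A z z' * ((starRingEnd ℂ) (A z z') / (‖A z z'‖ : ℂ)) = (‖A z z'‖ : ℂ) := by
    intro z z'
    by_cases h0 : A z z' = 0
    · rw [h0]
      simp
    · have h2 : (‖A z z'‖ : ℂ) ≠ 0 := by
        rw [Ne, Complex.ofReal_eq_zero, norm_eq_zero]
        exact h0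
      rw [← mul_div_assoc, Complex.mul_conj, Complex.normSq_eq_norm_sq, div_eq_iff h2]
      push_cast
      ring
  simp only [h1] at h
  have h3 : (∑ z, ∑ z', (‖A z z'‖ : ℂ)) = ((∑ z, ∑ z', ‖A z z'‖ : ℝ) : ℂ) := by
    push_cast
    rfl
  rw [h3, Complex.norm_real, Real.norm_eq_abs, abs_of_nonneg (Finset.sum_nonneg fun z _ =>
    Finset.sum_nonneg fun z' _ => norm_nonneg _)] at h
  linarith

theorem e8_fin (l a b : ℕ) (hl : l.Prime) (hab : a ≤ b) [NeZero (l ^ a)] (c : ℝ) (hc : |c| ≤ 2)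
    (A : ZMod (l ^ a) → ZMod (l ^ a) → ZMod (l ^ a) → ℂ) (H : ℤ → ℤ → ℂ)
    (hH : ∀ z z', ‖H z z'‖ ≤ 4)
    (hA : ∑ z, ∑ z', ‖∑ y, A y z z'‖ ^ 2 ≤
      96 * ((l ^ a : ℕ) : ℝ) ^ 4 * (l : ℝ) ^ (-(a / 9 : ℝ)))
    (D : ℤ → ℤ → ℤ → ℤ → ℂ)
    (hD : ∀ y y' z z' : ℤ, D y y' z z' =
      (((c ^ 2 : ℝ) : ℂ) * A (y : ZMod (l ^ a)) (z : ZMod (l ^ a)) (z' : ZMod (l ^ a))) * H z z') :
    ‖S4 (l ^ b) D‖ ≤ ((l ^ b : ℕ) : ℝ) ^ 4 * (2 ^ 10 * ((l ^ a : ℕ) : ℝ) ^ (-(1 / 18 : ℝ))) := by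
  have hN : l ^ b = l ^ a * l ^ (b - a) := by
    rw [← pow_add]
    congr 1
    omega
  have h1 := e8_main (l ^ a) (l ^ (b - a)) (fun y z z' => ((c ^ 2 : ℝ) : ℂ) * A y z z') H hH D hD
  have h2 := e8_sum l a hl (fun z z' => ∑ y, A y z z') hA
  have h3 : ∑ Z, ∑ Z', ‖∑ Y, ((c ^ 2 : ℝ) : ℂ) * A Y Z Z'‖ = c ^ 2 * ∑ Z, ∑ Z', ‖∑ Y, A Y Z Z'‖ := by
    rw [Finset.mul_sum]
    refine Finset.sum_congr rfl fun Z _ => ?_
    rw [Finset.mul_sum]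
    refine Finset.sum_congr rfl fun Z' _ => ?_
    rw [← Finset.mul_sum, norm_mul, Complex.norm_real, Real.norm_eq_abs, abs_of_nonneg (sq_nonneg c)]
  rw [h3] at h1
  have hc2 : c ^ 2 ≤ 4 := by
    have := abs_le.1 hc
    nlinarith
  rw [hN]
  refine h1.trans ?_
  obtain ⟨X, hX⟩ : ∃ X, X = ∑ Z, ∑ Z', ‖∑ Y, A Y Z Z'‖ := ⟨_, rfl⟩
  obtain ⟨e, he⟩ : ∃ e, e = ((l ^ a : ℕ) : ℝ) ^ (-(1 / 18 : ℝ)) := ⟨_, rfl⟩
  rw [← hX] at h2 ⊢
  rw [← he] at h2 ⊢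
  have hX0 : 0 ≤ X := by
    rw [hX]
    exact Finset.sum_nonneg fun z _ => Finset.sum_nonneg fun z' _ => norm_nonneg _
  have he0 : 0 ≤ e := by
    rw [he]
    exact Real.rpow_nonneg (Nat.cast_nonneg _) _
  obtain ⟨Q, hQ⟩ : ∃ Q : ℝ, Q = ((l ^ a : ℕ) : ℝ) := ⟨_, rfl⟩
  obtain ⟨T, hT⟩ : ∃ T : ℝ, T = ((l ^ (b - a) : ℕ) : ℝ) := ⟨_, rfl⟩
  have hQ0 : 0 ≤ Q := by
    rw [hQ]
    exact Nat.cast_nonneg _
  have hT0 : 0 ≤ T := by
    rw [hT]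
    exact Nat.cast_nonneg _
  rw [← hQ] at h2
  rw [Nat.cast_mul, ← hQ, ← hT]
  have h4 : c ^ 2 * X ≤ 4 * (10 * Q ^ 3 * e) := mul_le_mul hc2 h2 hX0 (by norm_num)
  calc 4 * (Q * T) * T ^ 3 * (c ^ 2 * X) ≤ 4 * (Q * T) * T ^ 3 * (4 * (10 * Q ^ 3 * e)) :=
        mul_le_mul_of_nonneg_left h4 (by positivity)
    _ = (Q * T) ^ 4 * (160 * e) := by ring
    _ ≤ (Q * T) ^ 4 * (2 ^ 10 * e) := by
        refine mul_le_mul_of_nonneg_left ?_ (by positivity)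
        nlinarith

/-- Here the first two functions have period `l^a` and the third one `l^b`, `a ≤ b`. Proof. The sum over `y'` gives the factor
`l^b`. The sum over `y < l^b` of the functions of period `l^a` is `l^(b-a)` times the complete sum `A(z, z')` over `ZMod (l^a)`
(as `E1_plus` resp. `E1_minus`, times `c²`); `∑_{z,z' < l^b} ‖A‖ = l^(2(b-a)) ∑_{z,z' ∈ ZMod (l^a)} ‖A‖`, and the third
functions are at most `2` each: as in `E2_four` the total is at most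
`4 · l^b l^(b-a) l^(2(b-a)) · 10 · 4 · l^(3a) (l^a)^(-1/18) = 160 l^(4b) (l^a)^(-1/18)`. -/
theorem E8_pair (l a b : ℕ) (hl : l.Prime) (ha : 1 ≤ a) (hab : a ≤ b) (χ : DirichletCharacter ℂ (l ^ a))
    (hχ : χ.IsPrimitive) (c : ℝ) (hc : |c| ≤ 2) (g g' : Fin 3 → ℤ → ℂ)
    (hp : ∀ i, i ≠ 2 → ∀ m, g i (m + (l ^ a : ℕ)) = g i m)
    (hp' : ∀ i, i ≠ 2 → ∀ m, g' i (m + (l ^ a : ℕ)) = g' i m)
    (hb : ∀ i m, ‖g i m‖ ≤ 2) (hb' : ∀ i m, ‖g' i m‖ ≤ 2) (i0 : Fin 3) (hi0 : i0 ≠ 2)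
    (h : ∀ m : ℤ, g i0 m = c * (starRingEnd ℂ) (χ (m : ZMod (l ^ a))))
    (h' : ∀ m : ℤ, g' i0 m = c * (starRingEnd ℂ) (χ (m : ZMod (l ^ a)))) :
    ‖S4 (l ^ b) (Db tf g g')‖ ≤ ((l ^ b : ℕ) : ℝ) ^ 4 * (2 ^ 10 * ((l ^ a : ℕ) : ℝ) ^ (-(1 / 18 : ℝ))) := by
  have : NeZero (l ^ a) := ⟨pow_ne_zero _ hl.ne_zero⟩
  have hH : ∀ z z' : ℤ, ‖g 2 (2 * z - 3) * (starRingEnd ℂ) (g' 2 (2 * z' - 3))‖ ≤ 4 := by
    intro z z'
    rw [norm_mul, RCLike.norm_conj]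
    have := mul_le_mul (hb 2 (2 * z - 3)) (hb' 2 (2 * z' - 3)) (norm_nonneg _) (by norm_num)
    linarith
  have hi : i0 = 0 ∨ i0 = 1 := by
    fin_cases i0
    · exact Or.inl rfl
    · exact Or.inr rfl
    · exact absurd rfl hi0
  rcases hi with rfl | rfl
  · obtain ⟨G, hG⟩ := C3_fun (l ^ a) (g 1) (hp 1 (by decide))
    obtain ⟨G', hG'⟩ := C3_fun (l ^ a) (g' 1) (hp' 1 (by decide))
    have hGb : ∀ t, ‖G t‖ ≤ 2 := fun t => by
      obtain ⟨m, rfl⟩ := ZMod.intCast_surjective t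
      rw [← hG]
      exact hb 1 m
    have hGb' : ∀ t, ‖G' t‖ ≤ 2 := fun t => by
      obtain ⟨m, rfl⟩ := ZMod.intCast_surjective t
      rw [← hG']
      exact hb' 1 m
    refine e8_fin l a b hl hab c hc (fun y z z' => star (χ (y + z)) * χ (y + z') *
      (G (y - z) * star (G' (y - z')))) (fun z z' => g 2 (2 * z - 3) *
        (starRingEnd ℂ) (g' 2 (2 * z' - 3))) hH (E1_plus l a hl ha χ hχ G G' hGb hGb') _ ?_
    intro y y' z z'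
    unfold Db tf
    rw [Fin.prod_univ_three]
    simp only [Matrix.cons_val_zero, Matrix.cons_val_one, Matrix.cons_val]
    rw [h, h', hG, hG']
    push_cast
    simp only [map_mul, Complex.conj_ofReal, Complex.conj_conj, Complex.star_def]
    ring
  · obtain ⟨G, hG⟩ := C3_fun (l ^ a) (g 0) (hp 0 (by decide))
    obtain ⟨G', hG'⟩ := C3_fun (l ^ a) (g' 0) (hp' 0 (by decide))
    have hGb : ∀ t, ‖G t‖ ≤ 2 := fun t => by
      obtain ⟨m, rfl⟩ := ZMod.intCast_surjective t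
      rw [← hG]
      exact hb 0 m
    have hGb' : ∀ t, ‖G' t‖ ≤ 2 := fun t => by
      obtain ⟨m, rfl⟩ := ZMod.intCast_surjective t
      rw [← hG']
      exact hb' 0 m
    refine e8_fin l a b hl hab c hc (fun y z z' => star (χ (y - z)) * χ (y - z') *
      (G (y + z) * star (G' (y + z')))) (fun z z' => g 2 (2 * z - 3) *
        (starRingEnd ℂ) (g' 2 (2 * z' - 3))) hH (E1_minus l a hl ha χ hχ G G' hGb hGb') _ ?_
    intro y y' z z'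
    unfold Db tf
    rw [Fin.prod_univ_three]
    simp only [Matrix.cons_val_zero, Matrix.cons_val_one, Matrix.cons_val]
    rw [h, h', hG, hG']
    push_cast
    simp only [map_mul, Complex.conj_ofReal, Complex.conj_conj, Complex.star_def]
    ring

end Pool.Agent.Lib.H59T
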