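import Pool.Agent.Lib.H59T.FDefs

/-!
# Project H59T, chunk E3 (M): two independent linear forms modulo a prime
-/

open Finset

namespace Pool.Agent.Lib.H59T

theorem e3_prod (i j : Fin 4) (hij : i ≠ j) (A B L : ℂ) :
    ∏ k : Fin 4, (if k = i then A else if k = j then B else L) = L ^ 2 * (A * B) := by
  revert hij
  fin_cases i <;> fin_cases j <;> intro hij <;> first | exact absurd rfl hij | (rw [Fin.prod_univ_four]; simp; try ring)

theorem e3_ij (l : ℕ) [Fact l.Prime] (i j : Fin 4) (hij : i ≠ j) (f g : ZMod l → ℂ) :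
    ∑ x : Fin 4 → ZMod l, f (x i) * g (x j) = (l : ℂ) ^ 2 * ((∑ t, f t) * ∑ t, g t) := by
  have h1 : ∀ x : Fin 4 → ZMod l, f (x i) * g (x j) = ∏ k : Fin 4, (if k = i then f (x k) else if k = j then g (x k) else 1) := by
    intro x
    have h2 : ∏ k : Fin 4, (if k = i then f (x k) else if k = j then g (x k) else 1) =
        ∏ k : Fin 4, (if k = i then f (x i) else if k = j then g (x j) else 1) := by
      refine Finset.prod_congr rfl fun k _ => ?_
      split_ifs with h3 h4
      · rw [h3]
      · rw [h4]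
      · rfl
    rw [h2, e3_prod i j hij, one_pow, one_mul]
  rw [Finset.sum_congr rfl fun x _ => h1 x]
  have h3 := Finset.prod_univ_sum (fun _ : Fin 4 => (univ : Finset (ZMod l)))
    (fun k t => if k = i then f t else if k = j then g t else (1 : ℂ))
  rw [Fintype.piFinset_univ] at h3
  rw [← h3]
  have h4 : ∀ k : Fin 4, ∑ t : ZMod l, (if k = i then f t else if k = j then g t else (1 : ℂ)) =
      if k = i then ∑ t, f t else if k = j then ∑ t, g t else (l : ℂ) := by
    intro k
    split_ifs with h5 h6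
    · rfl
    · rfl
    · simp [ZMod.card]
  rw [Finset.prod_congr rfl fun k _ => h4 k, e3_prod i j hij]

/-- Proof. Replace the coordinates `i, j` of `x` by `∑ u_k x_k + c` and `∑ v_k x_k + d`: this map of `Fin 4 → ZMod l` to itself is
injective (the minor is not `0`), so bijective (`Finite.injective_iff_bijective`), and the sum becomes
`∑_x f (x i) g (x j) = l² (∑ f) (∑ g)` (`Finset.prod_univ_sum`/`Fintype.piFinset_univ`, `i ≠ j` because the minor is not `0`). -/
theorem E3_two (l : ℕ) [Fact l.Prime] (u v : Fin 4 → ZMod l) (c d : ZMod l) (i j : Fin 4)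
    (hij : u i * v j - u j * v i ≠ 0) (f g : ZMod l → ℂ) :
    ∑ x : Fin 4 → ZMod l, f (∑ k, u k * x k + c) * g (∑ k, v k * x k + d) =
      (l : ℂ) ^ 2 * ((∑ t, f t) * ∑ t, g t) := by
  have hne : i ≠ j := by
    rintro rfl
    exact hij (by ring)
  let Φ : (Fin 4 → ZMod l) → (Fin 4 → ZMod l) := fun x =>
    Function.update (Function.update x i (∑ k, u k * x k + c)) j (∑ k, v k * x k + d)
  have hΦi : ∀ x, Φ x i = ∑ k, u k * x k + c := by
    intro x
    simp [Φ, Function.update_of_ne hne]
  have hΦj : ∀ x, Φ x j = ∑ k, v k * x k + d := by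
    intro x
    simp [Φ]
  have hΦk : ∀ x k, k ≠ i → k ≠ j → Φ x k = x k := by
    intro x k h1 h2
    simp [Φ, Function.update_of_ne h1, Function.update_of_ne h2]
  have hinj : Function.Injective Φ := by
    intro x y hxy
    have h1 : ∀ k, k ≠ i → k ≠ j → x k - y k = 0 := by
      intro k h1 h2
      rw [← hΦk x k h1 h2, ← hΦk y k h1 h2, hxy, sub_self]
    have hsum : ∀ w : Fin 4 → ZMod l, ∑ k, w k * (x k - y k) = w i * (x i - y i) + w j * (x j - y j) := by
      intro w
      have : ∑ k, w k * (x k - y k) = ∑ k ∈ ({i, j} : Finset (Fin 4)), w k * (x k - y k) := by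
        refine (Finset.sum_subset (Finset.subset_univ _) fun k _ hk => ?_).symm
        rw [Finset.mem_insert, Finset.mem_singleton] at hk
        push Not at hk
        rw [h1 k hk.1 hk.2, mul_zero]
      rw [this, Finset.sum_pair hne]
    have h2 : ∑ k, u k * (x k - y k) = 0 := by
      have h3 := hΦi x
      rw [hxy, hΦi y] at h3
      simp only [mul_sub, Finset.sum_sub_distrib]
      linear_combination -h3
    have h2' : ∑ k, v k * (x k - y k) = 0 := by
      have h3 := hΦj x
      rw [hxy, hΦj y] at h3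
      simp only [mul_sub, Finset.sum_sub_distrib]
      linear_combination -h3
    rw [hsum u] at h2
    rw [hsum v] at h2'
    have h5 : (u i * v j - u j * v i) * (x i - y i) = 0 := by
      linear_combination v j * h2 - u j * h2'
    have h6 : (u i * v j - u j * v i) * (x j - y j) = 0 := by
      linear_combination -v i * h2 + u i * h2'
    have h5' := (mul_eq_zero.1 h5).resolve_left hij
    have h6' := (mul_eq_zero.1 h6).resolve_left hij
    funext k
    by_cases hki : k = i
    · rw [hki]; exact sub_eq_zero.1 h5'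
    · by_cases hkj : k = j
      · rw [hkj]; exact sub_eq_zero.1 h6'
      · exact sub_eq_zero.1 (h1 k hki hkj)
  have hbij : Function.Bijective Φ := Finite.injective_iff_bijective.1 hinj
  rw [← e3_ij l i j hne f g, ← hbij.sum_comp (fun x => f (x i) * g (x j))]
  refine Finset.sum_congr rfl fun x _ => ?_
  rw [hΦi, hΦj]

/-- Proof. `E3_two` with the form `v = e_j`, `j ≠ i`, and `g = 1`. -/
theorem E3_one (l : ℕ) [Fact l.Prime] (u : Fin 4 → ZMod l) (c : ZMod l) (i : Fin 4) (hi : u i ≠ 0)
    (f : ZMod l → ℂ) : ∑ x : Fin 4 → ZMod l, f (∑ k, u k * x k + c) = (l : ℂ) ^ 3 * ∑ t, f t := by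
  obtain ⟨j, hj⟩ : ∃ j : Fin 4, j ≠ i := exists_ne i
  have h := E3_two l u (Pi.single j 1) c 0 i j (by
    rw [Pi.single_eq_same, Pi.single_eq_of_ne hj.symm]
    simpa using hi) f (fun _ => 1)
  simp only [mul_one] at h
  rw [h]
  simp [ZMod.card]
  ring

/-- The number of the common zeros. Proof. `E3_two` with the indicator function of `0`. -/
theorem E3_zero (l : ℕ) [Fact l.Prime] (u v : Fin 4 → ZMod l) (c d : ZMod l) (i j : Fin 4)
    (hij : u i * v j - u j * v i ≠ 0) :
    ((univ : Finset (Fin 4 → ZMod l)).filter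
      (fun x => ∑ k, u k * x k + c = 0 ∧ ∑ k, v k * x k + d = 0)).card = l ^ 2 := by
  have h := E3_two l u v c d i j hij (fun t => if t = 0 then 1 else 0) (fun t => if t = 0 then 1 else 0)
  have h1 : ∑ t : ZMod l, (if t = 0 then (1 : ℂ) else 0) = 1 := by simp
  rw [h1, mul_one, mul_one] at h
  have h2 : (((univ : Finset (Fin 4 → ZMod l)).filter
      (fun x => ∑ k, u k * x k + c = 0 ∧ ∑ k, v k * x k + d = 0)).card : ℂ) = (l : ℂ) ^ 2 := by
    rw [← h, Finset.card_filter, Nat.cast_sum]
    refine Finset.sum_congr rfl fun x _ => ?_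
    by_cases ha : ∑ k, u k * x k + c = 0 <;> by_cases hb : ∑ k, v k * x k + d = 0 <;> simp [ha, hb]
  exact_mod_cast h2

/-- Proof. `(l - 1) (1/(l-1)) - 1 = 0`. -/
theorem E3_glz (l : ℕ) [Fact l.Prime] : ∑ t : ZMod l, glz l t = 0 := by
  have hl : (l : ℝ) - 1 ≠ 0 := by
    have : 2 ≤ l := (Fact.out : l.Prime).two_le
    have h : (2 : ℝ) ≤ l := by exact_mod_cast this
    linarith
  have h1 : ∀ t : ZMod l, glz l t = 1 / ((l : ℝ) - 1) + if t = 0 then (-1 - 1 / ((l : ℝ) - 1)) else 0 := by
    intro t
    rw [glz]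
    split_ifs <;> ring
  rw [Finset.sum_congr rfl fun t _ => h1 t, Finset.sum_add_distrib]
  simp [ZMod.card]
  field_simp
  ring

end Pool.Agent.Lib.H59T
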