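import Pool.Agent.Lib.H59T.C3
import Pool.Agent.Lib.H59T.E3

/-!
# Project H59T, chunk E9 (M): the three forms, a character at `2 z - 3` only
-/

open Finset

namespace Pool.Agent.Lib.H59T

open Pool.Agent.Lib.H68T Pool.Agent.Lib.H18Q Pool.Agent.Lib.H59P

/-- A primitive character is not `1` somewhere near `1`. Proof. Otherwise `χ` factors through `l^(a-1)`
(`DirichletCharacter.factorsThrough_iff_ker_unitsMap`), contradicting primitivity; compare `G2_mean` in `G2.lean`. -/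
theorem E9_near (l a : ℕ) (hl : l.Prime) (ha : 1 ≤ a) (χ : DirichletCharacter ℂ (l ^ a))
    (hχ : χ.IsPrimitive) : ∃ t : ℤ, IsCoprime (1 + (l : ℤ) ^ (a - 1) * t) l ∧
      χ ((1 + (l : ℤ) ^ (a - 1) * t : ℤ) : ZMod (l ^ a)) ≠ 1 := by
  sorry

/-- Proof. The sum over `z` (`y, y', z'` fixed) is `∑_z g_0(y+z) g_1(y-z) c conj χ(2z-3)`. Replace `z` by `z + l^e t`: `g_0, g_1`
do not change (`period l^e`), `2z - 3` changes by `2 l^e t`; with `2 l^e = l^(a-1) v` (`v` a unit modulo `l`: `e = a - 1`, `v = 2` for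
`l` odd, `e = a - 2`, `v = 1` for `l = 2`), `χ(2z - 3 + l^(a-1) v t) = χ(2z-3) χ(1 + l^(a-1) v t (2z-3)⁻¹)` for a unit
`2z - 3`. Sum over `t` modulo `l` first: `t ↦ χ(1 + l^(a-1) w t)` (`w` a unit) is, if `a ≥ 2`, an additive character of
`ZMod l`, nontrivial by `E9_near`; so the sum over `z` vanishes. -/
theorem E9_zero (l a e : ℕ) (hl : l.Prime) (ha : 2 ≤ a) (he1 : 1 ≤ e)
    (he : (l ≠ 2 ∧ e + 1 = a) ∨ (l = 2 ∧ e + 2 = a)) (χ : DirichletCharacter ℂ (l ^ a))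
    (hχ : χ.IsPrimitive) (c : ℝ) (g g' : Fin 3 → ℤ → ℂ)
    (hp : ∀ i, i ≠ 2 → ∀ m, g i (m + (l ^ e : ℕ)) = g i m)
    (hp' : ∀ i, i ≠ 2 → ∀ m, g' i (m + (l ^ e : ℕ)) = g' i m)
    (h : ∀ m : ℤ, g 2 m = c * (starRingEnd ℂ) (χ (m : ZMod (l ^ a))))
    (h' : ∀ m : ℤ, g' 2 m = c * (starRingEnd ℂ) (χ (m : ZMod (l ^ a)))) :
    S4 (l ^ a) (Db tf g g') = 0 := by
  sorry

end Pool.Agent.Lib.H59T
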