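import Pool.Agent.Lib.H59T.C3
import Pool.Agent.Lib.H59T.E3

/-!
# Project H59T, chunk E9P (M): the three forms, prime modulus, a character at `2 z - 3` only
-/

open Finset

namespace Pool.Agent.Lib.H59T

open Pool.Agent.Lib.H68T Pool.Agent.Lib.H18Q Pool.Agent.Lib.H59P

/-- Prime modulus. Proof. `l ≠ 2` (no primitive character modulo `2`), `χ ≠ 1`. If all `g_i, g'_i` (`i ≠ 2`) are `1`, the sum over
`z` is `c ∑_z conj χ(2z-3) = 0`. Otherwise one of them is `gl l` at a form which is not constant; bound the others by `1`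
and the third ones by `2`: at most `4 ∑_x |glz l(form)| = 4 l³ ∑_t |glz l t| = 8 l³` (`E3_one`, `C3_fin`). -/
theorem E9_prime (l : ℕ) (hl : l.Prime) (χ : DirichletCharacter ℂ l) (hχ : χ.IsPrimitive) (c : ℝ)
    (hc : |c| ≤ 2) (g g' : Fin 3 → ℤ → ℂ)
    (hg : ∀ i, i ≠ 2 → (∀ m, g i m = ((gl l m : ℝ) : ℂ)) ∨ ∀ m, g i m = 1)
    (hg' : ∀ i, i ≠ 2 → (∀ m, g' i m = ((gl l m : ℝ) : ℂ)) ∨ ∀ m, g' i m = 1)
    (h : ∀ m : ℤ, g 2 m = c * (starRingEnd ℂ) (χ (m : ZMod l)))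
    (h' : ∀ m : ℤ, g' 2 m = c * (starRingEnd ℂ) (χ (m : ZMod l))) :
    ‖S4 l (Db tf g g')‖ ≤ 8 * (l : ℝ) ^ 3 := by
  sorry

end Pool.Agent.Lib.H59T
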