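import Pool.Agent.Lib.H59T.E7
import Pool.Agent.Lib.H59T.E6
import Pool.Agent.Lib.H59T.E8
import Pool.Agent.Lib.H59T.E9
import Pool.Agent.Lib.H59T.E9P

/-!
# Project H59T, chunk E10 (M): the local bounds for the three forms
-/

open Finset

namespace Pool.Agent.Lib.H59T

open Pool.Agent.Lib.H68T Pool.Agent.Lib.H18Q Pool.Agent.Lib.H59P

/-- **The local bounds for the three forms.** Proof. `l ∤ Rm p`: as in `E7_four`, with `E6_three`. `l ∣ Rm p`: let
`a_i = (p i).1.factorization l`, `a = max a_i` (`E7_attained`), and let `a' = max(a_0, a_1)`. If `a' ≥ a - 1` and `a' ≥ 1`, and `l = 2` or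
`a' = a`: `E8_pair` with `a'` and `b = a` (`(l^(a'))^(-1/18) ≤ 2 (l^a)^(-1/18)` in the case `l = 2`). Otherwise `a_2 = a`, and:
`l` odd, `a' < a`: for `a ≥ 2` `E9_zero` with `e = a - 1`; for `a = 1` `E9_prime` (`8 l³ ≤ l⁴ 2^12 l^(-1/18)`; transport along
`l^1 = l`). `l = 2`, `a' < a`, not (`a' = a - 1 ≥ 1`): `a ≤ 2` trivial bound `2^6` (`C3_triv`), `4^(1/18) ≤ 2`; `a ≥ 3`: `a' ≤ a - 2`,
`E9_zero` with `e = a - 2`. -/
theorem E10_three : LocB tf 12 (1 / 18) := by
  sorry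

/-- Proof. Differences of the values. -/
theorem E10_cp : CpF tf := by
  sorry

end Pool.Agent.Lib.H59T
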