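import Pool.Agent.Lib.H59T.E1
import Pool.Agent.Lib.H59T.C3

/-!
# Project H59T, chunk E2 (M): the four forms at a prime dividing the conductors
-/

open Finset

namespace Pool.Agent.Lib.H59T

/-- the sum over `y` of two forms, conductor in `y + z` -/
theorem e2_plus (l a : ℕ) (hl : l.Prime) (ha : 1 ≤ a) [NeZero (l ^ a)] (χ : DirichletCharacter ℂ (l ^ a))
    (hχ : χ.IsPrimitive) (c : ℝ) (hc : |c| ≤ 2) (G0 G0' G1 G1' : ZMod (l ^ a) → ℂ)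
    (h0 : ∀ t, G0 t = c * (starRingEnd ℂ) (χ t)) (h0' : ∀ t, G0' t = c * (starRingEnd ℂ) (χ t))
    (h1 : ∀ t, ‖G1 t‖ ≤ 2) (h1' : ∀ t, ‖G1' t‖ ≤ 2) :
    ∑ z : ZMod (l ^ a), ∑ z' : ZMod (l ^ a), ‖∑ y : ZMod (l ^ a),
      (G0 (y + z) * (starRingEnd ℂ) (G0' (y + z'))) * (G1 (y - z) * (starRingEnd ℂ) (G1' (y - z')))‖ ^ 2 ≤
      4 ^ 2 * (96 * ((l ^ a : ℕ) : ℝ) ^ 4 * (l : ℝ) ^ (-(a / 9 : ℝ))) := by
  have h := E1_plus l a hl ha χ hχ G1 G1' h1 h1'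
  have e1 : ∀ z z' : ZMod (l ^ a), ‖∑ y : ZMod (l ^ a),
      (G0 (y + z) * (starRingEnd ℂ) (G0' (y + z'))) * (G1 (y - z) * (starRingEnd ℂ) (G1' (y - z')))‖ ^ 2 =
      (|c| ^ 2) ^ 2 * ‖∑ y : ZMod (l ^ a), star (χ (y + z)) * χ (y + z') * (G1 (y - z) * star (G1' (y - z')))‖ ^ 2 := by
    intro z z'
    have e2 : ∑ y : ZMod (l ^ a),
      (G0 (y + z) * (starRingEnd ℂ) (G0' (y + z'))) * (G1 (y - z) * (starRingEnd ℂ) (G1' (y - z'))) =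
        ((c : ℂ) ^ 2) * ∑ y : ZMod (l ^ a), star (χ (y + z)) * χ (y + z') * (G1 (y - z) * star (G1' (y - z'))) := by
      rw [Finset.mul_sum]
      refine Finset.sum_congr rfl fun y _ => ?_
      rw [h0, h0', map_mul, Complex.conj_conj, Complex.conj_ofReal]
      simp only [← starRingEnd_apply]
      ring
    rw [e2, norm_mul, norm_pow, Complex.norm_real, Real.norm_eq_abs, mul_pow]
  have hc4 : (|c| ^ 2) ^ 2 ≤ 4 ^ 2 := by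
    have hc2 : |c| ^ 2 ≤ 4 := by
      nlinarith [abs_nonneg c]
    exact pow_le_pow_left₀ (by positivity) hc2 2
  calc _ = (|c| ^ 2) ^ 2 * ∑ z : ZMod (l ^ a), ∑ z' : ZMod (l ^ a), ‖∑ y : ZMod (l ^ a),
        star (χ (y + z)) * χ (y + z') * (G1 (y - z) * star (G1' (y - z')))‖ ^ 2 := by
        rw [Finset.mul_sum]
        refine Finset.sum_congr rfl fun z _ => ?_
        rw [Finset.mul_sum]
        exact Finset.sum_congr rfl fun z' _ => e1 z z'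
    _ ≤ 4 ^ 2 * (96 * ((l ^ a : ℕ) : ℝ) ^ 4 * (l : ℝ) ^ (-(a / 9 : ℝ))) :=
      mul_le_mul hc4 h (Finset.sum_nonneg fun _ _ => Finset.sum_nonneg fun _ _ => by positivity) (by norm_num)

/-- the sum over `y` of two forms, conductor in `y - z` -/
theorem e2_minus (l a : ℕ) (hl : l.Prime) (ha : 1 ≤ a) [NeZero (l ^ a)] (χ : DirichletCharacter ℂ (l ^ a))
    (hχ : χ.IsPrimitive) (c : ℝ) (hc : |c| ≤ 2) (G0 G0' G1 G1' : ZMod (l ^ a) → ℂ)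
    (h0 : ∀ t, G1 t = c * (starRingEnd ℂ) (χ t)) (h0' : ∀ t, G1' t = c * (starRingEnd ℂ) (χ t))
    (h1 : ∀ t, ‖G0 t‖ ≤ 2) (h1' : ∀ t, ‖G0' t‖ ≤ 2) :
    ∑ z : ZMod (l ^ a), ∑ z' : ZMod (l ^ a), ‖∑ y : ZMod (l ^ a),
      (G0 (y + z) * (starRingEnd ℂ) (G0' (y + z'))) * (G1 (y - z) * (starRingEnd ℂ) (G1' (y - z')))‖ ^ 2 ≤
      4 ^ 2 * (96 * ((l ^ a : ℕ) : ℝ) ^ 4 * (l : ℝ) ^ (-(a / 9 : ℝ))) := by
  have h := E1_minus l a hl ha χ hχ G0 G0' h1 h1'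
  have e1 : ∀ z z' : ZMod (l ^ a), ‖∑ y : ZMod (l ^ a),
      (G0 (y + z) * (starRingEnd ℂ) (G0' (y + z'))) * (G1 (y - z) * (starRingEnd ℂ) (G1' (y - z')))‖ ^ 2 =
      (|c| ^ 2) ^ 2 * ‖∑ y : ZMod (l ^ a), star (χ (y - z)) * χ (y - z') * (G0 (y + z) * star (G0' (y + z')))‖ ^ 2 := by
    intro z z'
    have e2 : ∑ y : ZMod (l ^ a),
      (G0 (y + z) * (starRingEnd ℂ) (G0' (y + z'))) * (G1 (y - z) * (starRingEnd ℂ) (G1' (y - z'))) =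
        ((c : ℂ) ^ 2) * ∑ y : ZMod (l ^ a), star (χ (y - z)) * χ (y - z') * (G0 (y + z) * star (G0' (y + z'))) := by
      rw [Finset.mul_sum]
      refine Finset.sum_congr rfl fun y _ => ?_
      rw [h0, h0', map_mul, Complex.conj_conj, Complex.conj_ofReal]
      simp only [← starRingEnd_apply]
      ring
    rw [e2, norm_mul, norm_pow, Complex.norm_real, Real.norm_eq_abs, mul_pow]
  have hc4 : (|c| ^ 2) ^ 2 ≤ 4 ^ 2 := by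
    have hc2 : |c| ^ 2 ≤ 4 := by
      nlinarith [abs_nonneg c]
    exact pow_le_pow_left₀ (by positivity) hc2 2
  calc _ = (|c| ^ 2) ^ 2 * ∑ z : ZMod (l ^ a), ∑ z' : ZMod (l ^ a), ‖∑ y : ZMod (l ^ a),
        star (χ (y - z)) * χ (y - z') * (G0 (y + z) * star (G0' (y + z')))‖ ^ 2 := by
        rw [Finset.mul_sum]
        refine Finset.sum_congr rfl fun z _ => ?_
        rw [Finset.mul_sum]
        exact Finset.sum_congr rfl fun z' _ => e1 z z'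
    _ ≤ 4 ^ 2 * (96 * ((l ^ a : ℕ) : ℝ) ^ 4 * (l : ℝ) ^ (-(a / 9 : ℝ))) :=
      mul_le_mul hc4 h (Finset.sum_nonneg fun _ _ => Finset.sum_nonneg fun _ _ => by positivity) (by norm_num)

/-- the trivial bound for the sum over `y` -/
theorem e2_triv (q : ℕ) [NeZero q] (G0 G0' G1 G1' : ZMod q → ℂ) (b0 : ∀ t, ‖G0 t‖ ≤ 2) (b0' : ∀ t, ‖G0' t‖ ≤ 2)
    (b1 : ∀ t, ‖G1 t‖ ≤ 2) (b1' : ∀ t, ‖G1' t‖ ≤ 2) (z z' : ZMod q) :
    ‖∑ y : ZMod q, (G0 (y + z) * (starRingEnd ℂ) (G0' (y + z'))) *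
      (G1 (y - z) * (starRingEnd ℂ) (G1' (y - z')))‖ ≤ 16 * (q : ℝ) := by
  calc _ ≤ ∑ y : ZMod q, ‖(G0 (y + z) * (starRingEnd ℂ) (G0' (y + z'))) *
      (G1 (y - z) * (starRingEnd ℂ) (G1' (y - z')))‖ := norm_sum_le _ _
    _ ≤ ∑ _y : ZMod q, (16 : ℝ) := by
      refine Finset.sum_le_sum fun y _ => ?_
      rw [norm_mul, norm_mul, norm_mul, RCLike.norm_conj, RCLike.norm_conj]
      calc _ ≤ ((2 : ℝ) * 2) * (2 * 2) :=
            mul_le_mul (mul_le_mul (b0 _) (b0' _) (norm_nonneg _) (by norm_num))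
              (mul_le_mul (b1 _) (b1' _) (norm_nonneg _) (by norm_num)) (by positivity) (by norm_num)
        _ = 16 := by norm_num
    _ = 16 * (q : ℝ) := by rw [Finset.sum_const, Finset.card_univ, ZMod.card, nsmul_eq_mul, mul_comm]

/-- Proof. `C3_fun`, `C3_nest`: the sum is over `z, z'` of (sum over `y`) (sum over `y'`). If `i0` is `0` or `1` the sum over `y` is
`A = c² ∑_y star χ(y+z) χ(y+z') g_1(y-z) star g'_1(y-z')` (resp. `E1_minus`), and the sum over `y'` is at most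
`16 q`, `q = l^a`; `E1_cs` with `M = 4`, `C = 16 q`: at most `640 q⁴ q^(-1/18)`. If `i0` is `2` or `3` exchange the roles of `y` and
`y'`. -/
theorem E2_four (l a : ℕ) (hl : l.Prime) (ha : 1 ≤ a) (χ : DirichletCharacter ℂ (l ^ a))
    (hχ : χ.IsPrimitive) (c : ℝ) (hc : |c| ≤ 2) (g g' : Fin 4 → ℤ → ℂ)
    (hp : ∀ i m, g i (m + (l ^ a : ℕ)) = g i m) (hp' : ∀ i m, g' i (m + (l ^ a : ℕ)) = g' i m)
    (hb : ∀ i m, ‖g i m‖ ≤ 2) (hb' : ∀ i m, ‖g' i m‖ ≤ 2) (i0 : Fin 4)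
    (h : ∀ m : ℤ, g i0 m = c * (starRingEnd ℂ) (χ (m : ZMod (l ^ a))))
    (h' : ∀ m : ℤ, g' i0 m = c * (starRingEnd ℂ) (χ (m : ZMod (l ^ a)))) :
    ‖S4 (l ^ a) (Db ff g g')‖ ≤ ((l ^ a : ℕ) : ℝ) ^ 4 * (2 ^ 10 * ((l ^ a : ℕ) : ℝ) ^ (-(1 / 18 : ℝ))) := by
  haveI : NeZero (l ^ a) := ⟨pow_ne_zero _ hl.ne_zero⟩
  choose G hG using fun i => C3_fun (l ^ a) (g i) (hp i)
  choose G' hG' using fun i => C3_fun (l ^ a) (g' i) (hp' i)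
  have hs : ∀ t : ZMod (l ^ a), ∃ m : ℤ, (m : ZMod (l ^ a)) = t := fun t => ZMod.intCast_surjective t
  have bG : ∀ i t, ‖G i t‖ ≤ 2 := by
    intro i t
    obtain ⟨m, rfl⟩ := hs t
    rw [← hG]
    exact hb i m
  have bG' : ∀ i t, ‖G' i t‖ ≤ 2 := by
    intro i t
    obtain ⟨m, rfl⟩ := hs t
    rw [← hG']
    exact hb' i m
  have hG0 : ∀ t, G i0 t = c * (starRingEnd ℂ) (χ t) := by
    intro t
    obtain ⟨m, rfl⟩ := hs t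
    rw [← hG]
    exact h m
  have hG0' : ∀ t, G' i0 t = c * (starRingEnd ℂ) (χ t) := by
    intro t
    obtain ⟨m, rfl⟩ := hs t
    rw [← hG']
    exact h' m
  have e1 : Db ff g g' = fun y y' z z' : ℤ =>
      (fun y y' z z' : ZMod (l ^ a) =>
        ((G 0 (y + z) * (starRingEnd ℂ) (G' 0 (y + z'))) * (G 1 (y - z) * (starRingEnd ℂ) (G' 1 (y - z')))) *
        ((G 2 (y' + z) * (starRingEnd ℂ) (G' 2 (y' + z'))) * (G 3 (y' - z) * (starRingEnd ℂ) (G' 3 (y' - z')))))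
        y y' z z' := by
    funext y y' z z'
    unfold Db
    rw [Fin.prod_univ_four]
    simp only [ff, hG, hG', Matrix.cons_val_zero, Matrix.cons_val_one, Matrix.cons_val]
    push_cast
    ring
  have e2 : S4 (l ^ a) (Db ff g g') = ∑ z : ZMod (l ^ a), ∑ z' : ZMod (l ^ a),
      (∑ y : ZMod (l ^ a), (G 0 (y + z) * (starRingEnd ℂ) (G' 0 (y + z'))) *
        (G 1 (y - z) * (starRingEnd ℂ) (G' 1 (y - z')))) *
      ∑ y' : ZMod (l ^ a), (G 2 (y' + z) * (starRingEnd ℂ) (G' 2 (y' + z'))) *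
        (G 3 (y' - z) * (starRingEnd ℂ) (G' 3 (y' - z'))) := by
    rw [e1, C3_nest (l ^ a) (fun y y' z z' : ZMod (l ^ a) =>
        ((G 0 (y + z) * (starRingEnd ℂ) (G' 0 (y + z'))) * (G 1 (y - z) * (starRingEnd ℂ) (G' 1 (y - z')))) *
        ((G 2 (y' + z) * (starRingEnd ℂ) (G' 2 (y' + z'))) * (G 3 (y' - z) * (starRingEnd ℂ) (G' 3 (y' - z')))))]
    have e3 : ∀ y : ZMod (l ^ a), ∑ y' : ZMod (l ^ a), ∑ z : ZMod (l ^ a), ∑ z' : ZMod (l ^ a),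
        ((G 0 (y + z) * (starRingEnd ℂ) (G' 0 (y + z'))) * (G 1 (y - z) * (starRingEnd ℂ) (G' 1 (y - z')))) *
        ((G 2 (y' + z) * (starRingEnd ℂ) (G' 2 (y' + z'))) * (G 3 (y' - z) * (starRingEnd ℂ) (G' 3 (y' - z')))) =
        ∑ z : ZMod (l ^ a), ∑ z' : ZMod (l ^ a), ∑ y' : ZMod (l ^ a),
        ((G 0 (y + z) * (starRingEnd ℂ) (G' 0 (y + z'))) * (G 1 (y - z) * (starRingEnd ℂ) (G' 1 (y - z')))) *
        ((G 2 (y' + z) * (starRingEnd ℂ) (G' 2 (y' + z'))) * (G 3 (y' - z) * (starRingEnd ℂ) (G' 3 (y' - z')))) := by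
      intro y
      rw [Finset.sum_comm]
      exact Finset.sum_congr rfl fun z _ => Finset.sum_comm
    rw [Finset.sum_congr rfl fun y _ => e3 y, Finset.sum_comm]
    refine Finset.sum_congr rfl fun z _ => ?_
    rw [Finset.sum_comm]
    refine Finset.sum_congr rfl fun z' _ => ?_
    rw [Finset.sum_mul_sum]
  have hq0 : (0 : ℝ) < ((l ^ a : ℕ) : ℝ) := by exact_mod_cast pow_pos hl.pos a
  have hfin : ∀ A B : ZMod (l ^ a) → ZMod (l ^ a) → ℂ,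
      ∑ z, ∑ z', ‖A z z'‖ ^ 2 ≤ 4 ^ 2 * (96 * ((l ^ a : ℕ) : ℝ) ^ 4 * (l : ℝ) ^ (-(a / 9 : ℝ))) →
      (∀ z z', ‖B z z'‖ ≤ 16 * ((l ^ a : ℕ) : ℝ)) →
      ‖∑ z, ∑ z', A z z' * B z z'‖ ≤
        ((l ^ a : ℕ) : ℝ) ^ 4 * (2 ^ 10 * ((l ^ a : ℕ) : ℝ) ^ (-(1 / 18 : ℝ))) := by
    intro A B hA hB
    refine (E1_cs l a hl A B 4 (16 * ((l ^ a : ℕ) : ℝ)) (by positivity) (by norm_num) hA hB).trans ?_
    have e4 : 10 * (16 * ((l ^ a : ℕ) : ℝ)) * 4 * ((l ^ a : ℕ) : ℝ) ^ 3 * ((l ^ a : ℕ) : ℝ) ^ (-(1 / 18 : ℝ)) =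
        640 * (((l ^ a : ℕ) : ℝ) ^ 4 * ((l ^ a : ℕ) : ℝ) ^ (-(1 / 18 : ℝ))) := by ring
    have e5 : ((l ^ a : ℕ) : ℝ) ^ 4 * (2 ^ 10 * ((l ^ a : ℕ) : ℝ) ^ (-(1 / 18 : ℝ))) =
        1024 * (((l ^ a : ℕ) : ℝ) ^ 4 * ((l ^ a : ℕ) : ℝ) ^ (-(1 / 18 : ℝ))) := by ring
    rw [e4, e5]
    exact mul_le_mul_of_nonneg_right (by norm_num) (by positivity)
  have hsw : ∀ A B : ZMod (l ^ a) → ZMod (l ^ a) → ℂ, ∑ z, ∑ z', A z z' * B z z' = ∑ z, ∑ z', B z z' * A z z' :=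
    fun A B => Finset.sum_congr rfl fun z _ => Finset.sum_congr rfl fun z' _ => mul_comm _ _
  rw [e2]
  fin_cases i0
  · exact hfin _ _ (e2_plus l a hl ha χ hχ c hc _ _ _ _ hG0 hG0' (bG 1) (bG' 1))
      (fun z z' => e2_triv (l ^ a) _ _ _ _ (bG 2) (bG' 2) (bG 3) (bG' 3) z z')
  · exact hfin _ _ (e2_minus l a hl ha χ hχ c hc _ _ _ _ hG0 hG0' (bG 0) (bG' 0))
      (fun z z' => e2_triv (l ^ a) _ _ _ _ (bG 2) (bG' 2) (bG 3) (bG' 3) z z')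
  · rw [hsw]
    exact hfin _ _ (e2_plus l a hl ha χ hχ c hc _ _ _ _ hG0 hG0' (bG 3) (bG' 3))
      (fun z z' => e2_triv (l ^ a) _ _ _ _ (bG 0) (bG' 0) (bG 1) (bG' 1) z z')
  · rw [hsw]
    exact hfin _ _ (e2_minus l a hl ha χ hχ c hc _ _ _ _ hG0 hG0' (bG 2) (bG' 2))
      (fun z z' => e2_triv (l ^ a) _ _ _ _ (bG 0) (bG' 0) (bG 1) (bG' 1) z z')

end Pool.Agent.Lib.H59T
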