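import Pool.Agent.Lib.H59T.L4
import Pool.Agent.Lib.H59T.E2
import Pool.Agent.Lib.H59T.E5

/-!
# Project H59T, chunk E7 (M): the local bounds for the four forms
-/

open Finset

namespace Pool.Agent.Lib.H59T

open Pool.Agent.Lib.H68T Pool.Agent.Lib.H18Q Pool.Agent.Lib.H59P

theorem e7_lcm {ι : Type*} [DecidableEq ι] (s : Finset ι) (f : ι → ℕ) (l : ℕ) (hf : ∀ i, f i ≠ 0) :
    s.lcm f ≠ 0 ∧ (s.Nonempty → ∃ i ∈ s, (f i).factorization l = (s.lcm f).factorization l) := by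
  induction s using Finset.induction_on with
  | empty =>
    refine ⟨by simp, fun h => ?_⟩
    exact absurd h (by simp)
  | insert a s ha ih =>
    rw [Finset.lcm_insert]
    have h1 : GCDMonoid.lcm (f a) (s.lcm f) = Nat.lcm (f a) (s.lcm f) := rfl
    rw [h1]
    refine ⟨Nat.lcm_ne_zero (hf a) ih.1, fun _ => ?_⟩
    rw [Nat.factorization_lcm (hf a) ih.1, Finsupp.sup_apply]
    rcases le_total ((s.lcm f).factorization l) ((f a).factorization l) with h2 | h2
    · exact ⟨a, Finset.mem_insert_self _ _, (sup_eq_left.2 h2).symm⟩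
    · rcases s.eq_empty_or_nonempty with hs | hs
      · subst hs
        refine ⟨a, Finset.mem_insert_self _ _, ?_⟩
        rw [Finset.lcm_empty, Nat.factorization_one]
        simp
      · obtain ⟨i, hi, he⟩ := ih.2 hs
        refine ⟨i, Finset.mem_insert_of_mem hi, ?_⟩
        rw [he, sup_eq_right.2 h2]

theorem E7_attained {k : ℕ} (p : Fin k → Ch) (hp : Pm p) (l : ℕ) (hl : l.Prime) (hd : l ∣ Rm p) :
    1 ≤ (Rm p).factorization l ∧ (∀ i, (p i).1.factorization l ≤ (Rm p).factorization l) ∧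
      ∃ i, (p i).1.factorization l = (Rm p).factorization l ∧ l ∣ (p i).1 := by
  have h0 : ∀ i, (p i).1 ≠ 0 := fun i => (hp i).1.ne'
  have h1 := e7_lcm (univ : Finset (Fin k)) (fun i => (p i).1) l h0
  have hR : Rm p ≠ 0 := h1.1
  have h2 : 1 ≤ (Rm p).factorization l := (hl.dvd_iff_one_le_factorization hR).1 hd
  refine ⟨h2, fun i => ?_, ?_⟩
  · exact (Nat.factorization_le_iff_dvd (h0 i) hR).2 (Finset.dvd_lcm (Finset.mem_univ i)) l
  · have hne : (univ : Finset (Fin k)).Nonempty := by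
      by_contra hc
      rw [Finset.not_nonempty_iff_eq_empty] at hc
      have h3 : Rm p = 1 := by
        unfold Rm
        rw [hc, Finset.lcm_empty]
      rw [h3] at hd
      exact hl.one_lt.ne' (Nat.dvd_one.1 hd)
    obtain ⟨i, _, hi⟩ := h1.2 hne
    refine ⟨i, hi, ?_⟩
    rw [hl.dvd_iff_one_le_factorization (h0 i)]
    have h4 : (p i).1.factorization l = (Rm p).factorization l := hi
    rw [h4]
    exact h2

theorem E7_four : LocB ff 10 (1 / 18) := by
  intro p hp κ κ' hκ hκ' l hl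
  have hl2 : (2 : ℝ) ≤ l := by exact_mod_cast hl.two_le
  refine ⟨fun hd => ?_, fun hd hex => ?_⟩
  · obtain ⟨h1, h2, i0, h3, h4⟩ := E7_attained p hp l hl hd
    have hch := L4_char (p i0) (hp i0).1 (hp i0).2 l hl h4
    rw [h3] at hch
    obtain ⟨χ, hχ, hlf⟩ := hch
    have hc : |(l : ℝ) / ((l : ℝ) - 1)| ≤ 2 := by
      rw [abs_of_nonneg (by apply div_nonneg <;> linarith), div_le_iff₀ (by linarith)]
      linarith
    have hper : ∀ (K : Fin 4 → ℕ) (i : Fin 4) (m : ℤ),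
        lf (p i) (K i) l (m + ((l ^ (Rm p).factorization l : ℕ) : ℤ)) = lf (p i) (K i) l m := by
      intro K i m
      have := L4_per (p i) (hp i).1 (hp i).2 (K i) l ((Rm p).factorization l) hl h1 (h2 i) m 1
      rw [mul_one] at this
      rw [← this]
      push_cast
      rfl
    exact E2_four l ((Rm p).factorization l) hl h1 χ hχ _ hc (fun i => lf (p i) (κ i) l) (fun i => lf (p i) (κ' i) l)
      (fun i m => hper κ i m) (fun i m => hper κ' i m) (fun i m => L4_norm _ _ _ hl m) (fun i m => L4_norm _ _ _ hl m) i0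
      (fun m => hlf (κ i0) m) (fun m => hlf (κ' i0) m)
  · have hnd : ∀ i, ¬ l ∣ (p i).1 := fun i h => hd (h.trans (Finset.dvd_lcm (Finset.mem_univ i)))
    have hg : ∀ (K : Fin 4 → ℕ), (fun i => lf (p i) (K i) l) =
        (fun i (m : ℤ) => if l ∣ K i then ((gl l m : ℝ) : ℂ) else 1) := by
      intro K
      funext i m
      unfold lf
      rw [if_neg (hnd i)]
    rw [hg κ, hg κ']
    have h5 := E5_four l hl (fun i => l ∣ κ i) (fun i => l ∣ κ' i) hex
    refine h5.trans ?_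
    have h6 : (l : ℝ) ^ 4 * (2 ^ 10 / (l : ℝ) ^ 2) = 2 ^ 10 * (l : ℝ) ^ 2 := by
      have : (l : ℝ) ≠ 0 := by positivity
      field_simp
    rw [h6]
    have h7 : 0 ≤ (l : ℝ) ^ 2 := by positivity
    nlinarith

theorem E7_cp : CpF ff := by
  intro i q y y' z
  fin_cases i
  · show q ∣ ((y + q) + z) - (y + z) ∧ q ∣ (y + z) - (y + z) ∧ q ∣ (y + (z + q)) - (y + z)
    exact ⟨⟨1, by ring⟩, ⟨0, by ring⟩, ⟨1, by ring⟩⟩
  · show q ∣ ((y + q) - z) - (y - z) ∧ q ∣ (y - z) - (y - z) ∧ q ∣ (y - (z + q)) - (y - z)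
    exact ⟨⟨1, by ring⟩, ⟨0, by ring⟩, ⟨-1, by ring⟩⟩
  · show q ∣ (y' + z) - (y' + z) ∧ q ∣ ((y' + q) + z) - (y' + z) ∧ q ∣ (y' + (z + q)) - (y' + z)
    exact ⟨⟨0, by ring⟩, ⟨1, by ring⟩, ⟨1, by ring⟩⟩
  · show q ∣ (y' - z) - (y' - z) ∧ q ∣ ((y' + q) - z) - (y' - z) ∧ q ∣ (y' - (z + q)) - (y' - z)
    exact ⟨⟨0, by ring⟩, ⟨1, by ring⟩, ⟨-1, by ring⟩⟩

end Pool.Agent.Lib.H59T
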