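import Pool.Agent.Lib.H59T.L2

/-!
# Project H59T, chunk L4 (S/M): size and periods of the local factors
-/

open Finset

namespace Pool.Agent.Lib.H59T

open Pool.Agent.Lib.H68T Pool.Agent.Lib.H18Q Pool.Agent.Lib.H59P

theorem L4_norm (p : Ch) (κ l : ℕ) (hl : l.Prime) (m : ℤ) : ‖lf p κ l m‖ ≤ 2 := by
  have h2 : (2 : ℝ) ≤ l := by exact_mod_cast hl.two_le
  have h1 : (0 : ℝ) < (l : ℝ) - 1 := by linarith
  unfold lf
  split_ifs with ha hb
  · rw [norm_mul, Complex.norm_real, Real.norm_eq_abs, abs_of_nonneg (by positivity)]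
    have h3 : ‖cj (lch p l) m‖ ≤ 1 := by
      unfold cj
      rw [RCLike.norm_conj]
      exact DirichletCharacter.norm_le_one _ _
    have h4 : (l : ℝ) / ((l : ℝ) - 1) ≤ 2 := by
      rw [div_le_iff₀ h1]
      linarith
    calc (l : ℝ) / ((l : ℝ) - 1) * ‖cj (lch p l) m‖ ≤ 2 * 1 := by
          apply mul_le_mul h4 h3 (norm_nonneg _) (by norm_num)
      _ = 2 := by norm_num
  · rw [Complex.norm_real, Real.norm_eq_abs]
    unfold gl
    split_ifs
    · norm_num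
    · rw [abs_of_nonneg (by positivity), div_le_iff₀ h1]
      linarith
  · norm_num

theorem L4_per (p : Ch) (h0 : 0 < p.1) (hp : p.2.IsPrimitive) (κ l b : ℕ) (hl : l.Prime) (hb : 1 ≤ b)
    (hb' : p.1.factorization l ≤ b) (m t : ℤ) : lf p κ l (m + (l : ℤ) ^ b * t) = lf p κ l m := by
  unfold lf
  split_ifs with ha hc
  · have hs := (L2_spec p h0 hp).1 l (Nat.mem_primeFactors.2 ⟨hl, ha, h0.ne'⟩)
    have h1 : ((m + (l : ℤ) ^ b * t : ℤ) : ZMod (lch p l).1) = (m : ZMod (lch p l).1) := by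
      have h2 : ((l ^ b : ℕ) : ZMod (lch p l).1) = 0 := by
        rw [ZMod.natCast_eq_zero_iff, hs.1]
        exact pow_dvd_pow _ hb'
      push_cast at h2 ⊢
      rw [h2]
      ring
    unfold cj
    rw [h1]
  · have h1 : ((l : ℤ) ∣ m + (l : ℤ) ^ b * t) ↔ (l : ℤ) ∣ m := by
      apply Int.dvd_add_left
      exact Dvd.dvd.mul_right (dvd_pow_self _ (by omega)) _
    unfold gl
    simp only [h1]
  · rfl

theorem L4_char (p : Ch) (h0 : 0 < p.1) (hp : p.2.IsPrimitive) (l : ℕ) (hl : l.Prime) (hd : l ∣ p.1) :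
    ∃ χ : DirichletCharacter ℂ (l ^ p.1.factorization l), χ.IsPrimitive ∧ ∀ (κ : ℕ) (m : ℤ),
      lf p κ l m = (((l : ℝ) / ((l : ℝ) - 1) : ℝ) : ℂ) *
        (starRingEnd ℂ) (χ (m : ZMod (l ^ p.1.factorization l))) := by
  have hs := (L2_spec p h0 hp).1 l (Nat.mem_primeFactors.2 ⟨hl, hd, h0.ne'⟩)
  have hlf : ∀ (κ : ℕ) (m : ℤ), lf p κ l m = (((l : ℝ) / ((l : ℝ) - 1) : ℝ) : ℂ) * cj (lch p l) m := by
    intro κ m
    unfold lf
    rw [if_pos hd]
  generalize lch p l = q at hs hlf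
  generalize l ^ p.1.factorization l = N at hs
  obtain ⟨r, χ⟩ := q
  obtain ⟨h1, h2⟩ := hs
  dsimp only at h1 h2
  subst h1
  exact ⟨χ, h2, fun κ m => hlf κ m⟩

theorem L4_Per4 {k : ℕ} (ψ : Fm k) (hψ : CpF ψ) (p : Fin k → Ch) (hp : Pm p) (κ κ' : Fin k → ℕ) (l b : ℕ)
    (hl : l.Prime) (hb : 1 ≤ b) (hb' : ∀ i, (p i).1.factorization l ≤ b) :
    Per4 (l ^ b) (Db ψ (fun i => lf (p i) (κ i) l) (fun i => lf (p i) (κ' i) l)) := by
  have key : ∀ (i : Fin k) (K : ℕ) (u v : ℤ), (((l ^ b : ℕ) : ℤ) ∣ u - v) → lf (p i) K l u = lf (p i) K l v := by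
    intro i K u v h
    obtain ⟨t, ht⟩ := h
    have h1 : u = v + (l : ℤ) ^ b * t := by
      push_cast at ht
      linarith
    rw [h1]
    exact L4_per (p i) (hp i).1 (hp i).2 K l b hl hb (hb' i) v t
  constructor
  · intro y y' z z'
    unfold Db
    refine Finset.prod_congr rfl fun i _ => ?_
    beta_reduce
    rw [key i _ _ _ (hψ i _ y y' z).1, key i _ _ _ (hψ i _ y y' z').1]
  · intro y y' z z'
    unfold Db
    refine Finset.prod_congr rfl fun i _ => ?_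
    beta_reduce
    rw [key i _ _ _ (hψ i _ y y' z).2.1, key i _ _ _ (hψ i _ y y' z').2.1]
  · intro y y' z z'
    unfold Db
    refine Finset.prod_congr rfl fun i _ => ?_
    beta_reduce
    rw [key i _ _ _ (hψ i _ y y' z).2.2]
  · intro y y' z z'
    unfold Db
    refine Finset.prod_congr rfl fun i _ => ?_
    beta_reduce
    rw [key i _ _ _ (hψ i _ y y' z').2.2]

end Pool.Agent.Lib.H59T
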