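import Pool.Agent.Lib.H59T.L3
import Pool.Agent.Lib.H59T.L4
import Pool.Agent.Lib.H59T.C1

/-!
# Project H59T, chunk F1 (M): the complete sums
-/

open Finset

namespace Pool.Agent.Lib.H59T

open Pool.Agent.Lib.H68T Pool.Agent.Lib.H18Q Pool.Agent.Lib.H59P

/-- Proof. A product of different primes not dividing `R`. -/
theorem F1_dof {k : ℕ} (R : ℕ) (κ κ' : Fin k → ℕ) : 0 < dof R κ κ' ∧ Squarefree (dof R κ κ') ∧
    Nat.Coprime (dof R κ κ') R ∧ (∀ l : ℕ, l.Prime → (l ∣ dof R κ κ' ↔ ¬ l ∣ R ∧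
      ∃ i, (l ∣ κ i ∧ κ i ≠ 0) ∨ (l ∣ κ' i ∧ κ' i ≠ 0))) := by
  classical
  obtain ⟨T, hT⟩ : ∃ T : Finset ℕ, T = (univ.biUnion fun i : Fin k =>
      (κ i).primeFactors ∪ (κ' i).primeFactors).filter (fun l => ¬ l ∣ R) := ⟨_, rfl⟩
  have hmem : ∀ l, l ∈ T ↔ (l.Prime ∧ ¬ l ∣ R ∧
      ∃ i, (l ∣ κ i ∧ κ i ≠ 0) ∨ (l ∣ κ' i ∧ κ' i ≠ 0)) := by
    intro l
    rw [hT, mem_filter, mem_biUnion]
    constructor
    · rintro ⟨⟨i, -, hi⟩, hR⟩
      rw [mem_union, Nat.mem_primeFactors, Nat.mem_primeFactors] at hi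
      rcases hi with ⟨h1, h2, h3⟩ | ⟨h1, h2, h3⟩
      · exact ⟨h1, hR, i, Or.inl ⟨h2, h3⟩⟩
      · exact ⟨h1, hR, i, Or.inr ⟨h2, h3⟩⟩
    · rintro ⟨h1, hR, i, ⟨h2, h3⟩ | ⟨h2, h3⟩⟩
      · exact ⟨⟨i, mem_univ _, mem_union_left _ (Nat.mem_primeFactors.2 ⟨h1, h2, h3⟩)⟩, hR⟩
      · exact ⟨⟨i, mem_univ _, mem_union_right _ (Nat.mem_primeFactors.2 ⟨h1, h2, h3⟩)⟩, hR⟩
  have hd : dof R κ κ' = ∏ l ∈ T, l := by
    rw [hT]
    unfold dof
    refine Finset.prod_congr ?_ fun _ _ => rfl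
    ext l
    simp only [mem_filter, mem_biUnion]
  have hpr : ∀ l ∈ T, l.Prime := fun l hl => ((hmem l).1 hl).1
  rw [hd]
  refine ⟨Finset.prod_pos fun l hl => (hpr l hl).pos, ?_, ?_, ?_⟩
  · have key : ∀ S : Finset ℕ, (∀ l ∈ S, l.Prime) → Squarefree (∏ l ∈ S, l) := by
      intro S
      induction S using Finset.induction_on with
      | empty =>
        intro _
        rw [prod_empty]
        exact squarefree_one
      | insert l S hl ih =>
        intro h
        rw [prod_insert hl, Nat.squarefree_mul_iff]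
        refine ⟨?_, (h l (mem_insert_self _ _)).squarefree, ih fun l' hl' => h l' (mem_insert_of_mem hl')⟩
        refine Nat.Coprime.prod_right fun l' hl' => ?_
        refine (Nat.coprime_primes (h l (mem_insert_self _ _)) (h l' (mem_insert_of_mem hl'))).2 ?_
        rintro rfl
        exact hl hl'
    exact key T hpr
  · refine Nat.Coprime.prod_left fun l hl => ?_
    exact (Nat.Prime.coprime_iff_not_dvd (hpr l hl)).2 ((hmem l).1 hl).2.1
  · intro l hl
    rw [Prime.dvd_finsetProd_iff hl.prime]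
    constructor
    · rintro ⟨l', hl', hdv⟩
      have h1 : l = l' := (Nat.prime_dvd_prime_iff_eq hl (hpr l' hl')).1 hdv
      subst h1
      exact ((hmem l).1 hl').2
    · intro h
      exact ⟨l, (hmem l).2 ⟨hl, h⟩, dvd_rfl⟩

/-- Proof. `2^(ω(n)) ≤ τ(n)` (`Nat.Coprime.card_divisors_mul`/`Nat.card_divisors`). -/
theorem F1_tau (n A : ℕ) (hn : 0 < n) : (2 : ℝ) ^ (A * n.primeFactors.card) ≤ tau n ^ A := by
  have h1 : 2 ^ n.primeFactors.card ≤ n.divisors.card := by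
    rw [Nat.card_divisors hn.ne', ← Finset.prod_const]
    refine Finset.prod_le_prod' fun l hl => ?_
    have h2 : n.factorization l ≠ 0 := by
      rw [← Finsupp.mem_support_iff, Nat.support_factorization]
      exact hl
    omega
  have h2 : (2 : ℝ) ^ n.primeFactors.card ≤ tau n := by
    unfold tau
    exact_mod_cast h1
  rw [mul_comm, pow_mul]
  exact pow_le_pow_left₀ (by positivity) h2 A

/-- **The complete sums.** Proof. `R = Rm p > 0`, `d = dof R κ κ'`, `P` = the primes dividing `R d`, `q l = l^(R.factorization l)` if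
`l ∣ R` and `q l = l` otherwise: `R d = ∏_{l ∈ P} q l` (`Nat.factorization_prod_pow_eq_self`, `d` squarefree and coprime to
`R`). All prime factors of the `(p i).1`, `κ i`, `κ' i` are in `P` (`F1_dof`). `L3_Db`, `L4_Per4`, `C1_prod`; `LocB` for each
`l`; the product of the bounds is
`(R d)⁴ (2^A)^(ω(R)) (2^A)^(ω(d)) ∏_{l ∣ R} (l^b)^(-c) ∏_{l ∣ d} l^(-2)`, and `F1_tau`. -/
theorem F1_glob {k : ℕ} (ψ : Fm k) (hψ : CpF ψ) (A : ℕ) (c : ℝ) (hL : LocB ψ A c) (p : Fin k → Ch)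
    (hp : Pm p) (κ κ' : Fin k → ℕ) (hκ : Kp p κ) (hκ' : Kp p κ') :
    Per4 (Rm p * dof (Rm p) κ κ') (Db ψ (fun i => gk (p i) (κ i)) (fun i => gk (p i) (κ' i))) ∧
    ‖S4 (Rm p * dof (Rm p) κ κ') (Db ψ (fun i => gk (p i) (κ i)) (fun i => gk (p i) (κ' i)))‖ ≤
      ((Rm p * dof (Rm p) κ κ' : ℕ) : ℝ) ^ 4 * (tau (Rm p) ^ A * (Rm p : ℝ) ^ (-c) *
        (tau (dof (Rm p) κ κ') ^ A / (dof (Rm p) κ κ' : ℝ) ^ 2)) := by
  classical
  obtain ⟨R, hR⟩ : ∃ R, R = Rm p := ⟨_, rfl⟩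
  obtain ⟨d, hd⟩ : ∃ d, d = dof (Rm p) κ κ' := ⟨_, rfl⟩
  rw [← hd, ← hR]
  obtain ⟨hd0, hdsq, hdR, hddv⟩ := F1_dof (Rm p) κ κ'
  rw [← hd] at hd0 hdsq hdR hddv
  rw [← hR] at hdR hddv
  have hR0 : R ≠ 0 := by
    rw [hR]
    unfold Rm
    intro h
    rw [Finset.lcm_eq_zero_iff] at h
    obtain ⟨i, _, hi⟩ := h
    exact absurd hi (hp i).1.ne'
  have hpR : ∀ i, (p i).1 ∣ R := fun i => by
    rw [hR]
    exact Finset.dvd_lcm (mem_univ i)
  have hN0 : R * d ≠ 0 := mul_ne_zero hR0 hd0.ne'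
  obtain ⟨P, hP⟩ : ∃ P, P = (R * d).primeFactors := ⟨_, rfl⟩
  have hPp : ∀ l ∈ P, l.Prime := fun l hl => by
    rw [hP] at hl
    exact Nat.prime_of_mem_primeFactors hl
  have hPU : P = R.primeFactors ∪ d.primeFactors := by
    rw [hP, Nat.primeFactors_mul hR0 hd0.ne']
  have hdisj : Disjoint R.primeFactors d.primeFactors := hdR.symm.disjoint_primeFactors
  have hsub : ∀ (κ₀ : ℕ) (h : ∀ l : ℕ, l.Prime → l ∣ κ₀ → κ₀ ≠ 0 → ¬ l ∣ R → l ∣ d), κ₀.primeFactors ⊆ P := by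
    intro κ₀ h l hl
    rw [Nat.mem_primeFactors] at hl
    rw [hP, Nat.mem_primeFactors]
    refine ⟨hl.1, ?_, hN0⟩
    by_cases h1 : l ∣ R
    · exact h1.mul_right d
    · exact (h l hl.1 hl.2.1 hl.2.2 h1).mul_left R
  have h1 : ∀ i, (p i).1.primeFactors ⊆ P := fun i => hsub _ fun l _ h2 _ h3 =>
    absurd (h2.trans (hpR i)) h3
  have h2 : ∀ i, (κ i).primeFactors ⊆ P := fun i => hsub _ fun l h3 h4 h5 h6 =>
    (hddv l h3).2 ⟨h6, i, Or.inl ⟨h4, h5⟩⟩
  have h3 : ∀ i, (κ' i).primeFactors ⊆ P := fun i => hsub _ fun l h3 h4 h5 h6 =>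
    (hddv l h3).2 ⟨h6, i, Or.inr ⟨h4, h5⟩⟩
  obtain ⟨G, hG⟩ : ∃ G : ℕ → ℤ → ℤ → ℤ → ℤ → ℂ, G = fun l => Db ψ (fun i => lf (p i) (κ i) l)
      (fun i => lf (p i) (κ' i) l) := ⟨_, rfl⟩
  have hDb : Db ψ (fun i => gk (p i) (κ i)) (fun i => gk (p i) (κ' i)) =
      fun y y' z z' => ∏ l ∈ P, G l y y' z z' := by
    funext y y' z z'
    rw [hG]
    exact L3_Db ψ p hp κ κ' hκ hκ' P hPp h1 h2 h3 y y' z z'
  obtain ⟨q, hq⟩ : ∃ q : ℕ → ℕ, q = fun l => l ^ (R * d).factorization l := ⟨_, rfl⟩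
  have hfac : ∀ l, (R * d).factorization l = R.factorization l + d.factorization l := by
    intro l
    rw [Nat.factorization_mul hR0 hd0.ne']
    rfl
  have hqR : ∀ l ∈ R.primeFactors, q l = l ^ R.factorization l := by
    intro l hl
    have h4 : d.factorization l = 0 := by
      apply Nat.factorization_eq_zero_of_not_dvd
      intro h5
      exact Finset.disjoint_left.1 hdisj hl
        (Nat.mem_primeFactors.2 ⟨Nat.prime_of_mem_primeFactors hl, h5, hd0.ne'⟩)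
    rw [hq]
    show l ^ (R * d).factorization l = _
    rw [hfac, h4, add_zero]
  have hqd : ∀ l ∈ d.primeFactors, q l = l := by
    intro l hl
    have h4 : R.factorization l = 0 := by
      apply Nat.factorization_eq_zero_of_not_dvd
      intro h5
      exact Finset.disjoint_right.1 hdisj hl
        (Nat.mem_primeFactors.2 ⟨Nat.prime_of_mem_primeFactors hl, h5, hR0⟩)
    have h5 : d.factorization l = 1 := by
      have h6 := (Nat.squarefree_iff_factorization_le_one hd0.ne').1 hdsq l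
      have h7 : d.factorization l ≠ 0 := by
        rw [← Finsupp.mem_support_iff, Nat.support_factorization]
        exact hl
      omega
    rw [hq]
    show l ^ (R * d).factorization l = _
    rw [hfac, h4, h5, zero_add, pow_one]
  have hprodq : ∏ l ∈ P, q l = R * d := by
    rw [hq, hP]
    exact (Nat.prod_primeFactors_pow_factorization hN0).symm
  have hq0 : ∀ l ∈ P, 0 < q l := fun l hl => by
    rw [hq]
    exact pow_pos (hPp l hl).pos _
  have hqc : ∀ l ∈ P, ∀ l' ∈ P, l ≠ l' → Nat.Coprime (q l) (q l') := by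
    intro l hl l' hl' hne
    rw [hq]
    exact Nat.Coprime.pow _ _ ((Nat.coprime_primes (hPp l hl) (hPp l' hl')).2 hne)
  have hfacle : ∀ i l, (p i).1.factorization l ≤ R.factorization l := fun i l =>
    (Nat.factorization_le_iff_dvd (hp i).1.ne' hR0).2 (hpR i) l
  have hper : ∀ l ∈ P, Per4 (q l) (G l) := by
    intro l hl
    rw [hG]
    rw [hPU, mem_union] at hl
    rcases hl with hl | hl
    · rw [hqR l hl]
      refine L4_Per4 ψ hψ p hp κ κ' l _ (Nat.prime_of_mem_primeFactors hl) ?_ fun i => hfacle i l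
      rw [Nat.one_le_iff_ne_zero, ← Finsupp.mem_support_iff, Nat.support_factorization]
      exact hl
    · rw [hqd l hl]
      have h4 := L4_Per4 ψ hψ p hp κ κ' l 1 (Nat.prime_of_mem_primeFactors hl) le_rfl fun i => by
        have h5 : (p i).1.factorization l = 0 := by
          have h6 : R.factorization l = 0 := by
            apply Nat.factorization_eq_zero_of_not_dvd
            intro h5
            exact Finset.disjoint_right.1 hdisj hl
              (Nat.mem_primeFactors.2 ⟨Nat.prime_of_mem_primeFactors hl, h5, hR0⟩)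
          have := hfacle i l
          omega
        omega
      rw [pow_one] at h4
      exact h4
  obtain ⟨hc1, hc2⟩ := C1_prod P q hq0 hqc G hper
  rw [hprodq] at hc1 hc2
  rw [hDb]
  refine ⟨hc1, ?_⟩
  rw [hc2, norm_prod, hPU, prod_union hdisj]
  have hbR : ∏ l ∈ R.primeFactors, ‖S4 (q l) (G l)‖ ≤ (R : ℝ) ^ 4 * (tau R ^ A * (R : ℝ) ^ (-c)) := by
    have h4 : ∏ l ∈ R.primeFactors, ‖S4 (q l) (G l)‖ ≤ ∏ l ∈ R.primeFactors,
        (((q l : ℕ) : ℝ) ^ 4 * (2 ^ A * ((q l : ℕ) : ℝ) ^ (-c))) := by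
      refine Finset.prod_le_prod (fun l _ => norm_nonneg _) fun l hl => ?_
      have h5 := (hL p hp κ κ' hκ hκ' l (Nat.prime_of_mem_primeFactors hl)).1
        (by rw [← hR]; exact Nat.dvd_of_mem_primeFactors hl)
      rw [← hR, ← hqR l hl] at h5
      rw [hG]
      exact h5
    have h6 : ∏ l ∈ R.primeFactors, ((q l : ℕ) : ℝ) = R := by
      rw [← Nat.cast_prod, Finset.prod_congr rfl hqR]
      rw [← Nat.prod_primeFactors_pow_factorization hR0]
    have h7 : ∏ l ∈ R.primeFactors, ((q l : ℕ) : ℝ) ^ (-c) = (R : ℝ) ^ (-c) := by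
      rw [Real.finsetProd_rpow _ _ (fun l _ => Nat.cast_nonneg _), h6]
    rw [Finset.prod_mul_distrib, Finset.prod_mul_distrib, Finset.prod_pow, h6, h7,
      Finset.prod_const, ← pow_mul] at h4
    refine h4.trans ?_
    have h8 := F1_tau R A (Nat.pos_of_ne_zero hR0)
    have h9 : (0 : ℝ) ≤ (R : ℝ) ^ (-c) := by positivity
    exact mul_le_mul_of_nonneg_left (mul_le_mul_of_nonneg_right h8 h9) (by positivity)
  have hbd : ∏ l ∈ d.primeFactors, ‖S4 (q l) (G l)‖ ≤ (d : ℝ) ^ 4 * (tau d ^ A / (d : ℝ) ^ 2) := by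
    have h4 : ∏ l ∈ d.primeFactors, ‖S4 (q l) (G l)‖ ≤ ∏ l ∈ d.primeFactors,
        ((l : ℝ) ^ 4 * (2 ^ A / (l : ℝ) ^ 2)) := by
      refine Finset.prod_le_prod (fun l _ => norm_nonneg _) fun l hl => ?_
      have hlp := Nat.prime_of_mem_primeFactors hl
      have hld := (hddv l hlp).1 (Nat.dvd_of_mem_primeFactors hl)
      have h5 := (hL p hp κ κ' hκ hκ' l hlp).2
        (by rw [← hR]; exact hld.1) (by
          obtain ⟨i, hi | hi⟩ := hld.2
          · exact ⟨i, Or.inl hi.1⟩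
          · exact ⟨i, Or.inr hi.1⟩)
      rw [hqd l hl, hG]
      exact h5
    have h6 : ∏ l ∈ d.primeFactors, (l : ℝ) = d := by
      rw [← Nat.cast_prod, Nat.prod_primeFactors_of_squarefree hdsq]
    rw [Finset.prod_mul_distrib, Finset.prod_div_distrib, Finset.prod_pow (f := fun l : ℕ => (l : ℝ)) (n := 4),
      Finset.prod_pow (f := fun l : ℕ => (l : ℝ)) (n := 2), h6,
      Finset.prod_const, ← pow_mul] at h4
    refine h4.trans ?_
    have h8 := F1_tau d A hd0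
    have h9 : (0 : ℝ) ≤ (d : ℝ) ^ 2 := by positivity
    exact mul_le_mul_of_nonneg_left (div_le_div_of_nonneg_right h8 h9) (by positivity)
  calc (∏ l ∈ R.primeFactors, ‖S4 (q l) (G l)‖) * ∏ l ∈ d.primeFactors, ‖S4 (q l) (G l)‖
      ≤ ((R : ℝ) ^ 4 * (tau R ^ A * (R : ℝ) ^ (-c))) * ((d : ℝ) ^ 4 * (tau d ^ A / (d : ℝ) ^ 2)) := by
        refine mul_le_mul hbR hbd (Finset.prod_nonneg fun l _ => norm_nonneg _) ?_
        unfold tau
        positivity
    _ = _ := by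
        push_cast
        ring

end Pool.Agent.Lib.H59T
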