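import Pool.Agent.Lib.H59T.F2A
import Pool.Agent.Lib.H33N.S1

/-!
# Project H59T, chunk F2 (M): the sum over the pairs of moduli
-/

open Finset

namespace Pool.Agent.Lib.H59T

open Pool.Agent.Lib.H68T Pool.Agent.Lib.H18Q Pool.Agent.Lib.H59P

theorem f2_est {R d D c η : ℝ} (hR : 1 ≤ R) (hd : 1 ≤ d) (hD : 1 ≤ D) (hDR : D ≤ R * d) (hc0 : 0 < c)
    (hc1 : c ≤ 1) (hη : η ≤ c / 4) :
    (R * d) ^ η * R ^ (-c) * (1 / d ^ 2) ≤ D ^ (-(c / 2)) * (1 / d ^ (5 / 4 : ℝ)) := by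
  have hR0 : 0 < R := by linarith
  have hd0 : 0 < d := by linarith
  have hD0 : 0 < D := by linarith
  have r0 : 0 ≤ Real.log R := Real.log_nonneg hR
  have s0 : 0 ≤ Real.log d := Real.log_nonneg hd
  have t1 : Real.log D ≤ Real.log R + Real.log d := by
    rw [← Real.log_mul hR0.ne' hd0.ne']
    exact Real.log_le_log hD0 hDR
  have e1 : (R * d) ^ η * R ^ (-c) * (1 / d ^ 2) =
      Real.exp ((Real.log R + Real.log d) * η + Real.log R * (-c) - 2 * Real.log d) := by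
    rw [Real.exp_sub, Real.exp_add, Real.rpow_def_of_pos (mul_pos hR0 hd0), Real.rpow_def_of_pos hR0,
      Real.log_mul hR0.ne' hd0.ne', show (2 : ℝ) * Real.log d = ((2 : ℕ) : ℝ) * Real.log d by norm_num,
      Real.exp_nat_mul, Real.exp_log hd0]
    ring
  have e2 : D ^ (-(c / 2)) * (1 / d ^ (5 / 4 : ℝ)) =
      Real.exp (Real.log D * (-(c / 2)) - Real.log d * (5 / 4)) := by
    rw [Real.exp_sub, Real.rpow_def_of_pos hD0, Real.rpow_def_of_pos hd0]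
    ring
  rw [e1, e2]
  refine Real.exp_le_exp.2 ?_
  have h1 : (Real.log R + Real.log d) * η ≤ (Real.log R + Real.log d) * (c / 4) :=
    mul_le_mul_of_nonneg_left hη (by linarith)
  have h2 : Real.log D * (c / 2) ≤ (Real.log R + Real.log d) * (c / 2) :=
    mul_le_mul_of_nonneg_right t1 (by linarith)
  have h3 : Real.log d * c ≤ Real.log d * 1 := mul_le_mul_of_nonneg_left hc1 s0
  have h4 : 0 ≤ Real.log R * c := mul_nonneg r0 hc0.le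
  nlinarith

/-- Proof. Let `ε` be so small that `(2 k + A) ε ≤ c/2` and `≤ 1/4`. Group the pairs `(κ, κ')` according to `d = dof R κ κ'`: all
`κ i, κ' i` divide `R d`, so there are at most `τ(R d)^(2k)` pairs (`piFinset` of divisors), and `D < R d`. By the
divisor bound `s1_div` (`H33N/S1.lean`) `τ(R d)^(2k) τ(R)^A τ(d)^A ≤ C (R d)^((2k+A)ε)` (`τ(R) τ(d) = τ(R d)`, coprime). So the sum is at
most `C R^(-c/2) ∑_{d > D/R} d^(-3/2) ≤ C R^(-c/2) · 3 min(1, (R/D)^(1/2)) ≤ 3 C D^(-c/2)` (`c ≤ 1`). -/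
theorem F2_sum (k A : ℕ) (c : ℝ) (hc0 : 0 < c) (hc1 : c ≤ 1) : ∃ C : ℝ, 0 < C ∧ ∀ Q D : ℕ, 1 ≤ D →
    ∀ p : Fin k → Ch, (∀ i, p i ∈ PC Q) → ∀ T : Finset (Fin k → ℕ),
    T ⊆ Fintype.piFinset (fun i => KS Q (p i).1) → (∀ κ ∈ T, D < univ.lcm (fun i => (p i).1 * κ i)) →
    ∑ κ ∈ T, ∑ κ' ∈ T, tau (Rm p) ^ A * (Rm p : ℝ) ^ (-c) *
      (tau (dof (Rm p) κ κ') ^ A / (dof (Rm p) κ κ' : ℝ) ^ 2) ≤ C * (D : ℝ) ^ (-(c / 2)) := by
  classical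
  obtain ⟨ε, hε0, hε⟩ : ∃ ε : ℝ, 0 < ε ∧ ε * ((2 * k + A : ℕ) : ℝ) ≤ c / 4 := by
    refine ⟨c / (4 * (((2 * k + A : ℕ) : ℝ) + 1)), by positivity, ?_⟩
    rw [div_mul_eq_mul_div, div_le_div_iff₀ (by positivity) (by norm_num)]
    have : (0 : ℝ) ≤ ((2 * k + A : ℕ) : ℝ) := Nat.cast_nonneg _
    nlinarith
  obtain ⟨C0, hC1, hC⟩ := Pool.Agent.Lib.H33N.s1_div hε0
  have hsum : Summable (fun n : ℕ => 1 / (n : ℝ) ^ (5 / 4 : ℝ)) :=
    Real.summable_one_div_nat_rpow.2 (by norm_num)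
  have hC0 : 0 < C0 := by linarith
  have htn : 0 ≤ ∑' n : ℕ, 1 / (n : ℝ) ^ (5 / 4 : ℝ) := tsum_nonneg fun n => by positivity
  refine ⟨C0 ^ (2 * k + A) * (∑' n : ℕ, 1 / (n : ℝ) ^ (5 / 4 : ℝ) + 1), by positivity, ?_⟩
  intro Q D hD p hp T hT hTD
  have hPm : Pm p := fun i => ⟨(mem_PC.1 (hp i)).1, (mem_PC.1 (hp i)).2.2⟩
  have hKS : ∀ κ ∈ T, ∀ i, κ i ∈ KS Q (p i).1 := fun κ hκ i => Fintype.mem_piFinset.1 (hT hκ) i
  have hKp : ∀ κ ∈ T, Kp p κ := fun κ hκ i => (CA_mem_KS.1 (hKS κ hκ i)).2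
  rw [← Finset.sum_product' (s := T) (t := T) (f := fun κ κ' => tau (Rm p) ^ A * (Rm p : ℝ) ^ (-c) *
      (tau (dof (Rm p) κ κ') ^ A / (dof (Rm p) κ κ' : ℝ) ^ 2))]
  have hcomp := Finset.sum_comp (s := T ×ˢ T) (fun d : ℕ => tau (Rm p) ^ A * (Rm p : ℝ) ^ (-c) *
      (tau d ^ A / (d : ℝ) ^ 2)) (fun x : (Fin k → ℕ) × (Fin k → ℕ) => dof (Rm p) x.1 x.2)
  have hlhs : ∑ x ∈ T ×ˢ T, (fun κ κ' : Fin k → ℕ => tau (Rm p) ^ A * (Rm p : ℝ) ^ (-c) *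
      (tau (dof (Rm p) κ κ') ^ A / (dof (Rm p) κ κ' : ℝ) ^ 2)) x.1 x.2 =
      ∑ x ∈ T ×ˢ T, (fun d : ℕ => tau (Rm p) ^ A * (Rm p : ℝ) ^ (-c) *
      (tau d ^ A / (d : ℝ) ^ 2)) (dof (Rm p) x.1 x.2) := rfl
  rw [hlhs, hcomp]
  have hterm : ∀ d ∈ (T ×ˢ T).image (fun x : (Fin k → ℕ) × (Fin k → ℕ) => dof (Rm p) x.1 x.2),
      ((T ×ˢ T).filter (fun x : (Fin k → ℕ) × (Fin k → ℕ) => dof (Rm p) x.1 x.2 = d)).card •
        (tau (Rm p) ^ A * (Rm p : ℝ) ^ (-c) * (tau d ^ A / (d : ℝ) ^ 2)) ≤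
      C0 ^ (2 * k + A) * (D : ℝ) ^ (-(c / 2)) * (1 / (d : ℝ) ^ (5 / 4 : ℝ)) := by
    intro d hd
    obtain ⟨x, hx, hxd⟩ := Finset.mem_image.1 hd
    have hx1 := (Finset.mem_product.1 hx).1
    have hx2 := (Finset.mem_product.1 hx).2
    have hpos : 0 < Rm p * d := by
      rw [← hxd]
      exact (F2_size Q p hp x.1 x.2 (hKS _ hx1) (hKS _ hx2)).1
    have hR0 : 0 < Rm p := Nat.pos_of_ne_zero fun h => by rw [h, zero_mul] at hpos; exact hpos.ne rfl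
    have hd0 : 0 < d := Nat.pos_of_ne_zero fun h => by rw [h, mul_zero] at hpos; exact hpos.ne rfl
    have hcop : Nat.Coprime d (Rm p) := by
      rw [← hxd]
      exact (F1_dof (Rm p) x.1 x.2).2.2.1
    have hDlt : D < Rm p * d := by
      refine lt_of_lt_of_le (hTD x.1 hx1) (Nat.le_of_dvd hpos ?_)
      rw [← hxd]
      exact (F2_dvd p hPm x.1 x.2 (hKp _ hx1) (hKp _ hx2)).2
    have hcard : ((T ×ˢ T).filter (fun x : (Fin k → ℕ) × (Fin k → ℕ) => dof (Rm p) x.1 x.2 = d)).card ≤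
        (Rm p * d).divisors.card ^ (2 * k) := by
      have hsub : (T ×ˢ T).filter (fun x : (Fin k → ℕ) × (Fin k → ℕ) => dof (Rm p) x.1 x.2 = d) ⊆
          (Fintype.piFinset fun _ : Fin k => (Rm p * d).divisors) ×ˢ
            (Fintype.piFinset fun _ : Fin k => (Rm p * d).divisors) := by
        intro y hy
        rw [Finset.mem_filter, Finset.mem_product] at hy
        obtain ⟨⟨hy1, hy2⟩, hyd⟩ := hy
        have h := (F2_dvd p hPm y.1 y.2 (hKp _ hy1) (hKp _ hy2)).1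
        rw [hyd] at h
        rw [Finset.mem_product, Fintype.mem_piFinset, Fintype.mem_piFinset]
        exact ⟨fun i => Nat.mem_divisors.2 ⟨(h i).1, hpos.ne'⟩,
          fun i => Nat.mem_divisors.2 ⟨(h i).2, hpos.ne'⟩⟩
      refine (Finset.card_le_card hsub).trans ?_
      rw [Finset.card_product, Fintype.card_piFinset_const, ← pow_add]
      refine le_of_eq ?_
      congr 1
      omega
    have htau : tau (Rm p) ^ A * tau d ^ A = ((Rm p * d).divisors.card : ℝ) ^ A := by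
      unfold tau
      rw [← mul_pow, Nat.Coprime.card_divisors_mul hcop.symm]
      push_cast
      rfl
    have hdiv : ((Rm p * d).divisors.card : ℝ) ≤ C0 * (((Rm p : ℝ) * (d : ℝ)) ^ ε) := by
      have h := hC (Rm p * d) hpos
      push_cast at h
      exact h
    have hR1 : (1 : ℝ) ≤ (Rm p : ℝ) := by exact_mod_cast hR0
    have hd1 : (1 : ℝ) ≤ (d : ℝ) := by exact_mod_cast hd0
    have hD1 : (1 : ℝ) ≤ (D : ℝ) := by exact_mod_cast hD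
    have hDR : (D : ℝ) ≤ (Rm p : ℝ) * (d : ℝ) := by exact_mod_cast hDlt.le
    have hRd0 : (0 : ℝ) < (Rm p : ℝ) * (d : ℝ) := by positivity
    have hest := f2_est (η := ε * ((2 * k + A : ℕ) : ℝ)) hR1 hd1 hD1 hDR hc0 hc1 hε
    have hfac : (0 : ℝ) ≤ (Rm p : ℝ) ^ (-c) * (1 / (d : ℝ) ^ 2) := by positivity
    rw [nsmul_eq_mul]
    calc _ ≤ ((Rm p * d).divisors.card : ℝ) ^ (2 * k) *
          (tau (Rm p) ^ A * (Rm p : ℝ) ^ (-c) * (tau d ^ A / (d : ℝ) ^ 2)) := by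
          refine mul_le_mul_of_nonneg_right (by exact_mod_cast hcard) ?_
          unfold tau
          positivity
      _ = ((Rm p * d).divisors.card : ℝ) ^ (2 * k + A) * ((Rm p : ℝ) ^ (-c) * (1 / (d : ℝ) ^ 2)) := by
          rw [pow_add, ← htau]
          ring
      _ ≤ (C0 * (((Rm p : ℝ) * (d : ℝ)) ^ ε)) ^ (2 * k + A) * ((Rm p : ℝ) ^ (-c) * (1 / (d : ℝ) ^ 2)) :=
          mul_le_mul_of_nonneg_right (pow_le_pow_left₀ (Nat.cast_nonneg _) hdiv _) hfac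
      _ = C0 ^ (2 * k + A) * (((Rm p : ℝ) * (d : ℝ)) ^ (ε * ((2 * k + A : ℕ) : ℝ)) *
            (Rm p : ℝ) ^ (-c) * (1 / (d : ℝ) ^ 2)) := by
          rw [mul_pow, ← Real.rpow_natCast ((((Rm p : ℝ) * (d : ℝ)) ^ ε)) (2 * k + A),
            ← Real.rpow_mul hRd0.le]
          ring
      _ ≤ C0 ^ (2 * k + A) * ((D : ℝ) ^ (-(c / 2)) * (1 / (d : ℝ) ^ (5 / 4 : ℝ))) :=
          mul_le_mul_of_nonneg_left hest (by positivity)
      _ = _ := by ring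
  refine (Finset.sum_le_sum hterm).trans ?_
  rw [← Finset.mul_sum]
  have h5 : ∑ d ∈ (T ×ˢ T).image (fun x : (Fin k → ℕ) × (Fin k → ℕ) => dof (Rm p) x.1 x.2),
      1 / (d : ℝ) ^ (5 / 4 : ℝ) ≤ ∑' n : ℕ, 1 / (n : ℝ) ^ (5 / 4 : ℝ) :=
    hsum.sum_le_tsum _ fun n _ => by positivity
  have h6 : (0 : ℝ) ≤ C0 ^ (2 * k + A) * (D : ℝ) ^ (-(c / 2)) := by positivity
  calc _ ≤ C0 ^ (2 * k + A) * (D : ℝ) ^ (-(c / 2)) * (∑' n : ℕ, 1 / (n : ℝ) ^ (5 / 4 : ℝ) + 1) :=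
        mul_le_mul_of_nonneg_left (by linarith) h6
    _ = _ := by ring

end Pool.Agent.Lib.H59T
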