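import Pool.Agent.Lib.H59T.F1

/-!
# Project H59T, chunk F2A (S/M): divisibility and size of the moduli
-/

open Finset

namespace Pool.Agent.Lib.H59T

open Pool.Agent.Lib.H68T Pool.Agent.Lib.H18Q Pool.Agent.Lib.H59P

theorem f2a_sq {n m : ℕ} (hn : Squarefree n) (h : ∀ l : ℕ, l.Prime → l ∣ n → l ∣ m) : n ∣ m := by
  rw [← Nat.prod_primeFactors_of_squarefree hn]
  refine Finset.prod_primes_dvd m (fun l hl => (Nat.prime_of_mem_primeFactors hl).prime) fun l hl => ?_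
  exact h l (Nat.prime_of_mem_primeFactors hl) (Nat.dvd_of_mem_primeFactors hl)

theorem F2_dvd {k : ℕ} (p : Fin k → Ch) (hp : Pm p) (κ κ' : Fin k → ℕ) (hκ : Kp p κ) (hκ' : Kp p κ') :
    (∀ i, κ i ∣ Rm p * dof (Rm p) κ κ' ∧ κ' i ∣ Rm p * dof (Rm p) κ κ') ∧
      (univ.lcm fun i => (p i).1 * κ i) ∣ Rm p * dof (Rm p) κ κ' := by
  obtain ⟨h1, h2, h3, h4⟩ := F1_dof (Rm p) κ κ'
  have key : ∀ i, κ i ∣ Rm p * dof (Rm p) κ κ' ∧ κ' i ∣ Rm p * dof (Rm p) κ κ' := by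
    intro i
    constructor
    · refine f2a_sq (hκ i).1 fun l hl hd => ?_
      by_cases hR : l ∣ Rm p
      · exact hR.mul_right _
      · exact Dvd.dvd.mul_left ((h4 l hl).2 ⟨hR, i, Or.inl ⟨hd, (hκ i).1.ne_zero⟩⟩) _
    · refine f2a_sq (hκ' i).1 fun l hl hd => ?_
      by_cases hR : l ∣ Rm p
      · exact hR.mul_right _
      · exact Dvd.dvd.mul_left ((h4 l hl).2 ⟨hR, i, Or.inr ⟨hd, (hκ' i).1.ne_zero⟩⟩) _
  refine ⟨key, Finset.lcm_dvd fun i _ => ?_⟩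
  refine Nat.Coprime.mul_dvd_of_dvd_of_dvd (hκ i).2.symm ?_ (key i).1
  exact Dvd.dvd.mul_right (Finset.dvd_lcm (f := fun i => (p i).1) (Finset.mem_univ i)) _

theorem F2_size {k : ℕ} (Q : ℕ) (p : Fin k → Ch) (hp : ∀ i, p i ∈ PC Q) (κ κ' : Fin k → ℕ)
    (hκ : ∀ i, κ i ∈ KS Q (p i).1) (hκ' : ∀ i, κ' i ∈ KS Q (p i).1) :
    0 < Rm p * dof (Rm p) κ κ' ∧ Rm p * dof (Rm p) κ κ' ≤ Q ^ (2 * k) := by
  obtain ⟨h1, h2, h3, h4⟩ := F1_dof (Rm p) κ κ'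
  have hp1 : ∀ i, 1 ≤ (p i).1 := fun i => (mem_PC.1 (hp i)).1
  have hK : ∀ (K : Fin k → ℕ), (∀ i, K i ∈ KS Q (p i).1) → ∀ i, 1 ≤ K i ∧ (p i).1 * K i ≤ Q := by
    intro K hK i
    have h := hK i
    unfold KS at h
    rw [Finset.mem_filter, Finset.mem_Icc] at h
    refine ⟨h.1.1, ?_⟩
    rw [mul_comm]
    exact (Nat.le_div_iff_mul_le (hp1 i)).1 h.1.2
  have hR1 : Rm p ∣ ∏ i, (p i).1 := Finset.lcm_dvd fun i _ => Finset.dvd_prod_of_mem _ (Finset.mem_univ i)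
  have hR0 : 0 < Rm p := by
    apply Nat.pos_of_ne_zero
    intro h0
    rw [h0] at hR1
    have h5 : ∏ i, (p i).1 = 0 := Nat.eq_zero_of_zero_dvd hR1
    rw [Finset.prod_eq_zero_iff] at h5
    obtain ⟨i, _, hi⟩ := h5
    have := hp1 i
    omega
  have hd1 : dof (Rm p) κ κ' ∣ ∏ i, (κ i * κ' i) := by
    refine f2a_sq h2 fun l hl hd => ?_
    obtain ⟨_, i, hi | hi⟩ := (h4 l hl).1 hd
    · exact (hi.1.mul_right _).trans (Finset.dvd_prod_of_mem (fun i => κ i * κ' i) (Finset.mem_univ i))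
    · exact (hi.1.mul_left _).trans (Finset.dvd_prod_of_mem (fun i => κ i * κ' i) (Finset.mem_univ i))
  refine ⟨Nat.mul_pos hR0 h1, ?_⟩
  have h6 : Rm p * dof (Rm p) κ κ' ∣ (∏ i, (p i).1) * ∏ i, (κ i * κ' i) := mul_dvd_mul hR1 hd1
  have h7 : 0 < (∏ i, (p i).1) * ∏ i, (κ i * κ' i) := by
    refine Nat.mul_pos (Finset.prod_pos fun i _ => hp1 i) (Finset.prod_pos fun i _ => ?_)
    exact Nat.mul_pos (hK κ hκ i).1 (hK κ' hκ' i).1
  refine (Nat.le_of_dvd h7 h6).trans ?_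
  rw [← Finset.prod_mul_distrib]
  have h8 : ∀ i ∈ (univ : Finset (Fin k)), (p i).1 * (κ i * κ' i) ≤ Q ^ 2 := by
    intro i _
    have h9 := (hK κ hκ i).2
    have h10 := (hK κ' hκ' i).2
    have h11 : κ' i ≤ Q := le_trans (Nat.le_mul_of_pos_left _ (hp1 i)) h10
    calc (p i).1 * (κ i * κ' i) = ((p i).1 * κ i) * κ' i := by ring
      _ ≤ Q * Q := Nat.mul_le_mul h9 h11
      _ = Q ^ 2 := by ring
  calc ∏ i, ((p i).1 * (κ i * κ' i)) ≤ ∏ _i : Fin k, Q ^ 2 := Finset.prod_le_prod' h8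
    _ = Q ^ (2 * k) := by rw [Finset.prod_const, Finset.card_univ, Fintype.card_fin, ← pow_mul]

end Pool.Agent.Lib.H59T
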