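import Pool.Agent.Lib.H59T.F2
import Pool.Agent.Lib.H59T.C2

/-!
# Project H59T, chunk F3 (M): the mean square of the part with large moduli
-/

open Finset

namespace Pool.Agent.Lib.H59T

open Pool.Agent.Lib.H68T Pool.Agent.Lib.H18Q Pool.Agent.Lib.H59P

/-- The components are bounded by `Q`. -/
theorem f3_gk (Q : ℕ) (p : Ch) (hp : p ∈ PC Q) (κ : ℕ) (hκ : κ ∈ KS Q p.1) (m : ℤ) :
    ‖gk p κ m‖ ≤ (Q : ℝ) := by
  rw [CA_norm, CA_F_abs m κ (CA_mem_KS.1 hκ).2.1]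
  obtain ⟨h1, h2, -⟩ := mem_PC.1 hp
  have hne : NeZero p.1 := ⟨by omega⟩
  have h3 : (1 : ℝ) ≤ (Nat.totient p.1 : ℝ) := by
    exact_mod_cast Nat.totient_pos.2 (by omega)
  have h4 : (p.1 : ℝ) / (Nat.totient p.1 : ℝ) ≤ (Q : ℝ) :=
    (div_le_self (Nat.cast_nonneg _) h3).trans (by exact_mod_cast h2)
  have h5 : ‖p.2 (m : ZMod p.1)‖ ≤ 1 := DirichletCharacter.norm_le_one p.2 _
  have h6 : ∏ l ∈ κ.primeFactors, (if (l : ℤ) ∣ m then (1 : ℝ) else 1 / ((l : ℝ) - 1)) ≤ 1 := by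
    refine Finset.prod_le_one (fun l hl => ?_) (fun l hl => ?_)
    · have h7 : (2 : ℝ) ≤ l := by exact_mod_cast (Nat.prime_of_mem_primeFactors hl).two_le
      split_ifs
      · exact zero_le_one
      · exact div_nonneg zero_le_one (by linarith)
    · have h7 : (2 : ℝ) ≤ l := by exact_mod_cast (Nat.prime_of_mem_primeFactors hl).two_le
      split_ifs
      · exact le_rfl
      · rw [div_le_one (by linarith)]
        linarith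
  have h8 : 0 ≤ ∏ l ∈ κ.primeFactors, (if (l : ℤ) ∣ m then (1 : ℝ) else 1 / ((l : ℝ) - 1)) := by
    refine Finset.prod_nonneg (fun l hl => ?_)
    have h7 : (2 : ℝ) ≤ l := by exact_mod_cast (Nat.prime_of_mem_primeFactors hl).two_le
    split_ifs
    · exact zero_le_one
    · exact div_nonneg zero_le_one (by linarith)
  have h9 : (0 : ℝ) ≤ (Q : ℝ) := Nat.cast_nonneg _
  have h10 : (p.1 : ℝ) / (Nat.totient p.1 : ℝ) * ‖p.2 (m : ZMod p.1)‖ ≤ (Q : ℝ) * 1 :=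
    mul_le_mul h4 h5 (norm_nonneg _) h9
  calc _ ≤ ((Q : ℝ) * 1) * 1 := mul_le_mul h10 h6 h8 (by rw [mul_one]; exact h9)
    _ = (Q : ℝ) := by ring

/-- Proof. `|gk p κ m| ≤ p.1 ≤ Q` (`CA_norm`, `CA_F_abs` in `H18Q/CA`, `r/φ(r) ≤ r`). -/
theorem F3_sup {k : ℕ} (ψ : Fm k) (Q : ℕ) (p : Fin k → Ch) (hp : ∀ i, p i ∈ PC Q) (κ κ' : Fin k → ℕ)
    (hκ : ∀ i, κ i ∈ KS Q (p i).1) (hκ' : ∀ i, κ' i ∈ KS Q (p i).1) (y y' z z' : ℤ) :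
    ‖Db ψ (fun i => gk (p i) (κ i)) (fun i => gk (p i) (κ' i)) y y' z z'‖ ≤ (Q : ℝ) ^ (2 * k) := by
  unfold Db
  rw [norm_prod]
  calc ∏ i : Fin k, ‖gk (p i) (κ i) (ψ i y y' z) * (starRingEnd ℂ) (gk (p i) (κ' i) (ψ i y y' z'))‖
      ≤ ∏ _i : Fin k, ((Q : ℝ) * Q) := by
        refine Finset.prod_le_prod (fun i _ => norm_nonneg _) (fun i _ => ?_)
        rw [norm_mul, RCLike.norm_conj]
        exact mul_le_mul (f3_gk Q (p i) (hp i) _ (hκ i) _) (f3_gk Q (p i) (hp i) _ (hκ' i) _) (norm_nonneg _)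
          (Nat.cast_nonneg _)
    _ = (Q : ℝ) ^ (2 * k) := by
        rw [Finset.prod_const, Finset.card_univ, Fintype.card_fin, ← pow_two, ← pow_mul]

/-- The square as a double sum. Proof. `‖x‖² = x conj x`, `Finset.sum_mul_sum`, exchange of sums. -/
theorem F3_expand {k : ℕ} (ψ : Fm k) (p : Fin k → Ch) (T : Finset (Fin k → ℕ)) (a a' b s s' H : ℕ) :
    (((∑ y ∈ Ico a (a + s), ∑ y' ∈ Ico a' (a' + s'), ‖∑ z ∈ Ico b (b + H), ∑ κ ∈ T,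
        ∏ i, gk (p i) (κ i) (ψ i y y' z)‖ ^ 2 : ℝ)) : ℂ) =
      ∑ κ ∈ T, ∑ κ' ∈ T, ∑ y ∈ Ico a (a + s), ∑ y' ∈ Ico a' (a' + s'), ∑ z ∈ Ico b (b + H),
        ∑ z' ∈ Ico b (b + H), Db ψ (fun i => gk (p i) (κ i)) (fun i => gk (p i) (κ' i)) y y' z z' := by
  have hsq : ∀ y y' : ℕ, (((‖∑ z ∈ Ico b (b + H), ∑ κ ∈ T, ∏ i, gk (p i) (κ i) (ψ i y y' z)‖ ^ 2 : ℝ)) : ℂ) =
      ∑ κ ∈ T, ∑ κ' ∈ T, ∑ z ∈ Ico b (b + H), ∑ z' ∈ Ico b (b + H),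
        Db ψ (fun i => gk (p i) (κ i)) (fun i => gk (p i) (κ' i)) y y' z z' := by
    intro y y'
    rw [← Complex.normSq_eq_norm_sq, ← Complex.mul_conj, Finset.sum_comm, map_sum, Finset.sum_mul_sum]
    refine Finset.sum_congr rfl fun κ _ => Finset.sum_congr rfl fun κ' _ => ?_
    rw [map_sum, Finset.sum_mul_sum]
    refine Finset.sum_congr rfl fun z _ => Finset.sum_congr rfl fun z' _ => ?_
    unfold Db
    rw [map_prod, ← Finset.prod_mul_distrib]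
  rw [Complex.ofReal_sum]
  have h1 : ∀ y ∈ Ico a (a + s), (((∑ y' ∈ Ico a' (a' + s'), ‖∑ z ∈ Ico b (b + H), ∑ κ ∈ T,
        ∏ i, gk (p i) (κ i) (ψ i y y' z)‖ ^ 2 : ℝ)) : ℂ) =
      ∑ κ ∈ T, ∑ κ' ∈ T, ∑ y' ∈ Ico a' (a' + s'), ∑ z ∈ Ico b (b + H), ∑ z' ∈ Ico b (b + H),
        Db ψ (fun i => gk (p i) (κ i)) (fun i => gk (p i) (κ' i)) y y' z z' := by
    intro y _
    rw [Complex.ofReal_sum, Finset.sum_congr rfl (fun y' _ => hsq y y'), Finset.sum_comm]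
    refine Finset.sum_congr rfl fun κ _ => ?_
    rw [Finset.sum_comm]
  rw [Finset.sum_congr rfl h1, Finset.sum_comm]
  refine Finset.sum_congr rfl fun κ _ => ?_
  rw [Finset.sum_comm]

/-- **FG for forms with local bounds.** Proof. `F3_expand`; for each pair `C2_box` with `N = R d ≤ Q^(2k)` (`F2_size`), `L = Q^(8k)`,
`B = Q^(2k)` (`F3_sup`), `F1_glob`: the sum over the box is at most
`(τ(R)^A R^(-c) τ(d)^A/d² + 8 Q^(2k)/Q^(8k)) s s' H²`. At most `Q^(2k)` pairs; `F2_sum`. The rest is `8 Q^(-4k) ≤ 8 D^(-c/2)`: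
`T` not empty, `D < lcm ≤ ∏ (p i).1 κ i ≤ Q^k`. -/
theorem F3_gen (k A : ℕ) (c : ℝ) (hc0 : 0 < c) (hc1 : c ≤ 1) : ∃ C : ℝ, 0 < C ∧
    ∀ ψ : Fm k, CpF ψ → LocB ψ A c → ∀ Q D : ℕ, 1 ≤ D → ∀ p : Fin k → Ch, (∀ i, p i ∈ PC Q) →
    ∀ T : Finset (Fin k → ℕ), T ⊆ Fintype.piFinset (fun i => KS Q (p i).1) →
    (∀ κ ∈ T, D < univ.lcm (fun i => (p i).1 * κ i)) → ∀ a a' b s s' H : ℕ,
    Q ^ (10 * k) ≤ s → Q ^ (10 * k) ≤ s' → Q ^ (10 * k) ≤ H →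
    ∑ y ∈ Ico a (a + s), ∑ y' ∈ Ico a' (a' + s'), ‖∑ z ∈ Ico b (b + H), ∑ κ ∈ T,
      ∏ i, gk (p i) (κ i) (ψ i y y' z)‖ ^ 2 ≤ C * ((s : ℝ) * s' * H ^ 2) * (D : ℝ) ^ (-(c / 2)) := by
  classical
  obtain ⟨C, hC, hsum⟩ := F2_sum k A c hc0 hc1
  refine ⟨C + 8, by linarith, fun ψ hψ hL Q D hD p hp T hT hTD a a' b s s' H hs hs' hH => ?_⟩
  have hDr : (1 : ℝ) ≤ (D : ℝ) := by exact_mod_cast hD
  have hDp : (0 : ℝ) < (D : ℝ) ^ (-(c / 2)) := Real.rpow_pos_of_pos (by linarith) _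
  have hV : (0 : ℝ) ≤ (s : ℝ) * s' * H ^ 2 := by positivity
  rcases T.eq_empty_or_nonempty with hT0 | ⟨κ₀, hκ₀⟩
  · subst hT0
    have h0 : ∑ y ∈ Ico a (a + s), ∑ y' ∈ Ico a' (a' + s'), ‖∑ z ∈ Ico b (b + H), ∑ κ ∈ (∅ : Finset (Fin k → ℕ)),
      ∏ i, gk (p i) (κ i) (ψ i y y' z)‖ ^ 2 = 0 := by simp
    rw [h0]
    exact mul_nonneg (mul_nonneg (by linarith) hV) hDp.le
  have hKS : ∀ κ ∈ T, ∀ i, κ i ∈ KS Q (p i).1 := fun κ hκ i => (Fintype.mem_piFinset.1 (hT hκ)) i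
  have hPm : Pm p := fun i => ⟨by have := (mem_PC.1 (hp i)).1; omega, (mem_PC.1 (hp i)).2.2⟩
  have hKp : ∀ κ ∈ T, Kp p κ := fun κ hκ i => (CA_mem_KS.1 (hKS κ hκ i)).2
  -- D is at most Q^k
  have hle1 : ∀ κ ∈ T, ∀ i, (p i).1 * κ i ≤ Q := by
    intro κ hκ i
    have h1 := (CA_mem_KS.1 (hKS κ hκ i)).1.2
    calc (p i).1 * κ i ≤ (p i).1 * (Q / (p i).1) := Nat.mul_le_mul_left _ h1
      _ ≤ Q := Nat.mul_div_le Q _
  have hpos : ∀ κ ∈ T, ∀ i, 0 < (p i).1 * κ i := by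
    intro κ hκ i
    exact Nat.mul_pos (hPm i).1 (CA_mem_KS.1 (hKS κ hκ i)).1.1
  have hDQ : D ≤ Q ^ k := by
    have h1 : (univ.lcm fun i => (p i).1 * κ₀ i) ≤ ∏ i, (p i).1 * κ₀ i := by
      refine Nat.le_of_dvd (Finset.prod_pos fun i _ => hpos κ₀ hκ₀ i) ?_
      exact Finset.lcm_dvd fun i hi => Finset.dvd_prod_of_mem (fun i => (p i).1 * κ₀ i) hi
    have h2 : ∏ i, (p i).1 * κ₀ i ≤ ∏ _i : Fin k, Q := Finset.prod_le_prod' fun i _ => hle1 κ₀ hκ₀ i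
    rw [Finset.prod_const, Finset.card_univ, Fintype.card_fin] at h2
    exact (hTD κ₀ hκ₀).le.trans (h1.trans h2)
  have hQk : 1 ≤ Q ^ k := hD.trans hDQ
  have hL0 : 0 < Q ^ (8 * k) := by
    rw [mul_comm, pow_mul]
    exact pow_pos hQk 8
  have hQkr : (1 : ℝ) ≤ (Q : ℝ) ^ k := by exact_mod_cast hQk
  have hcard : T.card ≤ Q ^ k := by
    calc T.card ≤ (Fintype.piFinset (fun i => KS Q (p i).1)).card := Finset.card_le_card hT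
      _ = ∏ i, (KS Q (p i).1).card := Fintype.card_piFinset _
      _ ≤ ∏ _i : Fin k, Q := by
          refine Finset.prod_le_prod' fun i _ => ?_
          unfold KS
          refine (Finset.card_filter_le _ _).trans ?_
          rw [Nat.card_Icc, Nat.add_sub_cancel]
          exact Nat.div_le_self _ _
      _ = Q ^ k := by rw [Finset.prod_const, Finset.card_univ, Fintype.card_fin]
  -- one pair
  have hpair : ∀ κ ∈ T, ∀ κ' ∈ T,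
      ‖∑ y ∈ Ico a (a + s), ∑ y' ∈ Ico a' (a' + s'), ∑ z ∈ Ico b (b + H), ∑ z' ∈ Ico b (b + H),
        Db ψ (fun i => gk (p i) (κ i)) (fun i => gk (p i) (κ' i)) y y' z z'‖ ≤
      ((s : ℝ) * s' * H ^ 2) * (tau (Rm p) ^ A * (Rm p : ℝ) ^ (-c) *
        (tau (dof (Rm p) κ κ') ^ A / (dof (Rm p) κ κ' : ℝ) ^ 2)) +
        ((s : ℝ) * s' * H ^ 2) * (8 * ((Q : ℝ) ^ k)⁻¹ ^ 6) := by
    intro κ hκ κ' hκ'
    obtain ⟨hper, hb4⟩ := F1_glob ψ hψ A c hL p hPm κ κ' (hKp κ hκ) (hKp κ' hκ')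
    obtain ⟨hN, hNQ⟩ := F2_size Q p hp κ κ' (hKS κ hκ) (hKS κ' hκ')
    set N := Rm p * dof (Rm p) κ κ' with hNdef
    have hNL : N * Q ^ (8 * k) ≤ Q ^ (10 * k) := by
      calc N * Q ^ (8 * k) ≤ Q ^ (2 * k) * Q ^ (8 * k) := Nat.mul_le_mul_right _ hNQ
        _ = Q ^ (10 * k) := by rw [← pow_add]; congr 1; ring
    have h1 := C2_box N (Q ^ (8 * k)) hN hL0 _ hper ((Q : ℝ) ^ (2 * k))
      (fun y y' z z' => F3_sup ψ Q p hp κ κ' (hKS κ hκ) (hKS κ' hκ') y y' z z') a a' b b s s' H H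
      (hNL.trans hs) (hNL.trans hs') (hNL.trans hH) (hNL.trans hH)
    set BX := ∑ y ∈ Ico a (a + s), ∑ y' ∈ Ico a' (a' + s'), ∑ z ∈ Ico b (b + H), ∑ z' ∈ Ico b (b + H),
        Db ψ (fun i => gk (p i) (κ i)) (fun i => gk (p i) (κ' i)) y y' z z' with hBX
    set S0 := S4 N (Db ψ (fun i => gk (p i) (κ i)) (fun i => gk (p i) (κ' i))) with hS0
    have hN4 : (0 : ℝ) < (N : ℝ) ^ 4 := pow_pos (by exact_mod_cast hN) 4
    have hw0 : (0 : ℝ) ≤ (s : ℝ) * s' * H * H / (N : ℝ) ^ 4 := by positivity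
    have h2 : ‖(((s : ℝ) * s' * H * H / (N : ℝ) ^ 4 : ℝ) : ℂ) * S0‖ ≤
        ((s : ℝ) * s' * H ^ 2) * (tau (Rm p) ^ A * (Rm p : ℝ) ^ (-c) *
          (tau (dof (Rm p) κ κ') ^ A / (dof (Rm p) κ κ' : ℝ) ^ 2)) := by
      rw [norm_mul, Complex.norm_real, Real.norm_eq_abs, abs_of_nonneg hw0]
      calc (s : ℝ) * s' * H * H / (N : ℝ) ^ 4 * ‖S0‖ ≤ (s : ℝ) * s' * H * H / (N : ℝ) ^ 4 *
            ((N : ℝ) ^ 4 * (tau (Rm p) ^ A * (Rm p : ℝ) ^ (-c) *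
          (tau (dof (Rm p) κ κ') ^ A / (dof (Rm p) κ κ' : ℝ) ^ 2))) := mul_le_mul_of_nonneg_left hb4 hw0
        _ = _ := by
            field_simp
    have h3 : 8 * (Q : ℝ) ^ (2 * k) / ((Q ^ (8 * k) : ℕ) : ℝ) * ((s : ℝ) * s' * H * H) =
        ((s : ℝ) * s' * H ^ 2) * (8 * ((Q : ℝ) ^ k)⁻¹ ^ 6) := by
      have h4 : (Q : ℝ) ^ k ≠ 0 := by linarith
      have h5 : (Q : ℝ) ^ (2 * k) = ((Q : ℝ) ^ k) ^ 2 := by rw [← pow_mul, mul_comm]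
      have h6 : ((Q ^ (8 * k) : ℕ) : ℝ) = ((Q : ℝ) ^ k) ^ 8 := by
        rw [Nat.cast_pow, ← pow_mul, mul_comm k 8]
      rw [h5, h6]
      field_simp
    rw [h3] at h1
    have h4 : BX = (BX - (((s : ℝ) * s' * H * H / (N : ℝ) ^ 4 : ℝ) : ℂ) * S0) +
        (((s : ℝ) * s' * H * H / (N : ℝ) ^ 4 : ℝ) : ℂ) * S0 := by ring
    rw [h4]
    refine (norm_add_le _ _).trans ?_
    rw [add_comm]
    exact add_le_add h2 h1
  -- the sum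
  have hreal : ∑ y ∈ Ico a (a + s), ∑ y' ∈ Ico a' (a' + s'), ‖∑ z ∈ Ico b (b + H), ∑ κ ∈ T,
      ∏ i, gk (p i) (κ i) (ψ i y y' z)‖ ^ 2 ≤ ∑ κ ∈ T, ∑ κ' ∈ T,
      ‖∑ y ∈ Ico a (a + s), ∑ y' ∈ Ico a' (a' + s'), ∑ z ∈ Ico b (b + H), ∑ z' ∈ Ico b (b + H),
        Db ψ (fun i => gk (p i) (κ i)) (fun i => gk (p i) (κ' i)) y y' z z'‖ := by
    have h1 := F3_expand ψ p T a a' b s s' H
    have h2 : 0 ≤ ∑ y ∈ Ico a (a + s), ∑ y' ∈ Ico a' (a' + s'), ‖∑ z ∈ Ico b (b + H), ∑ κ ∈ T,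
      ∏ i, gk (p i) (κ i) (ψ i y y' z)‖ ^ 2 :=
      Finset.sum_nonneg fun _ _ => Finset.sum_nonneg fun _ _ => sq_nonneg _
    have h3 := congrArg norm h1
    rw [Complex.norm_real, Real.norm_eq_abs, abs_of_nonneg h2] at h3
    rw [h3]
    refine (norm_sum_le _ _).trans (Finset.sum_le_sum fun κ _ => norm_sum_le _ _)
  refine hreal.trans ?_
  refine (Finset.sum_le_sum fun κ hκ => Finset.sum_le_sum fun κ' hκ' => hpair κ hκ κ' hκ').trans ?_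
  have hsplit : ∑ κ ∈ T, ∑ κ' ∈ T, (((s : ℝ) * s' * H ^ 2) * (tau (Rm p) ^ A * (Rm p : ℝ) ^ (-c) *
        (tau (dof (Rm p) κ κ') ^ A / (dof (Rm p) κ κ' : ℝ) ^ 2)) +
        ((s : ℝ) * s' * H ^ 2) * (8 * ((Q : ℝ) ^ k)⁻¹ ^ 6)) =
      ((s : ℝ) * s' * H ^ 2) * (∑ κ ∈ T, ∑ κ' ∈ T, tau (Rm p) ^ A * (Rm p : ℝ) ^ (-c) *
        (tau (dof (Rm p) κ κ') ^ A / (dof (Rm p) κ κ' : ℝ) ^ 2)) +
      ((s : ℝ) * s' * H ^ 2) * ((T.card : ℝ) * T.card * (8 * ((Q : ℝ) ^ k)⁻¹ ^ 6)) := by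
    rw [Finset.mul_sum]
    simp only [Finset.sum_add_distrib, Finset.mul_sum, Finset.sum_const, nsmul_eq_mul]
    ring
  rw [hsplit]
  have hmain := hsum Q D hD p hp T hT hTD
  have herr : (T.card : ℝ) * T.card * (8 * ((Q : ℝ) ^ k)⁻¹ ^ 6) ≤ 8 * (D : ℝ) ^ (-(c / 2)) := by
    have h1 : (T.card : ℝ) ≤ (Q : ℝ) ^ k := by exact_mod_cast hcard
    have h2 : (0 : ℝ) < (Q : ℝ) ^ k := by linarith
    have h3 : (T.card : ℝ) * T.card ≤ (Q : ℝ) ^ k * (Q : ℝ) ^ k :=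
      mul_le_mul h1 h1 (Nat.cast_nonneg _) h2.le
    have h4 : ((Q : ℝ) ^ k)⁻¹ ≤ (D : ℝ) ^ (-(c / 2)) := by
      have h5 : (D : ℝ) ≤ (Q : ℝ) ^ k := by exact_mod_cast hDQ
      rw [Real.rpow_neg (by linarith)]
      refine inv_anti₀ (Real.rpow_pos_of_pos (by linarith) _) ?_
      calc (D : ℝ) ^ (c / 2) ≤ (D : ℝ) ^ (1 : ℝ) := Real.rpow_le_rpow_of_exponent_le hDr (by linarith)
        _ = (D : ℝ) := Real.rpow_one _
        _ ≤ (Q : ℝ) ^ k := h5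
    have h5 : ((Q : ℝ) ^ k)⁻¹ ≤ 1 := inv_le_one_of_one_le₀ hQkr
    have h6 : 0 ≤ ((Q : ℝ) ^ k)⁻¹ := inv_nonneg.2 h2.le
    calc (T.card : ℝ) * T.card * (8 * ((Q : ℝ) ^ k)⁻¹ ^ 6)
        ≤ ((Q : ℝ) ^ k * (Q : ℝ) ^ k) * (8 * ((Q : ℝ) ^ k)⁻¹ ^ 6) :=
          mul_le_mul_of_nonneg_right h3 (by positivity)
      _ = 8 * ((Q : ℝ) ^ k)⁻¹ ^ 4 := by
          field_simp
      _ ≤ 8 * ((Q : ℝ) ^ k)⁻¹ := by
          have : ((Q : ℝ) ^ k)⁻¹ ^ 4 ≤ ((Q : ℝ) ^ k)⁻¹ ^ 1 := pow_le_pow_of_le_one h6 h5 (by norm_num)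
          rw [pow_one] at this
          linarith
      _ ≤ 8 * (D : ℝ) ^ (-(c / 2)) := by linarith
  calc _ ≤ ((s : ℝ) * s' * H ^ 2) * (C * (D : ℝ) ^ (-(c / 2))) +
        ((s : ℝ) * s' * H ^ 2) * (8 * (D : ℝ) ^ (-(c / 2))) :=
        add_le_add (mul_le_mul_of_nonneg_left hmain hV) (mul_le_mul_of_nonneg_left herr hV)
    _ = (C + 8) * ((s : ℝ) * s' * H ^ 2) * (D : ℝ) ^ (-(c / 2)) := by ring

end Pool.Agent.Lib.H59T
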