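import Pool.Agent.Lib.H59T.F3
import Pool.Agent.Lib.H59T.E7

/-!
# Project H59T, chunk F4 (S/M): the four forms
-/

open Finset

namespace Pool.Agent.Lib.H59T

open Pool.Agent.Lib.H68T Pool.Agent.Lib.H18Q Pool.Agent.Lib.H59P

/-- **The four forms.** Proof. `F3_gen` with `E7_four`, `E7_cp`, `Fin.prod_univ_four`. -/
theorem F4_four : ∃ C : ℝ, 0 < C ∧ ∀ Q D : ℕ, 1 ≤ D → ∀ p : Fin 4 → Ch, (∀ i, p i ∈ PC Q) →
    ∀ T : Finset (Fin 4 → ℕ), T ⊆ Fintype.piFinset (fun i => KS Q (p i).1) →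
    (∀ κ ∈ T, D < univ.lcm (fun i => (p i).1 * κ i)) → ∀ a a' b s s' H : ℕ,
    Q ^ 40 ≤ s → Q ^ 40 ≤ s' → Q ^ 40 ≤ H →
    ∑ y ∈ Ico a (a + s), ∑ y' ∈ Ico a' (a' + s'), ‖∑ z ∈ Ico b (b + H), ∑ κ ∈ T,
      ∏ i, gk (p i) (κ i) ((![(y : ℤ) + z, y - z, y' + z, y' - z] : Fin 4 → ℤ) i)‖ ^ 2 ≤
      C * ((s : ℝ) * s' * H ^ 2) * (D : ℝ) ^ (-(1 / 36 : ℝ)) := by
  obtain ⟨C, hC, h0⟩ := F3_gen 4 10 (1 / 18) (by norm_num) (by norm_num)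
  have h := h0 ff E7_cp E7_four
  refine ⟨C, hC, fun Q D hD p hp T hT hTD a a' b s s' H hs hs' hH => ?_⟩
  have h1 := h Q D hD p hp T hT hTD a a' b s s' H hs hs' hH
  have e1 : -(1 / 18 / 2 : ℝ) = -(1 / 36 : ℝ) := by norm_num
  rw [e1] at h1
  refine le_trans (le_of_eq ?_) h1
  refine sum_congr rfl fun y _ => sum_congr rfl fun y' _ => ?_
  have h2 : ∀ (z : ℕ) (κ : Fin 4 → ℕ),
      ∏ i, gk (p i) (κ i) ((![(y : ℤ) + z, y - z, y' + z, y' - z] : Fin 4 → ℤ) i) =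
        ∏ i, gk (p i) (κ i) (ff i y y' z) := by
    intro z κ
    rw [Fin.prod_univ_four, Fin.prod_univ_four]
    rfl
  simp only [h2]

end Pool.Agent.Lib.H59T
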