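import Pool.Agent.Lib.H59T.F4

/-!
# Project H59T, chunk F5 (M): the weighted version for two forms
-/

open Finset

namespace Pool.Agent.Lib.H59T

open Pool.Agent.Lib.H68T Pool.Agent.Lib.H18Q Pool.Agent.Lib.H59P

/-- The conjugate character. -/
noncomputable def cjp (p : Ch) : Ch := ⟨p.1, p.2⁻¹⟩

theorem f5_inv_prim {r : ℕ} (χ : DirichletCharacter ℂ r) (h : χ.IsPrimitive) :
    (χ⁻¹).IsPrimitive := by
  have key : ∀ ψ : DirichletCharacter ℂ r, ψ.conductorSet ⊆ (ψ⁻¹).conductorSet := by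
    rintro ψ d ⟨hd, ξ, hξ⟩
    exact ⟨hd, ξ⁻¹, by rw [map_inv, ← hξ]⟩
  have e : (χ⁻¹).conductorSet = χ.conductorSet := by
    apply Set.Subset.antisymm
    · have := key χ⁻¹
      rwa [inv_inv] at this
    · exact key χ
  unfold DirichletCharacter.IsPrimitive DirichletCharacter.conductor at *
  rw [e]
  exact h

/-- Proof. The inverse of a primitive character is primitive, `conj χ = χ⁻¹` (`MulChar.star_apply'`-type lemma or values of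
absolute value `1` on units), the other factors of `gk` are real. -/
theorem F5_conj (Q : ℕ) (p : Ch) (hp : p ∈ PC Q) (κ : ℕ) (m : ℤ) :
    cjp p ∈ PC Q ∧ (starRingEnd ℂ) (gk p κ m) = gk (cjp p) κ m := by
  obtain ⟨h1, h2, h3⟩ := mem_PC.1 hp
  refine ⟨mem_PC.2 ⟨h1, h2, f5_inv_prim p.2 h3⟩, ?_⟩
  have hne : NeZero p.1 := ⟨by omega⟩
  have hs : ∀ (χ : DirichletCharacter ℂ p.1) (a : ZMod p.1), (starRingEnd ℂ) (χ a) = χ⁻¹ a :=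
    fun χ a => χ.star_apply' a
  unfold gk cjp
  dsimp only
  rw [map_mul, map_mul, Complex.conj_ofReal, Complex.conj_ofReal, Complex.conj_conj, hs, inv_inv]

theorem f5_neg (p : Ch) (κ : ℕ) (m : ℤ) :
    gk p κ (-m) = (starRingEnd ℂ) (p.2 (((-1 : ℤ)) : ZMod p.1)) * gk p κ m := by
  have h : ((-m : ℤ) : ZMod p.1) = ((-1 : ℤ) : ZMod p.1) * (m : ZMod p.1) := by
    push_cast
    ring
  have hc : cq κ (-m) = cq κ m := by
    unfold cq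
    simp only [dvd_neg]
  unfold gk
  rw [h, map_mul, map_mul, hc]
  ring

theorem f5_eps (p : Ch) :
    (starRingEnd ℂ) (p.2 (((-1 : ℤ)) : ZMod p.1)) *
      (starRingEnd ℂ) ((starRingEnd ℂ) (p.2 (((-1 : ℤ)) : ZMod p.1))) = 1 := by
  have h1 : p.2 (((-1 : ℤ)) : ZMod p.1) * p.2 (((-1 : ℤ)) : ZMod p.1) = 1 := by
    rw [← map_mul]
    have : (((-1 : ℤ)) : ZMod p.1) * (((-1 : ℤ)) : ZMod p.1) = 1 := by
      push_cast
      ring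
    rw [this, map_one]
  have h2 : ‖p.2 (((-1 : ℤ)) : ZMod p.1)‖ = 1 := by
    have h3 : ‖p.2 (((-1 : ℤ)) : ZMod p.1)‖ * ‖p.2 (((-1 : ℤ)) : ZMod p.1)‖ = 1 := by
      rw [← norm_mul, h1, norm_one]
    nlinarith [norm_nonneg (p.2 (((-1 : ℤ)) : ZMod p.1))]
  rw [Complex.conj_conj, mul_comm, Complex.mul_conj', h2]
  norm_num

/-- The embedding of pairs of index vectors. -/
def f5_emb (q : (Fin 2 → ℕ) × (Fin 2 → ℕ)) : Fin 4 → ℕ := ![q.1 0, q.1 1, q.2 0, q.2 1]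

theorem f5_emb_inj : Function.Injective f5_emb := by
  rintro ⟨a, b⟩ ⟨c, d⟩ h
  have h0 := congrFun h 0
  have h1 := congrFun h 1
  have h2 := congrFun h 2
  have h3 := congrFun h 3
  simp [f5_emb] at h0 h1 h2 h3
  ext i
  · fin_cases i <;> simp [h0, h1]
  · fin_cases i <;> simp [h2, h3]

theorem f5_kernel (Q : ℕ) (p : Fin 2 → Ch) (hp : ∀ i, p i ∈ PC Q) (T : Finset (Fin 2 → ℕ)) (I : Finset ℕ)
    (y1 y2 : ℕ) :
    ∑ x ∈ I, (∑ κ ∈ T, ∏ i, gk (p i) (κ i) ((![(x : ℤ) + y1, x - y1] : Fin 2 → ℤ) i)) *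
      (starRingEnd ℂ) (∑ κ ∈ T, ∏ i, gk (p i) (κ i) ((![(x : ℤ) + y2, x - y2] : Fin 2 → ℤ) i)) =
    ∑ z ∈ I, ∑ κ ∈ (T ×ˢ T).image f5_emb,
      ∏ i, gk ((![p 0, p 1, cjp (p 0), cjp (p 1)] : Fin 4 → Ch) i) (κ i)
        ((![(y1 : ℤ) + z, y1 - z, y2 + z, y2 - z] : Fin 4 → ℤ) i) := by
  refine sum_congr rfl fun x _ => ?_
  rw [sum_image (fun a _ b _ h => f5_emb_inj h), sum_product, map_sum, sum_mul_sum]
  refine sum_congr rfl fun κ _ => sum_congr rfl fun κ' _ => ?_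
  rw [Fin.prod_univ_two, Fin.prod_univ_two, Fin.prod_univ_four, map_mul,
    (F5_conj Q (p 0) (hp 0) (κ' 0) _).2, (F5_conj Q (p 1) (hp 1) (κ' 1) _).2]
  have e1 : ((![(x : ℤ) + y1, x - y1] : Fin 2 → ℤ) 0) = (y1 : ℤ) + x := by
    change (x : ℤ) + y1 = _
    ring
  have e2 : ((![(x : ℤ) + y1, x - y1] : Fin 2 → ℤ) 1) = -((y1 : ℤ) - x) := by
    change (x : ℤ) - y1 = _
    ring
  have e3 : ((![(x : ℤ) + y2, x - y2] : Fin 2 → ℤ) 0) = (y2 : ℤ) + x := by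
    change (x : ℤ) + y2 = _
    ring
  have e4 : ((![(x : ℤ) + y2, x - y2] : Fin 2 → ℤ) 1) = -((y2 : ℤ) - x) := by
    change (x : ℤ) - y2 = _
    ring
  rw [e1, e2, e3, e4, ← (F5_conj Q (p 1) (hp 1) (κ' 1) (-((y2 : ℤ) - x))).2, f5_neg, f5_neg, map_mul,
    (F5_conj Q (p 1) (hp 1) (κ' 1) ((y2 : ℤ) - x)).2]
  have h := f5_eps (p 1)
  change gk (p 0) (κ 0) ((y1 : ℤ) + x) *
      ((starRingEnd ℂ) ((p 1).2 (((-1 : ℤ)) : ZMod (p 1).1)) * gk (p 1) (κ 1) ((y1 : ℤ) - x)) *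
      (gk (cjp (p 0)) (κ' 0) ((y2 : ℤ) + x) *
        ((starRingEnd ℂ) ((starRingEnd ℂ) ((p 1).2 (((-1 : ℤ)) : ZMod (p 1).1))) *
          gk (cjp (p 1)) (κ' 1) ((y2 : ℤ) - x))) =
    gk (p 0) (κ 0) ((y1 : ℤ) + x) * gk (p 1) (κ 1) ((y1 : ℤ) - x) *
      gk (cjp (p 0)) (κ' 0) ((y2 : ℤ) + x) * gk (cjp (p 1)) (κ' 1) ((y2 : ℤ) - x)
  linear_combination (gk (p 0) (κ 0) ((y1 : ℤ) + x) * gk (p 1) (κ 1) ((y1 : ℤ) - x) *
      gk (cjp (p 0)) (κ' 0) ((y2 : ℤ) + x) * gk (cjp (p 1)) (κ' 1) ((y2 : ℤ) - x)) * h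

theorem f5_cs (I J : Finset ℕ) (w : ℕ → ℂ) (F : ℕ → ℕ → ℂ) :
    ∑ x ∈ I, ‖∑ y ∈ J, w y * F x y‖ ^ 2 ≤ (∑ y ∈ J, ‖w y‖ ^ 2) *
      Real.sqrt (∑ y1 ∈ J, ∑ y2 ∈ J, ‖∑ x ∈ I, F x y1 * (starRingEnd ℂ) (F x y2)‖ ^ 2) := by
  set A : ℝ := ∑ x ∈ I, ‖∑ y ∈ J, w y * F x y‖ ^ 2 with hA
  have hA0 : 0 ≤ A := sum_nonneg fun _ _ => sq_nonneg _
  set K : ℕ → ℕ → ℂ := fun y1 y2 => ∑ x ∈ I, F x y1 * (starRingEnd ℂ) (F x y2) with hK
  have e1 : (A : ℂ) = ∑ y1 ∈ J, ∑ y2 ∈ J, w y1 * (starRingEnd ℂ) (w y2) * K y1 y2 := by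
    rw [hA]
    push_cast
    have h1 : ∀ x ∈ I, ((‖∑ y ∈ J, w y * F x y‖ : ℝ) : ℂ) ^ 2 =
        ∑ y1 ∈ J, ∑ y2 ∈ J, w y1 * (starRingEnd ℂ) (w y2) * (F x y1 * (starRingEnd ℂ) (F x y2)) := by
      intro x _
      rw [← Complex.mul_conj', map_sum, sum_mul_sum]
      refine sum_congr rfl fun y1 _ => sum_congr rfl fun y2 _ => ?_
      rw [map_mul]
      ring
    rw [sum_congr rfl h1, sum_comm]
    refine sum_congr rfl fun y1 _ => ?_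
    rw [sum_comm]
    refine sum_congr rfl fun y2 _ => ?_
    rw [hK, mul_sum]
  have e2 : A ≤ ∑ q ∈ J ×ˢ J, (‖w q.1‖ * ‖w q.2‖) * ‖K q.1 q.2‖ := by
    have h2 : A = ‖(A : ℂ)‖ := by
      rw [Complex.norm_real, Real.norm_of_nonneg hA0]
    rw [h2, e1, sum_product]
    refine (norm_sum_le _ _).trans (sum_le_sum fun y1 _ => (norm_sum_le _ _).trans
      (sum_le_sum fun y2 _ => le_of_eq ?_))
    rw [norm_mul, norm_mul, RCLike.norm_conj]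
  have e3 : (∑ q ∈ J ×ˢ J, (‖w q.1‖ * ‖w q.2‖) * ‖K q.1 q.2‖) ^ 2 ≤
      (∑ q ∈ J ×ˢ J, (‖w q.1‖ * ‖w q.2‖) ^ 2) * ∑ q ∈ J ×ˢ J, ‖K q.1 q.2‖ ^ 2 :=
    sum_mul_sq_le_sq_mul_sq _ _ _
  have e4 : ∑ q ∈ J ×ˢ J, (‖w q.1‖ * ‖w q.2‖) ^ 2 = (∑ y ∈ J, ‖w y‖ ^ 2) ^ 2 := by
    rw [sum_product, sq, sum_mul_sum]
    refine sum_congr rfl fun y1 _ => sum_congr rfl fun y2 _ => ?_
    ring
  have e5 : ∑ q ∈ J ×ˢ J, ‖K q.1 q.2‖ ^ 2 = ∑ y1 ∈ J, ∑ y2 ∈ J, ‖K y1 y2‖ ^ 2 := by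
    rw [sum_product]
  rw [e4, e5] at e3
  have hW : 0 ≤ ∑ y ∈ J, ‖w y‖ ^ 2 := sum_nonneg fun _ _ => sq_nonneg _
  have hS : 0 ≤ ∑ y1 ∈ J, ∑ y2 ∈ J, ‖K y1 y2‖ ^ 2 :=
    sum_nonneg fun _ _ => sum_nonneg fun _ _ => sq_nonneg _
  refine e2.trans (abs_le_of_sq_le_sq' ?_ (mul_nonneg hW (Real.sqrt_nonneg _))).2
  rw [mul_pow, Real.sq_sqrt hS]
  exact e3

theorem f5_lcm (Q D : ℕ) (p : Fin 2 → Ch) (hp : ∀ i, p i ∈ PC Q) (κ κ' : Fin 2 → ℕ)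
    (hκ : κ ∈ Fintype.piFinset (fun i => KS Q (p i).1)) (hκ' : κ' ∈ Fintype.piFinset (fun i => KS Q (p i).1))
    (h : D < univ.lcm (fun i => (p i).1 * κ i)) :
    D < univ.lcm (fun i => ((![p 0, p 1, cjp (p 0), cjp (p 1)] : Fin 4 → Ch) i).1 * f5_emb (κ, κ') i) := by
  have hpos : ∀ (μ : Fin 2 → ℕ), μ ∈ Fintype.piFinset (fun i => KS Q (p i).1) → ∀ i, 1 ≤ μ i := by
    intro μ hμ i
    have h1 := Fintype.mem_piFinset.1 hμ i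
    unfold KS at h1
    classical
    rw [mem_filter, mem_Icc] at h1
    exact h1.1.1
  have hp1 : ∀ i, 1 ≤ (p i).1 := fun i => (mem_PC.1 (hp i)).1
  refine lt_of_lt_of_le h (Nat.le_of_dvd ?_ ?_)
  · apply Nat.pos_of_ne_zero
    intro h0
    rw [Finset.lcm_eq_zero_iff] at h0
    obtain ⟨i, _, hi⟩ := h0
    fin_cases i
    · simp [f5_emb] at hi
      rcases hi with hi | hi
      · have := hp1 0; omega
      · have := hpos κ hκ 0; omega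
    · simp [f5_emb] at hi
      rcases hi with hi | hi
      · have := hp1 1; omega
      · have := hpos κ hκ 1; omega
    · simp [f5_emb, cjp] at hi
      rcases hi with hi | hi
      · have := hp1 0; omega
      · have := hpos κ' hκ' 0; omega
    · simp [f5_emb, cjp] at hi
      rcases hi with hi | hi
      · have := hp1 1; omega
      · have := hpos κ' hκ' 1; omega
  · apply Finset.lcm_dvd
    intro i _
    fin_cases i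
    · exact Finset.dvd_lcm (f := fun i => ((![p 0, p 1, cjp (p 0), cjp (p 1)] : Fin 4 → Ch) i).1 *
        f5_emb (κ, κ') i) (mem_univ (0 : Fin 4))
    · exact Finset.dvd_lcm (f := fun i => ((![p 0, p 1, cjp (p 0), cjp (p 1)] : Fin 4 → Ch) i).1 *
        f5_emb (κ, κ') i) (mem_univ (1 : Fin 4))

/-- **Weights.** Here `x` is random and `y` is the summation variable with arbitrary weights. Proof. `F(x,y) = ∑_{κ ∈ T} gk gk`. The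
left side is `∑_{y1,y2} w(y1) conj w(y2) K(y1,y2)`, `K(y1,y2) = ∑_x F(x,y1) conj F(x,y2)`, at most
`(∑ |w|²) (∑_{y1,y2} |K|²)^(1/2)` (Cauchy-Schwarz). The forms are `y + x`, `x - y`; `gk p κ (x - y)` differs from
`gk p κ (y - x)` by the sign `χ(-1)` of the character, which is `±1` and constant. So `K` is, up to a sign, the inner sum in `F4_four` (with
`y = y1`, `y' = y2`, `z = x`) for `![p1, p2, cjp p1, cjp p2]` and `T × T` (image under `(κ, κ') ↦ ![κ 0, κ 1, κ' 0, κ' 1]`),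
`F5_conj`; `lcm` over four is at least the `lcm` over the first two. `(C D^(-1/36))^(1/2)`. -/
theorem F5_weights : ∃ C : ℝ, 0 < C ∧ ∀ Q D : ℕ, 1 ≤ D → ∀ p : Fin 2 → Ch, (∀ i, p i ∈ PC Q) →
    ∀ T : Finset (Fin 2 → ℕ), T ⊆ Fintype.piFinset (fun i => KS Q (p i).1) →
    (∀ κ ∈ T, D < univ.lcm (fun i => (p i).1 * κ i)) → ∀ (w : ℕ → ℂ) (a b s H : ℕ),
    Q ^ 40 ≤ s → Q ^ 40 ≤ H →
    ∑ x ∈ Ico a (a + s), ‖∑ y ∈ Ico b (b + H), w y * ∑ κ ∈ T,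
      ∏ i, gk (p i) (κ i) ((![(x : ℤ) + y, x - y] : Fin 2 → ℤ) i)‖ ^ 2 ≤
      C * ((s : ℝ) * H * ∑ y ∈ Ico b (b + H), ‖w y‖ ^ 2) * (D : ℝ) ^ (-(1 / 72 : ℝ)) := by
  obtain ⟨C, hC, hF⟩ := F4_four
  refine ⟨Real.sqrt C, Real.sqrt_pos.2 hC, ?_⟩
  intro Q D hD p hp T hT hlcm w a b s H hs hH
  have hp' : ∀ i, (![p 0, p 1, cjp (p 0), cjp (p 1)] : Fin 4 → Ch) i ∈ PC Q := by
    intro i
    fin_cases i
    · exact hp 0
    · exact hp 1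
    · exact (F5_conj Q (p 0) (hp 0) 0 0).1
    · exact (F5_conj Q (p 1) (hp 1) 0 0).1
  have hT' : (T ×ˢ T).image f5_emb ⊆ Fintype.piFinset
      (fun i => KS Q ((![p 0, p 1, cjp (p 0), cjp (p 1)] : Fin 4 → Ch) i).1) := by
    intro κ hκ
    obtain ⟨⟨κ1, κ2⟩, hq, rfl⟩ := mem_image.1 hκ
    rw [mem_product] at hq
    have h1 := Fintype.mem_piFinset.1 (hT hq.1)
    have h2 := Fintype.mem_piFinset.1 (hT hq.2)
    rw [Fintype.mem_piFinset]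
    intro i
    fin_cases i
    · exact h1 0
    · exact h1 1
    · exact h2 0
    · exact h2 1
  have hl' : ∀ κ ∈ (T ×ˢ T).image f5_emb, D < univ.lcm
      (fun i => ((![p 0, p 1, cjp (p 0), cjp (p 1)] : Fin 4 → Ch) i).1 * κ i) := by
    intro κ hκ
    obtain ⟨⟨κ1, κ2⟩, hq, rfl⟩ := mem_image.1 hκ
    rw [mem_product] at hq
    exact f5_lcm Q D p hp κ1 κ2 (hT hq.1) (hT hq.2) (hlcm κ1 hq.1)
  have h4 := hF Q D hD _ hp' _ hT' hl' b b a H H s hH hH hs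
  have hcs := f5_cs (Ico a (a + s)) (Ico b (b + H)) w
    (fun x y => ∑ κ ∈ T, ∏ i, gk (p i) (κ i) ((![(x : ℤ) + y, x - y] : Fin 2 → ℤ) i))
  have hker : ∑ y1 ∈ Ico b (b + H), ∑ y2 ∈ Ico b (b + H), ‖∑ x ∈ Ico a (a + s),
      (∑ κ ∈ T, ∏ i, gk (p i) (κ i) ((![(x : ℤ) + y1, x - y1] : Fin 2 → ℤ) i)) *
      (starRingEnd ℂ) (∑ κ ∈ T, ∏ i, gk (p i) (κ i) ((![(x : ℤ) + y2, x - y2] : Fin 2 → ℤ) i))‖ ^ 2 ≤
      C * ((H : ℝ) * H * (s : ℝ) ^ 2) * (D : ℝ) ^ (-(1 / 36 : ℝ)) := by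
    refine le_trans (le_of_eq ?_) h4
    refine sum_congr rfl fun y1 _ => sum_congr rfl fun y2 _ => ?_
    rw [f5_kernel Q p hp T (Ico a (a + s)) y1 y2]
  have hD0 : (0 : ℝ) ≤ (D : ℝ) := Nat.cast_nonneg D
  have hr : Real.sqrt (C * ((H : ℝ) * H * (s : ℝ) ^ 2) * (D : ℝ) ^ (-(1 / 36 : ℝ))) =
      Real.sqrt C * ((s : ℝ) * H) * (D : ℝ) ^ (-(1 / 72 : ℝ)) := by
    have e1 : C * ((H : ℝ) * H * (s : ℝ) ^ 2) * (D : ℝ) ^ (-(1 / 36 : ℝ)) =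
        (Real.sqrt C * ((s : ℝ) * H) * (D : ℝ) ^ (-(1 / 72 : ℝ))) ^ 2 := by
      have e2 : ((D : ℝ) ^ (-(1 / 72 : ℝ))) ^ 2 = (D : ℝ) ^ (-(1 / 36 : ℝ)) := by
        rw [← Real.rpow_natCast, ← Real.rpow_mul hD0]
        norm_num
      rw [mul_pow, mul_pow, Real.sq_sqrt hC.le, e2]
      ring
    rw [e1, Real.sqrt_sq (by positivity)]
  refine hcs.trans ?_
  refine (mul_le_mul_of_nonneg_left (Real.sqrt_le_sqrt hker)
    (sum_nonneg fun _ _ => sq_nonneg _)).trans (le_of_eq ?_)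
  rw [hr]
  ring

end Pool.Agent.Lib.H59T
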