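import Pool.Agent.Lib.H59P.MDefs
import Pool.Agent.Lib.H59T.Defs

/-!
# Project H59T, second part: mean squares of components over pairs (definitions)

`(y, y')` is random, one sums over `z`. The mean square is a sum over pairs `(κ, κ')` of complete sums in the four
variables `y, y', z, z'`, which factor over the primes.
-/

open Finset

namespace Pool.Agent.Lib.H59T

open Pool.Agent.Lib.H68T Pool.Agent.Lib.H18Q Pool.Agent.Lib.H59P

noncomputable section

/-- The sum over a complete period in four variables. -/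
def S4 (N : ℕ) (F : ℤ → ℤ → ℤ → ℤ → ℂ) : ℂ :=
  ∑ y ∈ range N, ∑ y' ∈ range N, ∑ z ∈ range N, ∑ z' ∈ range N, F y y' z z'

/-- Periodic in each of the four variables. -/
structure Per4 (N : ℕ) (F : ℤ → ℤ → ℤ → ℤ → ℂ) : Prop where
  h1 : ∀ y y' z z' : ℤ, F (y + N) y' z z' = F y y' z z'
  h2 : ∀ y y' z z' : ℤ, F y (y' + N) z z' = F y y' z z'
  h3 : ∀ y y' z z' : ℤ, F y y' (z + N) z' = F y y' z z'
  h4 : ∀ y y' z z' : ℤ, F y y' z (z' + N) = F y y' z z'

/-- Integer functions of `(y, y', z)`. -/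
abbrev Fm (k : ℕ) := Fin k → ℤ → ℤ → ℤ → ℤ

/-- Congruence preserving in each variable. -/
def CpF {k : ℕ} (ψ : Fm k) : Prop := ∀ (i : Fin k) (q y y' z : ℤ),
  q ∣ ψ i (y + q) y' z - ψ i y y' z ∧ q ∣ ψ i y (y' + q) z - ψ i y y' z ∧
    q ∣ ψ i y y' (z + q) - ψ i y y' z

/-- The four forms `y + z, y - z, y' + z, y' - z`. -/
def ff : Fm 4 := ![fun y _ z => y + z, fun y _ z => y - z, fun _ y' z => y' + z, fun _ y' z => y' - z]

/-- The three forms `y + z, y - z, 2 z - 3`. -/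
def tf : Fm 3 := ![fun y _ z => y + z, fun y _ z => y - z, fun _ _ z => 2 * z - 3]

/-- The doubled product `∏ g_i(ψ_i(y,y',z)) conj g'_i(ψ_i(y,y',z'))`. -/
def Db {k : ℕ} (ψ : Fm k) (g g' : Fin k → ℤ → ℂ) (y y' z z' : ℤ) : ℂ :=
  ∏ i, (g i (ψ i y y' z) * (starRingEnd ℂ) (g' i (ψ i y y' z')))

/-- `F l` is the primitive character modulo the exact power of `l` in `p.1`, for the primes `l ∣ p.1`, and `p` is
their product. -/
def LCh (p : Ch) (F : ℕ → Ch) : Prop :=
  (∀ l ∈ p.1.primeFactors, (F l).1 = l ^ p.1.factorization l ∧ (F l).2.IsPrimitive) ∧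
    ∀ n : ℤ, p.2 (n : ZMod p.1) = ∏ l ∈ p.1.primeFactors, (F l).2 (n : ZMod (F l).1)

/-- The local components of a character. -/
def lch (p : Ch) : ℕ → Ch := open Classical in if h : ∃ F : ℕ → Ch, LCh p F then h.choose else fun _ => p0

/-- The local factor at the prime `l` of the component `gk p κ`. -/
def lf (p : Ch) (κ l : ℕ) (m : ℤ) : ℂ :=
  if l ∣ p.1 then (((l : ℝ) / ((l : ℝ) - 1) : ℝ) : ℂ) * cj (lch p l) m
  else if l ∣ κ then ((gl l m : ℝ) : ℂ) else 1

/-- The least common multiple of the conductors. -/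
def Rm {k : ℕ} (p : Fin k → Ch) : ℕ := univ.lcm fun i => (p i).1

/-- Positive conductors, primitive characters. -/
def Pm {k : ℕ} (p : Fin k → Ch) : Prop := ∀ i, 0 < (p i).1 ∧ (p i).2.IsPrimitive

/-- Squarefree, coprime to the conductors. -/
def Kp {k : ℕ} (p : Fin k → Ch) (κ : Fin k → ℕ) : Prop :=
  ∀ i, Squarefree (κ i) ∧ Nat.Coprime (κ i) (p i).1

/-- The local bounds: gain `(l^b)^(-c)` at the primes `l` dividing the conductors (`l^b` exactly divides their least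
common multiple) and `l^(-2)` at the other primes which divide some modulus, up to constants `2^A`. -/
def LocB {k : ℕ} (ψ : Fm k) (A : ℕ) (c : ℝ) : Prop :=
  ∀ p : Fin k → Ch, Pm p → ∀ κ κ' : Fin k → ℕ, Kp p κ → Kp p κ' → ∀ l : ℕ, l.Prime →
    (l ∣ Rm p → ‖S4 (l ^ (Rm p).factorization l)
        (Db ψ (fun i => lf (p i) (κ i) l) (fun i => lf (p i) (κ' i) l))‖ ≤
      ((l ^ (Rm p).factorization l : ℕ) : ℝ) ^ 4 *
        (2 ^ A * ((l ^ (Rm p).factorization l : ℕ) : ℝ) ^ (-c))) ∧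
    (¬ l ∣ Rm p → (∃ i, l ∣ κ i ∨ l ∣ κ' i) →
      ‖S4 l (Db ψ (fun i => lf (p i) (κ i) l) (fun i => lf (p i) (κ' i) l))‖ ≤
        (l : ℝ) ^ 4 * (2 ^ A / (l : ℝ) ^ 2))

open Classical in
/-- The product of the primes dividing some `κ_i` or `κ'_i` but not `R`. -/
def dof {k : ℕ} (R : ℕ) (κ κ' : Fin k → ℕ) : ℕ :=
  ∏ l ∈ (univ.biUnion fun i => (κ i).primeFactors ∪ (κ' i).primeFactors).filter (fun l => ¬ l ∣ R), l

/-- The number of divisors. -/
def tau (n : ℕ) : ℝ := (n.divisors.card : ℝ)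

/-- `gl l` as a function on `ZMod l`. -/
def glz (l : ℕ) (t : ZMod l) : ℝ := if t = 0 then -1 else 1 / ((l : ℝ) - 1)

end

end Pool.Agent.Lib.H59T
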