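import Pool.Agent.Lib.H59T.K4

/-!
# Project H59T, chunk G1 (M): Lemma G for prime moduli
-/

open Finset

namespace Pool.Agent.Lib.H59T

theorem g1_double (q : ℕ) (hq : Odd q) (x y : ZMod q) (h : x + x = y + y) : x = y := by
  obtain ⟨k, hk⟩ := hq
  have h0 : (2 * (k : ZMod q) + 1) = 0 := by
    have : ((2 * k + 1 : ℕ) : ZMod q) = 0 := by rw [← hk]; exact ZMod.natCast_self q
    push_cast at this
    exact this
  linear_combination (-(k : ZMod q)) * h + (x - y) * h0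

theorem g1_sub (q : ℕ) [NeZero q] (hq : Odd q) (H : ZMod q → ZMod q → ℂ) :
    ∑ z : ZMod q, ∑ y : ZMod q, H (z + y) (z - y) = ∑ s : ZMod q, ∑ t : ZMod q, H s t := by
  rw [← Fintype.sum_prod_type' (f := fun z y : ZMod q => H (z + y) (z - y)), ← Fintype.sum_prod_type' (f := fun z y : ZMod q => H z y)]
  have hinj : Function.Injective (fun p : ZMod q × ZMod q => (p.1 + p.2, p.1 - p.2)) := by
    rintro ⟨a, b⟩ ⟨c, d⟩ h
    simp only [Prod.mk.injEq] at h
    obtain ⟨h1, h2⟩ := h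
    have h3 : a = c := g1_double q hq a c (by linear_combination h1 + h2)
    have h4 : b = d := by rw [h3] at h1; exact add_left_cancel h1
    rw [h3, h4]
  have hbij : Function.Bijective (fun p : ZMod q × ZMod q => (p.1 + p.2, p.1 - p.2)) :=
    Finite.injective_iff_bijective.1 hinj
  exact hbij.sum_comp (fun p : ZMod q × ZMod q => H p.1 p.2)

theorem g1_sq {ι : Type*} [Fintype ι] (f : ι → ℂ) : ((‖∑ y, f y‖ ^ 2 : ℝ) : ℂ) = ∑ y1, ∑ y2, f y1 * star (f y2) := by
  rw [← Finset.sum_mul_sum, ← star_sum]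
  have := Complex.mul_conj (∑ y, f y)
  rw [Complex.normSq_eq_norm_sq] at this
  rw [← this]
  rfl

/-- The expansion of `GS`, for odd `q`. Proof. Expand the square: sum over `z1, z2, y1, y2` of
`χ(z1+y1) star χ(z2+y1) star χ(z1+y2) χ(z2+y2) · W(z1-y1) W'(z2-y1) star W(z1-y2) star W'(z2-y2)`; substitute
`s = z1 + y1`, `t = z1 - y1` (bijection, `2` is invertible), `a = y2 - y1`, `b = z2 - z1`: the arguments are
`s, s+b, s+a, s+a+b` and `t, t+b, t-a, t+b-a`. -/
theorem G1_expand (q : ℕ) [NeZero q] (hq : Odd q) (χ : DirichletCharacter ℂ q) (W W' : ZMod q → ℂ) :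
    ((GS χ W W' : ℝ) : ℂ) = ∑ a : ZMod q, ∑ b : ZMod q, U4 χ a b *
      ∑ t : ZMod q, W t * W' (t + b) * star (W (t - a)) * star (W' (t + b - a)) := by
  unfold GS U4
  push_cast
  have e1 : ∀ z1 z2 : ZMod q, ((‖∑ y : ZMod q, χ (z1 + y) * star (χ (z2 + y)) * W (z1 - y) * W' (z2 - y)‖ : ℂ)) ^ 2 =
      ∑ y1 : ZMod q, ∑ y2 : ZMod q, (χ (z1 + y1) * star (χ (z2 + y1)) * W (z1 - y1) * W' (z2 - y1)) *
        star (χ (z1 + y2) * star (χ (z2 + y2)) * W (z1 - y2) * W' (z2 - y2)) := by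
    intro z1 z2
    rw [← g1_sq]
    push_cast
    rfl
  simp only [e1]
  -- substitute `z2 = z1 + b`, `y2 = y1 + a`
  have e2 : ∀ z1 : ZMod q, ∑ z2 : ZMod q, ∑ y1 : ZMod q, ∑ y2 : ZMod q,
      (χ (z1 + y1) * star (χ (z2 + y1)) * W (z1 - y1) * W' (z2 - y1)) *
        star (χ (z1 + y2) * star (χ (z2 + y2)) * W (z1 - y2) * W' (z2 - y2)) =
      ∑ b : ZMod q, ∑ y1 : ZMod q, ∑ a : ZMod q,
      (χ (z1 + y1) * star (χ (z1 + b + y1)) * W (z1 - y1) * W' (z1 + b - y1)) *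
        star (χ (z1 + (y1 + a)) * star (χ (z1 + b + (y1 + a))) * W (z1 - (y1 + a)) * W' (z1 + b - (y1 + a))) := by
    intro z1
    rw [← Equiv.sum_comp (Equiv.addLeft z1)]
    refine Finset.sum_congr rfl fun b _ => Finset.sum_congr rfl fun y1 _ => ?_
    rw [← Equiv.sum_comp (Equiv.addLeft y1)]
    rfl
  simp only [e2]
  have e3 : ∀ a b : ZMod q, (∑ s : ZMod q, χ s * star (χ (s + a)) * star (χ (s + b)) * χ (s + a + b)) *
      ∑ t : ZMod q, W t * W' (t + b) * star (W (t - a)) * star (W' (t + b - a)) =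
      ∑ z : ZMod q, ∑ y : ZMod q, (χ (z + y) * star (χ (z + b + y)) * W (z - y) * W' (z + b - y)) *
        star (χ (z + (y + a)) * star (χ (z + b + (y + a))) * W (z - (y + a)) * W' (z + b - (y + a))) := by
    intro a b
    rw [Finset.sum_mul_sum, ← g1_sub q hq]
    refine Finset.sum_congr rfl fun z _ => Finset.sum_congr rfl fun y _ => ?_
    have i1 : z + y + a = z + (y + a) := by ring
    have i2 : z + y + b = z + b + y := by ring
    have i3 : z + (y + a) + b = z + b + (y + a) := by ring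
    have i4 : z - y + b = z + b - y := by ring
    have i5 : z - y - a = z - (y + a) := by ring
    have i6 : z + b - y - a = z + b - (y + a) := by ring
    rw [i1, i2, i3, i4, i5, i6]
    simp only [star_mul', star_star]
    ring
  simp only [e3]
  -- swap the sums
  rw [Finset.sum_comm]
  rw [Finset.sum_comm (s := univ) (t := univ) (f := fun a b => ∑ z : ZMod q, ∑ y : ZMod q, (χ (z + y) * star (χ (z + b + y)) * W (z - y) * W' (z + b - y)) *
        star (χ (z + (y + a)) * star (χ (z + b + (y + a))) * W (z - (y + a)) * W' (z + b - (y + a))))]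
  refine Finset.sum_congr rfl fun b _ => ?_
  rw [Finset.sum_comm (s := univ) (t := univ) (f := fun a z => ∑ y : ZMod q, (χ (z + y) * star (χ (z + b + y)) * W (z - y) * W' (z + b - y)) *
        star (χ (z + (y + a)) * star (χ (z + b + (y + a))) * W (z - (y + a)) * W' (z + b - (y + a))))]
  refine Finset.sum_congr rfl fun z _ => ?_
  rw [Finset.sum_comm]

/-- Proof. `G1_expand`; the inner sum is at most `l`; Cauchy-Schwarz over `a, b` and `K4`:
`l (l² · 13 l³)^(1/2) ≤ 4 l^(7/2)`. -/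
theorem G1 (l : ℕ) [Fact l.Prime] (hl : l ≠ 2) (χ : DirichletCharacter ℂ l) (hχ : χ ≠ 1)
    (W W' : ZMod l → ℂ) (hW : ∀ t, ‖W t‖ ≤ 1) (hW' : ∀ t, ‖W' t‖ ≤ 1) :
    GS χ W W' ≤ 4 * (l : ℝ) ^ (7 / 2 : ℝ) := by
  have hp : l.Prime := Fact.out
  have hodd : Odd l := hp.odd_of_ne_two hl
  have hl0 : (0 : ℝ) ≤ l := Nat.cast_nonneg l
  have h0 : 0 ≤ GS χ W W' := by
    unfold GS
    positivity
  have h1 : GS χ W W' ≤ (l : ℝ) * ∑ a : ZMod l, ∑ b : ZMod l, ‖U4 χ a b‖ := by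
    have e1 : GS χ W W' = ‖((GS χ W W' : ℝ) : ℂ)‖ := by
      rw [Complex.norm_real, Real.norm_of_nonneg h0]
    rw [e1, G1_expand l hodd, Finset.mul_sum]
    refine (norm_sum_le _ _).trans (Finset.sum_le_sum fun a _ => ?_)
    rw [Finset.mul_sum]
    refine (norm_sum_le _ _).trans (Finset.sum_le_sum fun b _ => ?_)
    rw [norm_mul, mul_comm]
    refine mul_le_mul_of_nonneg_right ?_ (norm_nonneg _)
    refine (norm_sum_le _ _).trans ?_
    calc ∑ t : ZMod l, ‖W t * W' (t + b) * star (W (t - a)) * star (W' (t + b - a))‖ ≤ ∑ t : ZMod l, (1 : ℝ) := by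
          refine Finset.sum_le_sum fun t _ => ?_
          rw [norm_mul, norm_mul, norm_mul, norm_star, norm_star]
          have k1 := hW t
          have k2 := hW' (t + b)
          have k3 := hW (t - a)
          have k4 := hW' (t + b - a)
          exact mul_le_one₀ (mul_le_one₀ (mul_le_one₀ k1 (norm_nonneg _) k2) (norm_nonneg _) k3) (norm_nonneg _) k4
      _ = l := by
          rw [Finset.sum_const, Finset.card_univ, ZMod.card, nsmul_eq_mul, mul_one]
  have h2 : (∑ a : ZMod l, ∑ b : ZMod l, ‖U4 χ a b‖) ^ 2 ≤ (l : ℝ) ^ 2 * (13 * (l : ℝ) ^ 3) := by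
    have k := K4 l hl χ hχ
    rw [← Fintype.sum_prod_type' (f := fun a b : ZMod l => ‖U4 χ a b‖)]
    rw [← Fintype.sum_prod_type' (f := fun a b : ZMod l => ‖U4 χ a b‖ ^ 2)] at k
    have k2 := sq_sum_le_card_mul_sum_sq (s := (univ : Finset (ZMod l × ZMod l))) (f := fun p => ‖U4 χ p.1 p.2‖)
    refine k2.trans ?_
    have k3 : ((univ : Finset (ZMod l × ZMod l)).card : ℝ) = (l : ℝ) ^ 2 := by
      rw [Finset.card_univ, Fintype.card_prod, ZMod.card]
      push_cast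
      ring
    rw [k3]
    exact mul_le_mul_of_nonneg_left k (by positivity)
  refine h1.trans ?_
  have h3 : (4 * (l : ℝ) ^ (7 / 2 : ℝ)) ^ 2 = 16 * (l : ℝ) ^ 7 := by
    rw [mul_pow, ← Real.rpow_natCast ((l : ℝ) ^ (7 / 2 : ℝ)) 2, ← Real.rpow_mul hl0, ← Real.rpow_natCast (l : ℝ) 7]
    norm_num
  have h4 : 0 ≤ 4 * (l : ℝ) ^ (7 / 2 : ℝ) := by positivity
  refine (abs_le_of_sq_le_sq' ?_ h4).2
  rw [h3, mul_pow]
  calc (l : ℝ) ^ 2 * (∑ a : ZMod l, ∑ b : ZMod l, ‖U4 χ a b‖) ^ 2 ≤ (l : ℝ) ^ 2 * ((l : ℝ) ^ 2 * (13 * (l : ℝ) ^ 3)) :=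
        mul_le_mul_of_nonneg_left h2 (by positivity)
    _ = 13 * (l : ℝ) ^ 7 := by ring
    _ ≤ 16 * (l : ℝ) ^ 7 := by
        have : 0 ≤ (l : ℝ) ^ 7 := by positivity
        linarith

end Pool.Agent.Lib.H59T
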