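import Pool.Agent.Lib.H59T.Defs

/-!
# Project H59T, chunk G2 (M): characters modulo prime powers near 1
-/

open Finset

namespace Pool.Agent.Lib.H59T

theorem g2_pow (l a k : ℕ) (h : a ≤ k) : (l : ZMod (l ^ a)) ^ k = 0 := by
  have h1 : ((l ^ k : ℕ) : ZMod (l ^ a)) = 0 := (ZMod.natCast_eq_zero_iff _ _).2 (pow_dvd_pow l h)
  rw [← h1]
  push_cast
  rfl

/-- `t ↦ χ(1 + l^m t)` is additive if `l^(2m) = 0`. Proof. `(1 + l^m t)(1 + l^m t') = 1 + l^m (t + t')`. -/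
theorem G2_add (l a m : ℕ) (h2 : a ≤ 2 * m) (χ : DirichletCharacter ℂ (l ^ a)) (t t' : ZMod (l ^ a)) :
    χ (1 + (l : ZMod (l ^ a)) ^ m * (t + t')) =
      χ (1 + (l : ZMod (l ^ a)) ^ m * t) * χ (1 + (l : ZMod (l ^ a)) ^ m * t') := by
  have h : (l : ZMod (l ^ a)) ^ m * (l : ZMod (l ^ a)) ^ m = 0 := by
    rw [← pow_add]
    exact g2_pow l a (m + m) (by omega)
  rw [← map_mul]
  congr 1
  linear_combination (-(t * t')) * h

theorem g2_top (l a : ℕ) (hl : l.Prime) (ha : 1 ≤ a) [NeZero (l ^ a)] (χ : DirichletCharacter ℂ (l ^ a)) (hχ : χ.IsPrimitive)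
    (h : ∀ t : ZMod (l ^ a), χ (1 + (l : ZMod (l ^ a)) ^ (a - 1) * t) = 1) : False := by
  have hd : l ^ (a - 1) ∣ l ^ a := pow_dvd_pow l (by omega)
  have hf : χ.FactorsThrough (l ^ (a - 1)) := by
    rw [DirichletCharacter.factorsThrough_iff_ker_unitsMap hd]
    intro u hu
    rw [MonoidHom.mem_ker] at hu ⊢
    have h1 : (ZMod.castHom hd (ZMod (l ^ (a - 1)))) (u : ZMod (l ^ a)) = 1 := by
      have h2 := congrArg (fun w : (ZMod (l ^ (a - 1)))ˣ => (w : ZMod (l ^ (a - 1)))) hu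
      exact h2
    have h3 : (ZMod.castHom hd (ZMod (l ^ (a - 1)))) ((u : ZMod (l ^ a)) - 1) = 0 := by
      rw [map_sub, h1, map_one, sub_self]
    obtain ⟨w, hw⟩ : ∃ w : ZMod (l ^ a), w = (u : ZMod (l ^ a)) - 1 := ⟨_, rfl⟩
    rw [← hw] at h3
    have h4 : ((w.val : ℕ) : ZMod (l ^ (a - 1))) = 0 := by
      have h5 : (ZMod.castHom hd (ZMod (l ^ (a - 1)))) ((w.val : ℕ) : ZMod (l ^ a)) = 0 := by
        rw [ZMod.natCast_zmod_val]
        exact h3
      rw [map_natCast] at h5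
      exact h5
    obtain ⟨t, ht⟩ := (ZMod.natCast_eq_zero_iff _ _).1 h4
    have h6 : w = (l : ZMod (l ^ a)) ^ (a - 1) * (t : ZMod (l ^ a)) := by
      rw [← ZMod.natCast_zmod_val w, ht]
      push_cast
      rfl
    have h7 : (u : ZMod (l ^ a)) = 1 + (l : ZMod (l ^ a)) ^ (a - 1) * (t : ZMod (l ^ a)) := by
      rw [← h6, hw]
      ring
    have h8 := h t
    rw [← h7] at h8
    exact Units.ext h8
  have h1 : χ.conductor ≤ l ^ (a - 1) := Nat.sInf_le hf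
  rw [(DirichletCharacter.isPrimitive_def χ).1 hχ] at h1
  have h2 : l ^ (a - 1) < l ^ a := Nat.pow_lt_pow_right hl.one_lt (by omega)
  omega

/-- The mean over `v` vanishes unless `l^n ∣ K`, `a = m + n`. Proof. `ψ(v) = χ(1 + l^m K v)` is additive in `v` (`G2_add`), with
values of absolute value `1` (`1 + l^m K v` is a unit since `l` is nilpotent, `m ≥ 1`). If `ψ(v0) ≠ 1` for some `v0`, the sum `S`
satisfies `ψ(v0) S = S` (shift `v` by `v0`), so `S = 0`. If `ψ = 1` identically and `l^n ∤ K.val`, then `K = l^j u` with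
`j < n`, `u` a unit (`K.val = l^j u'`, `l ∤ u'`), so `χ(1 + l^(a-1) t) = 1` for all `t` (take
`v = l^(n-1-j) u⁻¹ t`); hence `χ` factors through `l^(a-1)` (`DirichletCharacter.factorsThrough_iff_ker_unitsMap`: the kernel
of `(ZMod (l^a))ˣ → (ZMod (l^(a-1)))ˣ` consists of the units `≡ 1` modulo `l^(a-1)`), contradicting primitivity
(`DirichletCharacter.isPrimitive_def`, `conductor_dvd...`/`FactorsThrough`). -/
theorem G2_mean (l a m n : ℕ) (hl : l.Prime) (ha : a = m + n) (hn : 1 ≤ n) (hmn : n ≤ m)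
    [NeZero (l ^ a)] (χ : DirichletCharacter ℂ (l ^ a)) (hχ : χ.IsPrimitive) (K : ZMod (l ^ a))
    (hK : ¬ l ^ n ∣ K.val) :
    ∑ v : ZMod (l ^ a), χ (1 + (l : ZMod (l ^ a)) ^ m * (K * v)) = 0 := by
  by_cases hall : ∀ v : ZMod (l ^ a), χ (1 + (l : ZMod (l ^ a)) ^ m * (K * v)) = 1
  · exfalso
    refine g2_top l a hl (by omega) χ hχ fun t => ?_
    have hK0 : K.val ≠ 0 := fun h => hK (h ▸ dvd_zero _)
    obtain ⟨j, u, hu, hKu⟩ := Nat.exists_eq_pow_mul_and_not_dvd hK0 l hl.ne_one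
    have hj : j < n := by
      by_contra hj
      exact hK (hKu ▸ (pow_dvd_pow l (not_lt.1 hj)).trans (dvd_mul_right _ _))
    have hcop : Nat.Coprime u (l ^ a) := ((hl.coprime_iff_not_dvd.2 hu).symm).pow_right a
    obtain ⟨w, hw⟩ : ∃ w : (ZMod (l ^ a))ˣ, w = ZMod.unitOfCoprime u hcop := ⟨_, rfl⟩
    have hwu : (w : ZMod (l ^ a)) = (u : ZMod (l ^ a)) := by rw [hw, ZMod.coe_unitOfCoprime]
    have hKe : K = (l : ZMod (l ^ a)) ^ j * (w : ZMod (l ^ a)) := by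
      rw [← ZMod.natCast_zmod_val K, hKu, hwu]
      push_cast
      rfl
    have h1 := hall ((l : ZMod (l ^ a)) ^ (n - 1 - j) * ((w⁻¹ : (ZMod (l ^ a))ˣ) : ZMod (l ^ a)) * t)
    have h2 : (l : ZMod (l ^ a)) ^ m * (K * ((l : ZMod (l ^ a)) ^ (n - 1 - j) * ((w⁻¹ : (ZMod (l ^ a))ˣ) : ZMod (l ^ a)) * t)) =
        (l : ZMod (l ^ a)) ^ (a - 1) * t := by
      have h3 : (l : ZMod (l ^ a)) ^ (a - 1) = (l : ZMod (l ^ a)) ^ m * ((l : ZMod (l ^ a)) ^ j * (l : ZMod (l ^ a)) ^ (n - 1 - j)) := by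
        rw [← pow_add, ← pow_add]
        congr 1
        omega
      have h4 : (w : ZMod (l ^ a)) * ((w⁻¹ : (ZMod (l ^ a))ˣ) : ZMod (l ^ a)) = 1 := Units.mul_inv w
      rw [hKe, h3]
      linear_combination ((l : ZMod (l ^ a)) ^ m * (l : ZMod (l ^ a)) ^ j * (l : ZMod (l ^ a)) ^ (n - 1 - j) * t) * h4
    rw [h2] at h1
    exact h1
  · push Not at hall
    obtain ⟨v0, hv0⟩ := hall
    obtain ⟨S, hS⟩ : ∃ S : ℂ, S = ∑ v : ZMod (l ^ a), χ (1 + (l : ZMod (l ^ a)) ^ m * (K * v)) := ⟨_, rfl⟩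
    rw [← hS]
    have h1 : S = χ (1 + (l : ZMod (l ^ a)) ^ m * (K * v0)) * S := by
      rw [hS, Finset.mul_sum]
      rw [← Equiv.sum_comp (Equiv.addLeft v0)]
      refine Finset.sum_congr rfl fun v _ => ?_
      rw [← G2_add l a m (by omega), Equiv.coe_addLeft, mul_add]
    have h2 : (1 - χ (1 + (l : ZMod (l ^ a)) ^ m * (K * v0))) * S = 0 := by
      linear_combination h1
    rcases mul_eq_zero.1 h2 with h3 | h3
    · exact absurd (sub_eq_zero.1 h3).symm hv0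
    · exact h3

end Pool.Agent.Lib.H59T
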