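import Pool.Agent.Lib.H59T.Defs

/-!
# Project H59T, chunk K1 (S/M): correlations of a character
-/

open Finset

namespace Pool.Agent.Lib.H59T

/-- `χ t * star (χ t)` is `1` off zero. -/
private theorem k1_norm (l : ℕ) [Fact l.Prime] (χ : DirichletCharacter ℂ l) (t : ZMod l)
    (ht : t ≠ 0) : χ t * star (χ t) = 1 := by
  have h1 : ‖χ t‖ = 1 := by
    have := DirichletCharacter.unit_norm_eq_one χ (Units.mk0 t ht)
    simpa using this
  have h2 : star (χ t) = (starRingEnd ℂ) (χ t) := rfl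
  rw [h2, Complex.mul_conj, Complex.normSq_eq_norm_sq, h1]
  norm_num

/-- `star (χ t) = χ t⁻¹`. -/
private theorem k1_star (l : ℕ) [Fact l.Prime] (χ : DirichletCharacter ℂ l) (t : ZMod l) :
    star (χ t) = χ (t⁻¹) := by
  by_cases ht : t = 0
  · subst ht
    rw [inv_zero]
    have : χ (0 : ZMod l) = 0 := MulChar.map_zero χ
    rw [this, star_zero]
  · have h1 := k1_norm l χ t ht
    have h2 : χ t * χ (t⁻¹) = 1 := by
      rw [← map_mul, mul_inv_cancel₀ ht, map_one]
    have h3 : χ t ≠ 0 := by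
      intro h0
      rw [h0, zero_mul] at h2
      exact zero_ne_one h2
    exact mul_left_cancel₀ h3 (h1.trans h2.symm)

/-- Proof. `δ = 0`: `χ t star (χ t) = ‖χ t‖² = 1` for `t ≠ 0` (`DirichletCharacter.unit_norm_eq_one`), `0` for `t = 0`. `δ ≠ 0`:
for `t ≠ 0` the term is `χ (1 + δ/t)` (`star (χ t) = χ (t⁻¹)`: `MulChar.star_apply`/`MulChar.inv_apply`), `t ↦ 1 + δ/t` is a
bijection from `t ≠ 0` to the elements `≠ 1`, and `∑_u χ u = 0` (`MulChar.sum_eq_zero_of_ne_one`). -/
theorem K1_J (l : ℕ) [Fact l.Prime] (χ : DirichletCharacter ℂ l) (hχ : χ ≠ 1) (δ : ZMod l) :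
    ∑ t : ZMod l, χ (t + δ) * star (χ t) = if δ = 0 then (l : ℂ) - 1 else -1 := by
  have h0 : χ (0 : ZMod l) = 0 := MulChar.map_zero χ
  by_cases hδ : δ = 0
  · subst hδ
    rw [if_pos rfl]
    have h1 : ∀ t : ZMod l, χ (t + 0) * star (χ t) = 1 - (if t = 0 then (1 : ℂ) else 0) := by
      intro t
      rw [add_zero]
      by_cases ht : t = 0
      · subst ht
        rw [h0, if_pos rfl]
        simp
      · rw [if_neg ht, k1_norm l χ t ht, sub_zero]
    rw [Finset.sum_congr rfl (fun t _ => h1 t), Finset.sum_sub_distrib, Finset.sum_ite_eq']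
    simp [ZMod.card]
  · rw [if_neg hδ]
    have h1 : ∀ t : ZMod l, χ (t + δ) * star (χ t)
        = χ (1 + δ * t⁻¹) - (if t = 0 then (1 : ℂ) else 0) := by
      intro t
      rw [k1_star]
      by_cases ht : t = 0
      · subst ht
        rw [inv_zero, h0, if_pos rfl, mul_zero, mul_zero, add_zero, map_one, sub_self]
      · rw [if_neg ht, sub_zero, ← map_mul, add_mul, mul_inv_cancel₀ ht]
    rw [Finset.sum_congr rfl (fun t _ => h1 t), Finset.sum_sub_distrib, Finset.sum_ite_eq']
    have h2 : ∑ t : ZMod l, χ (1 + δ * t⁻¹) = ∑ u : ZMod l, χ u := by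
      refine Fintype.sum_equiv
        ((Equiv.inv (ZMod l)).trans ((Equiv.mulLeft₀ δ hδ).trans (Equiv.addLeft (1 : ZMod l))))
        _ _ (fun t => ?_)
      simp
    rw [h2, MulChar.sum_eq_zero_of_ne_one hχ]
    simp

/-- Proof. For each `γ` at most two `γ'` (`γ' = γ` or `γ' = -γ`). -/
theorem K1_sq (l : ℕ) [Fact l.Prime] :
    ((univ : Finset (ZMod l × ZMod l)).filter (fun x => x.1 ^ 2 = x.2 ^ 2)).card ≤ 2 * l := by
  have h1 : ((univ : Finset (ZMod l × ZMod l)).filter (fun x => x.1 ^ 2 = x.2 ^ 2))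
      ⊆ ((univ : Finset (ZMod l)).image (fun γ => (γ, γ)))
        ∪ ((univ : Finset (ZMod l)).image (fun γ => (γ, -γ))) := by
    intro x hx
    rw [Finset.mem_filter] at hx
    rw [Finset.mem_union, Finset.mem_image, Finset.mem_image]
    rcases sq_eq_sq_iff_eq_or_eq_neg.mp hx.2 with h | h
    · left
      exact ⟨x.1, Finset.mem_univ _, Prod.ext rfl h⟩
    · right
      refine ⟨x.1, Finset.mem_univ _, Prod.ext rfl ?_⟩
      show -x.1 = x.2
      rw [h, neg_neg]
  calc _ ≤ _ := Finset.card_le_card h1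
    _ ≤ _ := Finset.card_union_le _ _
    _ ≤ l + l := by
        refine add_le_add ?_ ?_
        · refine Finset.card_image_le.trans ?_
          simp [ZMod.card]
        · refine Finset.card_image_le.trans ?_
          simp [ZMod.card]
    _ = 2 * l := by ring

end Pool.Agent.Lib.H59T
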