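import Pool.Agent.Lib.H59T.K1

/-!
# Project H59T, chunk K2 (M): the second moment
-/

open Finset

namespace Pool.Agent.Lib.H59T

theorem k2_sq (z : ℂ) : ((‖z‖ ^ 2 : ℝ) : ℂ) = z * star z := by
  rw [Complex.star_def, Complex.mul_conj, Complex.normSq_eq_norm_sq]

/-- Proof. Expand the square and exchange the sums: the sum over `P` of `χ(γ² - P) star χ(γ'² - P)` is
`J(γ² - γ'²)`, `J(δ) = ∑_t χ(t + δ) star χ(t)` (substitute `t = γ'² - P`), the sum over `R` is its conjugate. So the left side is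
`∑_{γ,γ'} ‖J(γ² - γ'²)‖²`, at most `2 l (l-1)² + l²` (`K1_J`, `K1_sq`; at most `2l` pairs with `J = l - 1`, the others
have `|J| = 1`), and `2 l (l-1)² + l² ≤ 2 l³`. -/
theorem K2 (l : ℕ) [Fact l.Prime] (χ : DirichletCharacter ℂ l) (hχ : χ ≠ 1) :
    ∑ P : ZMod l, ∑ R : ZMod l, ‖Wc χ P R‖ ^ 2 ≤ 2 * (l : ℝ) ^ 3 := by
  have hl2 : 2 ≤ l := (Fact.out : l.Prime).two_le
  have hlr : (2 : ℝ) ≤ l := by exact_mod_cast hl2
  let G : ZMod l → ZMod l → ZMod l → ℂ := fun γ γ' P => χ (γ ^ 2 - P) * star (χ (γ' ^ 2 - P))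
  have hJ : ∀ γ γ' : ZMod l, ∑ P : ZMod l, G γ γ' P =
      if γ ^ 2 = γ' ^ 2 then (l : ℂ) - 1 else -1 := by
    intro γ γ'
    rw [← Equiv.sum_comp (Equiv.subLeft (γ' ^ 2))]
    have h1 := K1_J l χ hχ (γ ^ 2 - γ' ^ 2)
    have h2 : ∑ t : ZMod l, G γ γ' (Equiv.subLeft (γ' ^ 2) t) =
        ∑ t : ZMod l, χ (t + (γ ^ 2 - γ' ^ 2)) * star (χ t) := by
      refine sum_congr rfl fun t _ => ?_
      simp only [G, Equiv.subLeft_apply]
      have e1 : γ ^ 2 - (γ' ^ 2 - t) = t + (γ ^ 2 - γ' ^ 2) := by ring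
      have e2 : γ' ^ 2 - (γ' ^ 2 - t) = t := by ring
      rw [e1, e2]
    rw [h2, h1]
    simp only [sub_eq_zero]
  have hA : ((∑ P : ZMod l, ∑ R : ZMod l, ‖Wc χ P R‖ ^ 2 : ℝ) : ℂ) =
      ((∑ x : ZMod l × ZMod l, ‖∑ P : ZMod l, G x.1 x.2 P‖ ^ 2 : ℝ) : ℂ) := by
    have h1 : ∀ P R : ZMod l, ((‖Wc χ P R‖ ^ 2 : ℝ) : ℂ) =
        ∑ x : ZMod l × ZMod l, G x.1 x.2 P * star (G x.1 x.2 R) := by
      intro P R
      rw [k2_sq]
      unfold Wc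
      rw [star_sum, sum_mul_sum, Fintype.sum_prod_type]
      refine sum_congr rfl fun γ _ => sum_congr rfl fun γ' _ => ?_
      simp only [G, star_mul', star_star]
      ring
    rw [Complex.ofReal_sum, Complex.ofReal_sum]
    have h2 : ∀ P : ZMod l, ((∑ R : ZMod l, ‖Wc χ P R‖ ^ 2 : ℝ) : ℂ) =
        ∑ R : ZMod l, ∑ x : ZMod l × ZMod l, G x.1 x.2 P * star (G x.1 x.2 R) := by
      intro P
      rw [Complex.ofReal_sum]
      exact sum_congr rfl fun R _ => h1 P R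
    simp only [h2]
    rw [sum_comm_cycle]
    refine sum_congr rfl fun x _ => ?_
    rw [k2_sq, star_sum, sum_mul_sum]
  have hB : ∑ P : ZMod l, ∑ R : ZMod l, ‖Wc χ P R‖ ^ 2 =
      ∑ x : ZMod l × ZMod l, ‖∑ P : ZMod l, G x.1 x.2 P‖ ^ 2 := by exact_mod_cast hA
  rw [hB]
  have hpt : ∀ x : ZMod l × ZMod l, ‖∑ P : ZMod l, G x.1 x.2 P‖ ^ 2 ≤
      (if x.1 ^ 2 = x.2 ^ 2 then ((l : ℝ) - 1) ^ 2 else 0) + 1 := by
    intro x
    rw [hJ]
    split_ifs with h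
    · have h3 : ((l : ℂ) - 1) = (((l : ℝ) - 1 : ℝ) : ℂ) := by push_cast; rfl
      rw [h3, Complex.norm_real, Real.norm_eq_abs, sq_abs]
      linarith
    · rw [norm_neg, norm_one]
      norm_num
  refine (sum_le_sum fun x _ => hpt x).trans ?_
  rw [sum_add_distrib, ← sum_filter, sum_const, sum_const, nsmul_eq_mul, nsmul_eq_mul, mul_one,
    card_univ, Fintype.card_prod, ZMod.card]
  have h4 : ((((univ : Finset (ZMod l × ZMod l)).filter (fun x => x.1 ^ 2 = x.2 ^ 2)).card : ℕ) : ℝ) ≤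
      2 * l := by exact_mod_cast K1_sq l
  have h5 : 0 ≤ ((l : ℝ) - 1) ^ 2 := sq_nonneg _
  push_cast
  nlinarith [mul_le_mul_of_nonneg_right h4 h5]

theorem k2_fib (l : ℕ) [Fact l.Prime] (f : ZMod l → ℝ) (hf : ∀ x, 0 ≤ f x) :
    ∑ p : ZMod l, f (p ^ 2) ≤ 2 * ∑ P : ZMod l, f P := by
  classical
  rw [← sum_fiberwise_of_maps_to (g := fun p : ZMod l => p ^ 2) (t := univ) (fun _ _ => mem_univ _),
    mul_sum]
  refine sum_le_sum fun P _ => ?_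
  have h1 : ∀ p ∈ (univ : Finset (ZMod l)).filter (fun p => p ^ 2 = P), f (p ^ 2) = f P := by
    intro p hp
    rw [(mem_filter.1 hp).2]
  rw [sum_congr rfl h1, sum_const, nsmul_eq_mul]
  refine mul_le_mul_of_nonneg_right ?_ (hf P)
  have h2 : ((univ : Finset (ZMod l)).filter (fun p => p ^ 2 = P)).card ≤ 2 := by
    by_cases hex : ∃ q : ZMod l, q ^ 2 = P
    · obtain ⟨q, hq⟩ := hex
      refine (card_le_card (t := {q, -q}) ?_).trans card_le_two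
      intro p hp
      have h3 := (mem_filter.1 hp).2
      rw [← hq] at h3
      rw [mem_insert, mem_singleton]
      exact sq_eq_sq_iff_eq_or_eq_neg.1 h3
    · push Not at hex
      have h4 : (univ : Finset (ZMod l)).filter (fun p => p ^ 2 = P) = ∅ := by
        rw [filter_eq_empty_iff]
        exact fun q _ => hex q
      rw [h4, card_empty]
      omega
  exact_mod_cast h2

/-- Proof. The map `(p, r) ↦ (p², r²)` has fibres with at most four elements. -/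
theorem K2_sq (l : ℕ) [Fact l.Prime] (χ : DirichletCharacter ℂ l) (hχ : χ ≠ 1) :
    ∑ p : ZMod l, ∑ r : ZMod l, ‖Wc χ (p ^ 2) (r ^ 2)‖ ^ 2 ≤ 8 * (l : ℝ) ^ 3 := by
  have h1 : ∀ P : ZMod l, ∑ r : ZMod l, ‖Wc χ P (r ^ 2)‖ ^ 2 ≤ 2 * ∑ R : ZMod l, ‖Wc χ P R‖ ^ 2 :=
    fun P => k2_fib l (fun R => ‖Wc χ P R‖ ^ 2) (fun _ => by positivity)
  calc ∑ p : ZMod l, ∑ r : ZMod l, ‖Wc χ (p ^ 2) (r ^ 2)‖ ^ 2
      ≤ ∑ p : ZMod l, 2 * ∑ R : ZMod l, ‖Wc χ (p ^ 2) R‖ ^ 2 := sum_le_sum fun p _ => h1 _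
    _ ≤ 2 * ∑ P : ZMod l, 2 * ∑ R : ZMod l, ‖Wc χ P R‖ ^ 2 :=
        k2_fib l (fun P => 2 * ∑ R : ZMod l, ‖Wc χ P R‖ ^ 2)
          (fun _ => mul_nonneg zero_le_two (sum_nonneg fun _ _ => by positivity))
    _ = 4 * ∑ P : ZMod l, ∑ R : ZMod l, ‖Wc χ P R‖ ^ 2 := by
        rw [← mul_sum]
        ring
    _ ≤ 8 * (l : ℝ) ^ 3 := by linarith [K2 l χ hχ]

end Pool.Agent.Lib.H59T
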