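import Pool.Agent.Lib.H59T.Defs

/-!
# Project H59T, chunk K3 (M): Kloosterman's fourth moment
-/

open Finset

namespace Pool.Agent.Lib.H59T

theorem k3_sq (z : ℂ) : ((‖z‖ ^ 2 : ℝ) : ℂ) = z * star z := by
  rw [Complex.star_def, Complex.mul_conj, Complex.normSq_eq_norm_sq]

/-- Proof. Expand the square in `En`: with `g(v) = χ(v-α) star χ(v-β)` it is the sum over `b, v, v'` of
`g(v) star g(v+b) star g(v') g(v'+b)`. Sum over `α, β`: the sum over `α` is
`A(b,v,v') = ∑_α χ(v-α) star χ(v+b-α) star χ(v'-α) χ(v'+b-α)`, the sum over `β` its conjugate, so the left side is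
`∑_{b,v,v'} ‖A‖²`. Substitute `v = c + p`, `v' = c - r`, `b = r - p` (bijection, since `2` is invertible:
`c = (v + v' + b)/2`, `p = v - c`, `r = c - v'`): the arguments are `c+p-α`, `c+r-α`, `c-r-α`, `c-p-α`, and with `γ = c - α`
`A = ∑_γ χ(γ² - p²) star χ(γ² - r²) = Wc χ (p²) (r²)`. The sum over `c` gives the factor `l`. -/
theorem K3 (l : ℕ) [Fact l.Prime] (hl : l ≠ 2) (χ : DirichletCharacter ℂ l) :
    ∑ α : ZMod l, ∑ β : ZMod l, En χ α β =
      l * ∑ p : ZMod l, ∑ r : ZMod l, ‖Wc χ (p ^ 2) (r ^ 2)‖ ^ 2 := by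
  -- the four point function
  let F : ZMod l → ZMod l → ZMod l → ZMod l → ℂ := fun b v v' x =>
    χ (v - x) * star (χ (v + b - x)) * star (χ (v' - x)) * χ (v' + b - x)
  have hE : ∀ α β : ZMod l, ((En χ α β : ℝ) : ℂ) =
      ∑ b : ZMod l, ∑ v : ZMod l, ∑ v' : ZMod l, F b v v' α * star (F b v v' β) := by
    intro α β
    unfold En
    rw [Complex.ofReal_sum]
    refine sum_congr rfl fun b _ => ?_
    rw [k3_sq, star_sum, sum_mul_sum]
    refine sum_congr rfl fun v _ => sum_congr rfl fun v' _ => ?_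
    simp only [F, star_mul', star_star]
    ring
  have hA : ((∑ α : ZMod l, ∑ β : ZMod l, En χ α β : ℝ) : ℂ) =
      ∑ b : ZMod l, ∑ v : ZMod l, ∑ v' : ZMod l, ((‖∑ x : ZMod l, F b v v' x‖ ^ 2 : ℝ) : ℂ) := by
    push_cast
    have h1 : ∀ α β : ZMod l, ((En χ α β : ℝ) : ℂ) =
        ∑ t : ZMod l × ZMod l × ZMod l, F t.1 t.2.1 t.2.2 α * star (F t.1 t.2.1 t.2.2 β) := by
      intro α β
      rw [hE, Fintype.sum_prod_type]
      exact sum_congr rfl fun b _ => by rw [Fintype.sum_prod_type]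
    have h2 : ∑ b : ZMod l, ∑ v : ZMod l, ∑ v' : ZMod l, ((‖∑ x : ZMod l, F b v v' x‖ : ℂ)) ^ 2 =
        ∑ t : ZMod l × ZMod l × ZMod l, ((‖∑ x : ZMod l, F t.1 t.2.1 t.2.2 x‖ : ℂ)) ^ 2 := by
      rw [Fintype.sum_prod_type]
      exact sum_congr rfl fun b _ => by rw [Fintype.sum_prod_type]
    rw [h2]
    simp only [h1]
    rw [sum_comm_cycle]
    refine sum_congr rfl fun t _ => ?_
    have h3 := k3_sq (∑ x : ZMod l, F t.1 t.2.1 t.2.2 x)
    push_cast at h3
    rw [h3, star_sum, sum_mul_sum]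
  have h2ne : (2 : ZMod l) ≠ 0 := by
    intro h
    have h1 : ((2 : ℕ) : ZMod l) = 0 := by exact_mod_cast h
    rw [ZMod.natCast_eq_zero_iff] at h1
    have := (Nat.prime_dvd_prime_iff_eq (Fact.out : l.Prime) Nat.prime_two).1 h1
    exact hl this
  -- substitution
  have hA' : ∀ c p r : ZMod l, ∑ x : ZMod l, F (r - p) (c + p) (c - r) x = Wc χ (p ^ 2) (r ^ 2) := by
    intro c p r
    unfold Wc
    rw [← Equiv.sum_comp (Equiv.subLeft c)]
    refine sum_congr rfl fun x _ => ?_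
    simp only [F, Equiv.subLeft_apply]
    have e1 : χ (x ^ 2 - p ^ 2) = χ (c + p - (c - x)) * χ (c - r + (r - p) - (c - x)) := by
      rw [← map_mul]
      congr 1
      ring
    have e2 : χ (x ^ 2 - r ^ 2) = χ (c + p + (r - p) - (c - x)) * χ (c - r - (c - x)) := by
      rw [← map_mul]
      congr 1
      ring
    rw [e1, e2, star_mul']
    ring
  let φ : ZMod l × ZMod l × ZMod l → ZMod l × ZMod l × ZMod l :=
    fun t => (t.2.2 - t.2.1, t.1 + t.2.1, t.1 - t.2.2)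
  have hφ : Function.Bijective φ := by
    rw [← Finite.injective_iff_bijective]
    rintro ⟨c, p, r⟩ ⟨c', p', r'⟩ h
    simp only [φ, Prod.mk.injEq] at h
    obtain ⟨h1, h2, h3⟩ := h
    have h4 : 2 * (c - c') = 0 := by linear_combination h1 + h2 + h3
    have h5 : c = c' := by
      rcases mul_eq_zero.1 h4 with h | h
      · exact absurd h h2ne
      · exact sub_eq_zero.1 h
    subst h5
    have h6 : p = p' := by linear_combination h2
    have h7 : r = r' := by linear_combination -h3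
    rw [h6, h7]
  have hfin : ((∑ α : ZMod l, ∑ β : ZMod l, En χ α β : ℝ) : ℂ) =
      ((l * ∑ p : ZMod l, ∑ r : ZMod l, ‖Wc χ (p ^ 2) (r ^ 2)‖ ^ 2 : ℝ) : ℂ) := by
    rw [hA]
    have h2 : ∑ b : ZMod l, ∑ v : ZMod l, ∑ v' : ZMod l, ((‖∑ x : ZMod l, F b v v' x‖ ^ 2 : ℝ) : ℂ) =
        ∑ t : ZMod l × ZMod l × ZMod l, ((‖∑ x : ZMod l, F t.1 t.2.1 t.2.2 x‖ ^ 2 : ℝ) : ℂ) := by
      rw [Fintype.sum_prod_type]
      exact sum_congr rfl fun b _ => by rw [Fintype.sum_prod_type]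
    rw [h2, ← hφ.sum_comp]
    have h3 : ∀ t : ZMod l × ZMod l × ZMod l,
        ((‖∑ x : ZMod l, F (φ t).1 (φ t).2.1 (φ t).2.2 x‖ ^ 2 : ℝ) : ℂ) =
        ((‖Wc χ (t.2.1 ^ 2) (t.2.2 ^ 2)‖ ^ 2 : ℝ) : ℂ) := by
      intro t
      simp only [φ]
      rw [hA']
    simp only [h3]
    rw [Fintype.sum_prod_type]
    simp only [Fintype.sum_prod_type]
    rw [sum_const, card_univ, ZMod.card, nsmul_eq_mul]
    push_cast
    rfl
  exact_mod_cast hfin

/-- Proof. Substitute `v = α + (β - α) v'`, `b = (β - α) b'`: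
`χ(v - α) star χ(v - β) = ‖χ(β - α)‖² χ(v') star χ(v' - 1)`, and `‖χ(β - α)‖ = 1`. -/
theorem K3_inv (l : ℕ) [Fact l.Prime] (χ : DirichletCharacter ℂ l) (α β : ZMod l) (h : α ≠ β) :
    En χ α β = En χ 0 1 := by
  have hδ : β - α ≠ 0 := sub_ne_zero.2 h.symm
  set δ := β - α with hδdef
  have hn : χ δ * star (χ δ) = 1 := by
    rw [← k3_sq]
    have h1 : ‖χ δ‖ = 1 := by
      have := χ.unit_norm_eq_one (Units.mk0 δ hδ)
      rwa [Units.val_mk0] at this
    rw [h1]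
    norm_num
  have hg : ∀ v : ZMod l, χ (α + δ * v - α) * star (χ (α + δ * v - β)) =
      χ (v - 0) * star (χ (v - 1)) := by
    intro v
    have e1 : α + δ * v - α = δ * (v - 0) := by ring
    have e2 : α + δ * v - β = δ * (v - 1) := by
      rw [hδdef]
      ring
    rw [e1, e2, map_mul, map_mul, star_mul']
    linear_combination (χ (v - 0) * star (χ (v - 1))) * hn
  unfold En
  rw [← Equiv.sum_comp (Equiv.mulLeft₀ δ hδ)]
  refine sum_congr rfl fun b _ => ?_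
  rw [← Equiv.sum_comp ((Equiv.mulLeft₀ δ hδ).trans (Equiv.addLeft α))]
  congr 2
  refine sum_congr rfl fun v _ => ?_
  simp only [Equiv.trans_apply, Equiv.coe_addLeft, Equiv.mulLeft₀_apply]
  rw [hg]
  have e3 : α + δ * v + δ * b = α + δ * (v + b) := by ring
  rw [e3, hg]

end Pool.Agent.Lib.H59T
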