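import Pool.Agent.Lib.H59T.FDefs

/-!
# Project H59T, chunk L1 (M): splitting off a coprime factor of the modulus of a primitive character
-/

open Finset

namespace Pool.Agent.Lib.H59T

theorem l1_prim (N q m : ℕ) (hN : N = q * m) (hq : 0 < q) (hm : 0 < m)
    (χ : DirichletCharacter ℂ N) (hχ : χ.IsPrimitive)
    (χ1 : DirichletCharacter ℂ q) (χ2 : DirichletCharacter ℂ m)
    (h : ∀ n : ℤ, χ (n : ZMod N) = χ1 (n : ZMod q) * χ2 (n : ZMod m)) : χ1.IsPrimitive := by
  subst hN
  by_contra hne
  have hc : χ1.conductor ∣ q := χ1.conductor_dvd_level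
  have hlt : χ1.conductor < q := lt_of_le_of_ne (Nat.le_of_dvd hq hc) hne
  set c := χ1.conductor with hcdef
  set ψ : DirichletCharacter ℂ (c * m) :=
    DirichletCharacter.changeLevel (dvd_mul_right c m) χ1.primitiveCharacter *
      DirichletCharacter.changeLevel (dvd_mul_left m c) χ2 with hψ
  have hdvd : c * m ∣ q * m := mul_dvd_mul_right hc m
  have key : χ = DirichletCharacter.changeLevel hdvd ψ := by
    apply MulChar.ext
    intro u
    obtain ⟨n, hn⟩ := ZMod.intCast_surjective (u : ZMod (q * m))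
    have hu : IsUnit ((n : ℤ) : ZMod (q * m)) := by rw [hn]; exact u.isUnit
    have hcop : IsCoprime (n : ℤ) ((q * m : ℕ) : ℤ) :=
      ((ZMod.coe_int_isUnit_iff_isCoprime n (q * m)).1 hu).symm
    have hcopq : IsCoprime (n : ℤ) ((q : ℕ) : ℤ) := by
      push_cast at hcop
      exact hcop.of_mul_right_left
    have hcopc : IsCoprime (n : ℤ) ((c * m : ℕ) : ℤ) :=
      hcop.of_isCoprime_of_dvd_right (by exact_mod_cast hdvd)
    rw [← hn, h n, DirichletCharacter.changeLevel_eq_cast_of_dvd' ψ hdvd hcop, hψ, MulChar.mul_apply,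
      DirichletCharacter.changeLevel_eq_cast_of_dvd' _ (dvd_mul_right c m) hcopc,
      DirichletCharacter.changeLevel_eq_cast_of_dvd' _ (dvd_mul_left m c) hcopc,
      DirichletCharacter.primitiveCharacter_apply_of_isCoprime χ1 hcopq]
  have hmem : c * m ∈ χ.conductorSet := ⟨hdvd, ψ, key⟩
  have hle : χ.conductor ≤ c * m := Nat.sInf_le hmem
  have he : χ.conductor = q * m := hχ
  rw [he] at hle
  exact absurd (Nat.mul_lt_mul_of_pos_right hlt hm) (not_lt.2 hle)

/-- Proof. `e = ZMod.chineseRemainder hqm : ZMod (q * m) ≃+* ZMod q × ZMod m` sends the integer `n` to `(n, n)` (`map_intCast`).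
Put `χ1 x = χ (e.symm (x, 1))`, `χ2 y = χ (e.symm (1, y))` (`MulChar`: multiplicative, `0` at nonunits because `(x, 1)` is a unit
iff `x` is). Then `χ n = χ1 n χ2 n` since `(n, n) = (n, 1) (1, n)`. If `χ1` were not primitive, `χ1` would factor through a
proper divisor `c` of `q` (`χ1.factorsThrough_conductor`): `χ1 = changeLevel ξ`, so `χ` agrees with
`changeLevel (changeLevel ξ * changeLevel χ2)`, the inner character of modulus `c m` (equality on units, `MulChar.ext`,
both sides evaluated at integers prime to `q m`: `DirichletCharacter.changeLevel_eq_cast_of_dvd`); so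
`χ.FactorsThrough (c * m)`, and the conductor of `χ` is at most `c m < q m` (it is `sInf` of the conductor set,
`Nat.sInf_le`), a contradiction. The same for `χ2`. -/
theorem L1_split (q m : ℕ) (hq : 0 < q) (hm : 0 < m) (hqm : Nat.Coprime q m)
    (χ : DirichletCharacter ℂ (q * m)) (hχ : χ.IsPrimitive) :
    ∃ (χ1 : DirichletCharacter ℂ q) (χ2 : DirichletCharacter ℂ m), χ1.IsPrimitive ∧ χ2.IsPrimitive ∧
      ∀ n : ℤ, χ (n : ZMod (q * m)) = χ1 (n : ZMod q) * χ2 (n : ZMod m) := by
  classical
  set e := ZMod.chineseRemainder hqm with he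
  have hsymm : ∀ n : ℤ, e.symm ((n : ZMod q), (n : ZMod m)) = (n : ZMod (q * m)) := by
    intro n
    rw [RingEquiv.symm_apply_eq, map_intCast]
    rfl
  let χ1 : DirichletCharacter ℂ q :=
    { toFun := fun x => χ (e.symm (x, 1))
      map_one' := by
        have h1 : e.symm ((1 : ZMod q), (1 : ZMod m)) = 1 := map_one e.symm
        change χ (e.symm ((1 : ZMod q), (1 : ZMod m))) = 1
        rw [h1, map_one]
      map_mul' := by
        intro x y
        change χ (e.symm ((x * y : ZMod q), (1 : ZMod m))) = χ (e.symm (x, 1)) * χ (e.symm (y, 1))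
        rw [← map_mul, ← map_mul, Prod.mk_mul_mk, mul_one]
      map_nonunit' := by
        intro x hx
        change χ (e.symm (x, 1)) = 0
        apply χ.map_nonunit
        intro hu
        apply hx
        have h2 : IsUnit (e (e.symm (x, 1))) := hu.map e
        rw [RingEquiv.apply_symm_apply, Prod.isUnit_iff] at h2
        exact h2.1 }
  let χ2 : DirichletCharacter ℂ m :=
    { toFun := fun y => χ (e.symm (1, y))
      map_one' := by
        have h1 : e.symm ((1 : ZMod q), (1 : ZMod m)) = 1 := map_one e.symm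
        change χ (e.symm ((1 : ZMod q), (1 : ZMod m))) = 1
        rw [h1, map_one]
      map_mul' := by
        intro x y
        change χ (e.symm ((1 : ZMod q), (x * y : ZMod m))) = χ (e.symm (1, x)) * χ (e.symm (1, y))
        rw [← map_mul, ← map_mul, Prod.mk_mul_mk, mul_one]
      map_nonunit' := by
        intro x hx
        change χ (e.symm (1, x)) = 0
        apply χ.map_nonunit
        intro hu
        apply hx
        have h2 : IsUnit (e (e.symm (1, x))) := hu.map e
        rw [RingEquiv.apply_symm_apply, Prod.isUnit_iff] at h2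
        exact h2.2 }
  have h : ∀ n : ℤ, χ (n : ZMod (q * m)) = χ1 (n : ZMod q) * χ2 (n : ZMod m) := by
    intro n
    change χ (n : ZMod (q * m)) = χ (e.symm ((n : ZMod q), 1)) * χ (e.symm (1, (n : ZMod m)))
    rw [← map_mul, ← map_mul, Prod.mk_mul_mk, mul_one, one_mul, hsymm]
  refine ⟨χ1, χ2, ?_, ?_, h⟩
  · exact l1_prim (q * m) q m rfl hq hm χ hχ χ1 χ2 h
  · exact l1_prim (q * m) m q (mul_comm q m) hm hq χ hχ χ2 χ1 (fun n => by rw [h n, mul_comm])

end Pool.Agent.Lib.H59T
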