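import Pool.Agent.Lib.H59T.L1

/-!
# Project H59T, chunk L2 (M): a primitive character is the product of primitive characters of prime power moduli
-/

open Finset

namespace Pool.Agent.Lib.H59T

open Pool.Agent.Lib.H68T Pool.Agent.Lib.H18Q Pool.Agent.Lib.H59P

theorem l2_aux (r : ℕ) : 0 < r → ∀ χ : DirichletCharacter ℂ r, χ.IsPrimitive → ∃ F : ℕ → Ch, LCh ⟨r, χ⟩ F := by
  induction r using Nat.recOnPosPrimePosCoprime with
  | zero => intro h; exact absurd h (lt_irrefl 0)
  | one =>
    intro _ χ _
    refine ⟨fun _ => ⟨1, χ⟩, fun l hl => ?_, fun n => ?_⟩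
    · simp at hl
    · change χ (n : ZMod 1) = ∏ l ∈ (1 : ℕ).primeFactors, χ (n : ZMod 1)
      rw [Nat.primeFactors_one, prod_empty, Subsingleton.elim (n : ZMod 1) 1, map_one]
  | prime_pow p n hp hn =>
    intro _ χ hχ
    have h1 : (p ^ n).primeFactors = {p} := Nat.primeFactors_prime_pow hn.ne' hp
    refine ⟨fun _ => ⟨p ^ n, χ⟩, fun l hl => ?_, fun m => ?_⟩
    · change l ∈ (p ^ n).primeFactors at hl
      rw [h1, mem_singleton] at hl
      refine ⟨?_, hχ⟩
      change p ^ n = l ^ (p ^ n).factorization l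
      rw [hl, hp.factorization_pow, Finsupp.single_eq_same]
    · change χ (m : ZMod (p ^ n)) = ∏ l ∈ (p ^ n).primeFactors, χ (m : ZMod (p ^ n))
      rw [h1, prod_singleton]
  | coprime a b ha hb hab iha ihb =>
    intro _ χ hχ
    obtain ⟨χ1, χ2, h1, h2, h3⟩ := L1_split a b (by omega) (by omega) hab χ hχ
    obtain ⟨F1, hF1, hF1'⟩ := iha (by omega) χ1 h1
    obtain ⟨F2, hF2, hF2'⟩ := ihb (by omega) χ2 h2
    have hdisj : Disjoint a.primeFactors b.primeFactors := hab.disjoint_primeFactors
    have hb2 : ∀ l ∈ b.primeFactors, ¬ l ∈ a.primeFactors := fun l hl hl' => disjoint_left.1 hdisj hl' hl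
    refine ⟨fun l => if l ∈ a.primeFactors then F1 l else F2 l, fun l hl => ?_, fun n => ?_⟩
    · change l ∈ (a * b).primeFactors at hl
      change (if l ∈ a.primeFactors then F1 l else F2 l).1 = l ^ (a * b).factorization l ∧
        (if l ∈ a.primeFactors then F1 l else F2 l).2.IsPrimitive
      rw [hab.primeFactors_mul, mem_union] at hl
      by_cases h4 : l ∈ a.primeFactors
      · rw [if_pos h4, Nat.factorization_eq_of_coprime_left hab (List.mem_toFinset.1 h4)]
        exact hF1 l h4
      · have h5 : l ∈ b.primeFactors := hl.resolve_left h4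
        rw [if_neg h4, Nat.factorization_eq_of_coprime_right hab (List.mem_toFinset.1 h5)]
        exact hF2 l h5
    · change χ (n : ZMod (a * b)) = ∏ l ∈ (a * b).primeFactors,
        (if l ∈ a.primeFactors then F1 l else F2 l).2 (n : ZMod (if l ∈ a.primeFactors then F1 l else F2 l).1)
      rw [h3 n, hab.primeFactors_mul, prod_union hdisj]
      have h6 := hF1' n
      have h7 := hF2' n
      change χ1 (n : ZMod a) = ∏ l ∈ a.primeFactors, (F1 l).2 (n : ZMod (F1 l).1) at h6
      change χ2 (n : ZMod b) = ∏ l ∈ b.primeFactors, (F2 l).2 (n : ZMod (F2 l).1) at h7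
      rw [h6, h7]
      refine congrArg₂ _ (prod_congr rfl fun l hl => ?_) (prod_congr rfl fun l hl => ?_)
      · rw [if_pos hl]
      · rw [if_neg (hb2 l hl)]

/-- Proof. Strong induction on `p.1` (destruct `p = ⟨r, χ⟩`). `r = 1`: `ZMod 1` is a subsingleton, `χ n = χ 1 = 1`, empty product.
`r > 1`: `l = r.minFac`, `r = l^a m` with `a = r.factorization l` (`Nat.ordProj_mul_ordCompl_eq_self`, `m = ordCompl[l] r`, positive,
coprime to `l`); `subst`/generalize so that `L1_split` applies (`q = l^a`); the induction hypothesis for `⟨m, χ2⟩` gives `F'`,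
`F = Function.update F' l ⟨l^a, χ1⟩`. The prime factors of `r` are `l` and those of `m`, and the exponents in `r` and
`m` agree at the primes other than `l` (`Nat.factorization_ordCompl`). -/
theorem L2_family (p : Ch) (h0 : 0 < p.1) (hp : p.2.IsPrimitive) : ∃ F : ℕ → Ch, LCh p F := by
  obtain ⟨r, χ⟩ := p
  exact l2_aux r h0 χ hp

/-- Proof. `Exists.choose_spec`. -/
theorem L2_spec (p : Ch) (h0 : 0 < p.1) (hp : p.2.IsPrimitive) : LCh p (lch p) := by
  have h : ∃ F : ℕ → Ch, LCh p F := L2_family p h0 hp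
  unfold lch
  rw [dif_pos h]
  exact h.choose_spec

end Pool.Agent.Lib.H59T
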