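import Pool.Agent.Lib.H59T.L2

/-!
# Project H59T, chunk L3 (M): the components as products of local factors
-/

open Finset

namespace Pool.Agent.Lib.H59T

open Pool.Agent.Lib.H68T Pool.Agent.Lib.H18Q Pool.Agent.Lib.H59P

/-- Proof. `r/φ(r) = ∏_{l ∣ r} l/(l-1)` (`GAM_ratio` in `H68T/GAM1`), `conj χ(m) = ∏ conj χ_l(m)` (`L2_spec`, `map_prod`),
`μ(κ) c_κ(m)/φ(κ) = GAM_F 1 m κ` (`CA_F_one` in `H18Q/CA`), multiplicative (`GAM_F_mult`, `prod_primeFactors` for squarefree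
`κ`), with the value `gl l m` at the primes (`GAM_F_prime` for `r = 1`). For `l ∈ P` dividing neither `p.1` nor `κ` the
local factor is `1` (`Finset.prod_subset`); no prime divides both. -/
theorem L3_gk (p : Ch) (h0 : 0 < p.1) (hp : p.2.IsPrimitive) (κ : ℕ) (hκ : Squarefree κ)
    (hc : Nat.Coprime κ p.1) (P : Finset ℕ) (hP : ∀ l ∈ P, l.Prime) (h1 : p.1.primeFactors ⊆ P)
    (h2 : κ.primeFactors ⊆ P) (m : ℤ) : gk p κ m = ∏ l ∈ P, lf p κ l m := by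
  have f1 : P.filter (fun l => l ∣ p.1) = p.1.primeFactors := by
    ext l
    rw [mem_filter, Nat.mem_primeFactors]
    constructor
    · rintro ⟨h, h'⟩
      exact ⟨hP l h, h', h0.ne'⟩
    · rintro ⟨h, h', h''⟩
      exact ⟨h1 (Nat.mem_primeFactors.2 ⟨h, h', h''⟩), h'⟩
  have f2 : P.filter (fun l => l ∣ κ) = κ.primeFactors := by
    ext l
    rw [mem_filter, Nat.mem_primeFactors]
    constructor
    · rintro ⟨h, h'⟩
      exact ⟨hP l h, h', hκ.ne_zero⟩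
    · rintro ⟨h, h', h''⟩
      exact ⟨h2 (Nat.mem_primeFactors.2 ⟨h, h', h''⟩), h'⟩
  have e1 : ∀ l ∈ P, lf p κ l m =
      (if l ∣ p.1 then (((l : ℝ) / ((l : ℝ) - 1) : ℝ) : ℂ) * cj (lch p l) m else 1) *
        (if l ∣ κ then ((gl l m : ℝ) : ℂ) else 1) := by
    intro l hl
    unfold lf
    by_cases a : l ∣ p.1
    · have b : ¬ l ∣ κ := fun h => (hP l hl).one_lt.ne' (Nat.dvd_one.1 (hc ▸ Nat.dvd_gcd h a))
      rw [if_pos a, if_pos a, if_neg b, mul_one]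
    · rw [if_neg a, if_neg a, one_mul]
  have L := L2_spec p h0 hp
  rw [Finset.prod_congr rfl e1, Finset.prod_mul_distrib, ← Finset.prod_filter, ← Finset.prod_filter,
    f1, f2, Finset.prod_mul_distrib]
  unfold gk
  rw [GAM_ratio p.1 h0.ne', ← CA_F_one, ← (GAM_F_mult 1 m).prod_primeFactors hκ, L.2 m, map_prod,
    Complex.ofReal_prod, Complex.ofReal_prod]
  have e2 : ∀ l ∈ κ.primeFactors, ((GAM_F 1 m l : ℝ) : ℂ) = ((gl l m : ℝ) : ℂ) := by
    intro l hl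
    have hl' := (Nat.mem_primeFactors.1 hl).1
    have h2 : ¬ l ∣ 1 := fun h => hl'.one_lt.ne' (Nat.dvd_one.1 h)
    rw [GAM_F_prime 1 m l hl', if_neg h2]
    rfl
  rw [Finset.prod_congr rfl e2]
  rfl

/-- The doubled product. Proof. `L3_gk`, exchange of products (`Finset.prod_comm`), `map_prod`. -/
theorem L3_Db {k : ℕ} (ψ : Fm k) (p : Fin k → Ch) (hp : Pm p) (κ κ' : Fin k → ℕ) (hκ : Kp p κ)
    (hκ' : Kp p κ') (P : Finset ℕ) (hP : ∀ l ∈ P, l.Prime) (h1 : ∀ i, (p i).1.primeFactors ⊆ P)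
    (h2 : ∀ i, (κ i).primeFactors ⊆ P) (h3 : ∀ i, (κ' i).primeFactors ⊆ P) (y y' z z' : ℤ) :
    Db ψ (fun i => gk (p i) (κ i)) (fun i => gk (p i) (κ' i)) y y' z z' =
      ∏ l ∈ P, Db ψ (fun i => lf (p i) (κ i) l) (fun i => lf (p i) (κ' i) l) y y' z z' := by
  unfold Db
  rw [Finset.prod_comm]
  refine Finset.prod_congr rfl fun i _ => ?_
  change gk (p i) (κ i) (ψ i y y' z) * (starRingEnd ℂ) (gk (p i) (κ' i) (ψ i y y' z')) =
    ∏ x ∈ P, lf (p i) (κ i) x (ψ i y y' z) * (starRingEnd ℂ) (lf (p i) (κ' i) x (ψ i y y' z'))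
  rw [L3_gk (p i) (hp i).1 (hp i).2 (κ i) (hκ i).1 (hκ i).2 P hP (h1 i) (h2 i),
    L3_gk (p i) (hp i).1 (hp i).2 (κ' i) (hκ' i).1 (hκ' i).2 P hP (h1 i) (h3 i), map_prod,
    ← Finset.prod_mul_distrib]

end Pool.Agent.Lib.H59T
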