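import Pool.Agent.Lib.H59T.FDefs
import Pool.Agent.Lib.H18Q.CL1

/-!
# Project H59T, module LK: the difference of the projections at two levels is negligible (definitions)
-/

open Finset

namespace Pool.Agent.Lib.H59T

open Pool.Agent.Lib.H68T Pool.Agent.Lib.H18Q Pool.Agent.Lib.H59P

noncomputable section

/-- The forms `2z + e_0`, `2z + y + e_1`, `2z + y' + e_2`, `2z + y + y' + e_3`. -/
def uf (e : Fin 4 → ℤ) : Fm 4 := ![fun _ _ z => 2 * z + e 0, fun y _ z => 2 * z + y + e 1,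
  fun _ y' z => 2 * z + y' + e 2, fun y y' z => 2 * z + y + y' + e 3]

/-- The eighth power of the `U³` norm of `f`, times `N⁴`. -/
def UU {N : ℕ} [NeZero N] (f : ZMod N → ℂ) : ℝ :=
  ∑ A : ZMod N, ∑ B : ZMod N, ‖∑ s : ZMod N, f s * star (f (s + A)) * star (f (s + B)) * f (s + A + B)‖ ^ 2

/-- The part of the components of `p` with moduli between `Q'` and `Q`. -/
def Vl (Q Q' : ℕ) (p : Ch) (m : ℤ) : ℂ := ∑ κ ∈ (KS Q p.1).filter (fun κ => Q' < p.1 * κ), gk p κ m

/-- `F(m+h+k) conj F(m+h'+k) conj F(m+h+k') F(m+h'+k')` -/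
def P4 (F : ℤ → ℂ) (h h' k k' m : ℤ) : ℂ :=
  F (m + h + k) * (starRingEnd ℂ) (F (m + h' + k)) * (starRingEnd ℂ) (F (m + h + k')) * F (m + h' + k')

end

end Pool.Agent.Lib.H59T
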