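import Pool.Agent.Lib.H59T.Y
import Pool.Agent.Lib.H98M.M0

/-!
# H59T, file T: the tree lemma of helper8 in cut form, for the poset of non-faces
-/

set_option autoImplicit false
set_option linter.unusedSectionVars false

namespace H59T

open Finset H98P H98M H63F H30F

variable {V : Type*} [Fintype V] [DecidableEq V]

/-- `insert y W'` is connected if `W'` is and some edge joins `y` to `W'`. -/
theorem conn_insert {G : Finset (Sym2 V)} {W : Finset V} {x y : V} (hW : ¬ Disc W G)
    (hx : x ∈ W) (hxy : s(x, y) ∈ G) : ¬ Disc (insert y W) G := by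
  rintro ⟨C, D, hC, hD, hCD, hU, h⟩
  by_cases hyW : y ∈ W
  · exact hW ⟨C, D, hC, hD, hCD, by rw [hU, insert_eq_of_mem hyW], h⟩
  -- `y ∈ C` or `y ∈ D`
  have main : ∀ C D : Finset V, C.Nonempty → D.Nonempty → Disjoint C D → C ∪ D = insert y W →
      (∀ a ∈ C, ∀ b ∈ D, s(a, b) ∉ G) → y ∈ C → False := by
    intro C D hC hD hCD hU h hyC
    have hyD : y ∉ D := fun h1 => disjoint_left.1 hCD hyC h1
    have hDW : D ⊆ W := by
      intro a ha
      have h1 : a ∈ insert y W := hU ▸ mem_union_right _ ha
      rcases mem_insert.1 h1 with h2 | h2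
      · exact absurd (h2 ▸ ha) hyD
      · exact h2
    have hxD : x ∉ D := by
      intro h1
      refine h y hyC x h1 ?_
      rwa [Sym2.eq_swap]
    have hne : x ≠ y := fun e => hyW (e ▸ hx)
    have hxC : x ∈ C := by
      have h1 : x ∈ C ∪ D := hU ▸ mem_insert_of_mem hx
      exact (mem_union.1 h1).resolve_right hxD
    refine hW ⟨C.erase y, D, ⟨x, mem_erase.2 ⟨hne, hxC⟩⟩, hD, ?_, ?_, ?_⟩
    · exact disjoint_of_subset_left (erase_subset _ _) hCD
    · ext a
      rw [mem_union, mem_erase]
      constructor
      · rintro (⟨h1, h2⟩ | h2)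
        · have h3 : a ∈ insert y W := hU ▸ mem_union_left _ h2
          exact (mem_insert.1 h3).resolve_left h1
        · exact hDW h2
      · intro h1
        have h3 : a ∈ C ∪ D := hU ▸ mem_insert_of_mem h1
        rcases mem_union.1 h3 with h4 | h4
        · exact Or.inl ⟨fun e => hyW (e ▸ h1), h4⟩
        · exact Or.inr h4
    · exact fun a ha b hb => h a (mem_of_mem_erase ha) b hb
  have hy : y ∈ C ∪ D := hU ▸ mem_insert_self _ _
  rcases mem_union.1 hy with h1 | h1
  · exact main C D hC hD hCD hU h h1
  · refine main D C hD hC hCD.symm (by rw [union_comm]; exact hU) (fun a ha b hb hab => ?_) h1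
    exact h b hb a ha (by rwa [Sym2.eq_swap])

theorem conn_single {G : Finset (Sym2 V)} (x : V) : ¬ Disc ({x} : Finset V) G := by
  rintro ⟨C, D, ⟨a, ha⟩, ⟨b, hb⟩, hCD, hU, h⟩
  have h1 : a ∈ ({x} : Finset V) := hU ▸ mem_union_left _ ha
  have h2 : b ∈ ({x} : Finset V) := hU ▸ mem_union_right _ hb
  rw [mem_singleton] at h1 h2
  subst h1 h2
  exact disjoint_left.1 hCD ha hb

/-- A maximal connected set with `x` inside `A` (a set containing `x`). -/
theorem exists_max_conn {G : Finset (Sym2 V)} {A : Finset V} {x : V} (hx : x ∈ A)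
    (P : Finset V → Prop) (hP : P {x}) :
    ∃ W ⊆ A, x ∈ W ∧ ¬ Disc W G ∧ P W ∧
      ∀ W' ⊆ A, x ∈ W' → ¬ Disc W' G → P W' → W ⊆ W' → W' = W := by
  classical
  obtain ⟨W, hW, hmax⟩ := (A.powerset.filter fun W => x ∈ W ∧ ¬ Disc W G ∧ P W).exists_maximal
    ⟨{x}, by
      rw [mem_filter, mem_powerset]
      exact ⟨singleton_subset_iff.2 hx, mem_singleton_self x, conn_single x, hP⟩⟩
  rw [mem_filter, mem_powerset] at hW
  refine ⟨W, hW.1, hW.2.1, hW.2.2.1, hW.2.2.2, fun W' h1 h2 h3 h4 h5 => ?_⟩
  exact (hmax (mem_filter.2 ⟨mem_powerset.2 h1, h2, h3, h4⟩) h5).antisymm h5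

/-- An edge leaves every nonempty proper part of a connected set. -/
theorem exists_edge {G : Finset (Sym2 V)} {W A : Finset V} (hW : ¬ Disc W G) (hA : A ⊆ W)
    (hAn : A.Nonempty) (hne : A ≠ W) : ∃ x ∈ A, ∃ y ∈ W, y ∉ A ∧ s(x, y) ∈ G := by
  by_contra hcon
  push Not at hcon
  refine hW ⟨A, W \ A, hAn, ?_, disjoint_sdiff, union_sdiff_of_subset hA, fun x hx y hy => ?_⟩
  · rw [sdiff_nonempty]
    exact fun h => hne (hA.antisymm h)
  · exact hcon x hx y (mem_sdiff.1 hy).1 (mem_sdiff.1 hy).2

/-- A connected set with at least two vertices has a non-cut vertex different from `x`. -/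
theorem exists_noncut {G : Finset (Sym2 V)} {W : Finset V} {x : V} (hW : ¬ Disc W G) (hx : x ∈ W)
    (hne : W ≠ {x}) : ∃ b ∈ W, b ≠ x ∧ ¬ Disc (W.erase b) G := by
  obtain ⟨A, hA, hxA, hcA, hAW, hmax⟩ := exists_max_conn (G := G) (A := W) hx (fun A => A ≠ W)
    hne.symm
  obtain ⟨u, hu, y, hy, hyA, he⟩ := exists_edge hW hA ⟨x, hxA⟩ hAW
  have h1 : ¬ Disc (insert y A) G := conn_insert hcA hu he
  have h2 : insert y A = W := by
    by_contra h3
    have h4 := hmax (insert y A) (insert_subset hy hA) (mem_insert_of_mem hxA) h1 h3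
      (subset_insert _ _)
    exact hyA (h4 ▸ mem_insert_self _ _)
  refine ⟨y, hy, fun e => hyA (e ▸ hxA), ?_⟩
  rw [← h2, erase_insert hyA]
  exact hcA

/-- The exchange property (P1) of helper8, in cut form. -/
def Ex (G : Finset (Sym2 V)) (K : Finset V → Prop) (W : Finset V) : Prop :=
  ∀ A ⊆ W, K A → ∀ b ∈ W, ∀ d ∈ W, b ≠ d → b ∉ A → d ∉ A → K (insert b A) → K (insert d A) →
    ∀ Z ⊆ W, (∀ z ∈ Z, z ∉ A ∧ ¬ K (insert z A)) → ¬ Disc (insert b (insert d Z)) G →
      K (insert b (insert d A))

/-- THE TREE LEMMA for the poset of non-faces. -/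
theorem tree {G : Finset (Sym2 V)} : ∀ (n : ℕ) (K : Finset V → Prop) (W : Finset V), W.card ≤ n →
    Dn K → ¬ Disc W G → (∃ x ∈ W, K {x}) → ¬ K W → Ex G K W →
    AC (Ch fun U : Finset V => U ⊂ W ∧ ¬ K U) := by
  intro n
  induction n with
  | zero =>
    rintro K W hc - - ⟨x, hx, -⟩ - -
    have := card_pos.2 ⟨x, hx⟩
    omega
  | succ n ih =>
    rintro K W hc hK hW ⟨x, hx, hKx⟩ hKW hE
    have hne : W ≠ {x} := fun e => hKW (e ▸ hKx)
    obtain ⟨b, hb, hbx, hW0⟩ := exists_noncut hW hx hne
    have hc0 : (W.erase b).card ≤ n := by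
      rw [card_erase_of_mem hb]
      omega
    have hx0 : x ∈ W.erase b := mem_erase.2 ⟨hbx.symm, hx⟩
    have hE0 : Ex G K (W.erase b) := fun A hA hKA c hc d hd hcd hcA hdA h1 h2 Z hZ =>
      hE A (hA.trans (erase_subset _ _)) hKA c (mem_of_mem_erase hc) d (mem_of_mem_erase hd) hcd
        hcA hdA h1 h2 Z (hZ.trans (erase_subset _ _))
    -- the upper part
    have hZ2 : AC (Ch fun U : Finset V => U ⊂ W ∧ b ∈ U ∧ ¬ K U) := by
      by_cases hKb : K {b}
      · -- the link of `b`
        have hL : AC (Ch fun U : Finset V => U ⊂ W.erase b ∧ ¬ K (insert b U)) := by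
          refine ih (fun U => K (insert b U)) (W.erase b) hc0 ?_ hW0 ?_ ?_ ?_
          · exact fun s t hst h => hK _ _ (insert_subset_insert b hst) h
          · -- a neighbour in the link
            classical
            obtain ⟨A, hA, hbA, hcA, -, hmax⟩ := exists_max_conn (G := G)
              (A := insert b (W.filter fun z => ¬ K {z})) (x := b) (mem_insert_self _ _)
              (fun _ => True) trivial
            have hAW : A ⊆ W := fun a ha => by
              rcases mem_insert.1 (hA ha) with h1 | h1
              · exact h1 ▸ hb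
              · exact (mem_filter.1 h1).1
            have hAne : A ≠ W := by
              intro e
              have h1 : x ∈ A := e ▸ hx
              rcases mem_insert.1 (hA h1) with h2 | h2
              · exact hbx h2.symm
              · exact (mem_filter.1 h2).2 hKx
            obtain ⟨u, hu, y, hy, hyA, he⟩ := exists_edge hW hAW ⟨b, hbA⟩ hAne
            have h1 : ¬ Disc (insert y A) G := conn_insert hcA hu he
            have hyb : y ≠ b := fun e => hyA (e ▸ hbA)
            have hKy : K {y} := by
              by_contra h2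
              have h3 := hmax (insert y A) (insert_subset (mem_insert_of_mem
                (mem_filter.2 ⟨hy, h2⟩)) hA) (mem_insert_of_mem hbA) h1 trivial (subset_insert _ _)
              exact hyA (h3 ▸ mem_insert_self _ _)
            refine ⟨y, mem_erase.2 ⟨hyb, hy⟩, ?_⟩
            have h4 := hE ∅ (empty_subset _) (hK _ _ (empty_subset _) hKb) b hb y hy hyb.symm
              (notMem_empty _) (notMem_empty _) hKb hKy (A.erase b) ((erase_subset _ _).trans hAW)
              (fun z hz => ⟨notMem_empty _, ?_⟩) ?_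
            · exact h4
            · rcases mem_insert.1 (hA (mem_of_mem_erase hz)) with h5 | h5
              · exact absurd h5 (mem_erase.1 hz).1
              · exact (mem_filter.1 h5).2
            · rw [insert_comm, insert_erase hbA]
              exact h1
          · show ¬ K (insert b (W.erase b))
            rw [insert_erase hb]
            exact hKW
          · intro A hA hKA c hc d hd hcd hcA hdA h1 h2 Z hZ hZ1 hcon
            have h3 := hE (insert b A) (insert_subset hb (hA.trans (erase_subset _ _))) hKA c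
              (mem_of_mem_erase hc) d (mem_of_mem_erase hd) hcd ?_ ?_ ?_ ?_ Z
              (hZ.trans (erase_subset _ _)) (fun z hz => ⟨?_, ?_⟩) hcon
            · show K (insert b (insert c (insert d A)))
              rw [insert_comm b c, insert_comm b d]
              exact h3
            · rw [mem_insert]
              exact fun h => h.elim (mem_erase.1 hc).1 hcA
            · rw [mem_insert]
              exact fun h => h.elim (mem_erase.1 hd).1 hdA
            · rw [insert_comm]
              exact h1
            · rw [insert_comm]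
              exact h2
            · rw [mem_insert]
              exact fun h => h.elim (mem_erase.1 (hZ hz)).1 (hZ1 z hz).1
            · rw [insert_comm]
              exact (hZ1 z hz).2
        refine ac_closure (fun U : Finset V => U.erase b) (fun U => insert b U) ?_ ?_ ?_ ?_ ?_ hL
        · rintro U ⟨h1, h2, h3⟩
          refine ⟨?_, ?_⟩
          · refine (erase_subset_erase b h1.1).ssubset_of_ne fun e => h1.2 ?_
            rw [← insert_erase h2, e, insert_erase hb]
          · show ¬ K (insert b (U.erase b))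
            rw [insert_erase h2]
            exact h3
        · rintro U ⟨h1, h2⟩
          refine ⟨?_, mem_insert_self _ _, h2⟩
          refine (insert_subset hb (h1.1.trans (erase_subset _ _))).ssubset_of_ne fun e => h1.2 ?_
          intro a ha
          have h4 : a ∈ insert b U := e ▸ mem_of_mem_erase ha
          exact (mem_insert.1 h4).resolve_left (mem_erase.1 ha).1
        · exact fun U U' _ _ h => erase_subset_erase b h
        · exact fun U U' _ _ h => insert_subset_insert b h
        · rintro U ⟨-, h2, -⟩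
          show U ≤ insert b (U.erase b)
          rw [insert_erase h2]
      · refine ac_ch_cone (a := ({b} : Finset V)) ⟨?_, mem_singleton_self b, hKb⟩ fun U hU =>
          Or.inl (singleton_subset_iff.2 hU.2.1)
        refine (singleton_subset_iff.2 hb).ssubset_of_ne fun e => ?_
        have : x ∈ ({b} : Finset V) := e ▸ hx
        exact hbx (mem_singleton.1 this).symm
    by_cases hK0 : K (W.erase b)
    · have e : (fun U : Finset V => U ⊂ W ∧ ¬ K U) = fun U => U ⊂ W ∧ b ∈ U ∧ ¬ K U := by
        funext U
        rw [eq_iff_iff]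
        constructor
        · rintro ⟨h1, h2⟩
          refine ⟨h1, ?_, h2⟩
          by_contra h3
          refine h2 (hK _ _ (fun a ha => mem_erase.2 ⟨?_, h1.1 ha⟩) hK0)
          rintro rfl
          exact h3 ha
        · exact fun h => ⟨h.1, h.2.2⟩
      rw [e]
      exact hZ2
    · have h1 : AC (Ch fun U : Finset V => U ⊂ W ∧ ¬ K U ∧ U ≠ W.erase b) := by
        refine ac_closure (fun U : Finset V => insert b U) (fun U => U) ?_ ?_ ?_ ?_ ?_ hZ2
        · rintro U ⟨h1, h2, h3⟩
          refine ⟨?_, mem_insert_self _ _, fun h => h2 (hK _ _ (subset_insert _ _) h)⟩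
          refine (insert_subset hb h1.1).ssubset_of_ne fun e => ?_
          by_cases h4 : b ∈ U
          · rw [insert_eq_of_mem h4] at e
            exact h1.2 e.ge
          · exact h3 (by rw [← e, erase_insert h4])
        · rintro U ⟨h1, h2, h3⟩
          exact ⟨h1, h3, fun e => notMem_erase b W (e ▸ h2)⟩
        · exact fun U U' _ _ h => insert_subset_insert b h
        · exact fun U U' _ _ h => h
        · exact fun U _ => subset_insert _ _
      have e : (fun U : Finset V => U ⊂ W ∧ ¬ K U) =
          fun U => (U ⊂ W ∧ ¬ K U ∧ U ≠ W.erase b) ∨ U = W.erase b := by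
        funext U
        rw [eq_iff_iff]
        constructor
        · rintro ⟨h1, h2⟩
          by_cases h3 : U = W.erase b
          · exact Or.inr h3
          · exact Or.inl ⟨h1, h2, h3⟩
        · rintro (⟨h1, h2, -⟩ | h)
          · exact ⟨h1, h2⟩
          · rw [h]
            exact ⟨erase_ssubset hb, hK0⟩
      rw [e]
      refine ac_add (fun h => h.2.2 rfl) ?_ h1
      have e2 : (fun U : Finset V => (U ⊂ W ∧ ¬ K U ∧ U ≠ W.erase b) ∧
          (U ≤ W.erase b ∨ W.erase b ≤ U)) = fun U => U ⊂ W.erase b ∧ ¬ K U := by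
        funext U
        rw [eq_iff_iff]
        constructor
        · rintro ⟨⟨h2, h3, h4⟩, h5 | h5⟩
          · exact ⟨lt_of_le_of_ne h5 h4, h3⟩
          · exfalso
            by_cases h6 : b ∈ U
            · refine h2.2 fun a ha => ?_
              by_cases h7 : a = b
              · exact h7 ▸ h6
              · exact h5 (mem_erase.2 ⟨h7, ha⟩)
            · exact h4 (Subset.antisymm (fun a ha => mem_erase.2 ⟨fun e => h6 (e ▸ ha), h2.1 ha⟩) h5)
        · rintro ⟨h2, h3⟩
          exact ⟨⟨h2.trans (erase_ssubset hb), h3, h2.ne⟩, Or.inl h2.1⟩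
      rw [e2]
      exact ih K (W.erase b) hc0 hK hW0 ⟨x, hx0, hKx⟩ hK0 hE0

/-- THE FUNCTOR IS ACYCLIC: `K` a complex containing all the vertices, with the exchange property on
every set, and not the full simplex: the poset of the disconnected non-faces is acyclic. -/
theorem conn_acyclic {G : Finset (Sym2 V)} {K : Finset V → Prop} (hK : Dn K) (h0 : K ∅)
    (hv : ∀ x, K {x}) (hE : ∀ W, Ex G K W) (hV : ¬ K univ) :
    AC (Ch fun U : Finset V => ¬ K U ∧ Disc U G) := by
  have h1 : AC (Ch fun U : Finset V => ¬ K U) :=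
    ac_ch_cone (a := univ) hV fun U _ => Or.inr (subset_univ U)
  have h2 := ac_delete_all (D := fun U : Finset V => ¬ Disc U G) h1 fun m hm hd => by
    have hmn : m.Nonempty := by
      rw [nonempty_iff_ne_empty]
      exact fun e => hm (e ▸ h0)
    obtain ⟨x, hx⟩ := hmn
    have h3 := tree (G := G) m.card K m le_rfl hK hd ⟨x, hx, hv x⟩ hm (hE m)
    have e : (fun U : Finset V => ¬ K U ∧ U < m) = fun U => U ⊂ m ∧ ¬ K U := by
      funext U
      rw [eq_iff_iff]
      exact ⟨fun h => ⟨h.2, h.1⟩, fun h => ⟨h.2, h.1⟩⟩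
    rw [e]
    exact h3
  have e : (fun U : Finset V => ¬ K U ∧ Disc U G) = fun U => ¬ K U ∧ ¬ ¬ Disc U G := by
    funext U
    rw [not_not]
  rw [e]
  exact h2

end H59T
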