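import Pool.Agent.Lib.H59T.G5
import Pool.Agent.Lib.H59T.LKDefs

/-!
# Project H59T, chunk U1 (M): the four-point sums of a primitive character of prime power modulus
-/

open Finset

namespace Pool.Agent.Lib.H59T

/-- the change of variables -/
def u1_equiv (R : Type*) [CommRing R] : R × R × R × R ≃ R × R × R × R where
  toFun x := (x.1, x.1 + x.2.2.2, x.2.1 - x.1, x.2.1 - x.1 + x.2.2.1)
  invFun x := (x.1, x.1 + x.2.2.1, x.2.2.2 - x.2.2.1, x.2.1 - x.1)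
  left_inv x := by
    obtain ⟨z, s, A, B⟩ := x
    simp only [Prod.mk.injEq, true_and]
    refine ⟨by ring, by ring, by ring⟩
  right_inv x := by
    obtain ⟨z, s, A, B⟩ := x
    simp only [Prod.mk.injEq, true_and]
    refine ⟨by ring, by ring, by ring⟩

/-- averaging over the shift: `‖U4‖` is at most the number of bad `s` -/
theorem u1_norm (l a m n : ℕ) (hl : l.Prime) (ha : a = m + n) (hn : 1 ≤ n) (hmn : n ≤ m) [NeZero (l ^ a)]
    (χ : DirichletCharacter ℂ (l ^ a)) (hχ : χ.IsPrimitive) (A B : ZMod (l ^ a)) :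
    ‖U4 χ A B‖ ≤ (((univ : Finset (ZMod (l ^ a))).filter
      (fun s => l ^ n ∣ (2 * (2 * s + A + B) * A * B).val)).card : ℝ) := by
  set T : ZMod (l ^ a) → ℂ := fun s => χ s * star (χ (s + A)) * star (χ (s + B)) * χ (s + A + B) with hT
  have hχ1 : ∀ s, ‖χ s‖ ≤ 1 := fun s => DirichletCharacter.norm_le_one χ s
  have hTn : ∀ s, ‖T s‖ ≤ 1 := by
    intro s
    simp only [hT, norm_mul, norm_star]
    exact mul_le_one₀ (mul_le_one₀ (mul_le_one₀ (hχ1 _) (norm_nonneg _) (hχ1 _)) (norm_nonneg _) (hχ1 _))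
      (norm_nonneg _) (hχ1 _)
  have hq0 : (0 : ℝ) < ((l ^ a : ℕ) : ℝ) := by exact_mod_cast Nat.pos_of_ne_zero (NeZero.ne (l ^ a))
  have h1 : ∀ v : ZMod (l ^ a), ∑ s, T (s + 2 * (l : ZMod (l ^ a)) ^ m * v) = U4 χ A B := by
    intro v
    rw [← Equiv.sum_comp (Equiv.addRight (-(2 * (l : ZMod (l ^ a)) ^ m * v)))]
    unfold U4
    refine Finset.sum_congr rfl fun s _ => ?_
    simp only [Equiv.coe_addRight, neg_add_cancel_right, hT]
  have h2 : ((l ^ a : ℕ) : ℂ) * U4 χ A B = ∑ s, ∑ v : ZMod (l ^ a), T (s + 2 * (l : ZMod (l ^ a)) ^ m * v) := by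
    rw [Finset.sum_comm, Finset.sum_congr rfl fun v _ => h1 v, Finset.sum_const, Finset.card_univ, ZMod.card,
      nsmul_eq_mul]
  have h3 : ∀ s : ZMod (l ^ a), ¬ l ^ n ∣ (2 * (2 * s + A + B) * A * B).val →
      ∑ v : ZMod (l ^ a), T (s + 2 * (l : ZMod (l ^ a)) ^ m * v) = 0 := by
    intro s hs
    have e0 : 2 * (2 * s + A + B) * A * B = 2 * (s + (s + B) + 0 + A) * (s - (s + B)) * (0 - A) := by ring
    rw [e0] at hs
    have h4 := G3 l a m n hl ha hn hmn χ hχ s (s + B) 0 A hs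
    rw [← h4]
    refine Finset.sum_congr rfl fun v _ => ?_
    simp only [hT]
    have a1 : s + 0 + 2 * (l : ZMod (l ^ a)) ^ m * v = s + 2 * (l : ZMod (l ^ a)) ^ m * v := by ring
    have a2 : s + B + 0 + 2 * (l : ZMod (l ^ a)) ^ m * v = s + 2 * (l : ZMod (l ^ a)) ^ m * v + B := by ring
    have a3 : s + A + 2 * (l : ZMod (l ^ a)) ^ m * v = s + 2 * (l : ZMod (l ^ a)) ^ m * v + A := by ring
    have a4 : s + B + A + 2 * (l : ZMod (l ^ a)) ^ m * v = s + 2 * (l : ZMod (l ^ a)) ^ m * v + A + B := by ring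
    rw [a1, a2, a3, a4]
    ring
  have h5 : ((l ^ a : ℕ) : ℝ) * ‖U4 χ A B‖ ≤ ∑ s : ZMod (l ^ a),
      (if l ^ n ∣ (2 * (2 * s + A + B) * A * B).val then ((l ^ a : ℕ) : ℝ) else 0) := by
    have e1 : ((l ^ a : ℕ) : ℝ) * ‖U4 χ A B‖ = ‖((l ^ a : ℕ) : ℂ) * U4 χ A B‖ := by
      rw [norm_mul, Complex.norm_natCast]
    rw [e1, h2]
    refine (norm_sum_le _ _).trans (Finset.sum_le_sum fun s _ => ?_)
    split_ifs with hp
    · refine (norm_sum_le _ _).trans ?_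
      calc ∑ v : ZMod (l ^ a), ‖T (s + 2 * (l : ZMod (l ^ a)) ^ m * v)‖ ≤ ∑ _v : ZMod (l ^ a), (1 : ℝ) :=
            Finset.sum_le_sum fun v _ => hTn _
        _ = ((l ^ a : ℕ) : ℝ) := by rw [Finset.sum_const, Finset.card_univ, ZMod.card, nsmul_eq_mul, mul_one]
    · rw [h3 s hp, norm_zero]
  rw [← Finset.sum_filter, Finset.sum_const, nsmul_eq_mul, mul_comm] at h5
  exact le_of_mul_le_mul_right h5 hq0

/-- Proof. `N = l^a`, `n = a/2`, `m = a - n` (`2 m ≥ a`). In `U4 χ A B` replace `s` by `s + l^m v` and sum over `v`: if one of the four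
arguments `s, s+A, s+B, s+A+B` is not a unit the term is `0` for all `v`; otherwise the factor is
`χ(1 + l^m (K v))`, `K = s⁻¹ - (s+A)⁻¹ - (s+B)⁻¹ + (s+A+B)⁻¹ = u A B (2s + A + B)` with `u` a unit (`G2_add`, `star χ = χ⁻¹` on
units; see `g3_unit`, `g3_star` in `G3.lean`), and the sum over `v` is `0` unless `l^n ∣ (A B (2s+A+B)).val` (`G2_mean`; a unit
does not change divisibility). So `‖U4 χ A B‖` is at most the number of `s` with this property, and at most `N`; hence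
`∑ ‖U4‖² ≤ N · #{(s,A,B) : l^n ∣ A B (2s+A+B)}`. Each such triple gives `N` quadruples `(z1, z2, y1, y2)` with
`s = z1 + y1`, `B = z2 - z1`, `A = y2 - y1` (`z1` free), for which `l^n` divides `2 (z1+z2+y1+y2)(z1-z2)(y1-y2)`: `G4` gives
`#triples ≤ 6 N³ l^(-n/3)`, and `n ≥ a/3`. -/
theorem U1_pow (l a : ℕ) (hl : l.Prime) (ha : 2 ≤ a) [NeZero (l ^ a)] (χ : DirichletCharacter ℂ (l ^ a))
    (hχ : χ.IsPrimitive) :
    ∑ A : ZMod (l ^ a), ∑ B : ZMod (l ^ a), ‖U4 χ A B‖ ^ 2 ≤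
      6 * ((l ^ a : ℕ) : ℝ) ^ 4 * (l : ℝ) ^ (-(a / 9 : ℝ)) := by
  classical
  obtain ⟨n, hn⟩ : ∃ n : ℕ, n = a / 2 := ⟨_, rfl⟩
  have hχ1 : ∀ s, ‖χ s‖ ≤ 1 := fun s => DirichletCharacter.norm_le_one χ s
  have hN : ∀ A B, ‖U4 χ A B‖ ≤ ((l ^ a : ℕ) : ℝ) := by
    intro A B
    unfold U4
    refine (norm_sum_le _ _).trans ?_
    calc _ ≤ ∑ _v : ZMod (l ^ a), (1 : ℝ) := Finset.sum_le_sum fun s _ => by
            simp only [norm_mul, norm_star]
            exact mul_le_one₀ (mul_le_one₀ (mul_le_one₀ (hχ1 _) (norm_nonneg _) (hχ1 _)) (norm_nonneg _) (hχ1 _))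
              (norm_nonneg _) (hχ1 _)
      _ = ((l ^ a : ℕ) : ℝ) := by rw [Finset.sum_const, Finset.card_univ, ZMod.card, nsmul_eq_mul, mul_one]
  have h1 : ∀ A B : ZMod (l ^ a), ‖U4 χ A B‖ ^ 2 ≤ ∑ _z : ZMod (l ^ a), ∑ s : ZMod (l ^ a),
      (if l ^ n ∣ (2 * (2 * s + A + B) * A * B).val then (1 : ℝ) else 0) := by
    intro A B
    have h2 := u1_norm l a (a - n) n hl (by omega) (by omega) (by omega) χ hχ A B
    rw [Finset.sum_const, Finset.card_univ, ZMod.card, nsmul_eq_mul, ← Finset.sum_filter, Finset.sum_const,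
      nsmul_eq_mul, mul_one, sq]
    exact mul_le_mul (hN A B) h2 (norm_nonneg _) (by positivity)
  have h3 : ∑ A : ZMod (l ^ a), ∑ B : ZMod (l ^ a), ‖U4 χ A B‖ ^ 2 ≤
      (((univ : Finset (ZMod (l ^ a) × ZMod (l ^ a) × ZMod (l ^ a) × ZMod (l ^ a))).filter
      (fun x => l ^ n ∣ (2 * (x.1 + x.2.1 + x.2.2.1 + x.2.2.2) * (x.1 - x.2.1) *
        (x.2.2.1 - x.2.2.2)).val)).card : ℝ) := by
    have e1 : (((univ : Finset (ZMod (l ^ a) × ZMod (l ^ a) × ZMod (l ^ a) × ZMod (l ^ a))).filter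
      (fun x => l ^ n ∣ (2 * (x.1 + x.2.1 + x.2.2.1 + x.2.2.2) * (x.1 - x.2.1) *
        (x.2.2.1 - x.2.2.2)).val)).card : ℝ) =
        ∑ x : ZMod (l ^ a) × ZMod (l ^ a) × ZMod (l ^ a) × ZMod (l ^ a),
          (if l ^ n ∣ (2 * (x.1 + x.2.1 + x.2.2.1 + x.2.2.2) * (x.1 - x.2.1) *
        (x.2.2.1 - x.2.2.2)).val then (1 : ℝ) else 0) := by
      rw [← Finset.sum_filter, Finset.sum_const, nsmul_eq_mul, mul_one]
    rw [e1, ← Equiv.sum_comp (u1_equiv (ZMod (l ^ a)))]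
    have e2 : ∑ x : ZMod (l ^ a) × ZMod (l ^ a) × ZMod (l ^ a) × ZMod (l ^ a),
        (if l ^ n ∣ (2 * ((u1_equiv (ZMod (l ^ a)) x).1 + (u1_equiv (ZMod (l ^ a)) x).2.1 +
          (u1_equiv (ZMod (l ^ a)) x).2.2.1 + (u1_equiv (ZMod (l ^ a)) x).2.2.2) *
          ((u1_equiv (ZMod (l ^ a)) x).1 - (u1_equiv (ZMod (l ^ a)) x).2.1) *
          ((u1_equiv (ZMod (l ^ a)) x).2.2.1 - (u1_equiv (ZMod (l ^ a)) x).2.2.2)).val then (1 : ℝ) else 0) =
        ∑ A : ZMod (l ^ a), ∑ B : ZMod (l ^ a), ∑ _z : ZMod (l ^ a), ∑ s : ZMod (l ^ a),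
          (if l ^ n ∣ (2 * (2 * s + A + B) * A * B).val then (1 : ℝ) else 0) := by
      rw [Fintype.sum_prod_type]
      have e3 : ∀ z : ZMod (l ^ a), ∑ y : ZMod (l ^ a) × ZMod (l ^ a) × ZMod (l ^ a),
        (if l ^ n ∣ (2 * ((u1_equiv (ZMod (l ^ a)) (z, y)).1 + (u1_equiv (ZMod (l ^ a)) (z, y)).2.1 +
          (u1_equiv (ZMod (l ^ a)) (z, y)).2.2.1 + (u1_equiv (ZMod (l ^ a)) (z, y)).2.2.2) *
          ((u1_equiv (ZMod (l ^ a)) (z, y)).1 - (u1_equiv (ZMod (l ^ a)) (z, y)).2.1) *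
          ((u1_equiv (ZMod (l ^ a)) (z, y)).2.2.1 - (u1_equiv (ZMod (l ^ a)) (z, y)).2.2.2)).val
            then (1 : ℝ) else 0) =
          ∑ A : ZMod (l ^ a), ∑ B : ZMod (l ^ a), ∑ s : ZMod (l ^ a),
          (if l ^ n ∣ (2 * (2 * s + A + B) * A * B).val then (1 : ℝ) else 0) := by
        intro z
        rw [Fintype.sum_prod_type, Finset.sum_comm' (t' := (univ : Finset (ZMod (l ^ a) × ZMod (l ^ a))))
          (s' := fun _ => (univ : Finset (ZMod (l ^ a)))) (by simp), Fintype.sum_prod_type]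
        refine Finset.sum_congr rfl fun A _ => Finset.sum_congr rfl fun B _ =>
          Finset.sum_congr rfl fun s _ => ?_
        have e4 : 2 * ((u1_equiv (ZMod (l ^ a)) (z, s, A, B)).1 + (u1_equiv (ZMod (l ^ a)) (z, s, A, B)).2.1 +
          (u1_equiv (ZMod (l ^ a)) (z, s, A, B)).2.2.1 + (u1_equiv (ZMod (l ^ a)) (z, s, A, B)).2.2.2) *
          ((u1_equiv (ZMod (l ^ a)) (z, s, A, B)).1 - (u1_equiv (ZMod (l ^ a)) (z, s, A, B)).2.1) *
          ((u1_equiv (ZMod (l ^ a)) (z, s, A, B)).2.2.1 - (u1_equiv (ZMod (l ^ a)) (z, s, A, B)).2.2.2) =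
            2 * (2 * s + A + B) * A * B := by
          simp only [u1_equiv, Equiv.coe_fn_mk]
          ring
        rw [e4]
      rw [Finset.sum_congr rfl fun z _ => e3 z, Finset.sum_comm]
      exact Finset.sum_congr rfl fun A _ => Finset.sum_comm
    rw [e2]
    exact Finset.sum_le_sum fun A _ => Finset.sum_le_sum fun B _ => h1 A B
  refine h3.trans ((G4 l a n hl (by omega)).trans ?_)
  refine mul_le_mul_of_nonneg_left ?_ (by positivity)
  refine Real.rpow_le_rpow_of_exponent_le (by exact_mod_cast hl.one_lt.le) ?_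
  have h2 : (a : ℝ) ≤ 3 * n := by exact_mod_cast (by omega : a ≤ 3 * n)
  linarith

theorem u1_prime (q l : ℕ) (hql : q = l) (hl : l.Prime) [NeZero q] (χ : DirichletCharacter ℂ q)
    (hχ : χ.IsPrimitive) : ∑ A : ZMod q, ∑ B : ZMod q, ‖U4 χ A B‖ ^ 2 ≤ 13 * (l : ℝ) ^ 3 := by
  subst hql
  have := Fact.mk hl
  have h1 : χ ≠ 1 := by
    intro h
    rw [h, DirichletCharacter.isPrimitive_def, DirichletCharacter.conductor_one] at hχ
    exact hl.one_lt.ne hχ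
  have h2 : q ≠ 2 := by
    intro h
    subst h
    refine h1 (MulChar.ext fun u => ?_)
    have hu : u = 1 := by
      apply Units.ext
      have h3 : (u : ZMod 2) ≠ 0 := u.ne_zero
      exact g5_two _ h3
    rw [hu]
    simp
  have h3 := K4 q h2 χ h1
  exact h3

/-- Proof. `a ≥ 2`: `U1_pow`. `a = 1`: `l ≠ 2`, `χ ≠ 1` as in `G5` (`G5.lean`), `K4`: `13 l³ ≤ 13 l⁴ l^(-1/9)`. `UU χ` and the sum
of the `‖U4 χ A B‖²` are the same by definition. -/
theorem U1_all (l a : ℕ) (hl : l.Prime) (ha : 1 ≤ a) [NeZero (l ^ a)] (χ : DirichletCharacter ℂ (l ^ a))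
    (hχ : χ.IsPrimitive) : UU (fun s => χ s) ≤ 13 * ((l ^ a : ℕ) : ℝ) ^ 4 * (l : ℝ) ^ (-(a / 9 : ℝ)) := by
  have e0 : UU (fun s => χ s) = ∑ A : ZMod (l ^ a), ∑ B : ZMod (l ^ a), ‖U4 χ A B‖ ^ 2 := rfl
  rw [e0]
  have hl1 : (1 : ℝ) ≤ l := by exact_mod_cast hl.one_lt.le
  have hl0 : (0 : ℝ) < l := by linarith
  rcases Nat.lt_or_ge a 2 with h | h
  · have ha1 : a = 1 := by omega
    subst ha1
    refine (u1_prime (l ^ 1) l (pow_one l) hl χ hχ).trans ?_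
    have e1 : ((l ^ 1 : ℕ) : ℝ) ^ 4 * (l : ℝ) ^ (-(((1 : ℕ) : ℝ) / 9 : ℝ)) = (l : ℝ) ^ (4 - 1 / 9 : ℝ) := by
      rw [pow_one, ← Real.rpow_natCast, ← Real.rpow_add hl0]
      congr 1
      push_cast
      ring
    rw [mul_assoc, e1]
    have e2 : (l : ℝ) ^ (3 : ℝ) ≤ (l : ℝ) ^ (4 - 1 / 9 : ℝ) :=
      Real.rpow_le_rpow_of_exponent_le hl1 (by norm_num)
    have e3 : (l : ℝ) ^ (3 : ℝ) = (l : ℝ) ^ 3 := by
      rw [← Real.rpow_natCast]
      norm_num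
    rw [e3] at e2
    linarith
  · refine (U1_pow l a hl h χ hχ).trans ?_
    have h4 : 0 ≤ ((l ^ a : ℕ) : ℝ) ^ 4 * (l : ℝ) ^ (-(a / 9 : ℝ)) := by positivity
    nlinarith

end Pool.Agent.Lib.H59T
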