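import Pool.Agent.Lib.H59T.LKDefs

/-!
# Project H59T, chunk U3 (M): Gowers-Cauchy-Schwarz on `ZMod N`
-/

open Finset

namespace Pool.Agent.Lib.H59T

/-- the square of a sum, by differences -/
theorem u3_sq (N : ℕ) [NeZero N] (g : ZMod N → ℂ) :
    (((‖∑ z : ZMod N, g z‖ ^ 2 : ℝ)) : ℂ) = ∑ h : ZMod N, ∑ z : ZMod N, g z * star (g (z + h)) := by
  have e2 : (((‖∑ z : ZMod N, g z‖ ^ 2 : ℝ)) : ℂ) = (∑ z : ZMod N, g z) * star (∑ z : ZMod N, g z) := by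
    rw [Complex.star_def, Complex.mul_conj, Complex.normSq_eq_norm_sq]
  rw [e2, star_sum, Finset.sum_mul_sum, Finset.sum_comm]
  have e3 : ∀ z : ZMod N, ∑ h : ZMod N, g z * star (g (z + h)) = ∑ w : ZMod N, g z * star (g w) := by
    intro z
    rw [← Equiv.sum_comp (Equiv.addLeft z) (fun w => g z * star (g w))]
    rfl
  rw [Finset.sum_comm, Finset.sum_comm (f := fun h z => g z * star (g (z + h)))]
  exact (Finset.sum_congr rfl fun z _ => e3 z).symm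

/-- Cauchy-Schwarz over pairs -/
theorem u3_cs (N : ℕ) [NeZero N] (b : ZMod N → ZMod N → ℝ) :
    (∑ h : ZMod N, ∑ k : ZMod N, b h k) ^ 2 ≤ (N : ℝ) ^ 2 * ∑ h : ZMod N, ∑ k : ZMod N, b h k ^ 2 := by
  have h3 := sq_sum_le_card_mul_sum_sq (s := (univ : Finset (ZMod N × ZMod N)))
    (f := fun p => b p.1 p.2)
  rw [Finset.card_univ, Fintype.card_prod, ZMod.card, Fintype.sum_prod_type, Fintype.sum_prod_type] at h3
  refine h3.trans (le_of_eq ?_)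
  push_cast
  ring

/-- Proof. Put `Δ_h f(z) = f(z) star f(z+h)`. Expanding the squares, the left side `X` is
`∑_{h,z,y,y'} Δ_h f0(z) Δ_h f1(z+y) Δ_h f2(z+y') Δ_h f3(z+y+y')`, so
`X ≤ ∑_{h,z,y'} ‖∑_y Δ_h f1(z+y) Δ_h f3(z+y+y')‖ = N ∑_{h,y'} ‖∑_u Δ_h f1(u) Δ_h f3(u+y')‖ ≤ N (N² S)^(1/2)` with
`S = ∑_{h,y'} ‖∑_u Δ_h f1(u) Δ_h f3(u+y')‖² = ∑_{h,k} ∑_u Δ_k Δ_h f1(u) ∑_{y'} Δ_k Δ_h f3(u+y')
≤ N ∑_{h,k} ‖∑_s Δ_k Δ_h f3(s)‖ ≤ N · N (UU f3)^(1/2)`. So `X ≤ N² (N² (UU f3)^(1/2))^(1/2)`. -/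
theorem U3_top (N : ℕ) [NeZero N] (f0 f1 f2 f3 : ZMod N → ℂ) (h0 : ∀ t, ‖f0 t‖ ≤ 1)
    (h1 : ∀ t, ‖f1 t‖ ≤ 1) (h2 : ∀ t, ‖f2 t‖ ≤ 1) (h3 : ∀ t, ‖f3 t‖ ≤ 1) :
    ∑ y : ZMod N, ∑ y' : ZMod N, ‖∑ z : ZMod N, f0 z * f1 (z + y) * f2 (z + y') * f3 (z + y + y')‖ ^ 2 ≤
      (N : ℝ) ^ 3 * (UU f3) ^ (1 / 4 : ℝ) := by
  have hN0 : (0 : ℝ) < N := by exact_mod_cast Nat.pos_of_ne_zero (NeZero.ne N)
  set D : (ZMod N → ℂ) → ZMod N → ZMod N → ℂ := fun f h z => f z * star (f (z + h)) with hD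
  have hDn : ∀ f : ZMod N → ℂ, (∀ t, ‖f t‖ ≤ 1) → ∀ h z, ‖D f h z‖ ≤ 1 := by
    intro f hf h z
    simp only [hD, norm_mul, norm_star]
    exact mul_le_one₀ (hf _) (norm_nonneg _) (hf _)
  set X : ℝ := ∑ y : ZMod N, ∑ y' : ZMod N,
    ‖∑ z : ZMod N, f0 z * f1 (z + y) * f2 (z + y') * f3 (z + y + y')‖ ^ 2 with hX
  have hX0 : 0 ≤ X := Finset.sum_nonneg fun _ _ => Finset.sum_nonneg fun _ _ => by positivity
  set C : ZMod N → ZMod N → ℂ := fun h y' => ∑ u : ZMod N, D f1 h u * D f3 h (u + y') with hC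
  have s1 : (X : ℂ) = ∑ h : ZMod N, ∑ z : ZMod N, ∑ y' : ZMod N, D f0 h z * D f2 h (z + y') * C h y' := by
    have e1 : ∀ h z y' : ZMod N, C h y' = ∑ y : ZMod N, D f1 h (z + y) * D f3 h (z + y + y') := by
      intro h z y'
      simp only [hC]
      rw [← Equiv.sum_comp (Equiv.addLeft z)]
      rfl
    have e2 : (X : ℂ) = ∑ y : ZMod N, ∑ y' : ZMod N, ∑ h : ZMod N, ∑ z : ZMod N,
        D f0 h z * D f2 h (z + y') * (D f1 h (z + y) * D f3 h (z + y + y')) := by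
      rw [hX, Complex.ofReal_sum]
      refine Finset.sum_congr rfl fun y _ => ?_
      rw [Complex.ofReal_sum]
      refine Finset.sum_congr rfl fun y' _ => ?_
      rw [u3_sq]
      refine Finset.sum_congr rfl fun h _ => Finset.sum_congr rfl fun z _ => ?_
      simp only [hD, star_mul']
      have a1 : z + h + y = z + y + h := by ring
      have a2 : z + h + y' = z + y' + h := by ring
      have a3 : z + y + h + y' = z + y + y' + h := by ring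
      rw [a1, a2, a3]
      ring
    rw [e2]
    have e3 : ∀ y : ZMod N, ∑ y' : ZMod N, ∑ h : ZMod N, ∑ z : ZMod N,
        D f0 h z * D f2 h (z + y') * (D f1 h (z + y) * D f3 h (z + y + y')) =
        ∑ h : ZMod N, ∑ z : ZMod N, ∑ y' : ZMod N,
        D f0 h z * D f2 h (z + y') * (D f1 h (z + y) * D f3 h (z + y + y')) := by
      intro y
      rw [Finset.sum_comm]
      exact Finset.sum_congr rfl fun h _ => Finset.sum_comm
    rw [Finset.sum_congr rfl fun y _ => e3 y, Finset.sum_comm]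
    refine Finset.sum_congr rfl fun h _ => ?_
    rw [Finset.sum_comm]
    refine Finset.sum_congr rfl fun z _ => ?_
    rw [Finset.sum_comm]
    refine Finset.sum_congr rfl fun y' _ => ?_
    rw [e1 h z y', Finset.mul_sum]
  have s2 : X ≤ N * ∑ h : ZMod N, ∑ y' : ZMod N, ‖C h y'‖ := by
    have e1 : X = ‖(X : ℂ)‖ := by rw [Complex.norm_real, Real.norm_of_nonneg hX0]
    rw [e1, s1, Finset.mul_sum]
    refine (norm_sum_le _ _).trans (Finset.sum_le_sum fun h _ => ?_)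
    refine (norm_sum_le _ _).trans ?_
    calc _ ≤ ∑ _z : ZMod N, ∑ y' : ZMod N, ‖C h y'‖ := by
          refine Finset.sum_le_sum fun z _ => (norm_sum_le _ _).trans (Finset.sum_le_sum fun y' _ => ?_)
          rw [norm_mul, norm_mul]
          have e4 : ‖D f0 h z‖ * ‖D f2 h (z + y')‖ ≤ 1 :=
            mul_le_one₀ (hDn f0 h0 h z) (norm_nonneg _) (hDn f2 h2 h _)
          calc _ ≤ 1 * ‖C h y'‖ := mul_le_mul_of_nonneg_right e4 (norm_nonneg _)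
            _ = ‖C h y'‖ := one_mul _
      _ = N * ∑ y' : ZMod N, ‖C h y'‖ := by rw [Finset.sum_const, Finset.card_univ, ZMod.card, nsmul_eq_mul]
  set S : ℝ := ∑ h : ZMod N, ∑ y' : ZMod N, ‖C h y'‖ ^ 2 with hS
  have hS0 : 0 ≤ S := Finset.sum_nonneg fun _ _ => Finset.sum_nonneg fun _ _ => by positivity
  set E : ZMod N → ZMod N → ℂ := fun h k =>
    ∑ s : ZMod N, f3 s * star (f3 (s + h)) * star (f3 (s + k)) * f3 (s + h + k) with hE
  have s3 : (S : ℂ) = ∑ h : ZMod N, ∑ k : ZMod N, (∑ u : ZMod N, D f1 h u * star (D f1 h (u + k))) * E h k := by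
    rw [hS, Complex.ofReal_sum]
    refine Finset.sum_congr rfl fun h _ => ?_
    rw [Complex.ofReal_sum]
    have e1 : ∀ y' : ZMod N, ((‖C h y'‖ ^ 2 : ℝ) : ℂ) = ∑ k : ZMod N, ∑ u : ZMod N,
        (D f1 h u * star (D f1 h (u + k))) * (D f3 h (u + y') * star (D f3 h (u + y' + k))) := by
      intro y'
      simp only [hC]
      rw [u3_sq]
      refine Finset.sum_congr rfl fun k _ => Finset.sum_congr rfl fun u _ => ?_
      have a1 : u + k + y' = u + y' + k := by ring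
      rw [star_mul', a1]
      ring
    rw [Finset.sum_congr rfl fun y' _ => e1 y', Finset.sum_comm]
    refine Finset.sum_congr rfl fun k _ => ?_
    rw [Finset.sum_comm, Finset.sum_mul]
    refine Finset.sum_congr rfl fun u _ => ?_
    rw [← Finset.mul_sum]
    congr 1
    simp only [hE]
    rw [← Equiv.sum_comp (Equiv.addLeft u) (fun s => f3 s * star (f3 (s + h)) * star (f3 (s + k)) * f3 (s + h + k))]
    refine Finset.sum_congr rfl fun y' _ => ?_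
    simp only [hD, Equiv.coe_addLeft, star_mul', star_star]
    have a1 : u + y' + k + h = u + y' + h + k := by ring
    rw [a1]
    ring
  have s4 : S ≤ N * ∑ h : ZMod N, ∑ k : ZMod N, ‖E h k‖ := by
    have e1 : S = ‖(S : ℂ)‖ := by rw [Complex.norm_real, Real.norm_of_nonneg hS0]
    rw [e1, s3, Finset.mul_sum]
    refine (norm_sum_le _ _).trans (Finset.sum_le_sum fun h _ => ?_)
    rw [Finset.mul_sum]
    refine (norm_sum_le _ _).trans (Finset.sum_le_sum fun k _ => ?_)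
    rw [norm_mul]
    refine mul_le_mul_of_nonneg_right ?_ (norm_nonneg _)
    calc _ ≤ ∑ u : ZMod N, ‖D f1 h u * star (D f1 h (u + k))‖ := norm_sum_le _ _
      _ ≤ ∑ _u : ZMod N, (1 : ℝ) := by
        refine Finset.sum_le_sum fun u _ => ?_
        rw [norm_mul, norm_star]
        exact mul_le_one₀ (hDn f1 h1 h _) (norm_nonneg _) (hDn f1 h1 h _)
      _ = N := by rw [Finset.sum_const, Finset.card_univ, ZMod.card, nsmul_eq_mul, mul_one]
  have hUU : ∑ h : ZMod N, ∑ k : ZMod N, ‖E h k‖ ^ 2 = UU f3 := rfl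
  have hUU0 : 0 ≤ UU f3 := Finset.sum_nonneg fun _ _ => Finset.sum_nonneg fun _ _ => by positivity
  have c1 := u3_cs N (fun h y' => ‖C h y'‖)
  have c2 := u3_cs N (fun h k => ‖E h k‖)
  rw [hUU] at c2
  set P : ℝ := ∑ h : ZMod N, ∑ y' : ZMod N, ‖C h y'‖ with hP
  set R : ℝ := ∑ h : ZMod N, ∑ k : ZMod N, ‖E h k‖ with hR
  have hP0 : 0 ≤ P := Finset.sum_nonneg fun _ _ => Finset.sum_nonneg fun _ _ => norm_nonneg _
  have hR0 : 0 ≤ R := Finset.sum_nonneg fun _ _ => Finset.sum_nonneg fun _ _ => norm_nonneg _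
  have c3 : P ^ 2 ≤ (N : ℝ) ^ 2 * S := c1
  have d1 : S ^ 2 ≤ (N : ℝ) ^ 4 * UU f3 := by
    calc S ^ 2 ≤ (N * R) ^ 2 := pow_le_pow_left₀ hS0 s4 2
      _ = (N : ℝ) ^ 2 * R ^ 2 := by ring
      _ ≤ (N : ℝ) ^ 2 * ((N : ℝ) ^ 2 * UU f3) := mul_le_mul_of_nonneg_left c2 (by positivity)
      _ = (N : ℝ) ^ 4 * UU f3 := by ring
  have d2 : X ^ 2 ≤ (N : ℝ) ^ 4 * S := by
    calc X ^ 2 ≤ (N * P) ^ 2 := pow_le_pow_left₀ hX0 s2 2
      _ = (N : ℝ) ^ 2 * P ^ 2 := by ring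
      _ ≤ (N : ℝ) ^ 2 * ((N : ℝ) ^ 2 * S) := mul_le_mul_of_nonneg_left c3 (by positivity)
      _ = (N : ℝ) ^ 4 * S := by ring
  have d3 : X ^ 4 ≤ (N : ℝ) ^ 12 * UU f3 := by
    calc X ^ 4 = (X ^ 2) ^ 2 := by ring
      _ ≤ ((N : ℝ) ^ 4 * S) ^ 2 := pow_le_pow_left₀ (by positivity) d2 2
      _ = (N : ℝ) ^ 8 * S ^ 2 := by ring
      _ ≤ (N : ℝ) ^ 8 * ((N : ℝ) ^ 4 * UU f3) := mul_le_mul_of_nonneg_left d1 (by positivity)
      _ = (N : ℝ) ^ 12 * UU f3 := by ring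
  have d4 : X ^ 4 ≤ ((N : ℝ) ^ 3 * (UU f3) ^ (1 / 4 : ℝ)) ^ 4 := by
    refine d3.trans (le_of_eq ?_)
    have e5 : ((UU f3) ^ (1 / 4 : ℝ)) ^ 4 = UU f3 := by
      rw [← Real.rpow_natCast, ← Real.rpow_mul hUU0]
      norm_num
    rw [mul_pow, e5]
    ring
  exact (pow_le_pow_iff_left₀ hX0 (by positivity) (by norm_num)).1 d4

end Pool.Agent.Lib.H59T
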