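import Pool.Agent.Lib.H59T.U3

/-!
# Project H59T, chunk U3B (M): the same for the forms `2z + e_0`, …, and any of the four functions
-/

open Finset

namespace Pool.Agent.Lib.H59T

theorem u3b_neg (N : ℕ) [NeZero N] (H : ZMod N → ℝ) : ∑ y : ZMod N, H (-y) = ∑ y : ZMod N, H y :=
  Equiv.sum_comp (Equiv.neg (ZMod N)) H

theorem u3b_add (N : ℕ) [NeZero N] (c : ZMod N) (H : ZMod N → ℂ) : ∑ z : ZMod N, H (z + c) = ∑ z : ZMod N, H z :=
  Equiv.sum_comp (Equiv.addRight c) H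

/-- Proof. `i = 3`: `U3_top`. `i = 0`: substitute `z → z + y + y'`, `y → -y`, `y' → -y'` (inner resp. outer sum); `i = 1`: `z → z + y'`,
`y' → -y'`; `i = 2`: `z → z + y`, `y → -y`. -/
theorem U3B_any (N : ℕ) [NeZero N] (f : Fin 4 → ZMod N → ℂ) (hf : ∀ i t, ‖f i t‖ ≤ 1) (i : Fin 4) :
    ∑ y : ZMod N, ∑ y' : ZMod N,
      ‖∑ z : ZMod N, f 0 z * f 1 (z + y) * f 2 (z + y') * f 3 (z + y + y')‖ ^ 2 ≤
      (N : ℝ) ^ 3 * (UU (f i)) ^ (1 / 4 : ℝ) := by
  fin_cases i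
  · refine le_trans (le_of_eq ?_) (U3_top N (f 3) (f 2) (f 1) (f 0) (hf 3) (hf 2) (hf 1) (hf 0))
    rw [← u3b_neg N]
    refine Finset.sum_congr rfl fun y _ => ?_
    rw [← u3b_neg N]
    refine Finset.sum_congr rfl fun y' _ => ?_
    rw [← u3b_add N (y + y')]
    refine congrArg (fun w : ℂ => ‖w‖ ^ 2) ?_
    refine Finset.sum_congr rfl fun z _ => ?_
    have e1 : z + (y + y') + -y = z + y' := by ring
    have e2 : z + (y + y') + -y' = z + y := by ring
    have e3 : z + y' + -y' = z := by ring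
    have e4 : z + (y + y') = z + y + y' := by ring
    rw [e1, e2, e3, e4]
    ring
  · refine le_trans (le_of_eq ?_) (U3_top N (f 2) (f 3) (f 0) (f 1) (hf 2) (hf 3) (hf 0) (hf 1))
    refine Finset.sum_congr rfl fun y _ => ?_
    rw [← u3b_neg N]
    refine Finset.sum_congr rfl fun y' _ => ?_
    rw [← u3b_add N y']
    refine congrArg (fun w : ℂ => ‖w‖ ^ 2) ?_
    refine Finset.sum_congr rfl fun z _ => ?_
    have e1 : z + y' + y = z + y + y' := by ring
    have e2 : z + y' + -y' = z := by ring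
    have e3 : z + y + y' + -y' = z + y := by ring
    rw [e1, e2, e3]
    ring
  · refine le_trans (le_of_eq ?_) (U3_top N (f 1) (f 0) (f 3) (f 2) (hf 1) (hf 0) (hf 3) (hf 2))
    rw [← u3b_neg N]
    refine Finset.sum_congr rfl fun y _ => ?_
    refine Finset.sum_congr rfl fun y' _ => ?_
    rw [← u3b_add N y]
    refine congrArg (fun w : ℂ => ‖w‖ ^ 2) ?_
    refine Finset.sum_congr rfl fun z _ => ?_
    have e1 : z + y + -y = z := by ring
    rw [e1]
    ring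
  · exact U3_top N (f 0) (f 1) (f 2) (f 3) (hf 0) (hf 1) (hf 2) (hf 3)

/-- The sign of the parity of `s`. -/
def u3b_e {N : ℕ} (s : ZMod N) : ℂ := (-1) ^ s.val

theorem u3b_e_sq {N : ℕ} (s : ZMod N) : u3b_e s * u3b_e s = 1 := by
  unfold u3b_e
  rw [← mul_pow]
  norm_num

theorem u3b_e_norm {N : ℕ} (s : ZMod N) : ‖u3b_e s‖ = 1 := by
  unfold u3b_e
  rw [norm_pow, norm_neg, norm_one, one_pow]

theorem u3b_e_add {N : ℕ} [NeZero N] (hN : Even N) (s t : ZMod N) : u3b_e (s + t) = u3b_e s * u3b_e t := by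
  unfold u3b_e
  rw [ZMod.val_add, ← pow_add, neg_one_pow_eq_pow_mod_two, Nat.mod_mod_of_dvd _ hN.two_dvd, ← neg_one_pow_eq_pow_mod_two]

theorem u3b_e_cast {N : ℕ} [NeZero N] (hN : Even N) (k : ℕ) : u3b_e (k : ZMod N) = (-1) ^ k := by
  unfold u3b_e
  rw [ZMod.val_natCast, neg_one_pow_eq_pow_mod_two, Nat.mod_mod_of_dvd _ hN.two_dvd, ← neg_one_pow_eq_pow_mod_two]

theorem u3b_range (N : ℕ) [NeZero N] (H : ZMod N → ℂ) :
    ∑ z : ZMod N, H z = ∑ k ∈ range N, H (k : ZMod N) := by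
  symm
  refine Finset.sum_nbij' (fun k : ℕ => (k : ZMod N)) (fun z : ZMod N => z.val) ?_ ?_ ?_ ?_ ?_
  · intro k _
    exact Finset.mem_univ _
  · intro z _
    exact Finset.mem_range.2 (ZMod.val_lt z)
  · intro k hk
    exact ZMod.val_cast_of_lt (Finset.mem_range.1 hk)
  · intro z _
    exact ZMod.natCast_zmod_val z
  · intro k _
    rfl

theorem u3b_double (h : ℕ → ℂ) (M : ℕ) : ∑ k ∈ range (M + M), h k = ∑ k ∈ range M, (h (2 * k) + h (2 * k + 1)) := by
  induction M with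
  | zero => simp
  | succ M ih =>
    have e : M + 1 + (M + 1) = M + M + 1 + 1 := by ring
    rw [e, Finset.sum_range_succ, Finset.sum_range_succ, ih, Finset.sum_range_succ, ← two_mul M]
    ring

theorem u3b_even (N : ℕ) [NeZero N] (hN : Even N) (G : ZMod N → ℂ) :
    ∑ z : ZMod N, G (2 * z) = ∑ s : ZMod N, G s + ∑ s : ZMod N, u3b_e s * G s := by
  obtain ⟨M, hM⟩ := id hN
  rw [u3b_range N (fun z => G (2 * z)), u3b_range N G, u3b_range N (fun s => u3b_e s * G s), ← Finset.sum_add_distrib]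
  have h1 : ∑ k ∈ range N, G (2 * ((k : ℕ) : ZMod N)) = 2 * ∑ k ∈ range M, G (2 * ((k : ℕ) : ZMod N)) := by
    have h2 : ∑ k ∈ range (M + M), G (2 * ((k : ℕ) : ZMod N)) = 2 * ∑ k ∈ range M, G (2 * ((k : ℕ) : ZMod N)) := by
      rw [Finset.sum_range_add, two_mul]
      refine congrArg (fun w : ℂ => (∑ k ∈ range M, G (2 * ((k : ℕ) : ZMod N))) + w) ?_
      refine Finset.sum_congr rfl fun k _ => ?_
      have e : 2 * (((M + k : ℕ)) : ZMod N) = 2 * (k : ZMod N) := by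
        have e1 : ((M + M : ℕ) : ZMod N) = 0 := by
          rw [← hM]
          exact ZMod.natCast_self N
        push_cast at e1 ⊢
        linear_combination e1
      rw [e]
    rw [← h2, ← hM]
  have h3 : ∑ k ∈ range N, (G ((k : ℕ) : ZMod N) + u3b_e ((k : ℕ) : ZMod N) * G ((k : ℕ) : ZMod N)) =
      2 * ∑ k ∈ range M, G (2 * ((k : ℕ) : ZMod N)) := by
    have h4 : ∑ k ∈ range (M + M), (G ((k : ℕ) : ZMod N) + u3b_e ((k : ℕ) : ZMod N) * G ((k : ℕ) : ZMod N)) =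
        2 * ∑ k ∈ range M, G (2 * ((k : ℕ) : ZMod N)) := by
      rw [u3b_double, Finset.mul_sum]
      refine Finset.sum_congr rfl fun k _ => ?_
      rw [u3b_e_cast hN, u3b_e_cast hN, pow_succ, pow_mul]
      push_cast
      ring
    rw [← h4, ← hM]
  exact h1.trans h3.symm

theorem u3b_odd (N : ℕ) [NeZero N] (hN : ¬ Even N) (G : ZMod N → ℂ) :
    ∑ z : ZMod N, G (2 * z) = ∑ s : ZMod N, G s := by
  have h1 : Nat.Coprime 2 N := (Nat.coprime_two_left).2 (Nat.not_even_iff_odd.1 hN)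
  have h2 : ((ZMod.unitOfCoprime 2 h1 : (ZMod N)ˣ) : ZMod N) = 2 := by
    rw [ZMod.coe_unitOfCoprime]
    norm_num
  have h3 := Equiv.sum_comp (Units.mulLeft (ZMod.unitOfCoprime 2 h1)) G
  rw [← h3]
  refine Finset.sum_congr rfl fun z _ => ?_
  rw [Units.mulLeft_apply, h2]

theorem u3b_UU (N : ℕ) [NeZero N] (f : ZMod N → ℂ) (c : ZMod N) : UU (fun t => f (t + c)) = UU f := by
  unfold UU
  refine Finset.sum_congr rfl fun A _ => ?_
  refine Finset.sum_congr rfl fun B _ => ?_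
  rw [← u3b_add N c (fun s => f s * star (f (s + A)) * star (f (s + B)) * f (s + A + B))]
  refine congrArg (fun w : ℂ => ‖w‖ ^ 2) ?_
  refine Finset.sum_congr rfl fun z _ => ?_
  show f (z + c) * star (f (z + A + c)) * star (f (z + B + c)) * f (z + A + B + c) = _
  have e1 : z + A + c = z + c + A := by ring
  have e2 : z + B + c = z + c + B := by ring
  have e3 : z + A + B + c = z + c + A + B := by ring
  rw [e1, e2, e3]

theorem u3b_UU_nonneg (N : ℕ) [NeZero N] (f : ZMod N → ℂ) : 0 ≤ UU f :=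
  Finset.sum_nonneg fun _ _ => Finset.sum_nonneg fun _ _ => sq_nonneg _

/-- The sum with the sign. -/
theorem u3b_sign (N : ℕ) [NeZero N] (hN : Even N) (g : Fin 4 → ZMod N → ℂ) (hg : ∀ i t, ‖g i t‖ ≤ 1) (i : Fin 4) :
    ∑ y : ZMod N, ∑ y' : ZMod N,
      ‖∑ z : ZMod N, u3b_e z * (g 0 z * g 1 (z + y) * g 2 (z + y') * g 3 (z + y + y'))‖ ^ 2 ≤
      (N : ℝ) ^ 3 * (UU (g i)) ^ (1 / 4 : ℝ) := by
  by_cases hi : i = 0
  · subst hi
    have hg' : ∀ i t, ‖(![g 0, fun t => u3b_e t * g 1 t, g 2, g 3] : Fin 4 → ZMod N → ℂ) i t‖ ≤ 1 := by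
      intro i t
      fin_cases i
      · exact hg 0 t
      · show ‖u3b_e t * g 1 t‖ ≤ 1
        rw [norm_mul, u3b_e_norm, one_mul]
        exact hg 1 t
      · exact hg 2 t
      · exact hg 3 t
    refine le_trans (le_of_eq ?_) (U3B_any N ![g 0, fun t => u3b_e t * g 1 t, g 2, g 3] hg' 0)
    refine Finset.sum_congr rfl fun y _ => ?_
    refine Finset.sum_congr rfl fun y' _ => ?_
    refine congrArg (fun w : ℝ => w ^ 2) ?_
    rw [← one_mul (‖∑ z : ZMod N, u3b_e z * (g 0 z * g 1 (z + y) * g 2 (z + y') * g 3 (z + y + y'))‖), ← u3b_e_norm y,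
      ← norm_mul, Finset.mul_sum]
    refine congrArg (fun w : ℂ => ‖w‖) ?_
    refine Finset.sum_congr rfl fun z _ => ?_
    show u3b_e y * (u3b_e z * (g 0 z * g 1 (z + y) * g 2 (z + y') * g 3 (z + y + y'))) =
      g 0 z * (u3b_e (z + y) * g 1 (z + y)) * g 2 (z + y') * g 3 (z + y + y')
    rw [u3b_e_add hN]
    ring
  · have hg' : ∀ i t, ‖(![fun t => u3b_e t * g 0 t, g 1, g 2, g 3] : Fin 4 → ZMod N → ℂ) i t‖ ≤ 1 := by
      intro i t
      fin_cases i
      · show ‖u3b_e t * g 0 t‖ ≤ 1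
        rw [norm_mul, u3b_e_norm, one_mul]
        exact hg 0 t
      · exact hg 1 t
      · exact hg 2 t
      · exact hg 3 t
    have h1 : (![fun t => u3b_e t * g 0 t, g 1, g 2, g 3] : Fin 4 → ZMod N → ℂ) i = g i := by
      fin_cases i
      · exact absurd rfl hi
      · rfl
      · rfl
      · rfl
    have h2 := U3B_any N ![fun t => u3b_e t * g 0 t, g 1, g 2, g 3] hg' i
    rw [h1] at h2
    refine le_trans (le_of_eq ?_) h2
    refine Finset.sum_congr rfl fun y _ => ?_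
    refine Finset.sum_congr rfl fun y' _ => ?_
    refine congrArg (fun w : ℂ => ‖w‖ ^ 2) ?_
    refine Finset.sum_congr rfl fun z _ => ?_
    show u3b_e z * (g 0 z * g 1 (z + y) * g 2 (z + y') * g 3 (z + y + y')) =
      (u3b_e z * g 0 z) * g 1 (z + y) * g 2 (z + y') * g 3 (z + y + y')
    ring

/-- Proof. Replace `f j` by its translate `f j (· + e j)` (the same `UU`). `N` odd: `z ↦ 2 z` is a bijection. `N` even:
`∑_z G(2z) = ∑_s (1 + ε(s)) G(s)` with the sign `ε(s) = (-1)^(s.val)` (multiplicative: `ε(s+y) = ε(s) ε(y)`), so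
`‖∑_z G(2z)‖² ≤ 2 ‖∑_s G(s)‖² + 2 ‖∑_s ε(s) G(s)‖²`; in the second sum multiply the function with some index `j ≠ i` by `ε`
(`ε(s) = ε(s+y) ε(y)` etc., the sign `ε(y)` does not matter). -/
theorem U3B_two (N : ℕ) [NeZero N] (f : Fin 4 → ZMod N → ℂ) (hf : ∀ i t, ‖f i t‖ ≤ 1) (e : Fin 4 → ZMod N)
    (i : Fin 4) :
    ∑ y : ZMod N, ∑ y' : ZMod N, ‖∑ z : ZMod N, f 0 (2 * z + e 0) * f 1 (2 * z + y + e 1) *
      f 2 (2 * z + y' + e 2) * f 3 (2 * z + y + y' + e 3)‖ ^ 2 ≤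
      4 * (N : ℝ) ^ 3 * (UU (f i)) ^ (1 / 4 : ℝ) := by
  set g : Fin 4 → ZMod N → ℂ := fun j t => f j (t + e j) with hgdef
  have hg : ∀ i t, ‖g i t‖ ≤ 1 := fun i t => hf i _
  have hU : UU (g i) = UU (f i) := u3b_UU N (f i) (e i)
  rw [← hU]
  have hX := U3B_any N g hg i
  have hX0 : 0 ≤ (N : ℝ) ^ 3 * (UU (g i)) ^ (1 / 4 : ℝ) :=
    mul_nonneg (by positivity) (Real.rpow_nonneg (u3b_UU_nonneg N _) _)
  have e0 : ∀ y y' : ZMod N, ∑ z : ZMod N, f 0 (2 * z + e 0) * f 1 (2 * z + y + e 1) *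
      f 2 (2 * z + y' + e 2) * f 3 (2 * z + y + y' + e 3) =
      ∑ z : ZMod N, (fun s => g 0 s * g 1 (s + y) * g 2 (s + y') * g 3 (s + y + y')) (2 * z) := fun y y' => rfl
  by_cases hN : Even N
  · have hY := u3b_sign N hN g hg i
    have h1 : ∀ y y' : ZMod N, ‖∑ z : ZMod N, f 0 (2 * z + e 0) * f 1 (2 * z + y + e 1) *
        f 2 (2 * z + y' + e 2) * f 3 (2 * z + y + y' + e 3)‖ ^ 2 ≤
        2 * ‖∑ z : ZMod N, g 0 z * g 1 (z + y) * g 2 (z + y') * g 3 (z + y + y')‖ ^ 2 +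
        2 * ‖∑ z : ZMod N, u3b_e z * (g 0 z * g 1 (z + y) * g 2 (z + y') * g 3 (z + y + y'))‖ ^ 2 := by
      intro y y'
      rw [e0, u3b_even N hN (fun s => g 0 s * g 1 (s + y) * g 2 (s + y') * g 3 (s + y + y'))]
      have h2 := norm_add_le (∑ z : ZMod N, g 0 z * g 1 (z + y) * g 2 (z + y') * g 3 (z + y + y'))
        (∑ z : ZMod N, u3b_e z * (g 0 z * g 1 (z + y) * g 2 (z + y') * g 3 (z + y + y')))
      have h3 := norm_nonneg (∑ z : ZMod N, g 0 z * g 1 (z + y) * g 2 (z + y') * g 3 (z + y + y') +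
        ∑ z : ZMod N, u3b_e z * (g 0 z * g 1 (z + y) * g 2 (z + y') * g 3 (z + y + y')))
      have h4 := pow_le_pow_left₀ h3 h2 2
      refine h4.trans ?_
      nlinarith [sq_nonneg (‖∑ z : ZMod N, g 0 z * g 1 (z + y) * g 2 (z + y') * g 3 (z + y + y')‖ -
        ‖∑ z : ZMod N, u3b_e z * (g 0 z * g 1 (z + y) * g 2 (z + y') * g 3 (z + y + y'))‖)]
    refine (Finset.sum_le_sum fun y _ => Finset.sum_le_sum fun y' _ => h1 y y').trans ?_
    simp only [Finset.sum_add_distrib, ← Finset.mul_sum]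
    linarith
  · refine le_trans (le_of_eq ?_) (hX.trans ?_)
    · refine Finset.sum_congr rfl fun y _ => ?_
      refine Finset.sum_congr rfl fun y' _ => ?_
      rw [e0, u3b_odd N hN (fun s => g 0 s * g 1 (s + y) * g 2 (s + y') * g 3 (s + y + y'))]
    · linarith

end Pool.Agent.Lib.H59T
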