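import Pool.Agent.Lib.H59T.UF

/-!
# Project H59T, chunk UBA (M): small cubes for a kernel with slowly varying coefficient
-/

open Finset

namespace Pool.Agent.Lib.H59T

open Pool.Agent.Lib.H68T Pool.Agent.Lib.H18Q Pool.Agent.Lib.H59P

theorem uba_lip (β : ℤ → ℂ) (u v : ℤ) (δ : ℝ) (hδ : ∀ m, u ≤ m → m + 1 ≤ v → ‖β (m + 1) - β m‖ ≤ δ)
    (m : ℤ) (hm : u ≤ m) (j : ℕ) : m + j ≤ v → ‖β (m + j) - β m‖ ≤ j * δ := by
  induction j with
  | zero =>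
    intro _
    simp
  | succ j ih =>
    intro hj
    push_cast at hj
    have h1 := ih (by omega)
    have h2 := hδ (m + j) (by omega) (by omega)
    have h3 : β (m + ((j + 1 : ℕ) : ℤ)) - β m = (β (m + j + 1) - β (m + j)) + (β (m + j) - β m) := by
      push_cast
      rw [← add_assoc]
      ring
    rw [h3]
    refine (norm_add_le _ _).trans ?_
    push_cast
    linarith

theorem uba_prod {B e : ℝ} (hB : 0 ≤ B) {a b c d a' b' c' d' : ℂ} (hb : ‖b‖ ≤ B) (hc : ‖c‖ ≤ B) (hd : ‖d‖ ≤ B)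
    (ha' : ‖a'‖ ≤ B) (hb' : ‖b'‖ ≤ B) (hc' : ‖c'‖ ≤ B) (h1 : ‖a - a'‖ ≤ e) (h2 : ‖b - b'‖ ≤ e)
    (h3 : ‖c - c'‖ ≤ e) (h4 : ‖d - d'‖ ≤ e) : ‖a * b * c * d - a' * b' * c' * d'‖ ≤ 4 * e * B ^ 3 := by
  have he : 0 ≤ e := (norm_nonneg _).trans h1
  have h0 : a * b * c * d - a' * b' * c' * d' = (a - a') * b * c * d + a' * (b - b') * c * d +
      a' * b' * (c - c') * d + a' * b' * c' * (d - d') := by ring
  have e1 : ‖(a - a') * b * c * d‖ ≤ e * B * B * B := by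
    rw [norm_mul, norm_mul, norm_mul]
    gcongr
  have e2 : ‖a' * (b - b') * c * d‖ ≤ B * e * B * B := by
    rw [norm_mul, norm_mul, norm_mul]
    gcongr
  have e3 : ‖a' * b' * (c - c') * d‖ ≤ B * B * e * B := by
    rw [norm_mul, norm_mul, norm_mul]
    gcongr
  have e4 : ‖a' * b' * c' * (d - d')‖ ≤ B * B * B * e := by
    rw [norm_mul, norm_mul, norm_mul]
    gcongr
  rw [h0]
  have n1 := norm_add_le ((a - a') * b * c * d + a' * (b - b') * c * d + a' * b' * (c - c') * d) (a' * b' * c' * (d - d'))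
  have n2 := norm_add_le ((a - a') * b * c * d + a' * (b - b') * c * d) (a' * b' * (c - c') * d)
  have n3 := norm_add_le ((a - a') * b * c * d) (a' * (b - b') * c * d)
  have h5 : 4 * e * B ^ 3 = e * B * B * B + B * e * B * B + B * B * e * B + B * B * B * e := by ring
  rw [h5]
  linarith

theorem uba_G (b : ℂ) (hb : ‖b‖ ≤ 1) (V : ℤ → ℂ) (H : ℕ) (h h' k k' m : ℤ) :
    ‖∑ t ∈ range H, P4 (fun x => b * V x) h h' k k' (m + 2 * t)‖ ≤
      ‖∑ t ∈ range H, P4 V h h' k k' (m + 2 * t)‖ := by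
  have h1 : ∀ x, P4 (fun x => b * V x) h h' k k' x =
      (b * (starRingEnd ℂ) b * (starRingEnd ℂ) b * b) * P4 V h h' k k' x := by
    intro x
    unfold P4
    simp only [map_mul]
    ring
  rw [Finset.sum_congr rfl fun t _ => h1 _, ← Finset.mul_sum, norm_mul]
  refine mul_le_of_le_one_left (norm_nonneg _) ?_
  rw [norm_mul, norm_mul, norm_mul, Complex.norm_conj]
  calc ‖b‖ * ‖b‖ * ‖b‖ * ‖b‖ ≤ 1 * 1 * 1 * 1 := by gcongr
    _ = 1 := by norm_num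

theorem uba_const (H : ℕ) (a : ℝ) : ∑ _h ∈ range H, ∑ _h' ∈ range H, ∑ _k ∈ range H, ∑ _k' ∈ range H, a =
    (H : ℝ) ^ 4 * a := by
  simp only [Finset.sum_const, Finset.card_range, nsmul_eq_mul]
  ring

/-- all points in the interval -/
theorem uba_in {B δ : ℝ} (hB : 0 ≤ B) (hδ0 : 0 ≤ δ) (V : ℤ → ℂ) (hV : ∀ m, ‖V m‖ ≤ B) (β : ℤ → ℂ) (u v : ℤ)
    (hβ : ∀ m, u ≤ m → m ≤ v → ‖β m‖ ≤ 1)
    (hδ : ∀ m, u ≤ m → m + 1 ≤ v → ‖β (m + 1) - β m‖ ≤ δ) (H : ℕ) (m : ℤ) (h1 : u ≤ m) (h2 : m + 4 * H ≤ v)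
    (h h' k k' : ℕ) (hh : h < H) (hh' : h' < H) (hk : k < H) (hk' : k' < H) :
    ‖∑ t ∈ range H, P4 (fun m => if u ≤ m ∧ m ≤ v then β m * V m else 0) h h' k k' (m + 2 * t)‖ ^ 2 ≤
      2 * ‖∑ t ∈ range H, P4 V h h' k k' (m + 2 * t)‖ ^ 2 + 512 * (H : ℝ) ^ 4 * δ ^ 2 * B ^ 8 := by
  obtain ⟨F, hF⟩ : ∃ F : ℤ → ℂ, F = fun m => if u ≤ m ∧ m ≤ v then β m * V m else 0 := ⟨_, rfl⟩
  rw [← hF]
  have hFx : ∀ j : ℕ, j ≤ 4 * H → F (m + j) = β (m + j) * V (m + j) ∧ ‖F (m + j)‖ ≤ B ∧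
      ‖β m * V (m + j)‖ ≤ B ∧ ‖F (m + j) - β m * V (m + j)‖ ≤ 4 * H * δ * B := by
    intro j hj
    have e0 : F (m + j) = β (m + j) * V (m + j) := by
      rw [hF]
      exact if_pos ⟨by omega, by omega⟩
    refine ⟨e0, ?_, ?_, ?_⟩
    · rw [e0, norm_mul]
      calc ‖β (m + j)‖ * ‖V (m + j)‖ ≤ 1 * B :=
            mul_le_mul (hβ _ (by omega) (by omega)) (hV _) (norm_nonneg _) zero_le_one
        _ = B := one_mul _
    · rw [norm_mul]
      calc ‖β m‖ * ‖V (m + j)‖ ≤ 1 * B :=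
            mul_le_mul (hβ _ (by omega) (by omega)) (hV _) (norm_nonneg _) zero_le_one
        _ = B := one_mul _
    · rw [e0, ← sub_mul, norm_mul]
      have e1 := uba_lip β u v δ hδ m h1 j (by omega)
      have e2 : (j : ℝ) * δ ≤ 4 * H * δ := by
        refine mul_le_mul_of_nonneg_right ?_ hδ0
        exact_mod_cast hj
      exact mul_le_mul (e1.trans e2) (hV _) (norm_nonneg _) (by positivity)
  have hpt : ∀ t ∈ range H, ‖P4 F h h' k k' (m + 2 * t) - P4 (fun x => β m * V x) h h' k k' (m + 2 * t)‖ ≤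
      4 * (4 * H * δ * B) * B ^ 3 := by
    intro t ht
    rw [mem_range] at ht
    have a1 : (m + 2 * (t : ℤ) + h + k : ℤ) = m + ((2 * t + h + k : ℕ) : ℤ) := by push_cast; ring
    have a2 : (m + 2 * (t : ℤ) + h' + k : ℤ) = m + ((2 * t + h' + k : ℕ) : ℤ) := by push_cast; ring
    have a3 : (m + 2 * (t : ℤ) + h + k' : ℤ) = m + ((2 * t + h + k' : ℕ) : ℤ) := by push_cast; ring
    have a4 : (m + 2 * (t : ℤ) + h' + k' : ℤ) = m + ((2 * t + h' + k' : ℕ) : ℤ) := by push_cast; ring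
    obtain ⟨-, b1, c1, d1⟩ := hFx (2 * t + h + k) (by omega)
    obtain ⟨-, b2, c2, d2⟩ := hFx (2 * t + h' + k) (by omega)
    obtain ⟨-, b3, c3, d3⟩ := hFx (2 * t + h + k') (by omega)
    obtain ⟨-, b4, c4, d4⟩ := hFx (2 * t + h' + k') (by omega)
    unfold P4
    rw [a1, a2, a3, a4]
    refine uba_prod hB ?_ ?_ b4 c1 ?_ ?_ d1 ?_ ?_ d4
    · rw [Complex.norm_conj]; exact b2
    · rw [Complex.norm_conj]; exact b3
    · rw [Complex.norm_conj]; exact c2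
    · rw [Complex.norm_conj]; exact c3
    · rw [← map_sub, Complex.norm_conj]; exact d2
    · rw [← map_sub, Complex.norm_conj]; exact d3
  have hdiff : ‖∑ t ∈ range H, P4 F h h' k k' (m + 2 * t) - ∑ t ∈ range H, P4 (fun x => β m * V x) h h' k k' (m + 2 * t)‖ ≤
      16 * (H : ℝ) ^ 2 * δ * B ^ 4 := by
    rw [← Finset.sum_sub_distrib]
    refine (norm_sum_le _ _).trans ((Finset.sum_le_sum hpt).trans (le_of_eq ?_))
    rw [Finset.sum_const, Finset.card_range, nsmul_eq_mul]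
    ring
  have hG := uba_G (β m) (hβ m h1 (by omega)) V H h h' k k' m
  generalize ∑ t ∈ range H, P4 F h h' k k' (m + 2 * t) = X at hdiff ⊢
  generalize ∑ t ∈ range H, P4 (fun x => β m * V x) h h' k k' (m + 2 * t) = Y at hdiff hG
  generalize ‖∑ t ∈ range H, P4 V h h' k k' (m + 2 * t)‖ = Z at hG ⊢
  have e1 : ‖X‖ ≤ ‖X - Y‖ + ‖Y‖ := by
    have := norm_add_le (X - Y) Y
    rwa [sub_add_cancel] at this
  have e2 : ‖X‖ ≤ 16 * (H : ℝ) ^ 2 * δ * B ^ 4 + Z := by linarith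
  have e3 := pow_le_pow_left₀ (norm_nonneg _) e2 2
  refine e3.trans ?_
  nlinarith [sq_nonneg (16 * (H : ℝ) ^ 2 * δ * B ^ 4 - Z)]

theorem uba_triv {B : ℝ} (F : ℤ → ℂ) (hF : ∀ m, ‖F m‖ ≤ B) (H : ℕ) (m h h' k k' : ℤ) :
    ‖∑ t ∈ range H, P4 F h h' k k' (m + 2 * t)‖ ^ 2 ≤ (H : ℝ) ^ 2 * B ^ 8 := by
  have hB : 0 ≤ B := (norm_nonneg _).trans (hF 0)
  have h1 : ∀ x, ‖P4 F h h' k k' x‖ ≤ B ^ 4 := by
    intro x
    unfold P4
    rw [norm_mul, norm_mul, norm_mul, Complex.norm_conj, Complex.norm_conj]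
    calc _ ≤ B * B * B * B := by
          gcongr
          · exact hF _
          · exact hF _
          · exact hF _
          · exact hF _
      _ = B ^ 4 := by ring
  have h2 : ‖∑ t ∈ range H, P4 F h h' k k' (m + 2 * t)‖ ≤ H * B ^ 4 := by
    refine (norm_sum_le _ _).trans ((Finset.sum_le_sum fun t _ => h1 _).trans (le_of_eq ?_))
    rw [Finset.sum_const, Finset.card_range, nsmul_eq_mul]
  refine (pow_le_pow_left₀ (norm_nonneg _) h2 2).trans (le_of_eq ?_)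
  ring

theorem uba_ind (S A : Finset ℤ) (a : ℝ) (ha : 0 ≤ a) : ∑ m ∈ S, (if m ∈ A then a else 0) ≤ A.card * a := by
  classical
  rw [← Finset.sum_filter, Finset.sum_const, nsmul_eq_mul]
  refine mul_le_mul_of_nonneg_right ?_ ha
  have h1 : S.filter (fun m => m ∈ A) ⊆ A := fun m hm => (Finset.mem_filter.1 hm).2
  exact_mod_cast Finset.card_le_card h1

/-- The sum over the small cubes for a kernel with slowly varying coefficient and sharp cutoffs. Proof. `H = Q^40`. If the interval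
`[m, m + 4H]` lies in `[u, v]`: the coefficients at the points `m + j`, `0 ≤ j ≤ 4H`, differ from `β(m)` by at most `4 H δ`, so the inner
sum is `|β(m)|⁴`-type constant times the sum for `V = Vl Q Q' p` up to `H · 4 (4 H δ) B⁴`, `B = Q²` (`UF_sup`), and by `UF_cube` and
`‖x+y‖² ≤ 2‖x‖² + 2‖y‖²` the contribution of `m` is at most `2 C H⁶ Q'^(-1/144) + 2 H⁴ (16 H² δ Q^8)²`. If `[m, m+4H]` does not
meet `[u, v]` it is `0`. At most `8 H + 2` other `m`, each at most `H⁶ B^8 = H⁶ Q^16`. -/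
theorem UB_cubes : ∃ C : ℝ, 0 < C ∧ ∀ Q Q' : ℕ, 1 ≤ Q' → 1 ≤ Q → ∀ p ∈ PC Q, ∀ (β : ℤ → ℂ) (u v : ℤ)
    (δ : ℝ), u ≤ v → 0 ≤ δ → (∀ m, u ≤ m → m ≤ v → ‖β m‖ ≤ 1) →
    (∀ m, u ≤ m → m + 1 ≤ v → ‖β (m + 1) - β m‖ ≤ δ) → ∀ S : Finset ℤ,
    ∑ m ∈ S, ∑ h ∈ range (Q ^ 40), ∑ h' ∈ range (Q ^ 40), ∑ k ∈ range (Q ^ 40), ∑ k' ∈ range (Q ^ 40),
      ‖∑ t ∈ range (Q ^ 40), P4 (fun m => if u ≤ m ∧ m ≤ v then β m * Vl Q Q' p m else 0) h h' k k'
        (m + 2 * t)‖ ^ 2 ≤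
      (Q : ℝ) ^ 240 * (((v : ℝ) - u + 1) * (C * (Q' : ℝ) ^ (-(1 / 144 : ℝ)) + 512 * δ ^ 2 * (Q : ℝ) ^ 96) +
        10 * (Q : ℝ) ^ 56) := by
  classical
  obtain ⟨C, hC, hcube⟩ := UF_cube
  refine ⟨2 * C, by positivity, ?_⟩
  intro Q Q' hQ' hQ p hp β u v δ huv hδ0 hβ hδ S
  obtain ⟨H, hH⟩ : ∃ H : ℕ, H = Q ^ 40 := ⟨_, rfl⟩
  have hHR : (H : ℝ) = (Q : ℝ) ^ 40 := by rw [hH]; push_cast; rfl
  rw [← hH]
  have hQ0 : (0 : ℝ) < Q := by exact_mod_cast hQ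
  have hV : ∀ m, ‖Vl Q Q' p m‖ ≤ (Q : ℝ) ^ 2 := UF_sup Q Q' p hp
  have hB : (0 : ℝ) ≤ (Q : ℝ) ^ 2 := by positivity
  obtain ⟨F, hF⟩ : ∃ F : ℤ → ℂ, F = fun m => if u ≤ m ∧ m ≤ v then β m * Vl Q Q' p m else 0 := ⟨_, rfl⟩
  have hFB : ∀ m, ‖F m‖ ≤ (Q : ℝ) ^ 2 := by
    intro m
    rw [hF]
    simp only
    split_ifs with hm
    · rw [norm_mul]
      calc ‖β m‖ * ‖Vl Q Q' p m‖ ≤ 1 * (Q : ℝ) ^ 2 :=
            mul_le_mul (hβ m hm.1 hm.2) (hV m) (norm_nonneg _) zero_le_one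
        _ = _ := one_mul _
    · rw [norm_zero]
      exact hB
  obtain ⟨q, hq⟩ : ∃ q : ℝ, q = (Q' : ℝ) ^ (-(1 / 144 : ℝ)) := ⟨_, rfl⟩
  have hq0 : 0 ≤ q := by rw [hq]; exact Real.rpow_nonneg (Nat.cast_nonneg _) _
  obtain ⟨aa, haa⟩ : ∃ aa : ℝ, aa = (H : ℝ) ^ 6 * (2 * C * q + 512 * δ ^ 2 * (Q : ℝ) ^ 96) := ⟨_, rfl⟩
  obtain ⟨bb, hbb⟩ : ∃ bb : ℝ, bb = (H : ℝ) ^ 6 * (Q : ℝ) ^ 16 := ⟨_, rfl⟩
  have haa0 : 0 ≤ aa := by rw [haa]; positivity
  have hbb0 : 0 ≤ bb := by rw [hbb]; positivity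
  have hE : ∀ m : ℤ, ∑ h ∈ range H, ∑ h' ∈ range H, ∑ k ∈ range H, ∑ k' ∈ range H,
      ‖∑ t ∈ range H, P4 F h h' k k' (m + 2 * t)‖ ^ 2 ≤
      (if m ∈ Icc u v then aa else 0) + (if m ∈ Ico (u - 4 * H) u ∪ Ioc (v - 4 * H) v then bb else 0) := by
    intro m
    have hy0 : 0 ≤ (if m ∈ Icc u v then aa else 0) := by split_ifs; exacts [haa0, le_rfl]
    have hz0 : 0 ≤ (if m ∈ Ico (u - 4 * H) u ∪ Ioc (v - 4 * H) v then bb else 0) := by
      split_ifs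
      exacts [hbb0, le_rfl]
    by_cases hA : u ≤ m ∧ m + 4 * H ≤ v
    · have h1 : m ∈ Icc u v := Finset.mem_Icc.2 ⟨hA.1, by omega⟩
      rw [if_pos h1]
      refine le_trans ?_ (le_add_of_nonneg_right hz0)
      have h2 : ∑ h ∈ range H, ∑ h' ∈ range H, ∑ k ∈ range H, ∑ k' ∈ range H,
          ‖∑ t ∈ range H, P4 F h h' k k' (m + 2 * t)‖ ^ 2 ≤
          ∑ h ∈ range H, ∑ h' ∈ range H, ∑ k ∈ range H, ∑ k' ∈ range H,
          (2 * ‖∑ t ∈ range H, P4 (Vl Q Q' p) h h' k k' (m + 2 * t)‖ ^ 2 +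
            512 * (H : ℝ) ^ 4 * δ ^ 2 * ((Q : ℝ) ^ 2) ^ 8) := by
        refine Finset.sum_le_sum fun h hh => Finset.sum_le_sum fun h' hh' => Finset.sum_le_sum fun k hk =>
          Finset.sum_le_sum fun k' hk' => ?_
        rw [hF]
        exact uba_in hB hδ0 (Vl Q Q' p) hV β u v hβ hδ H m hA.1 hA.2 h h' k k' (mem_range.1 hh)
          (mem_range.1 hh') (mem_range.1 hk) (mem_range.1 hk')
      refine h2.trans ?_
      have h4 : (H : ℝ) ^ 4 * (512 * (H : ℝ) ^ 4 * δ ^ 2 * ((Q : ℝ) ^ 2) ^ 8) =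
          (H : ℝ) ^ 6 * (512 * δ ^ 2 * (Q : ℝ) ^ 96) := by
        rw [hHR]
        ring
      have h3 := hcube Q Q' H hQ' (le_of_eq hH.symm) p hp m
      rw [← hq] at h3
      generalize 512 * (H : ℝ) ^ 4 * δ ^ 2 * ((Q : ℝ) ^ 2) ^ 8 = cst at h4 ⊢
      simp only [Finset.sum_add_distrib, ← Finset.mul_sum]
      rw [uba_const, h4, haa]
      linarith
    · by_cases hC' : m ∈ Ico (u - 4 * H) u ∪ Ioc (v - 4 * H) v
      · rw [if_pos hC']
        refine le_trans ?_ (le_add_of_nonneg_left hy0)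
        have h2 : ∑ h ∈ range H, ∑ h' ∈ range H, ∑ k ∈ range H, ∑ k' ∈ range H,
            ‖∑ t ∈ range H, P4 F h h' k k' (m + 2 * t)‖ ^ 2 ≤
            ∑ _h ∈ range H, ∑ _h' ∈ range H, ∑ _k ∈ range H, ∑ _k' ∈ range H,
            ((H : ℝ) ^ 2 * ((Q : ℝ) ^ 2) ^ 8) :=
          Finset.sum_le_sum fun h _ => Finset.sum_le_sum fun h' _ => Finset.sum_le_sum fun k _ =>
            Finset.sum_le_sum fun k' _ => uba_triv F hFB H m h h' k k'
        refine h2.trans (le_of_eq ?_)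
        rw [uba_const, hbb]
        ring
      · refine le_trans (le_of_eq ?_) (add_nonneg hy0 hz0)
        have hout : ∀ j : ℕ, j < 4 * H → F (m + j) = 0 := by
          intro j hj
          rw [hF]
          refine if_neg fun hcon => ?_
          rw [Finset.mem_union, Finset.mem_Ico, Finset.mem_Ioc] at hC'
          omega
        refine Finset.sum_eq_zero fun h hh => Finset.sum_eq_zero fun h' _ => Finset.sum_eq_zero fun k hk =>
          Finset.sum_eq_zero fun k' _ => ?_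
        rw [mem_range] at hh hk
        have h3 : ∑ t ∈ range H, P4 F h h' k k' (m + 2 * t) = 0 := by
          refine Finset.sum_eq_zero fun t ht => ?_
          rw [mem_range] at ht
          have a1 : (m + 2 * (t : ℤ) + h + k : ℤ) = m + ((2 * t + h + k : ℕ) : ℤ) := by push_cast; ring
          unfold P4
          rw [a1, hout _ (by omega), zero_mul, zero_mul, zero_mul]
        rw [h3, norm_zero]
        norm_num
  rw [← hF]
  refine (Finset.sum_le_sum fun m _ => hE m).trans ?_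
  rw [Finset.sum_add_distrib]
  have h1 := uba_ind S (Icc u v) aa haa0
  have h2 := uba_ind S (Ico (u - 4 * H) u ∪ Ioc (v - 4 * H) v) bb hbb0
  have h3 : ((Icc u v).card : ℝ) = (v : ℝ) - u + 1 := by
    rw [Int.card_Icc]
    have h4 : (((v + 1 - u).toNat : ℕ) : ℤ) = v + 1 - u := Int.toNat_of_nonneg (by omega)
    have h5 : (((v + 1 - u).toNat : ℕ) : ℝ) = (((v + 1 - u).toNat : ℤ) : ℝ) := by push_cast; rfl
    rw [h5, h4]
    push_cast
    ring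
  have h4 : ((Ico (u - 4 * H) u ∪ Ioc (v - 4 * H) v).card : ℝ) ≤ 8 * H := by
    have h5 := Finset.card_union_le (Ico (u - 4 * (H : ℤ)) u) (Ioc (v - 4 * (H : ℤ)) v)
    rw [Int.card_Ico, Int.card_Ioc] at h5
    have h6 : (Ico (u - 4 * (H : ℤ)) u ∪ Ioc (v - 4 * (H : ℤ)) v).card ≤ 8 * H := by omega
    exact_mod_cast h6
  rw [h3] at h1
  have h5 := h2.trans (mul_le_mul_of_nonneg_right h4 hbb0)
  have h6 : 8 * (H : ℝ) * bb = (Q : ℝ) ^ 240 * (8 * (Q : ℝ) ^ 56) := by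
    rw [hbb, hHR]
    ring
  have h7 : ((v : ℝ) - u + 1) * aa = (Q : ℝ) ^ 240 * (((v : ℝ) - u + 1) * (2 * C * q + 512 * δ ^ 2 * (Q : ℝ) ^ 96)) := by
    rw [haa, hHR]
    ring
  rw [← hq]
  rw [h6] at h5
  rw [h7] at h1
  have h8 : (Q : ℝ) ^ 240 * (8 * (Q : ℝ) ^ 56) ≤ (Q : ℝ) ^ 240 * (10 * (Q : ℝ) ^ 56) := by
    refine mul_le_mul_of_nonneg_left ?_ (by positivity)
    have : (0 : ℝ) ≤ (Q : ℝ) ^ 56 := by positivity
    linarith
  rw [mul_add]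
  linarith

end Pool.Agent.Lib.H59T
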