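import Pool.Agent.Lib.H59T.UA
import Pool.Agent.Lib.H59T.UBA

/-!
# Project H59T, chunk UB (M): one character
-/

open Finset

namespace Pool.Agent.Lib.H59T

open Pool.Agent.Lib.H68T Pool.Agent.Lib.H18Q Pool.Agent.Lib.H59P

/-- the representative of an integer in the middle range -/
theorem ub_rep (n : ℕ) (x : ℤ) (hx : -(2 * n : ℤ) ≤ x ∧ x ≤ 2 * n) :
    ((x : ZMod (4 * n + 1))).valMinAbs = x := by
  rw [ZMod.valMinAbs_spec]
  refine ⟨rfl, ?_, ?_⟩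
  · push_cast
    omega
  · push_cast
    omega

theorem ub_mem (n : ℕ) (x : ZMod (4 * n + 1)) : -(2 * n : ℤ) ≤ x.valMinAbs ∧ x.valMinAbs ≤ 2 * n := by
  have h := ZMod.valMinAbs_mem_Ioc x
  rw [Set.mem_Ioc] at h
  push_cast at h
  omega

/-- sums over `ZMod (4n+1)` -/
theorem ub_sum {A : Type*} [AddCommMonoid A] (n : ℕ) (G : ZMod (4 * n + 1) → A) :
    ∑ x : ZMod (4 * n + 1), G x = ∑ x ∈ Icc (-(2 * n : ℤ)) (2 * n), G (x : ZMod (4 * n + 1)) := by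
  refine Finset.sum_bij' (fun x _ => x.valMinAbs) (fun (x : ℤ) _ => (x : ZMod (4 * n + 1))) (fun x _ => ?_)
    (fun _ _ => mem_univ _) (fun x _ => ZMod.coe_valMinAbs x) (fun x hx => ?_) (fun x _ => ?_)
  · exact mem_Icc.2 (ub_mem n x)
  · exact ub_rep n x (mem_Icc.1 hx)
  · rw [ZMod.coe_valMinAbs]

/-- the kernel with the cutoff, near the range of the representatives -/
theorem ub_F (n H : ℕ) (hH : 4 * H ≤ 2 * n) (u v : ℤ) (hu : 1 ≤ u) (hv : v ≤ 2 * n) (g : ℤ → ℂ) (m : ℤ)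
    (hm : -(2 * n : ℤ) ≤ m ∧ m ≤ 2 * n) (j : ℕ) (hj : j ≤ 4 * H) :
    (fun x : ZMod (4 * n + 1) => if u ≤ x.valMinAbs ∧ x.valMinAbs ≤ v then g x.valMinAbs else 0)
      ((m + j : ℤ) : ZMod (4 * n + 1)) = if u ≤ m + j ∧ m + j ≤ v then g (m + j) else 0 := by
  by_cases h : m + j ≤ 2 * n
  · have h1 := ub_rep n (m + j) ⟨by omega, h⟩
    simp only [h1]
  · have h1 : ((m + j : ℤ) : ZMod (4 * n + 1)) = ((m + j - (4 * n + 1 : ℕ) : ℤ) : ZMod (4 * n + 1)) := by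
      have h2 : (((4 * n + 1 : ℕ) : ℤ) : ZMod (4 * n + 1)) = 0 := by
        rw [Int.cast_natCast]
        exact ZMod.natCast_self _
      rw [Int.cast_sub (m + (j : ℤ)), h2, sub_zero]
    have h3 := ub_rep n (m + j - (4 * n + 1 : ℕ)) ⟨by push_cast; omega, by push_cast; omega⟩
    simp only [h1, h3]
    rw [if_neg, if_neg]
    · omega
    · push_cast
      omega

/-- the left side as a sum over `ZMod (4n+1)` -/
theorem ub_lhs (n : ℕ) (u v : ℤ) (f g W B : ℤ → ℂ) :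
    ∑ x ∈ Icc (-(n : ℤ)) n, ∑ y ∈ Icc (-(n : ℤ)) n, f x * g y *
      (if u ≤ x + y ∧ x + y ≤ min v (2 * n) then B (x + y) else 0) * W (x - y) =
    ∑ x : ZMod (4 * n + 1), ∑ y : ZMod (4 * n + 1),
      (if x.valMinAbs ∈ Icc (-(n : ℤ)) n then f x.valMinAbs else 0) *
      (if y.valMinAbs ∈ Icc (-(n : ℤ)) n then g y.valMinAbs else 0) *
      (fun x : ZMod (4 * n + 1) => if u ≤ x.valMinAbs ∧ x.valMinAbs ≤ min v (2 * n) then B x.valMinAbs else 0)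
        (x + y) * W ((x - y).valMinAbs) := by
  have hsub : Icc (-(n : ℤ)) n ⊆ Icc (-(2 * n : ℤ)) (2 * n) := by
    intro x hx
    rw [mem_Icc] at hx ⊢
    omega
  rw [ub_sum]
  have h0 : ∀ x ∈ Icc (-(2 * n : ℤ)) (2 * n), x ∉ Icc (-(n : ℤ)) n → ∑ y : ZMod (4 * n + 1),
      (if (x : ZMod (4 * n + 1)).valMinAbs ∈ Icc (-(n : ℤ)) n then f (x : ZMod (4 * n + 1)).valMinAbs else 0) *
      (if y.valMinAbs ∈ Icc (-(n : ℤ)) n then g y.valMinAbs else 0) *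
      (fun x : ZMod (4 * n + 1) => if u ≤ x.valMinAbs ∧ x.valMinAbs ≤ min v (2 * n) then B x.valMinAbs else 0)
        (x + y) * W (((x : ZMod (4 * n + 1)) - y).valMinAbs) = 0 := by
    intro x hx hx'
    refine Finset.sum_eq_zero fun y _ => ?_
    rw [ub_rep n x (mem_Icc.1 hx), if_neg hx', zero_mul, zero_mul, zero_mul]
  rw [← Finset.sum_subset hsub h0]
  refine Finset.sum_congr rfl fun x hx => ?_
  rw [ub_sum]
  have h1 : ∀ y ∈ Icc (-(2 * n : ℤ)) (2 * n), y ∉ Icc (-(n : ℤ)) n →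
      (if (x : ZMod (4 * n + 1)).valMinAbs ∈ Icc (-(n : ℤ)) n then f (x : ZMod (4 * n + 1)).valMinAbs else 0) *
      (if (y : ZMod (4 * n + 1)).valMinAbs ∈ Icc (-(n : ℤ)) n then g (y : ZMod (4 * n + 1)).valMinAbs else 0) *
      (fun x : ZMod (4 * n + 1) => if u ≤ x.valMinAbs ∧ x.valMinAbs ≤ min v (2 * n) then B x.valMinAbs else 0)
        (x + y) * W (((x : ZMod (4 * n + 1)) - y).valMinAbs) = 0 := by
    intro y hy hy'
    rw [ub_rep n y (mem_Icc.1 hy), if_neg hy', mul_zero, zero_mul, zero_mul]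
  rw [← Finset.sum_subset hsub h1]
  refine Finset.sum_congr rfl fun y hy => ?_
  have hx1 := mem_Icc.1 hx
  have hy1 := mem_Icc.1 hy
  rw [ub_rep n x ⟨by omega, by omega⟩, ub_rep n y ⟨by omega, by omega⟩, if_pos hx, if_pos hy,
    ← Int.cast_add, ← Int.cast_sub, ub_rep n (x - y) ⟨by omega, by omega⟩]
  simp only [ub_rep n (x + y) ⟨by omega, by omega⟩]

/-- the right side of `UA_main` -/
theorem ub_rhs (n H : ℕ) (hH : 4 * H ≤ 2 * n) (u v : ℤ) (hu : 1 ≤ u) (hv : v ≤ 2 * n) (g : ℤ → ℂ)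
    (F : ZMod (4 * n + 1) → ℂ)
    (hF : F = fun x : ZMod (4 * n + 1) => if u ≤ x.valMinAbs ∧ x.valMinAbs ≤ v then g x.valMinAbs else 0) :
    ∑ m : ZMod (4 * n + 1), ∑ h ∈ range H, ∑ h' ∈ range H, ∑ k ∈ range H,
        ∑ k' ∈ range H, ‖∑ t ∈ range H, F (m + 2 * (t : ZMod (4 * n + 1)) + h + k) *
          star (F (m + 2 * (t : ZMod (4 * n + 1)) + h' + k)) * star (F (m + 2 * (t : ZMod (4 * n + 1)) + h + k')) *
          F (m + 2 * (t : ZMod (4 * n + 1)) + h' + k')‖ ^ 2 =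
    ∑ m ∈ Icc (-(2 * n : ℤ)) (2 * n), ∑ h ∈ range H, ∑ h' ∈ range H, ∑ k ∈ range H, ∑ k' ∈ range H,
      ‖∑ t ∈ range H, P4 (fun m => if u ≤ m ∧ m ≤ v then g m else 0) h h' k k' (m + 2 * t)‖ ^ 2 := by
  rw [ub_sum]
  refine Finset.sum_congr rfl fun m hm => Finset.sum_congr rfl fun h hh => Finset.sum_congr rfl fun h' hh' =>
    Finset.sum_congr rfl fun k hk => Finset.sum_congr rfl fun k' hk' => ?_
  rw [mem_range] at hh hh' hk hk'
  have key : ∀ t ∈ range H, ∀ a b : ℕ, a < H → b < H →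
      F ((m : ZMod (4 * n + 1)) + 2 * (t : ZMod (4 * n + 1)) + a + b) =
        (fun m => if u ≤ m ∧ m ≤ v then g m else 0) (m + 2 * t + a + b) := by
    intro t ht a b ha hb
    rw [mem_range] at ht
    have e1 : (m : ZMod (4 * n + 1)) + 2 * (t : ZMod (4 * n + 1)) + a + b =
        ((m + ((2 * t + a + b : ℕ) : ℤ) : ℤ) : ZMod (4 * n + 1)) := by
      push_cast
      ring
    have e2 := ub_F n H hH u v hu hv g m (mem_Icc.1 hm) (2 * t + a + b) (by omega)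
    rw [e1, hF, e2]
    have e3 : m + ((2 * t + a + b : ℕ) : ℤ) = m + 2 * t + a + b := by
      push_cast
      ring
    rw [e3]
  congr 2
  refine Finset.sum_congr rfl fun t ht => ?_
  unfold P4
  rw [key t ht h k hh hk, key t ht h' k hh' hk, key t ht h k' hh hk', key t ht h' k' hh' hk']
  rfl

/-- **One character.** Proof. `M = 4 n + 1`; represent the elements of `ZMod M` by the integers in `[-2n, 2n]` (`ZMod.valMinAbs`).
`f, g` cut off to `[-n, n]`, `F` to `[X, min(4X, 2n)]`: the sum is that of `UA_main` (`|x|, |y| ≤ n` imply `|x ± y| ≤ 2n`, so no wrap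
around). In `UA_main` the arguments are `m + j`, `0 ≤ j ≤ 4H`, `m ∈ [-2n, 2n]`; if `m + j > 2n` it is represented by a negative
integer, where `F = 0`, in agreement with the cutoff at `2n` (`4H ≤ 2n`). So `UB_cubes` with `u = X`, `v = min(4X, 2n)`,
`δ = Q^6/X`, `S = [-2n, 2n]` (if `v < u` everything is `0`): `|T|^8 ≤ (5n)^15 (4n (C Q'^(-1/144) + 512 Q^108/X²) + 10 Q^56)`;
`X ≥ Q^100` and `Q' ≤ Q`: at most `C' n^16 Q'^(-1/144)`. -/
theorem UB_one : ∃ C : ℝ, 0 < C ∧ ∀ Q Q' X n : ℕ, 1 ≤ Q' → Q' ≤ Q → Q ^ 100 ≤ X → X ≤ n →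
    ∀ p ∈ PC Q, ∀ β : ℤ → ℂ, (∀ m : ℤ, (X : ℤ) ≤ m → m ≤ 4 * X → ‖β m‖ ≤ 1) →
    (∀ m : ℤ, (X : ℤ) ≤ m → m + 1 ≤ 4 * X → ‖β (m + 1) - β m‖ ≤ (Q : ℝ) ^ 6 / X) →
    ∀ f g W : ℤ → ℂ, (∀ x, ‖f x‖ ≤ 1) → (∀ x, ‖g x‖ ≤ 1) → (∀ x, ‖W x‖ ≤ 1) →
    ‖∑ x ∈ Icc (-(n : ℤ)) n, ∑ y ∈ Icc (-(n : ℤ)) n, f x * g y *
      (if (X : ℤ) ≤ x + y ∧ x + y ≤ 4 * X then β (x + y) * Vl Q Q' p (x + y) else 0) * W (x - y)‖ ≤
      C * (n : ℝ) ^ 2 * (Q' : ℝ) ^ (-(1 / 1152 : ℝ)) := by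
  obtain ⟨C, hC, hU⟩ := UB_cubes
  refine ⟨5 ^ 15 * (2 * C + 1034) + 9, by positivity, ?_⟩
  intro Q Q' X n hQ' hQQ hX hn p hp β hβ hβ' f g W hf hg hW
  have hQ1 : 1 ≤ Q := hQ'.trans hQQ
  have hX1 : 1 ≤ X := (Nat.one_le_pow _ _ hQ1).trans hX
  have hn1 : 1 ≤ n := hX1.trans hn
  have hnR : (1 : ℝ) ≤ n := by exact_mod_cast hn1
  have hQR : (1 : ℝ) ≤ Q := by exact_mod_cast hQ1
  have hQ'R : (1 : ℝ) ≤ Q' := by exact_mod_cast hQ'
  have hQQR : (Q' : ℝ) ≤ Q := by exact_mod_cast hQQ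
  have hXR : (Q : ℝ) ^ 100 ≤ X := by exact_mod_cast hX
  have hXnR : (X : ℝ) ≤ n := by exact_mod_cast hn
  have hXR1 : (1 : ℝ) ≤ X := by exact_mod_cast hX1
  by_cases hQ2 : Q = 1
  · -- the trivial case
    have hQ'1 : Q' = 1 := by omega
    have e1 : (Q' : ℝ) ^ (-(1 / 1152 : ℝ)) = 1 := by
      rw [hQ'1, Nat.cast_one, Real.one_rpow]
    rw [e1, mul_one]
    have h1 : ‖∑ x ∈ Icc (-(n : ℤ)) n, ∑ y ∈ Icc (-(n : ℤ)) n, f x * g y *
      (if (X : ℤ) ≤ x + y ∧ x + y ≤ 4 * X then β (x + y) * Vl Q Q' p (x + y) else 0) * W (x - y)‖ ≤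
        ∑ x ∈ Icc (-(n : ℤ)) n, ∑ y ∈ Icc (-(n : ℤ)) n, (1 : ℝ) := by
      refine (norm_sum_le _ _).trans (Finset.sum_le_sum fun x _ => ?_)
      refine (norm_sum_le _ _).trans (Finset.sum_le_sum fun y _ => ?_)
      have h2 : ‖(if (X : ℤ) ≤ x + y ∧ x + y ≤ 4 * X then β (x + y) * Vl Q Q' p (x + y) else 0)‖ ≤ 1 := by
        split_ifs with h3
        · rw [norm_mul]
          have h4 := UF_sup Q Q' p hp (x + y)
          rw [hQ2, Nat.cast_one, one_pow] at h4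
          rw [hQ2]
          exact mul_le_one₀ (hβ _ h3.1 h3.2) (norm_nonneg _) h4
        · simp
      rw [norm_mul, norm_mul, norm_mul]
      exact mul_le_one₀ (mul_le_one₀ (mul_le_one₀ (hf _) (norm_nonneg _) (hg _)) (norm_nonneg _) h2)
        (norm_nonneg _) (hW _)
    refine h1.trans ?_
    rw [Finset.sum_const, Finset.sum_const, Int.card_Icc, smul_smul, nsmul_eq_mul, mul_one]
    have h5 : ((n : ℤ) + 1 - -(n : ℤ)).toNat = 2 * n + 1 := by omega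
    rw [h5]
    push_cast
    have h6 : 0 ≤ 5 ^ 15 * (2 * C + 1034) * (n : ℝ) ^ 2 := by positivity
    nlinarith
  -- the main case
  have hQ22 : 2 ≤ Q := by omega
  set H : ℕ := Q ^ 40 with hH
  have hHpos : 0 < H := by
    rw [hH]
    positivity
  have hHn : 4 * H ≤ 2 * n := by
    have h1 : Q ^ 42 ≤ Q ^ 100 := Nat.pow_le_pow_right hQ1 (by norm_num)
    have h2 : 4 * H ≤ Q ^ 42 := by
      rw [hH, pow_add Q 2 40]
      exact Nat.mul_le_mul_right _ (by nlinarith)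
    omega
  set v : ℤ := min (4 * (X : ℤ)) (2 * n) with hv
  have hv1 : v ≤ 2 * n := min_le_right _ _
  have hv2 : v ≤ 4 * X := min_le_left _ _
  have huv : (X : ℤ) ≤ v := by
    rw [hv]
    refine le_min (by omega) (by omega)
  set B : ℤ → ℂ := fun m => β m * Vl Q Q' p m with hB
  set F : ZMod (4 * n + 1) → ℂ := fun x : ZMod (4 * n + 1) =>
    if (X : ℤ) ≤ x.valMinAbs ∧ x.valMinAbs ≤ v then B x.valMinAbs else 0 with hF
  have hne : NeZero (4 * n + 1) := ⟨by omega⟩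
  set T : ℂ := ∑ x ∈ Icc (-(n : ℤ)) n, ∑ y ∈ Icc (-(n : ℤ)) n, f x * g y *
      (if (X : ℤ) ≤ x + y ∧ x + y ≤ 4 * X then β (x + y) * Vl Q Q' p (x + y) else 0) * W (x - y) with hT
  have hT1 : T = ∑ x : ZMod (4 * n + 1), ∑ y : ZMod (4 * n + 1),
      (if x.valMinAbs ∈ Icc (-(n : ℤ)) n then f x.valMinAbs else 0) *
      (if y.valMinAbs ∈ Icc (-(n : ℤ)) n then g y.valMinAbs else 0) * F (x + y) * W ((x - y).valMinAbs) := by
    rw [hF, ← ub_lhs n X (4 * X) f g W B, hT]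
    refine Finset.sum_congr rfl fun x hx => Finset.sum_congr rfl fun y hy => ?_
    have hx1 := mem_Icc.1 hx
    have hy1 := mem_Icc.1 hy
    have h1 : ((X : ℤ) ≤ x + y ∧ x + y ≤ 4 * X) ↔ ((X : ℤ) ≤ x + y ∧ x + y ≤ min (4 * (X : ℤ)) (2 * n)) := by
      rw [le_min_iff]
      constructor
      · rintro ⟨h1, h2⟩
        exact ⟨h1, h2, by omega⟩
      · rintro ⟨h1, h2, h3⟩
        exact ⟨h1, h2⟩
    simp only [h1, hB]
  have hmain := UA_main (4 * n + 1) H hHpos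
    (fun x => if x.valMinAbs ∈ Icc (-(n : ℤ)) n then f x.valMinAbs else 0)
    (fun y => if y.valMinAbs ∈ Icc (-(n : ℤ)) n then g y.valMinAbs else 0) F (fun d => W d.valMinAbs)
    (fun x => by
      split_ifs
      · exact hf _
      · simp)
    (fun x => by
      split_ifs
      · exact hg _
      · simp) (fun x => hW _)
  rw [← hT1, ub_rhs n H hHn X v (by exact_mod_cast hX1) hv1 B F hF] at hmain
  have hcub := hU Q Q' hQ' hQ1 p hp β X v ((Q : ℝ) ^ 6 / X) huv (by positivity)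
    (fun m h1 h2 => hβ m h1 (h2.trans hv2)) (fun m h1 h2 => hβ' m h1 (h2.trans hv2))
    (Icc (-(2 * n : ℤ)) (2 * n))
  rw [← hH] at hcub
  have hQ0 : (0 : ℝ) < Q := by linarith
  have hH6 : ((H : ℕ) : ℝ) ^ 6 = (Q : ℝ) ^ 240 := by
    rw [hH]
    push_cast
    rw [← pow_mul]
  set y : ℝ := (Q' : ℝ) ^ (-(1 / 144 : ℝ)) with hy
  have hy0 : 0 < y := Real.rpow_pos_of_pos (by linarith) _
  have hQy : 1 / (Q : ℝ) ≤ y := by
    have h1 : 1 / (Q : ℝ) ≤ 1 / (Q' : ℝ) := one_div_le_one_div_of_le (by linarith) hQQR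
    refine h1.trans ?_
    rw [hy, one_div, ← Real.rpow_neg_one]
    exact Real.rpow_le_rpow_of_exponent_le hQ'R (by norm_num)
  have hvR : (v : ℝ) - X + 1 ≤ 2 * n := by
    have h1 : (v : ℝ) ≤ 2 * n := by exact_mod_cast hv1
    linarith
  have hb1 : 512 * ((Q : ℝ) ^ 6 / X) ^ 2 * (Q : ℝ) ^ 96 ≤ 512 * y := by
    have h1 : ((Q : ℝ) ^ 6 / X) ^ 2 * (Q : ℝ) ^ 96 ≤ 1 / Q := by
      have h2 : ((Q : ℝ) ^ 6 / X) ^ 2 * (Q : ℝ) ^ 96 = (Q : ℝ) ^ 108 / (X : ℝ) ^ 2 := by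
        rw [div_pow]
        ring
      rw [h2, div_le_div_iff₀ (by positivity) hQ0]
      calc (Q : ℝ) ^ 108 * Q = (Q : ℝ) ^ 109 := by ring
        _ ≤ (Q : ℝ) ^ 200 := pow_le_pow_right₀ hQR (by norm_num)
        _ = ((Q : ℝ) ^ 100) ^ 2 := by ring
        _ ≤ (X : ℝ) ^ 2 := pow_le_pow_left₀ (by positivity) hXR 2
        _ = 1 * (X : ℝ) ^ 2 := by ring
    linarith [h1.trans hQy]
  have hb2 : 10 * (Q : ℝ) ^ 56 ≤ 10 * (n * y) := by
    have h1 : (Q : ℝ) ^ 56 ≤ n * (1 / Q) := by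
      rw [mul_one_div, le_div_iff₀ hQ0]
      calc (Q : ℝ) ^ 56 * Q = (Q : ℝ) ^ 57 := by ring
        _ ≤ (Q : ℝ) ^ 100 := pow_le_pow_right₀ hQR (by norm_num)
        _ ≤ n := hXR.trans hXnR
    have h2 : n * (1 / (Q : ℝ)) ≤ n * y := mul_le_mul_of_nonneg_left hQy (by linarith)
    linarith
  have hS : ‖T‖ ^ 8 ≤ 5 ^ 15 * (2 * C + 1034) * (n : ℝ) ^ 16 * y := by
    refine hmain.trans ?_
    have h1 : ((4 * n + 1 : ℕ) : ℝ) ^ 15 ≤ 5 ^ 15 * (n : ℝ) ^ 15 := by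
      rw [← mul_pow]
      refine pow_le_pow_left₀ (by positivity) ?_ 15
      push_cast
      linarith
    have h2 : (((v : ℝ) - X + 1) * (C * y + 512 * ((Q : ℝ) ^ 6 / X) ^ 2 * (Q : ℝ) ^ 96) + 10 * (Q : ℝ) ^ 56) ≤
        (2 * C + 1034) * (n * y) := by
      have h3 : C * y + 512 * ((Q : ℝ) ^ 6 / X) ^ 2 * (Q : ℝ) ^ 96 ≤ C * y + 512 * y := by linarith
      have h4 : 0 ≤ C * y + 512 * ((Q : ℝ) ^ 6 / X) ^ 2 * (Q : ℝ) ^ 96 := by positivity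
      calc _ ≤ 2 * n * (C * y + 512 * y) + 10 * (n * y) := by
            refine add_le_add ?_ hb2
            exact (mul_le_mul_of_nonneg_right hvR h4).trans (mul_le_mul_of_nonneg_left h3 (by linarith))
        _ = (2 * C + 1034) * (n * y) := by ring
    have h5 : ((4 * n + 1 : ℕ) : ℝ) ^ 15 / ((H : ℕ) : ℝ) ^ 6 * ((Q : ℝ) ^ 240 *
        (((v : ℝ) - X + 1) * (C * y + 512 * ((Q : ℝ) ^ 6 / X) ^ 2 * (Q : ℝ) ^ 96) + 10 * (Q : ℝ) ^ 56)) =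
        ((4 * n + 1 : ℕ) : ℝ) ^ 15 *
        (((v : ℝ) - X + 1) * (C * y + 512 * ((Q : ℝ) ^ 6 / X) ^ 2 * (Q : ℝ) ^ 96) + 10 * (Q : ℝ) ^ 56) := by
      rw [hH6]
      have h6 : (Q : ℝ) ^ 240 ≠ 0 := by positivity
      field_simp
    calc _ ≤ ((4 * n + 1 : ℕ) : ℝ) ^ 15 / ((H : ℕ) : ℝ) ^ 6 * ((Q : ℝ) ^ 240 *
        (((v : ℝ) - X + 1) * (C * y + 512 * ((Q : ℝ) ^ 6 / X) ^ 2 * (Q : ℝ) ^ 96) + 10 * (Q : ℝ) ^ 56)) :=
          mul_le_mul_of_nonneg_left hcub (by positivity)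
      _ = _ := h5
      _ ≤ (5 ^ 15 * (n : ℝ) ^ 15) * ((2 * C + 1034) * (n * y)) :=
        (mul_le_mul_of_nonneg_left h2 (by positivity)).trans (mul_le_mul_of_nonneg_right h1 (by positivity))
      _ = 5 ^ 15 * (2 * C + 1034) * (n : ℝ) ^ 16 * y := by ring
  have hy8 : ((Q' : ℝ) ^ (-(1 / 1152 : ℝ))) ^ 8 = y := by
    rw [hy, ← Real.rpow_natCast, ← Real.rpow_mul (by linarith)]
    norm_num
  refine (pow_le_pow_iff_left₀ (norm_nonneg _) (by positivity) (by norm_num : (8 : ℕ) ≠ 0)).1 (hS.trans ?_)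
  rw [mul_pow, mul_pow, hy8]
  have h7 : 5 ^ 15 * (2 * C + 1034) ≤ (5 ^ 15 * (2 * C + 1034) + 9) ^ 8 := by
    have h8 : 0 ≤ 5 ^ 15 * (2 * C + 1034) := by positivity
    calc 5 ^ 15 * (2 * C + 1034) ≤ 5 ^ 15 * (2 * C + 1034) + 9 := by linarith
      _ ≤ (5 ^ 15 * (2 * C + 1034) + 9) ^ 8 := le_self_pow₀ (by linarith) (by norm_num)
  have h9 : ((n : ℝ) ^ 2) ^ 8 = (n : ℝ) ^ 16 := by ring
  rw [h9]
  exact mul_le_mul_of_nonneg_right (mul_le_mul_of_nonneg_right h7 (by positivity)) hy0.le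

end Pool.Agent.Lib.H59T
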