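import Pool.Agent.Lib.H59T.U1
import Pool.Agent.Lib.H59T.U3B
import Pool.Agent.Lib.H59T.C3

/-!
# Project H59T, chunk UC (M): the forms `uf e` at a prime dividing the conductors
-/

open Finset

namespace Pool.Agent.Lib.H59T

/-- the `U³` norm of a multiple of the conjugate of a character -/
theorem uc_UU (N : ℕ) [NeZero N] (χ : DirichletCharacter ℂ N) (c : ℝ) (hc : |c| ≤ 2) (f : ZMod N → ℂ)
    (hf : ∀ t, f t = c * (starRingEnd ℂ) (χ t) / 2) : UU f ≤ UU (fun s => χ s) := by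
  unfold UU
  refine Finset.sum_le_sum fun A _ => Finset.sum_le_sum fun B _ => ?_
  have e1 : ∑ s : ZMod N, f s * star (f (s + A)) * star (f (s + B)) * f (s + A + B) =
      (((c / 2) ^ 4 : ℝ) : ℂ) * star (∑ s : ZMod N, χ s * star (χ (s + A)) * star (χ (s + B)) * χ (s + A + B)) := by
    rw [star_sum, Finset.mul_sum]
    refine Finset.sum_congr rfl fun s _ => ?_
    rw [hf, hf, hf, hf]
    simp only [← starRingEnd_apply]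
    simp only [map_mul, map_div₀, Complex.conj_conj, Complex.conj_ofReal, map_ofNat]
    push_cast
    ring
  rw [e1, norm_mul, norm_star, Complex.norm_real, Real.norm_eq_abs, mul_pow]
  have h1 : |(c / 2) ^ 4| ≤ 1 := by
    rw [abs_pow, abs_div, abs_two]
    exact pow_le_one₀ (by positivity) (by linarith)
  calc _ ≤ 1 ^ 2 * _ := mul_le_mul_of_nonneg_right (pow_le_pow_left₀ (abs_nonneg _) h1 2) (by positivity)
    _ = _ := by rw [one_pow, one_mul]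

/-- Proof. `N = l^a`, `C3_fun`, `C3_nest`: the sum is `∑_{y,y'} A(y,y') conj A'(y,y')`, `A = ∑_z ∏ g_w`, `‖A'‖ ≤ 16 N`. So it is at
most `16 N · N (∑ ‖A‖²)^(1/2)`, and `∑ ‖A‖² = 256 ∑ ‖∑_z ∏ (g_w/2)‖² ≤ 256 · 4 N³ UU(g_{i0}/2)^(1/4)` (`U3B_two`),
`UU(g_{i0}/2) ≤ UU(χ) ≤ 13 N⁴ l^(-a/9)` (`U1_all`; the factor `|c/2|^8 ≤ 1` and the conjugation do not matter): total
`16 N² (1024 · 2 N⁴ N^(-1/36))^(1/2) ≤ 2^10 N⁴ N^(-1/72)`. -/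
theorem UC_cube (l a : ℕ) (hl : l.Prime) (ha : 1 ≤ a) (χ : DirichletCharacter ℂ (l ^ a))
    (hχ : χ.IsPrimitive) (c : ℝ) (hc : |c| ≤ 2) (g g' : Fin 4 → ℤ → ℂ)
    (hp : ∀ i m, g i (m + (l ^ a : ℕ)) = g i m) (hp' : ∀ i m, g' i (m + (l ^ a : ℕ)) = g' i m)
    (hb : ∀ i m, ‖g i m‖ ≤ 2) (hb' : ∀ i m, ‖g' i m‖ ≤ 2) (i0 : Fin 4)
    (h : ∀ m : ℤ, g i0 m = c * (starRingEnd ℂ) (χ (m : ZMod (l ^ a)))) (e : Fin 4 → ℤ) :
    ‖S4 (l ^ a) (Db (uf e) g g')‖ ≤ ((l ^ a : ℕ) : ℝ) ^ 4 * (2 ^ 12 * ((l ^ a : ℕ) : ℝ) ^ (-(1 / 72 : ℝ))) := by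
  have hne : NeZero (l ^ a) := ⟨pow_ne_zero _ hl.ne_zero⟩
  have hl0 : (0 : ℝ) < l := by exact_mod_cast hl.pos
  have hq0 : (0 : ℝ) < ((l ^ a : ℕ) : ℝ) := by exact_mod_cast pow_pos hl.pos a
  choose G hG using fun i => C3_fun (l ^ a) (g i) (hp i)
  choose G' hG' using fun i => C3_fun (l ^ a) (g' i) (hp' i)
  have hs : ∀ t : ZMod (l ^ a), ∃ m : ℤ, (m : ZMod (l ^ a)) = t := fun t => ZMod.intCast_surjective t
  have bG : ∀ i t, ‖G i t‖ ≤ 2 := by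
    intro i t
    obtain ⟨m, rfl⟩ := hs t
    rw [← hG]
    exact hb i m
  have bG' : ∀ i t, ‖G' i t‖ ≤ 2 := by
    intro i t
    obtain ⟨m, rfl⟩ := hs t
    rw [← hG']
    exact hb' i m
  have hG0 : ∀ t, G i0 t = c * (starRingEnd ℂ) (χ t) := by
    intro t
    obtain ⟨m, rfl⟩ := hs t
    rw [← hG]
    exact h m
  obtain ⟨Pg, hPg⟩ : ∃ Pg : (Fin 4 → ZMod (l ^ a) → ℂ) → ZMod (l ^ a) → ZMod (l ^ a) → ZMod (l ^ a) → ℂ,
      ∀ F y y' z, Pg F y y' z = F 0 (2 * z + (e 0 : ZMod (l ^ a))) * F 1 (2 * z + y + (e 1 : ZMod (l ^ a))) *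
        F 2 (2 * z + y' + (e 2 : ZMod (l ^ a))) * F 3 (2 * z + y + y' + (e 3 : ZMod (l ^ a))) :=
    ⟨_, fun _ _ _ _ => rfl⟩
  have e1 : Db (uf e) g g' = fun y y' z z' : ℤ =>
      (fun y y' z z' : ZMod (l ^ a) => Pg G y y' z * (starRingEnd ℂ) (Pg G' y y' z')) y y' z z' := by
    funext y y' z z'
    unfold Db
    rw [Fin.prod_univ_four]
    simp only [uf, hG, hG', Matrix.cons_val_zero, Matrix.cons_val_one, Matrix.cons_val, hPg, map_mul]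
    push_cast
    ring
  have e2 : S4 (l ^ a) (Db (uf e) g g') = ∑ y : ZMod (l ^ a), ∑ y' : ZMod (l ^ a),
      (∑ z : ZMod (l ^ a), Pg G y y' z) * (starRingEnd ℂ) (∑ z' : ZMod (l ^ a), Pg G' y y' z') := by
    rw [e1, C3_nest (l ^ a) (fun y y' z z' : ZMod (l ^ a) => Pg G y y' z * (starRingEnd ℂ) (Pg G' y y' z'))]
    refine Finset.sum_congr rfl fun y _ => Finset.sum_congr rfl fun y' _ => ?_
    rw [map_sum, Finset.sum_mul_sum]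
  have hA' : ∀ y y' : ZMod (l ^ a), ‖∑ z' : ZMod (l ^ a), Pg G' y y' z'‖ ≤ 16 * ((l ^ a : ℕ) : ℝ) := by
    intro y y'
    calc _ ≤ ∑ z' : ZMod (l ^ a), ‖Pg G' y y' z'‖ := norm_sum_le _ _
      _ ≤ ∑ _z' : ZMod (l ^ a), (16 : ℝ) := by
        refine Finset.sum_le_sum fun z' _ => ?_
        rw [hPg, norm_mul, norm_mul, norm_mul]
        calc _ ≤ ((2 : ℝ) * 2 * 2) * 2 :=
              mul_le_mul (mul_le_mul (mul_le_mul (bG' 0 _) (bG' 1 _) (norm_nonneg _) (by norm_num)) (bG' 2 _)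
                (norm_nonneg _) (by norm_num)) (bG' 3 _) (norm_nonneg _) (by norm_num)
          _ = 16 := by norm_num
      _ = 16 * ((l ^ a : ℕ) : ℝ) := by rw [Finset.sum_const, Finset.card_univ, ZMod.card, nsmul_eq_mul, mul_comm]
  have hA : ∑ y : ZMod (l ^ a), ∑ y' : ZMod (l ^ a), ‖∑ z : ZMod (l ^ a), Pg G y y' z‖ ^ 2 ≤
      2048 * (((l ^ a : ℕ) : ℝ) ^ 4 * ((l ^ a : ℕ) : ℝ) ^ (-(1 / 36 : ℝ))) := by
    have u1 := U3B_two (l ^ a) (fun i t => G i t / 2) (fun i t => by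
      have hn2 : ‖(2 : ℂ)‖ = 2 := by simp
      rw [norm_div, hn2]
      have := bG i t
      linarith) (fun i => (e i : ZMod (l ^ a))) i0
    have u2 : ∑ y : ZMod (l ^ a), ∑ y' : ZMod (l ^ a), ‖∑ z : ZMod (l ^ a), Pg G y y' z‖ ^ 2 =
        256 * ∑ y : ZMod (l ^ a), ∑ y' : ZMod (l ^ a), ‖∑ z : ZMod (l ^ a),
          G 0 (2 * z + (e 0 : ZMod (l ^ a))) / 2 * (G 1 (2 * z + y + (e 1 : ZMod (l ^ a))) / 2) *
          (G 2 (2 * z + y' + (e 2 : ZMod (l ^ a))) / 2) * (G 3 (2 * z + y + y' + (e 3 : ZMod (l ^ a))) / 2)‖ ^ 2 := by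
      rw [Finset.mul_sum]
      refine Finset.sum_congr rfl fun y _ => ?_
      rw [Finset.mul_sum]
      refine Finset.sum_congr rfl fun y' _ => ?_
      have u3 : ∑ z : ZMod (l ^ a), Pg G y y' z = 16 * ∑ z : ZMod (l ^ a),
          G 0 (2 * z + (e 0 : ZMod (l ^ a))) / 2 * (G 1 (2 * z + y + (e 1 : ZMod (l ^ a))) / 2) *
          (G 2 (2 * z + y' + (e 2 : ZMod (l ^ a))) / 2) *
          (G 3 (2 * z + y + y' + (e 3 : ZMod (l ^ a))) / 2) := by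
        rw [Finset.mul_sum]
        refine Finset.sum_congr rfl fun z _ => ?_
        rw [hPg]
        ring
      have hn16 : ‖(16 : ℂ)‖ = 16 := by simp
      rw [u3, norm_mul, hn16, mul_pow]
      norm_num
    have u4 : UU (fun t => G i0 t / 2) ≤ 13 * ((l ^ a : ℕ) : ℝ) ^ 4 * (l : ℝ) ^ (-(a / 9 : ℝ)) :=
      (uc_UU (l ^ a) χ c hc (fun t => G i0 t / 2) (fun t => by rw [hG0])).trans (U1_all l a hl ha χ hχ)
    have hUU0 : 0 ≤ UU (fun t => G i0 t / 2) :=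
      Finset.sum_nonneg fun _ _ => Finset.sum_nonneg fun _ _ => by positivity
    have u5 : (UU (fun t => G i0 t / 2)) ^ (1 / 4 : ℝ) ≤
        2 * (((l ^ a : ℕ) : ℝ) * ((l ^ a : ℕ) : ℝ) ^ (-(1 / 36 : ℝ))) := by
      have v0 : ((l ^ a : ℕ) : ℝ) ^ (-(1 / 9 : ℝ)) = (l : ℝ) ^ (-(a / 9 : ℝ)) := by
        push_cast
        rw [← Real.rpow_natCast, ← Real.rpow_mul hl0.le]
        congr 1
        ring
      have v1 : 13 * ((l ^ a : ℕ) : ℝ) ^ 4 * (l : ℝ) ^ (-(a / 9 : ℝ)) ≤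
          (2 * (((l ^ a : ℕ) : ℝ) * ((l ^ a : ℕ) : ℝ) ^ (-(1 / 36 : ℝ)))) ^ (4 : ℝ) := by
        have v2 : (2 * (((l ^ a : ℕ) : ℝ) * ((l ^ a : ℕ) : ℝ) ^ (-(1 / 36 : ℝ)))) ^ (4 : ℝ) =
            16 * (((l ^ a : ℕ) : ℝ) ^ 4 * ((l ^ a : ℕ) : ℝ) ^ (-(1 / 9 : ℝ))) := by
          rw [Real.mul_rpow (by norm_num) (by positivity), Real.mul_rpow hq0.le (by positivity),
            ← Real.rpow_mul hq0.le]
          have v3 : (4 : ℝ) = ((4 : ℕ) : ℝ) := by norm_num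
          have v4 : (-(1 / 36 : ℝ)) * 4 = -(1 / 9 : ℝ) := by norm_num
          rw [v4]
          rw [v3, Real.rpow_natCast, Real.rpow_natCast]
          norm_num
        rw [v2, v0]
        have v5 : 0 ≤ ((l ^ a : ℕ) : ℝ) ^ 4 * (l : ℝ) ^ (-(a / 9 : ℝ)) := by positivity
        nlinarith
      calc (UU (fun t => G i0 t / 2)) ^ (1 / 4 : ℝ) ≤
          ((2 * (((l ^ a : ℕ) : ℝ) * ((l ^ a : ℕ) : ℝ) ^ (-(1 / 36 : ℝ)))) ^ (4 : ℝ)) ^ (1 / 4 : ℝ) :=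
            Real.rpow_le_rpow hUU0 (u4.trans v1) (by norm_num)
        _ = 2 * (((l ^ a : ℕ) : ℝ) * ((l ^ a : ℕ) : ℝ) ^ (-(1 / 36 : ℝ))) := by
          rw [← Real.rpow_mul (by positivity)]
          norm_num
    rw [u2]
    calc _ ≤ 256 * (4 * ((l ^ a : ℕ) : ℝ) ^ 3 * (UU (fun t => G i0 t / 2)) ^ (1 / 4 : ℝ)) :=
          mul_le_mul_of_nonneg_left u1 (by norm_num)
      _ ≤ 256 * (4 * ((l ^ a : ℕ) : ℝ) ^ 3 * (2 * (((l ^ a : ℕ) : ℝ) * ((l ^ a : ℕ) : ℝ) ^ (-(1 / 36 : ℝ))))) := by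
        gcongr
      _ = 2048 * (((l ^ a : ℕ) : ℝ) ^ 4 * ((l ^ a : ℕ) : ℝ) ^ (-(1 / 36 : ℝ))) := by ring
  have h1 : ‖S4 (l ^ a) (Db (uf e) g g')‖ ≤
      16 * ((l ^ a : ℕ) : ℝ) * ∑ y : ZMod (l ^ a), ∑ y' : ZMod (l ^ a), ‖∑ z : ZMod (l ^ a), Pg G y y' z‖ := by
    rw [e2, Finset.mul_sum]
    refine (norm_sum_le _ _).trans (Finset.sum_le_sum fun y _ => ?_)
    rw [Finset.mul_sum]
    refine (norm_sum_le _ _).trans (Finset.sum_le_sum fun y' _ => ?_)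
    rw [norm_mul, RCLike.norm_conj, mul_comm]
    exact mul_le_mul_of_nonneg_right (hA' y y') (norm_nonneg _)
  have h2 := u3_cs (l ^ a) (fun y y' => ‖∑ z : ZMod (l ^ a), Pg G y y' z‖)
  have hsq : (((l ^ a : ℕ) : ℝ) ^ (-(1 / 72 : ℝ))) ^ 2 = ((l ^ a : ℕ) : ℝ) ^ (-(1 / 36 : ℝ)) := by
    rw [← Real.rpow_natCast, ← Real.rpow_mul hq0.le]
    norm_num
  have h3 : ∑ y : ZMod (l ^ a), ∑ y' : ZMod (l ^ a), ‖∑ z : ZMod (l ^ a), Pg G y y' z‖ ≤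
      64 * (((l ^ a : ℕ) : ℝ) ^ 3 * ((l ^ a : ℕ) : ℝ) ^ (-(1 / 72 : ℝ))) := by
    refine (pow_le_pow_iff_left₀ (Finset.sum_nonneg fun _ _ => Finset.sum_nonneg fun _ _ => norm_nonneg _)
      (by positivity) two_ne_zero).1 (h2.trans ?_)
    calc _ ≤ ((l ^ a : ℕ) : ℝ) ^ 2 * (2048 * (((l ^ a : ℕ) : ℝ) ^ 4 * ((l ^ a : ℕ) : ℝ) ^ (-(1 / 36 : ℝ)))) :=
          mul_le_mul_of_nonneg_left hA (by positivity)
      _ ≤ (64 * (((l ^ a : ℕ) : ℝ) ^ 3 * ((l ^ a : ℕ) : ℝ) ^ (-(1 / 72 : ℝ)))) ^ 2 := by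
        rw [← hsq]
        have h5 : 0 ≤ ((l ^ a : ℕ) : ℝ) ^ 6 * (((l ^ a : ℕ) : ℝ) ^ (-(1 / 72 : ℝ))) ^ 2 := by positivity
        nlinarith
  refine h1.trans ((mul_le_mul_of_nonneg_left h3 (by positivity)).trans ?_)
  have h6 : 0 ≤ ((l ^ a : ℕ) : ℝ) ^ 4 * ((l ^ a : ℕ) : ℝ) ^ (-(1 / 72 : ℝ)) := by positivity
  nlinarith

end Pool.Agent.Lib.H59T
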