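import Pool.Agent.Lib.H59T.E7
import Pool.Agent.Lib.H59T.UC
import Pool.Agent.Lib.H59T.UD

/-!
# Project H59T, chunk UE (S/M): the local bounds for the forms `uf e`
-/

open Finset

namespace Pool.Agent.Lib.H59T

/-- Proof. As `E7_four` (`E7.lean`), with `UC_cube` and `UD_cube`. -/
theorem UE_loc (e : Fin 4 → ℤ) : LocB (uf e) 12 (1 / 72) := by
  intro p hp κ κ' hκ hκ' l hl
  have hl2 : (2 : ℝ) ≤ l := by exact_mod_cast hl.two_le
  refine ⟨fun hd => ?_, fun hd hex => ?_⟩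
  · obtain ⟨h1, h2, i0, h3, h4⟩ := E7_attained p hp l hl hd
    have hch := L4_char (p i0) (hp i0).1 (hp i0).2 l hl h4
    rw [h3] at hch
    obtain ⟨χ, hχ, hlf⟩ := hch
    have hc : |(l : ℝ) / ((l : ℝ) - 1)| ≤ 2 := by
      rw [abs_of_nonneg (by apply div_nonneg <;> linarith), div_le_iff₀ (by linarith)]
      linarith
    have hper : ∀ (K : Fin 4 → ℕ) (i : Fin 4) (m : ℤ),
        lf (p i) (K i) l (m + ((l ^ (Rm p).factorization l : ℕ) : ℤ)) = lf (p i) (K i) l m := by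
      intro K i m
      have := L4_per (p i) (hp i).1 (hp i).2 (K i) l ((Rm p).factorization l) hl h1 (h2 i) m 1
      rw [mul_one] at this
      rw [← this]
      push_cast
      rfl
    exact UC_cube l ((Rm p).factorization l) hl h1 χ hχ _ hc (fun i => lf (p i) (κ i) l) (fun i => lf (p i) (κ' i) l)
      (fun i m => hper κ i m) (fun i m => hper κ' i m) (fun i m => L4_norm _ _ _ hl m) (fun i m => L4_norm _ _ _ hl m) i0
      (fun m => hlf (κ i0) m) e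
  · have hnd : ∀ i, ¬ l ∣ (p i).1 := fun i h => hd (h.trans (Finset.dvd_lcm (Finset.mem_univ i)))
    have hg : ∀ (K : Fin 4 → ℕ), (fun i => lf (p i) (K i) l) =
        (fun i (m : ℤ) => if l ∣ K i then ((Pool.Agent.Lib.H59P.gl l m : ℝ) : ℂ) else 1) := by
      intro K
      funext i m
      unfold lf
      rw [if_neg (hnd i)]
    rw [hg κ, hg κ']
    have h5 := UD_cube l hl e (fun i => l ∣ κ i) (fun i => l ∣ κ' i) hex
    refine h5.trans ?_
    have h6 : (l : ℝ) ^ 4 * (2 ^ 12 / (l : ℝ) ^ 2) = 2 ^ 12 * (l : ℝ) ^ 2 := by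
      have : (l : ℝ) ≠ 0 := by positivity
      field_simp
    rw [h6]
    have h7 : 0 ≤ (l : ℝ) ^ 2 := by positivity
    nlinarith

/-- Proof. Differences of the values. -/
theorem UE_cp (e : Fin 4 → ℤ) : CpF (uf e) := by
  intro i q y y' z
  fin_cases i
  · show q ∣ (2 * z + e 0) - (2 * z + e 0) ∧ q ∣ (2 * z + e 0) - (2 * z + e 0) ∧ q ∣ (2 * (z + q) + e 0) - (2 * z + e 0)
    exact ⟨⟨0, by ring⟩, ⟨0, by ring⟩, ⟨2, by ring⟩⟩
  · show q ∣ (2 * z + (y + q) + e 1) - (2 * z + y + e 1) ∧ q ∣ (2 * z + y + e 1) - (2 * z + y + e 1) ∧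
      q ∣ (2 * (z + q) + y + e 1) - (2 * z + y + e 1)
    exact ⟨⟨1, by ring⟩, ⟨0, by ring⟩, ⟨2, by ring⟩⟩
  · show q ∣ (2 * z + y' + e 2) - (2 * z + y' + e 2) ∧ q ∣ (2 * z + (y' + q) + e 2) - (2 * z + y' + e 2) ∧
      q ∣ (2 * (z + q) + y' + e 2) - (2 * z + y' + e 2)
    exact ⟨⟨0, by ring⟩, ⟨1, by ring⟩, ⟨2, by ring⟩⟩
  · show q ∣ (2 * z + (y + q) + y' + e 3) - (2 * z + y + y' + e 3) ∧ q ∣ (2 * z + y + (y' + q) + e 3) - (2 * z + y + y' + e 3) ∧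
      q ∣ (2 * (z + q) + y + y' + e 3) - (2 * z + y + y' + e 3)
    exact ⟨⟨1, by ring⟩, ⟨1, by ring⟩, ⟨2, by ring⟩⟩

end Pool.Agent.Lib.H59T
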