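import Pool.Agent.Lib.H59T.UE
import Pool.Agent.Lib.H59T.F3
import Pool.Agent.Lib.H59T.F5

/-!
# Project H59T, chunk UF (M): small cubes
-/

open Finset

namespace Pool.Agent.Lib.H59T

open Pool.Agent.Lib.H68T Pool.Agent.Lib.H18Q Pool.Agent.Lib.H59P

/-- Proof. `‖gk p κ m‖ ≤ p.1 ≤ Q` (see `F3_sup`), at most `Q` values of `κ`. -/
theorem UF_sup (Q Q' : ℕ) (p : Ch) (hp : p ∈ PC Q) (m : ℤ) : ‖Vl Q Q' p m‖ ≤ (Q : ℝ) ^ 2 := by
  unfold Vl
  refine (norm_sum_le _ _).trans ?_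
  have h1 : ∀ κ ∈ (KS Q p.1).filter (fun κ => Q' < p.1 * κ), ‖gk p κ m‖ ≤ (Q : ℝ) := fun κ hκ =>
    f3_gk Q p hp κ (mem_filter.1 hκ).1 m
  refine (Finset.sum_le_sum h1).trans ?_
  rw [sum_const, nsmul_eq_mul, pow_two]
  refine mul_le_mul_of_nonneg_right ?_ (Nat.cast_nonneg _)
  have h2 : ((KS Q p.1).filter (fun κ => Q' < p.1 * κ)).card ≤ Q := by
    have h3 : (KS Q p.1).filter (fun κ => Q' < p.1 * κ) ⊆ Icc 1 Q := by
      intro κ hκ
      have h4 := CA_mem_KS.1 (mem_filter.1 hκ).1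
      exact mem_Icc.2 ⟨h4.1.1, h4.1.2.trans (Nat.div_le_self _ _)⟩
    have h5 := card_le_card h3
    rwa [Nat.card_Icc, Nat.add_sub_cancel] at h5
  exact_mod_cast h2

/-- the four characters -/
noncomputable def uf_p (p : Ch) : Fin 4 → Ch := ![p, cjp p, cjp p, p]

theorem uf_p1 (p : Ch) (i : Fin 4) : (uf_p p i).1 = p.1 := by
  fin_cases i <;> rfl

theorem uf_conj (Q Q' : ℕ) (p : Ch) (hp : p ∈ PC Q) (m : ℤ) :
    (starRingEnd ℂ) (Vl Q Q' p m) = Vl Q Q' (cjp p) m := by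
  unfold Vl
  rw [map_sum]
  have h1 : (cjp p).1 = p.1 := rfl
  refine Finset.sum_congr rfl fun κ _ => (F5_conj Q p hp κ m).2

/-- the set of moduli -/
noncomputable def uf_T (Q Q' : ℕ) (p : Ch) : Finset (Fin 4 → ℕ) :=
  Fintype.piFinset fun i : Fin 4 => (KS Q (uf_p p i).1).filter (fun κ => Q' < (uf_p p i).1 * κ)

theorem uf_expand (Q Q' : ℕ) (p : Ch) (hp : p ∈ PC Q) (h h' k k' t m : ℤ) :
    P4 (Vl Q Q' p) h h' k k' (m + 2 * t) = ∑ κ ∈ uf_T Q Q' p,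
      ∏ i, gk (uf_p p i) (κ i) (uf ![m + h + k, m + k, m + h, m] i h' k' t) := by
  unfold uf_T
  rw [← Finset.prod_univ_sum (fun i : Fin 4 => (KS Q (uf_p p i).1).filter (fun κ => Q' < (uf_p p i).1 * κ))
    (fun i κ => gk (uf_p p i) κ (uf ![m + h + k, m + k, m + h, m] i h' k' t))]
  rw [Fin.prod_univ_four]
  unfold P4
  rw [uf_conj Q Q' p hp, uf_conj Q Q' p hp]
  have e0 : uf ![m + h + k, m + k, m + h, m] 0 h' k' t = m + 2 * t + h + k := by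
    show 2 * t + (m + h + k) = _
    ring
  have e1 : uf ![m + h + k, m + k, m + h, m] 1 h' k' t = m + 2 * t + h' + k := by
    show 2 * t + h' + (m + k) = _
    ring
  have e2 : uf ![m + h + k, m + k, m + h, m] 2 h' k' t = m + 2 * t + h + k' := by
    show 2 * t + k' + (m + h) = _
    ring
  have e3 : uf ![m + h + k, m + k, m + h, m] 3 h' k' t = m + 2 * t + h' + k' := by
    show 2 * t + h' + k' + m = _
    ring
  rw [e0, e1, e2, e3]
  rfl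

theorem uf_lcm (Q Q' : ℕ) (p : Ch) (hp : p ∈ PC Q) (κ : Fin 4 → ℕ) (hκ : κ ∈ uf_T Q Q' p) :
    Q' < univ.lcm (fun i => (uf_p p i).1 * κ i) := by
  have h1 : ∀ i, κ i ∈ KS Q (uf_p p i).1 ∧ Q' < (uf_p p i).1 * κ i := fun i =>
    mem_filter.1 (Fintype.mem_piFinset.1 hκ i)
  refine (h1 0).2.trans_le (Nat.le_of_dvd ?_ (Finset.dvd_lcm (mem_univ 0)))
  refine Nat.pos_of_ne_zero ?_
  rw [Ne, Finset.lcm_eq_zero_iff]
  rintro ⟨i, -, hi⟩
  have h2 := (h1 i).2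
  omega

/-- Proof. For fixed `h, k` put `y = h'`, `y' = k'`, `z = t`: `P4 V h h' k k' (m + 2t)` is the product of `V`, `conj V`, `conj V`, `V` at the
forms `uf e` with `e = ![m+h+k, m+k, m+h, m]`. Expand `V = Vl Q Q' p` (and its conjugate, `F5_conj`): it is
`∑_{κ ∈ T} ∏_i gk (p_i) (κ i) (uf e i …)` with `p_i = ![p, cjp p, cjp p, p]`, `T` = the product (`Fintype.piFinset`) of the sets
`(KS Q p.1).filter (Q' < p.1 κ)` (`Finset.prod_univ_sum`), and `Q' < p.1 κ_0 ≤ lcm`. `F3_gen` with `k = 4`, `A = 12`, `c = 1/72`,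
`D = Q'`, `a = a' = b = 0`, `s = s' = H` (`Q^40 ≤ H`): at most `C H⁴ Q'^(-1/144)` for each of the `H²` pairs `(h, k)`. -/
theorem UF_cube : ∃ C : ℝ, 0 < C ∧ ∀ Q Q' H : ℕ, 1 ≤ Q' → Q ^ 40 ≤ H → ∀ p ∈ PC Q, ∀ m : ℤ,
    ∑ h ∈ range H, ∑ h' ∈ range H, ∑ k ∈ range H, ∑ k' ∈ range H,
      ‖∑ t ∈ range H, P4 (Vl Q Q' p) h h' k k' (m + 2 * t)‖ ^ 2 ≤
      C * (H : ℝ) ^ 6 * (Q' : ℝ) ^ (-(1 / 144 : ℝ)) := by
  obtain ⟨C, hC, hF⟩ := F3_gen 4 12 (1 / 72) (by norm_num) (by norm_num)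
  refine ⟨C, hC, fun Q Q' H hQ' hH p hp m => ?_⟩
  have hpp : ∀ i, uf_p p i ∈ PC Q := by
    intro i
    have h1 := (F5_conj Q p hp 1 0).1
    fin_cases i
    · exact hp
    · exact h1
    · exact h1
    · exact hp
  have key : ∀ h k : ℕ, ∑ h' ∈ range H, ∑ k' ∈ range H,
      ‖∑ t ∈ range H, P4 (Vl Q Q' p) h h' k k' (m + 2 * t)‖ ^ 2 ≤
      C * ((H : ℝ) * H * (H : ℝ) ^ 2) * (Q' : ℝ) ^ (-(1 / 144 : ℝ)) := by
    intro h k
    have h1 := hF (uf ![m + h + k, m + k, m + h, m]) (UE_cp _) (UE_loc _) Q Q' hQ' (uf_p p) hpp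
      (uf_T Q Q' p) (fun κ hκ => Fintype.mem_piFinset.2 fun i =>
        (mem_filter.1 (Fintype.mem_piFinset.1 hκ i)).1) (fun κ hκ => uf_lcm Q Q' p hp κ hκ)
      0 0 0 H H H (by simpa using hH) (by simpa using hH) (by simpa using hH)
    have e1 : (-((1 : ℝ) / 72 / 2)) = -(1 / 144) := by norm_num
    rw [e1] at h1
    simp only [zero_add, ← Finset.range_eq_Ico] at h1
    refine le_trans (le_of_eq ?_) h1
    refine Finset.sum_congr rfl fun h' _ => Finset.sum_congr rfl fun k' _ => ?_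
    congr 2
    refine Finset.sum_congr rfl fun t _ => ?_
    exact uf_expand Q Q' p hp h h' k k' t m
  have e2 : ∀ h ∈ range H, ∑ h' ∈ range H, ∑ k ∈ range H, ∑ k' ∈ range H,
      ‖∑ t ∈ range H, P4 (Vl Q Q' p) h h' k k' (m + 2 * t)‖ ^ 2 ≤
      H * (C * ((H : ℝ) * H * (H : ℝ) ^ 2) * (Q' : ℝ) ^ (-(1 / 144 : ℝ))) := by
    intro h _
    rw [Finset.sum_comm]
    refine (Finset.sum_le_sum fun k _ => key h k).trans ?_
    rw [Finset.sum_const, Finset.card_range, nsmul_eq_mul]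
  refine (Finset.sum_le_sum e2).trans (le_of_eq ?_)
  rw [Finset.sum_const, Finset.card_range, nsmul_eq_mul]
  ring

end Pool.Agent.Lib.H59T
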