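import Pool.Agent.Lib.H59P.A4
import Pool.Agent.Lib.H59T.LKDefs

/-!
# Project H59T, chunk UME (M): the total mass of the coefficients, exceptional levels
-/

open Finset

namespace Pool.Agent.Lib.H59T

open Pool.Agent.Lib.H68T Pool.Agent.Lib.H18Q Pool.Agent.Lib.H59P

open scoped Classical in
/-- Levels with an exceptional zero (`r ≤ Q` only). Proof. As `mdl_exc` (`H59P/A4.lean`) with `kp = K`, without the lower bound for `η`: `mb p = I p + q`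
(`+ 1` for `p = p0`, `+ 1 + q'` for `p = ⟨r, ψ⟩`; `0 ≤ m^(β-1) ≤ 1`), `L1_exceptional_q` (`(1-β) log Q ≤ c1 < 1`), `cl1_B0`, `B_leP`,
`B1_leP`. -/
theorem UM_exc : ∃ c1 K C : ℝ, 0 < c1 ∧ c1 < 1 ∧ 1 ≤ K ∧ 1 ≤ C ∧ ∀ Q X : ℕ, RegP K Q X →
    ∀ (r : ℕ) [NeZero r] (ψ : DirichletCharacter ℂ r), r ≤ Q → ψ.IsPrimitive → ψ ≠ 1 → ψ ^ 2 = 1 →
    ∀ β : ℝ, β < 1 → ψ.LFunction (β : ℂ) = 0 → (1 - β) * Real.log Q ≤ c1 →
    ∃ mb : Ch → ℝ, (∀ p ∈ PC Q, 0 ≤ mb p) ∧ ∑ p ∈ PC Q, mb p ≤ C ∧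
      ∀ m : ℤ, (X : ℤ) ≤ m → m ≤ 4 * X → ∀ p ∈ PC Q, ‖Bc Q X p m‖ ≤ mb p := by
  classical
  obtain ⟨c1, K1, C1, hc1, hc11, hK1, hC1, hL1⟩ := L1_exceptional_q
  obtain ⟨K2, hK2, hLip⟩ := Bc_lip
  obtain ⟨K3, hK3, hLk⟩ := Lk_SG
  obtain ⟨K4, hK4, hB0⟩ := cl1_B0
  obtain ⟨K5, hK5, hB⟩ := B_leP
  obtain ⟨K6, hK6, hB1⟩ := B1_leP
  refine ⟨c1, max (max (max K1 K2) (max K3 K4)) (max (max K5 K6) 256),
    C1 + 6, hc1, hc11,
    hK1.trans ((le_max_left _ _).trans ((le_max_left _ _).trans (le_max_left _ _))),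
    by linarith, ?_⟩
  intro Q X hreg r _ ψ hr hprim hψ1 hψ2 β hβ hLβ hsmall
  obtain ⟨kp, hkpd⟩ : ∃ kp, kp = max (max (max K1 K2) (max K3 K4)) (max (max K5 K6) 256) := ⟨_, rfl⟩
  have hkQ : kp * Real.log Q ≤ Real.log X := by rw [hkpd]; exact hreg.2.2
  have hkp : max (max (max K1 K2) (max K3 K4)) (max (max K5 K6) 256) ≤ kp := by rw [hkpd]
  obtain ⟨K, hKd⟩ : ∃ K, K = max (max (max K1 K2) (max K3 K4)) (max (max K5 K6) 256) := ⟨_, rfl⟩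
  rw [← hKd] at hreg hkp
  have k1 : K1 ≤ K := by rw [hKd]; exact (le_max_left _ _).trans ((le_max_left _ _).trans (le_max_left _ _))
  have k2 : K2 ≤ K := by rw [hKd]; exact (le_max_right _ _).trans ((le_max_left _ _).trans (le_max_left _ _))
  have k3 : K3 ≤ K := by rw [hKd]; exact (le_max_left _ _).trans ((le_max_right _ _).trans (le_max_left _ _))
  have k4 : K4 ≤ K := by rw [hKd]; exact (le_max_right _ _).trans ((le_max_right _ _).trans (le_max_left _ _))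
  have k5 : K5 ≤ K := by rw [hKd]; exact (le_max_left _ _).trans ((le_max_left _ _).trans (le_max_right _ _))
  have k6 : K6 ≤ K := by rw [hKd]; exact (le_max_right _ _).trans ((le_max_left _ _).trans (le_max_right _ _))
  have k7 : 256 ≤ K := by rw [hKd]; exact (le_max_right _ _).trans (le_max_right _ _)
  clear hKd
  have hKp : 1 ≤ K := hK1.trans k1
  have hK0 : 0 ≤ K := by linarith
  have hQ1 : 1 ≤ Q := hreg.Q_pos hKp
  have hQ1' : (1 : ℝ) ≤ Q := by exact_mod_cast hQ1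
  have hQK := hreg.Q_ge hKp
  have hlQ := hreg.logQ_ge hKp
  have hX1 : 1 ≤ X := hreg.X_pos (by linarith)
  have hX0 : (0 : ℝ) < X := by exact_mod_cast hX1
  have hr0 : 1 ≤ r := Nat.pos_of_ne_zero (NeZero.ne r)
  have hη : 0 < 1 - β := by linarith
  have hβ12 : 1 / 2 ≤ β := by
    by_contra hcon
    have h1 : (1 / 2 : ℝ) ≤ 1 - β := by linarith [not_le.1 hcon]
    have h2 : (1 / 2 : ℝ) * 3 ≤ (1 - β) * Real.log Q :=
      mul_le_mul h1 (by linarith) (by norm_num) hη.le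
    linarith
  have hL := hL1 kp (by linarith) Q X (hreg.mono hK0 k1) hkQ r ψ hr hprim hψ1 hψ2 β hβ hLβ hsmall
  have hmemψ : (⟨r, ψ⟩ : Σ r : ℕ, DirichletCharacter ℂ r) ∈ PC Q :=
    mem_PC.2 ⟨hr0, hr, hprim⟩
  have hneψ : (⟨r, ψ⟩ : Σ r : ℕ, DirichletCharacter ℂ r) ≠ p0 := by
    intro h
    unfold p0 at h
    obtain ⟨h1, h2⟩ := Sigma.mk.inj_iff.1 h
    subst h1
    exact hψ1 (eq_of_heq h2)
  obtain ⟨x, hxd⟩ : ∃ x, x = (1 - β) * Real.log Q := ⟨_, rfl⟩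
  have hx0 : 0 < x := by rw [hxd]; exact mul_pos hη (by linarith)
  rw [← hxd] at hsmall hL
  obtain ⟨q, hq⟩ : ∃ q, q = (Q : ℝ) ^ (-(5 / 2) : ℝ) := ⟨_, rfl⟩
  have hq0 : 0 ≤ q := by rw [hq]; positivity
  obtain ⟨q', hq'⟩ : ∃ q', q' = (Q : ℝ) ^ (-(3 / 2) : ℝ) := ⟨_, rfl⟩
  have hq'0 : 0 ≤ q' := by rw [hq']; positivity
  obtain ⟨I, hI⟩ : ∃ I : (Σ r : ℕ, DirichletCharacter ℂ r) → ℝ, I = fun p =>
    (if p = p0 then ∫ t in (-(Q : ℝ) ^ 7)..((Q : ℝ) ^ 7), ‖FL X p0 t - F0 X t‖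
      else if p = ⟨r, ψ⟩ then ∫ t in (-(Q : ℝ) ^ 7)..((Q : ℝ) ^ 7), ‖FL X ⟨r, ψ⟩ t + Fb X β t‖
      else ∫ t in (-(Q : ℝ) ^ 7)..((Q : ℝ) ^ 7), ‖FL X p t‖) := ⟨_, rfl⟩
  have hI0 : ∀ p, 0 ≤ I p := by
    intro p
    rw [hI]
    simp only
    split_ifs
    · exact cl1_int_nonneg Q _
    · exact cl1_int_nonneg Q _
    · exact cl1_int_nonneg Q _
  obtain ⟨eb, heb⟩ : ∃ eb : (Σ r : ℕ, DirichletCharacter ℂ r) → ℝ, eb = fun p =>
    I p + q + (if p = ⟨r, ψ⟩ then q' else 0) := ⟨_, rfl⟩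
  have heb0 : ∀ p, 0 ≤ eb p := by
    intro p
    rw [heb]
    have := hI0 p
    simp only
    split_ifs <;> linarith
  have hIsum : ∑ p ∈ PC Q, I p ≤ (C1 * Real.exp (-(kp / C1)) + 1 / Q) * x := by
    rw [ph_split (PC Q) p0 (p0_mem hQ1) (fun p => p ≠ p0) (fun _ => Iff.rfl),
      ph_split ((PC Q).filter (fun p => p ≠ p0)) ⟨r, ψ⟩ (mem_filter.2 ⟨hmemψ, hneψ⟩)
        (fun p => p ≠ ⟨r, ψ⟩) (fun _ => Iff.rfl)]
    have hfilt : ((PC Q).filter (fun p => p ≠ p0)).filter (fun p => p ≠ ⟨r, ψ⟩) =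
        (PC Q).filter (fun p => p ≠ p0 ∧ p ≠ ⟨r, ψ⟩) := by
      ext p
      simp only [mem_filter]
      tauto
    rw [hfilt]
    have e1 : I p0 = ∫ t in (-(Q : ℝ) ^ 7)..((Q : ℝ) ^ 7), ‖FL X p0 t - F0 X t‖ := by
      rw [hI]
      beta_reduce
      rw [if_pos rfl]
    have e2 : I ⟨r, ψ⟩ = ∫ t in (-(Q : ℝ) ^ 7)..((Q : ℝ) ^ 7), ‖FL X ⟨r, ψ⟩ t + Fb X β t‖ := by
      rw [hI]
      beta_reduce
      rw [if_neg hneψ, if_pos rfl]
    have e3 : ∑ p ∈ (PC Q).filter (fun p => p ≠ p0 ∧ p ≠ ⟨r, ψ⟩), I p =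
        ∑ p ∈ (PC Q).filter (fun p => p ≠ p0 ∧ p ≠ ⟨r, ψ⟩),
          ∫ t in (-(Q : ℝ) ^ 7)..((Q : ℝ) ^ 7), ‖FL X p t‖ := by
      refine Finset.sum_congr rfl fun p hp => ?_
      rw [hI]
      simp only
      rw [if_neg (mem_filter.1 hp).2.1, if_neg (mem_filter.1 hp).2.2]
    rw [e1, e2, e3]
    linarith
  have hXr : (1 : ℝ) ≤ X := by exact_mod_cast hX1
  have hx1 : x ≤ 1 := by linarith
  have hqle : q ≤ 1 := by
    rw [hq]
    exact Real.rpow_le_one_of_one_le_of_nonpos hQ1' (by norm_num)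
  have hq'le : q' ≤ 1 := by
    rw [hq']
    exact Real.rpow_le_one_of_one_le_of_nonpos hQ1' (by norm_num)
  have hIle : ∑ p ∈ PC Q, I p ≤ C1 + 1 := by
    have h1 : Real.exp (-(kp / C1)) ≤ 1 := by
      rw [Real.exp_le_one_iff]
      have : 0 ≤ kp / C1 := div_nonneg (by linarith) (by linarith)
      linarith
    have h2 : 1 / (Q : ℝ) ≤ 1 := by
      rw [div_le_one (by linarith)]
      exact hQ1'
    have h3 : C1 * Real.exp (-(kp / C1)) ≤ C1 * 1 := mul_le_mul_of_nonneg_left h1 (by linarith)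
    have h4 : 0 ≤ C1 * Real.exp (-(kp / C1)) + 1 / Q := by positivity
    have h5 : (C1 * Real.exp (-(kp / C1)) + 1 / Q) * x ≤ (C1 * Real.exp (-(kp / C1)) + 1 / Q) * 1 :=
      mul_le_mul_of_nonneg_left hx1 h4
    linarith
  refine ⟨fun p => eb p + (if p = p0 then 1 else 0) + (if p = ⟨r, ψ⟩ then 1 else 0), fun p _ => ?_, ?_,
    fun m hm hm4 p hp => ?_⟩
  · have := heb0 p
    beta_reduce
    split_ifs <;> linarith
  · rw [Finset.sum_add_distrib, Finset.sum_add_distrib, Finset.sum_ite_eq' (PC Q) p0 (fun _ => (1 : ℝ)),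
      if_pos (p0_mem hQ1), Finset.sum_ite_eq' (PC Q) _ (fun _ => (1 : ℝ)), if_pos hmemψ]
    have h1 : ∑ p ∈ PC Q, eb p = ∑ p ∈ PC Q, I p + (PC Q).card * q + q' := by
      rw [heb, Finset.sum_add_distrib, Finset.sum_add_distrib, Finset.sum_const, nsmul_eq_mul,
        Finset.sum_ite_eq' (PC Q) _ (fun _ => q'), if_pos hmemψ]
    have h3 : ((PC Q).card : ℝ) * q ≤ 1 / Real.sqrt Q := by
      rw [← (cl1_Qpow hQ1).1, ← hq]
      apply mul_le_mul_of_nonneg_right _ hq0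
      exact_mod_cast card_PC_le Q
    have h4 : 1 / Real.sqrt Q ≤ 1 := by
      rw [div_le_one (Real.sqrt_pos.2 (by linarith))]
      exact Real.one_le_sqrt.2 hQ1'
    rw [h1]
    linarith
  · have hm1 : (1 : ℝ) ≤ (m : ℝ) := by
      have : (1 : ℤ) ≤ m := by omega
      exact_mod_cast this
    beta_reduce
    by_cases h : p = p0
    · have h'' : p0 ≠ (⟨r, ψ⟩ : Σ r : ℕ, DirichletCharacter ℂ r) := fun h3 => hneψ h3.symm
      rw [h, if_pos rfl, if_neg h'', add_zero]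
      have h1 := hB0 Q X (hreg.mono hK0 k4) m hm hm4
      rw [← hq] at h1
      have h2 : ‖Bc Q X p0 m‖ ≤ ‖Bc Q X p0 m - 1‖ + 1 := by
        have h3 := norm_add_le (Bc Q X p0 m - 1) 1
        rw [sub_add_cancel, norm_one] at h3
        exact h3
      have h3 : eb p0 = (∫ t in (-(Q : ℝ) ^ 7)..((Q : ℝ) ^ 7), ‖FL X p0 t - F0 X t‖) + q := by
        rw [heb, hI]
        beta_reduce
        rw [if_pos rfl, if_neg h'', add_zero]
      rw [h3]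
      linarith
    · by_cases h' : p = ⟨r, ψ⟩
      · rw [if_neg h, if_pos h', h', add_zero]
        have h1 := hB1 Q X (hreg.mono hK0 k6) ⟨r, ψ⟩ hr0 β hβ12 hβ.le m hm hm4
        rw [← hq'] at h1
        have h2 : ‖(((m : ℝ) ^ (β - 1) : ℝ) : ℂ)‖ ≤ 1 := by
          rw [Complex.norm_real, Real.norm_eq_abs, abs_of_nonneg (Real.rpow_nonneg (by linarith) _)]
          exact Real.rpow_le_one_of_one_le_of_nonpos hm1 (by linarith)
        have h3 : eb ⟨r, ψ⟩ = (∫ t in (-(Q : ℝ) ^ 7)..((Q : ℝ) ^ 7), ‖FL X ⟨r, ψ⟩ t + Fb X β t‖) + q + q' := by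
          rw [heb, hI]
          beta_reduce
          rw [if_neg hneψ, if_pos rfl, if_pos rfl]
        rw [h3]
        have h4 := norm_sub_le (Bc Q X ⟨r, ψ⟩ m + (((m : ℝ) ^ (β - 1) : ℝ) : ℂ)) (((m : ℝ) ^ (β - 1) : ℝ) : ℂ)
        rw [add_sub_cancel_right] at h4
        have h5 : ‖Bc Q X ⟨r, ψ⟩ m + (((m : ℝ) ^ (β - 1) : ℝ) : ℂ)‖ ≤
            (∫ t in (-(Q : ℝ) ^ 7)..((Q : ℝ) ^ 7), ‖FL X ⟨r, ψ⟩ t + Fb X β t‖) + q' := h1
        linarith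
      · rw [if_neg h, if_neg h', add_zero, add_zero]
        have h1 := hB Q X (hreg.mono hK0 k5) p (mem_PC.1 hp).1 m hm hm4
        rw [← hq] at h1
        have h3 : eb p = (∫ t in (-(Q : ℝ) ^ 7)..((Q : ℝ) ^ 7), ‖FL X p t‖) + q := by
          rw [heb, hI]
          beta_reduce
          rw [if_neg h, if_neg h', if_neg h', add_zero]
        rw [h3]
        exact h1

end Pool.Agent.Lib.H59T
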