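import Pool.Agent.Lib.H59T.UMG
import Pool.Agent.Lib.H59T.UME

/-!
# Project H59T, chunk UM (S/M): the total mass of the coefficients
-/

open Finset

namespace Pool.Agent.Lib.H59T

open Pool.Agent.Lib.H68T Pool.Agent.Lib.H18Q Pool.Agent.Lib.H59P

/-- **The total mass.** Proof. `UM_exc` gives `c1`. If `Good c1 Q`: `UM_good` with `c = c1`. Otherwise (definition of `Good`) there is an
exceptional zero `σ ≤ 1`, `1 - c1/log Q ≤ σ`; `σ < 1` by `DirichletCharacter.LFunction_apply_one_ne_zero` (`ψ ≠ 1`). -/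
theorem UM_mass : ∃ K C : ℝ, 1 ≤ K ∧ 1 ≤ C ∧ ∀ Q X : ℕ, RegP K Q X →
    ∃ mb : Ch → ℝ, (∀ p ∈ PC Q, 0 ≤ mb p) ∧ ∑ p ∈ PC Q, mb p ≤ C ∧
      ∀ m : ℤ, (X : ℤ) ≤ m → m ≤ 4 * X → ∀ p ∈ PC Q, ‖Bc Q X p m‖ ≤ mb p := by
  obtain ⟨c1, K1, C1, hc1, hc11, hK1, hC1, h1⟩ := UM_exc
  obtain ⟨K2, C2, hK2, hC2, h2⟩ := UM_good c1 hc1
  refine ⟨max (max K1 K2) 1, max C1 C2, le_max_right _ _, hC1.trans (le_max_left _ _),
    fun Q X hreg => ?_⟩
  have hK0 : 0 ≤ max (max K1 K2) 1 := zero_le_one.trans (le_max_right _ _)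
  have hQ := hreg.logQ_ge (le_max_right _ _)
  by_cases hg : Good c1 Q
  · obtain ⟨mb, a1, a2, a3⟩ := h2 Q X (hreg.mono hK0 ((le_max_right _ _).trans (le_max_left _ _))) hg
    exact ⟨mb, a1, a2.trans (le_max_right _ _), a3⟩
  · unfold Good at hg
    push Not at hg
    obtain ⟨r, _, ψ, hr, hp, hne, hsq, σ, hσ, hσ1, hL⟩ := hg
    have hlt : σ < 1 := by
      refine lt_of_le_of_ne hσ1 fun h => ?_
      rw [h, Complex.ofReal_one] at hL
      exact DirichletCharacter.LFunction_apply_one_ne_zero hne hL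
    have hlQ : 0 < Real.log Q := by
      have : (0 : ℝ) < max (max K1 K2) 1 := lt_of_lt_of_le one_pos (le_max_right _ _)
      linarith
    have hsm : (1 - σ) * Real.log Q ≤ c1 := by
      have h3 : 1 - σ ≤ c1 / Real.log Q := by linarith
      calc (1 - σ) * Real.log Q ≤ c1 / Real.log Q * Real.log Q :=
            mul_le_mul_of_nonneg_right h3 hlQ.le
        _ = c1 := div_mul_cancel₀ _ hlQ.ne'
    obtain ⟨mb, a1, a2, a3⟩ := h1 Q X (hreg.mono hK0 ((le_max_left _ _).trans (le_max_left _ _)))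
      r ψ hr hp hne hsq σ hlt hL hsm
    exact ⟨mb, a1, a2.trans (le_max_left _ _), a3⟩

end Pool.Agent.Lib.H59T
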