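import Pool.Agent.Lib.H59T.UB
import Pool.Agent.Lib.H59T.UM

/-!
# Project H59T, chunk UL (M): the difference of the projections at two levels
-/

open Finset

namespace Pool.Agent.Lib.H59T

open Pool.Agent.Lib.H68T Pool.Agent.Lib.H18Q Pool.Agent.Lib.H59P

/-- Proof. `DA_expand` (`H68T/DA.lean`) for `Q` and for `Q'`, both with `Y = X/Q²` (see `Lk_SG` in `H18Q/CL1.lean` for the regime); the
coefficients are `Bc Q X p m` in both cases. `PC Q' ⊆ PC Q`. `gam_expand` (`H18Q/CA.lean`): `Gam Q p.1 m conj χ(m) = ∑_{KS Q p.1} gk`, and for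
`Q'` the sum over `KS Q' p.1 = {κ ∈ KS Q p.1 : p.1 κ ≤ Q'}` (`κ ≤ Q'/r` iff `r κ ≤ Q'`), empty if `p.1 > Q'`. -/
theorem UL_expand : ∃ K : ℝ, 1 ≤ K ∧ ∀ Q Q' X : ℕ, RegP K Q X → 1 ≤ Q' → Q' ≤ Q → ∀ m : ℤ,
    (X : ℤ) ≤ m → m ≤ 4 * X →
    ((Lk Q (X / Q ^ 2) m - Lk Q' (X / Q ^ 2) m : ℝ) : ℂ) = ∑ p ∈ PC Q, Bc Q X p m * Vl Q Q' p m := by
  obtain ⟨K1, hK1, h1⟩ := BPS_regimeP
  obtain ⟨K2, hK2, h2⟩ := regp_pow_le 2 1 1 one_pos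
  refine ⟨max K1 K2, hK1.trans (le_max_left _ _), fun Q Q' X hreg hQ'1 hQ'Q m hm hm4 => ?_⟩
  have hK0 : 0 ≤ max K1 K2 := by linarith [le_max_left K1 K2]
  obtain ⟨hQ, hX, hY, hYX, hXY, -⟩ := h1 Q X (hreg.mono hK0 (le_max_left _ _))
  have hlog := h2 Q X (hreg.mono hK0 (le_max_right _ _))
  rw [Real.rpow_one, Real.rpow_one] at hlog
  have h3 : 2 * Q ≤ X := by exact_mod_cast hlog
  have hA : (Lk Q (X / Q ^ 2) m : ℂ) = ∑ p ∈ PC Q, (∑ k ∈ KS Q p.1, gk p k m) * Bc Q X p m := by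
    rw [DA_expand Q X (X / Q ^ 2) m hm hm4 (by omega) (by omega)]
    refine Finset.sum_congr rfl fun p hp => ?_
    rw [gam_expand Q p hp m]
    rfl
  have hB : (Lk Q' (X / Q ^ 2) m : ℂ) = ∑ p ∈ PC Q, (∑ k ∈ KS Q' p.1, gk p k m) * Bc Q X p m := by
    rw [DA_expand Q' X (X / Q ^ 2) m hm hm4 (by omega) (by omega)]
    have hsub : PC Q' ⊆ PC Q := by
      intro p hp
      obtain ⟨a, b, c⟩ := mem_PC.1 hp
      exact mem_PC.2 ⟨a, b.trans hQ'Q, c⟩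
    rw [← Finset.sum_subset hsub (f := fun p => (∑ k ∈ KS Q' p.1, gk p k m) * Bc Q X p m)]
    · refine Finset.sum_congr rfl fun p hp => ?_
      rw [gam_expand Q' p hp m]
      rfl
    · intro p hp hp'
      have h4 : KS Q' p.1 = ∅ := by
        rw [Finset.eq_empty_iff_forall_notMem]
        intro k hk
        have h5 := (CA_mem_KS.1 hk).1
        obtain ⟨a, b, c⟩ := mem_PC.1 hp
        have h6 : ¬ p.1 ≤ Q' := fun h => hp' (mem_PC.2 ⟨a, h, c⟩)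
        have h7 : Q' / p.1 = 0 := Nat.div_eq_of_lt (by omega)
        omega
      rw [h4, Finset.sum_empty, zero_mul]
  push_cast
  rw [hA, hB, ← Finset.sum_sub_distrib]
  refine Finset.sum_congr rfl fun p hp => ?_
  obtain ⟨a, b, c⟩ := mem_PC.1 hp
  have h8 : ∑ k ∈ KS Q p.1, gk p k m = Vl Q Q' p m + ∑ k ∈ KS Q' p.1, gk p k m := by
    rw [← Finset.sum_filter_add_sum_filter_not (KS Q p.1) (fun κ => Q' < p.1 * κ)]
    unfold Vl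
    congr 1
    refine Finset.sum_congr ?_ fun _ _ => rfl
    ext k
    rw [Finset.mem_filter, CA_mem_KS, CA_mem_KS]
    constructor
    · rintro ⟨⟨h9, h10⟩, h11⟩
      refine ⟨⟨h9.1, ?_⟩, h10⟩
      rw [Nat.le_div_iff_mul_le (by omega)]
      rw [mul_comm]
      omega
    · rintro ⟨⟨h9, h9'⟩, h10⟩
      have h11 : k * p.1 ≤ Q' := (Nat.le_div_iff_mul_le (by omega)).1 h9'
      refine ⟨⟨⟨h9, ?_⟩, h10⟩, ?_⟩
      · rw [Nat.le_div_iff_mul_le (by omega)]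
        omega
      · rw [mul_comm p.1 k]
        omega
  rw [h8]
  ring

/-- **Module LK.** Proof. `UL_expand`; `UM_mass`: `‖Bc Q X p m‖ ≤ mb p`, put `w_p = mb p + Q^(-3)`, `β_p(m) = Bc Q X p m/w_p`: at most `1`,
and `Bc_lip` (`H18Q/CL1.lean`) gives `‖β_p(m+1) - β_p(m)‖ ≤ Q³/(2X) · Q³`. `UB_one` for each `p`, times `w_p`;
`∑_p w_p ≤ C + Q² Q^(-3)` (`card_PC_le`). `Q^100 ≤ X` from `RegP K` with `K ≥ 100`. -/
theorem LK_diff : ∃ K C : ℝ, 1 ≤ K ∧ 0 < C ∧ ∀ Q Q' X n : ℕ, RegP K Q X → 1 ≤ Q' → Q' ≤ Q → X ≤ n →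
    ∀ f g W : ℤ → ℂ, (∀ x, ‖f x‖ ≤ 1) → (∀ x, ‖g x‖ ≤ 1) → (∀ x, ‖W x‖ ≤ 1) →
    ‖∑ x ∈ Icc (-(n : ℤ)) n, ∑ y ∈ Icc (-(n : ℤ)) n, f x * g y *
      (if (X : ℤ) ≤ x + y ∧ x + y ≤ 4 * X then
        ((Lk Q (X / Q ^ 2) (x + y) - Lk Q' (X / Q ^ 2) (x + y) : ℝ) : ℂ) else 0) * W (x - y)‖ ≤
      C * (n : ℝ) ^ 2 * (Q' : ℝ) ^ (-(1 / 1152 : ℝ)) := by
  obtain ⟨K1, hK1, h1⟩ := UL_expand
  obtain ⟨K2, C2, hK2, hC2, h2⟩ := UM_mass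
  obtain ⟨K3, hK3, h3⟩ := Bc_lip
  obtain ⟨K4, hK4, h4⟩ := regp_pow_le 1 100 1 one_pos
  obtain ⟨C5, hC5, h5⟩ := UB_one
  refine ⟨max (max K1 K2) (max K3 K4), C5 * (C2 + 1), hK1.trans ((le_max_left _ _).trans (le_max_left _ _)), by positivity, ?_⟩
  intro Q Q' X n hreg hQ'1 hQ'Q hXn f g W hf hg hW
  have hK0 : 0 ≤ max (max K1 K2) (max K3 K4) := by
    have := (le_max_left K1 K2).trans (le_max_left (max K1 K2) (max K3 K4))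
    linarith
  have r1 := hreg.mono hK0 ((le_max_left K1 K2).trans (le_max_left _ _))
  have r2 := hreg.mono hK0 ((le_max_right K1 K2).trans (le_max_left _ _))
  have r3 := hreg.mono hK0 ((le_max_left K3 K4).trans (le_max_right _ _))
  have r4 := hreg.mono hK0 ((le_max_right K3 K4).trans (le_max_right _ _))
  have hQ1 : 1 ≤ Q := hQ'1.trans hQ'Q
  have hQR : (1 : ℝ) ≤ Q := by exact_mod_cast hQ1
  have hQ0 : (0 : ℝ) < Q := by linarith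
  have hX0 : 0 < X := r1.X_pos (by linarith)
  have hX0' : (0 : ℝ) < X := by exact_mod_cast hX0
  have hQ100 : Q ^ 100 ≤ X := by
    have h6 := h4 Q X r4
    rw [one_mul, Real.rpow_one] at h6
    have h7 : (Q : ℝ) ^ (100 : ℝ) = (Q : ℝ) ^ (100 : ℕ) := by
      rw [← Real.rpow_natCast]
      norm_num
    rw [h7] at h6
    exact_mod_cast h6
  obtain ⟨mb, hmb0, hmbs, hmb⟩ := h2 Q X r2
  have hwp : ∀ p ∈ PC Q, 0 < mb p + ((Q : ℝ) ^ 3)⁻¹ := fun p hp => by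
    have := hmb0 p hp
    positivity
  have hsum : ∑ p ∈ PC Q, (mb p + ((Q : ℝ) ^ 3)⁻¹) ≤ C2 + 1 := by
    rw [Finset.sum_add_distrib, Finset.sum_const, nsmul_eq_mul]
    have h8 : ((PC Q).card : ℝ) * ((Q : ℝ) ^ 3)⁻¹ ≤ 1 := by
      rw [← div_eq_mul_inv, div_le_one (by positivity)]
      have h9 : ((PC Q).card : ℝ) ≤ (Q : ℝ) ^ 2 := by exact_mod_cast card_PC_le Q
      refine h9.trans ?_
      exact pow_le_pow_right₀ hQR (by norm_num)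
    linarith
  have hexp : ∀ x y : ℤ, f x * g y * (if (X : ℤ) ≤ x + y ∧ x + y ≤ 4 * X then
        ((Lk Q (X / Q ^ 2) (x + y) - Lk Q' (X / Q ^ 2) (x + y) : ℝ) : ℂ) else 0) * W (x - y) =
      ∑ p ∈ PC Q, ((mb p + ((Q : ℝ) ^ 3)⁻¹ : ℝ) : ℂ) * (f x * g y * (if (X : ℤ) ≤ x + y ∧ x + y ≤ 4 * X then
        (Bc Q X p (x + y) / ((mb p + ((Q : ℝ) ^ 3)⁻¹ : ℝ) : ℂ)) * Vl Q Q' p (x + y) else 0) * W (x - y)) := by
    intro x y
    by_cases hxy : (X : ℤ) ≤ x + y ∧ x + y ≤ 4 * X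
    · rw [if_pos hxy, h1 Q Q' X r1 hQ'1 hQ'Q (x + y) hxy.1 hxy.2, Finset.mul_sum, Finset.sum_mul]
      refine Finset.sum_congr rfl fun p hp => ?_
      rw [if_pos hxy]
      have h10 : ((mb p + ((Q : ℝ) ^ 3)⁻¹ : ℝ) : ℂ) ≠ 0 := by exact_mod_cast (hwp p hp).ne'
      generalize ((mb p + ((Q : ℝ) ^ 3)⁻¹ : ℝ) : ℂ) = c at h10 ⊢
      have h11 : Bc Q X p (x + y) = c * (Bc Q X p (x + y) / c) := by rw [mul_div_cancel₀ _ h10]
      rw [h11]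
      rw [mul_div_cancel_left₀ _ h10]
      ring
    · rw [if_neg hxy, mul_zero, zero_mul]
      symm
      refine Finset.sum_eq_zero fun p hp => ?_
      rw [if_neg hxy, mul_zero, zero_mul, mul_zero]
  have heq : (∑ x ∈ Icc (-(n : ℤ)) n, ∑ y ∈ Icc (-(n : ℤ)) n, f x * g y *
      (if (X : ℤ) ≤ x + y ∧ x + y ≤ 4 * X then
        ((Lk Q (X / Q ^ 2) (x + y) - Lk Q' (X / Q ^ 2) (x + y) : ℝ) : ℂ) else 0) * W (x - y)) =
      ∑ p ∈ PC Q, ((mb p + ((Q : ℝ) ^ 3)⁻¹ : ℝ) : ℂ) * ∑ x ∈ Icc (-(n : ℤ)) n, ∑ y ∈ Icc (-(n : ℤ)) n,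
        f x * g y * (if (X : ℤ) ≤ x + y ∧ x + y ≤ 4 * X then
        (Bc Q X p (x + y) / ((mb p + ((Q : ℝ) ^ 3)⁻¹ : ℝ) : ℂ)) * Vl Q Q' p (x + y) else 0) * W (x - y) := by
    rw [Finset.sum_congr rfl fun x _ => Finset.sum_congr rfl fun y _ => hexp x y]
    rw [Finset.sum_congr rfl fun x _ => Finset.sum_comm, Finset.sum_comm]
    refine Finset.sum_congr rfl fun p _ => ?_
    rw [Finset.mul_sum]
    refine Finset.sum_congr rfl fun x _ => ?_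
    rw [Finset.mul_sum]
  rw [heq]
  have hQ'0 : (0 : ℝ) ≤ (n : ℝ) ^ 2 * (Q' : ℝ) ^ (-(1 / 1152 : ℝ)) :=
    mul_nonneg (by positivity) (Real.rpow_nonneg (Nat.cast_nonneg _) _)
  have hone : ∀ p ∈ PC Q, ‖((mb p + ((Q : ℝ) ^ 3)⁻¹ : ℝ) : ℂ) * ∑ x ∈ Icc (-(n : ℤ)) n, ∑ y ∈ Icc (-(n : ℤ)) n,
        f x * g y * (if (X : ℤ) ≤ x + y ∧ x + y ≤ 4 * X then
        (Bc Q X p (x + y) / ((mb p + ((Q : ℝ) ^ 3)⁻¹ : ℝ) : ℂ)) * Vl Q Q' p (x + y) else 0) * W (x - y)‖ ≤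
      (mb p + ((Q : ℝ) ^ 3)⁻¹) * (C5 * (n : ℝ) ^ 2 * (Q' : ℝ) ^ (-(1 / 1152 : ℝ))) := by
    intro p hp
    have hw := hwp p hp
    rw [norm_mul, Complex.norm_real, Real.norm_eq_abs, abs_of_pos hw]
    refine mul_le_mul_of_nonneg_left ?_ hw.le
    refine h5 Q Q' X n hQ'1 hQ'Q hQ100 hXn p hp (fun m => Bc Q X p m / ((mb p + ((Q : ℝ) ^ 3)⁻¹ : ℝ) : ℂ)) ?_ ?_
      f g W hf hg hW
    · intro m hm hm4
      rw [norm_div, Complex.norm_real, Real.norm_eq_abs, abs_of_pos hw, div_le_one hw]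
      have h11 := hmb m hm hm4 p hp
      have h12 : 0 ≤ ((Q : ℝ) ^ 3)⁻¹ := by positivity
      linarith
    · intro m hm hm4
      rw [← sub_div, norm_div, Complex.norm_real, Real.norm_eq_abs, abs_of_pos hw]
      have h13 := h3 Q X r3 p m hm (by omega)
      have h14 : ((Q : ℝ) ^ 3)⁻¹ ≤ mb p + ((Q : ℝ) ^ 3)⁻¹ := by linarith [hmb0 p hp]
      have h15 : 0 < ((Q : ℝ) ^ 3)⁻¹ := by positivity
      calc ‖Bc Q X p (m + 1) - Bc Q X p m‖ / (mb p + ((Q : ℝ) ^ 3)⁻¹)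
          ≤ ((Q : ℝ) ^ 3 / (2 * X)) / ((Q : ℝ) ^ 3)⁻¹ :=
            div_le_div₀ (by positivity) h13 h15 h14
        _ = (Q : ℝ) ^ 6 / X * (1 / 2) := by
            field_simp
        _ ≤ (Q : ℝ) ^ 6 / X := by
            have h16 : 0 ≤ (Q : ℝ) ^ 6 / X := by positivity
            linarith
  refine (norm_sum_le _ _).trans ((Finset.sum_le_sum hone).trans ?_)
  rw [← Finset.sum_mul]
  calc (∑ p ∈ PC Q, (mb p + ((Q : ℝ) ^ 3)⁻¹)) * (C5 * (n : ℝ) ^ 2 * (Q' : ℝ) ^ (-(1 / 1152 : ℝ)))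
      ≤ (C2 + 1) * (C5 * (n : ℝ) ^ 2 * (Q' : ℝ) ^ (-(1 / 1152 : ℝ))) := by
        refine mul_le_mul_of_nonneg_right hsum ?_
        have := mul_nonneg hC5.le hQ'0
        linarith
    _ = C5 * (C2 + 1) * (n : ℝ) ^ 2 * (Q' : ℝ) ^ (-(1 / 1152 : ℝ)) := by ring

end Pool.Agent.Lib.H59T
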