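import Pool.Agent.Lib.H59P.A4
import Pool.Agent.Lib.H59T.LKDefs

/-!
# Project H59T, chunk UMG (M): the total mass of the coefficients, good levels
-/

open Finset

namespace Pool.Agent.Lib.H59T

open Pool.Agent.Lib.H68T Pool.Agent.Lib.H18Q Pool.Agent.Lib.H59P

open scoped Classical in
/-- Good levels. Proof. As `mdl_good` (`H59P/A3.lean`) with `kp = K`: `mb p = eb p` for `p ≠ p0` and `1 + eb p0` for `p0`, where `eb` is as
there: `L1_good_q`, `cl1_B0`, `B_leP`. -/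
theorem UM_good (c : ℝ) (hc : 0 < c) : ∃ K C : ℝ, 1 ≤ K ∧ 1 ≤ C ∧ ∀ Q X : ℕ, RegP K Q X → Good c Q →
    ∃ mb : Ch → ℝ, (∀ p ∈ PC Q, 0 ≤ mb p) ∧ ∑ p ∈ PC Q, mb p ≤ C ∧
      ∀ m : ℤ, (X : ℤ) ≤ m → m ≤ 4 * X → ∀ p ∈ PC Q, ‖Bc Q X p m‖ ≤ mb p := by
  classical
  obtain ⟨K1, C, hK1, hC, hL1⟩ := L1_good_q c hc
  obtain ⟨K2, hK2, hLip⟩ := Bc_lip
  obtain ⟨K3, hK3, hLk⟩ := Lk_SG
  obtain ⟨K4, hK4, hB0⟩ := cl1_B0
  obtain ⟨K5, hK5, hB⟩ := B_leP
  refine ⟨max (max (max K1 K2) (max K3 K4)) (max K5 16), C + 2,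
    hK1.trans ((le_max_left _ _).trans ((le_max_left _ _).trans (le_max_left _ _))), by linarith, ?_⟩
  intro Q X hreg hgood
  obtain ⟨kp, hkpd⟩ : ∃ kp, kp = max (max (max K1 K2) (max K3 K4)) (max K5 16) := ⟨_, rfl⟩
  have hkQ : kp * Real.log Q ≤ Real.log X := by rw [hkpd]; exact hreg.2.2
  have hkp : max (max (max K1 K2) (max K3 K4)) (max K5 16) ≤ kp := by rw [hkpd]
  obtain ⟨K, hKd⟩ : ∃ K, K = max (max (max K1 K2) (max K3 K4)) (max K5 16) := ⟨_, rfl⟩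
  rw [← hKd] at hreg hkp
  have k1 : K1 ≤ K := by rw [hKd]; exact (le_max_left _ _).trans ((le_max_left _ _).trans (le_max_left _ _))
  have k2 : K2 ≤ K := by rw [hKd]; exact (le_max_right _ _).trans ((le_max_left _ _).trans (le_max_left _ _))
  have k3 : K3 ≤ K := by rw [hKd]; exact (le_max_left _ _).trans ((le_max_right _ _).trans (le_max_left _ _))
  have k4 : K4 ≤ K := by rw [hKd]; exact (le_max_right _ _).trans ((le_max_right _ _).trans (le_max_left _ _))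
  have k5 : K5 ≤ K := by rw [hKd]; exact (le_max_left _ _).trans (le_max_right _ _)
  have k6 : 16 ≤ K := by rw [hKd]; exact (le_max_right _ _).trans (le_max_right _ _)
  clear hKd
  have hKp : 1 ≤ K := hK1.trans k1
  have hK0 : 0 ≤ K := by linarith
  have hQ1 : 1 ≤ Q := hreg.Q_pos hKp
  have hQ1' : (1 : ℝ) ≤ Q := by exact_mod_cast hQ1
  have hQK := hreg.Q_ge hKp
  have hX0 : (0 : ℝ) < X := by exact_mod_cast hreg.X_pos (by linarith)
  have hL := hL1 kp (by linarith) Q X (hreg.mono hK0 k1) hkQ hgood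
  obtain ⟨q, hq⟩ : ∃ q, q = (Q : ℝ) ^ (-(5 / 2) : ℝ) := ⟨_, rfl⟩
  have hq0 : 0 ≤ q := by rw [hq]; positivity
  obtain ⟨eb, heb⟩ : ∃ eb : (Σ r : ℕ, DirichletCharacter ℂ r) → ℝ, eb = fun p =>
    (if p = p0 then ∫ t in (-(Q : ℝ) ^ 7)..((Q : ℝ) ^ 7), ‖FL X p0 t - F0 X t‖
      else ∫ t in (-(Q : ℝ) ^ 7)..((Q : ℝ) ^ 7), ‖FL X p t‖) + q := ⟨_, rfl⟩
  have heb0 : ∀ p, 0 ≤ eb p := by
    intro p
    rw [heb]
    simp only
    split_ifs
    · exact add_nonneg (cl1_int_nonneg Q _) hq0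
    · exact add_nonneg (cl1_int_nonneg Q _) hq0
  have hsum : ∑ p ∈ PC Q, eb p ≤ C * Real.exp (-(kp / C)) + (Q : ℝ) ^ (-(1 / 4) : ℝ) := by
    have h1 : ∑ p ∈ PC Q, eb p =
        (∑ p ∈ PC Q, (if p = p0 then ∫ t in (-(Q : ℝ) ^ 7)..((Q : ℝ) ^ 7), ‖FL X p0 t - F0 X t‖
          else ∫ t in (-(Q : ℝ) ^ 7)..((Q : ℝ) ^ 7), ‖FL X p t‖)) + (PC Q).card * q := by
      rw [heb, Finset.sum_add_distrib, Finset.sum_const, nsmul_eq_mul]
    rw [h1, ph_split (PC Q) p0 (p0_mem hQ1) (fun p => p ≠ p0) (fun _ => Iff.rfl), if_pos rfl]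
    have h2 : ∑ p ∈ (PC Q).filter (fun p => p ≠ p0),
        (if p = p0 then ∫ t in (-(Q : ℝ) ^ 7)..((Q : ℝ) ^ 7), ‖FL X p0 t - F0 X t‖
          else ∫ t in (-(Q : ℝ) ^ 7)..((Q : ℝ) ^ 7), ‖FL X p t‖) =
        ∑ p ∈ (PC Q).filter (fun p => p ≠ p0), ∫ t in (-(Q : ℝ) ^ 7)..((Q : ℝ) ^ 7), ‖FL X p t‖ :=
      Finset.sum_congr rfl fun p hp => by rw [if_neg (mem_filter.1 hp).2]
    rw [h2]
    have h3 : ((PC Q).card : ℝ) * q ≤ 1 / Real.sqrt Q := by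
      rw [← (cl1_Qpow hQ1).1, ← hq]
      apply mul_le_mul_of_nonneg_right _ hq0
      exact_mod_cast card_PC_le Q
    have h4 := a3_q4 (Q := Q) (by linarith)
    have h5 := a3_inv (Q := Q) (by linarith)
    have h6 : 2 / Real.sqrt Q = 1 / Real.sqrt Q + 1 / Real.sqrt Q := by ring
    linarith
  have hE1 : C * Real.exp (-(kp / C)) + (Q : ℝ) ^ (-(1 / 4) : ℝ) ≤ C + 1 := by
    have h1 : Real.exp (-(kp / C)) ≤ 1 := by
      rw [Real.exp_le_one_iff]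
      have : 0 ≤ kp / C := div_nonneg (by linarith) (by linarith)
      linarith
    have h2 : (Q : ℝ) ^ (-(1 / 4) : ℝ) ≤ 1 :=
      Real.rpow_le_one_of_one_le_of_nonpos hQ1' (by norm_num)
    have h3 : C * Real.exp (-(kp / C)) ≤ C * 1 := mul_le_mul_of_nonneg_left h1 (by linarith)
    linarith
  refine ⟨fun p => eb p + (if p = p0 then 1 else 0), fun p _ => ?_, ?_, fun m hm hm4 p hp => ?_⟩
  · have := heb0 p
    beta_reduce
    split_ifs <;> linarith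
  · rw [Finset.sum_add_distrib, Finset.sum_ite_eq' (PC Q) p0 (fun _ => (1 : ℝ)), if_pos (p0_mem hQ1)]
    linarith
  · beta_reduce
    by_cases h : p = p0
    · rw [if_pos h, h]
      have h1 := hB0 Q X (hreg.mono hK0 k4) m hm hm4
      have h2 : ‖Bc Q X p0 m‖ ≤ ‖Bc Q X p0 m - 1‖ + 1 := by
        have h3 := norm_add_le (Bc Q X p0 m - 1) 1
        rw [sub_add_cancel, norm_one] at h3
        exact h3
      rw [← hq] at h1
      have h3 : eb p0 = (∫ t in (-(Q : ℝ) ^ 7)..((Q : ℝ) ^ 7), ‖FL X p0 t - F0 X t‖) + q := by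
        rw [heb]
        beta_reduce
        rw [if_pos rfl]
      rw [h3]
      linarith
    · rw [if_neg h, add_zero]
      have h1 := hB Q X (hreg.mono hK0 k5) p (mem_PC.1 hp).1 m hm hm4
      rw [← hq] at h1
      have h3 : eb p = (∫ t in (-(Q : ℝ) ^ 7)..((Q : ℝ) ^ 7), ‖FL X p t‖) + q := by
        rw [heb]
        beta_reduce
        rw [if_neg h]
      rw [h3]
      exact h1

end Pool.Agent.Lib.H59T
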