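import Pool.Agent.Lib.H30F.SD

/-!
# H59T, file Y: a complex on a connected vertex set with the exchange property (P1) of helper8 has
an acyclic poset of non-faces; deleting the connected sets
-/

set_option autoImplicit false
set_option linter.unusedSectionVars false

namespace H59T

open Finset H98P H63F H30F

section mv

variable {E : Type*} [Fintype E] [DecidableEq E]

/-- MAYER-VIETORIS, other direction. -/
theorem ac_left {K1 K2 : Finset E → Prop} (h1 : Dn K1) (h2 : Dn K2)
    (a12 : AC fun s => K1 s ∧ K2 s) (a : AC fun s => K1 s ∨ K2 s) : AC K1 := by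
  classical
  intro z hz hbd
  obtain ⟨c, hc, hcz⟩ := a z (fun s hs => Or.inl (hz s hs)) hbd
  obtain ⟨c1, hc1⟩ : ∃ c1 : Finset E → ZMod 2, ∀ s, c1 s = if K1 s then c s else 0 :=
    ⟨_, fun _ => rfl⟩
  obtain ⟨c2, hc2⟩ : ∃ c2 : Finset E → ZMod 2, ∀ s, c2 s = if K1 s then 0 else c s :=
    ⟨_, fun _ => rfl⟩
  have hsum : ∀ s, c1 s + c2 s = c s := by
    intro s
    rw [hc1, hc2]
    split_ifs <;> simp
  have hs1 : ∀ s, c1 s ≠ 0 → K1 s := by
    intro s hs
    rw [hc1] at hs
    by_contra hc
    rw [if_neg hc] at hs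
    exact hs rfl
  have hs2 : ∀ s, c2 s ≠ 0 → K2 s := by
    intro s hs
    rw [hc2] at hs
    by_cases hk : K1 s
    · rw [if_pos hk] at hs
      exact absurd rfl hs
    · rw [if_neg hk] at hs
      rcases hc s hs with h | h
      · exact absurd h hk
      · exact h
  have hw : ∀ (c : Finset E → ZMod 2) (K : Finset E → Prop), Dn K → (∀ s, c s ≠ 0 → K s) →
      ∀ r, bd c r ≠ 0 → K r := by
    intro c K hK hc r hr
    by_contra hcon
    apply hr
    unfold bd
    refine sum_eq_zero fun e _ => ?_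
    by_contra h0
    exact hcon (hK r (insert e r) (subset_insert _ _) (hc _ h0))
  have hb : ∀ r, bd c1 r + bd c2 r = z r := by
    intro r
    rw [← bd_add, ← hcz r]
    have : (fun σ => c1 σ + c2 σ) = c := funext hsum
    rw [this]
  obtain ⟨u, hu1, hu2⟩ := a12 (bd c2)
    (fun s hs => by
      refine ⟨?_, hw c2 K2 h2 hs2 s hs⟩
      by_contra hk
      have e1 : bd c1 s = 0 := by
        by_contra h0
        exact hk (hw c1 K1 h1 hs1 s h0)
      have e2 : z s = 0 := by
        by_contra h0
        exact hk (hz s h0)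
      have e3 := hb s
      rw [e1, e2, zero_add] at e3
      exact hs e3)
    (fun r => bd_bd c2 r)
  refine ⟨fun s => c1 s + u s, fun s hs => ?_, fun r => ?_⟩
  · by_cases h : c1 s = 0
    · exact (hu1 s (by simpa [h] using hs)).1
    · exact hs1 s h
  · rw [bd_add, hu2 r, hb r]

end mv

section poset

variable {α : Type*} [PartialOrder α] [Fintype α] [DecidableEq α]

theorem star_dn (P : α → Prop) (m : α) :
    Dn (Ch fun x => x = m ∨ (P x ∧ (x ≤ m ∨ m ≤ x))) := ch_dn

theorem ac_star (P : α → Prop) (m : α) :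
    AC (Ch fun x => x = m ∨ (P x ∧ (x ≤ m ∨ m ≤ x))) := by
  refine ac_ch_cone (a := m) (Or.inl rfl) fun x hx => ?_
  rcases hx with h | ⟨-, h | h⟩
  · exact Or.inl h.ge
  · exact Or.inr h
  · exact Or.inl h

theorem ch_inter {P : α → Prop} {m : α} (hm : ¬ P m) (s : Finset α) :
    (Ch P s ∧ Ch (fun x => x = m ∨ (P x ∧ (x ≤ m ∨ m ≤ x))) s) ↔
      Ch (fun x => P x ∧ (x ≤ m ∨ m ≤ x)) s := by
  constructor
  · rintro ⟨h1, h2⟩
    refine ⟨fun x hx => ?_, h1.2⟩
    rcases h2.1 x hx with h | h
    · exact absurd (h ▸ h1.1 x hx) hm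
    · exact h
  · intro h
    exact ⟨ch_mono (fun x hx => hx.1) h, ch_mono (fun x hx => Or.inr hx) h⟩

theorem ch_union {P : α → Prop} {m : α} (s : Finset α) :
    (Ch P s ∨ Ch (fun x => x = m ∨ (P x ∧ (x ≤ m ∨ m ≤ x))) s) ↔
      Ch (fun x => P x ∨ x = m) s := by
  constructor
  · rintro (h | h)
    · exact ch_mono (fun x hx => Or.inl hx) h
    · exact ch_mono (fun x hx => hx.elim Or.inr fun h => Or.inl h.1) h
  · intro h
    by_cases hms : m ∈ s
    · refine Or.inr ⟨fun x hx => ?_, h.2⟩
      rcases h.1 x hx with h1 | h1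
      · exact Or.inr ⟨h1, h.2 x hx m hms⟩
      · exact Or.inl h1
    · refine Or.inl ⟨fun x hx => ?_, h.2⟩
      rcases h.1 x hx with h1 | h1
      · exact h1
      · exact absurd (h1 ▸ hx) hms

/-- ADDING ONE ELEMENT with acyclic link. -/
theorem ac_add {P : α → Prop} {m : α} (hm : ¬ P m)
    (hL : AC (Ch fun x => P x ∧ (x ≤ m ∨ m ≤ x))) (hP : AC (Ch P)) :
    AC (Ch fun x => P x ∨ x = m) := by
  refine ac_congr (K := fun s => Ch P s ∨ Ch (fun x => x = m ∨ (P x ∧ (x ≤ m ∨ m ≤ x))) s)
    ch_union ?_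
  refine ac_union ch_dn ch_dn hP (ac_star P m) ?_
  exact ac_congr (fun s => (ch_inter hm s).symm) hL

/-- DELETING ONE ELEMENT with acyclic link. -/
theorem ac_del {P : α → Prop} {m : α} (hm : ¬ P m)
    (hL : AC (Ch fun x => P x ∧ (x ≤ m ∨ m ≤ x)))
    (hP : AC (Ch fun x => P x ∨ x = m)) : AC (Ch P) := by
  refine ac_left (K2 := Ch fun x => x = m ∨ (P x ∧ (x ≤ m ∨ m ≤ x))) ch_dn ch_dn ?_ ?_
  · exact ac_congr (fun s => (ch_inter hm s).symm) hL
  · exact ac_congr (fun s => ch_union s |>.symm) hP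

/-- JOIN: putting elements above an acyclic poset. -/
theorem ac_join {A : α → Prop} (hA : AC (Ch A)) :
    ∀ (n : ℕ) (B : Finset α), B.card ≤ n → (∀ a, A a → ∀ b ∈ B, a ≤ b) → (∀ b ∈ B, ¬ A b) →
      AC (Ch fun x => A x ∨ x ∈ B) := by
  intro n
  induction n with
  | zero =>
    intro B hB _ _
    have hB0 : B = ∅ := card_eq_zero.1 (Nat.le_zero.1 hB)
    subst hB0
    have : (fun x => A x ∨ x ∈ (∅ : Finset α)) = A := by
      funext x
      simp
    rw [this]
    exact hA
  | succ n ih =>
    intro B hB h1 h2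
    rcases B.eq_empty_or_nonempty with hB0 | ⟨b, hb⟩
    · exact ih B (by rw [hB0]; simp) h1 h2
    · have hc : (B.erase b).card ≤ n := by
        rw [card_erase_of_mem hb]
        omega
      have e1 : (fun x => (A x ∨ x ∈ B.erase b) ∨ x = b) = fun x => A x ∨ x ∈ B := by
        funext x
        rw [eq_iff_iff, mem_erase]
        constructor
        · rintro ((h | h) | h)
          · exact Or.inl h
          · exact Or.inr h.2
          · exact Or.inr (h ▸ hb)
        · rintro (h | h)
          · exact Or.inl (Or.inl h)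
          · by_cases hx : x = b
            · exact Or.inr hx
            · exact Or.inl (Or.inr ⟨hx, h⟩)
      rw [← e1]
      refine ac_add ?_ ?_ (ih (B.erase b) hc (fun a ha c hc => h1 a ha c (mem_of_mem_erase hc))
        fun c hc => h2 c (mem_of_mem_erase hc))
      · rintro (h | h)
        · exact h2 b hb h
        · exact (mem_erase.1 h).1 rfl
      · classical
        have e2 : (fun x => (A x ∨ x ∈ B.erase b) ∧ (x ≤ b ∨ b ≤ x)) =
            fun x => A x ∨ x ∈ (B.erase b).filter fun x => x ≤ b ∨ b ≤ x := by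
          funext x
          rw [eq_iff_iff, mem_filter]
          constructor
          · rintro ⟨h | h, h3⟩
            · exact Or.inl h
            · exact Or.inr ⟨h, h3⟩
          · rintro (h | h)
            · exact ⟨Or.inl h, Or.inl (h1 x h b hb)⟩
            · exact ⟨Or.inr h.1, h.2⟩
        rw [e2]
        refine ih _ ((card_filter_le _ _).trans hc) (fun a ha c hc => ?_) fun c hc => ?_
        · exact h1 a ha c (mem_of_mem_erase (mem_filter.1 hc).1)
        · exact h2 c (mem_of_mem_erase (mem_filter.1 hc).1)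

/-- DELETING the elements with `D`, in decreasing order, from an acyclic poset: it is enough that
the full lower part of each of them is acyclic. -/
theorem ac_delete_all {U D : α → Prop} (hU : AC (Ch U))
    (h : ∀ m, U m → D m → AC (Ch fun x => U x ∧ x < m)) :
    AC (Ch fun x => U x ∧ ¬ D x) := by
  classical
  have key : ∀ (n : ℕ) (S : Finset α), S.card ≤ n → (∀ m ∈ S, U m ∧ D m) →
      (∀ m ∈ S, ∀ m', U m' → D m' → m < m' → m' ∈ S) → AC (Ch fun x => U x ∧ x ∉ S) := by
    intro n
    induction n with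
    | zero =>
      intro S hS _ _
      have hS0 : S = ∅ := card_eq_zero.1 (Nat.le_zero.1 hS)
      subst hS0
      have : (fun x => U x ∧ x ∉ (∅ : Finset α)) = U := by
        funext x
        simp
      rw [this]
      exact hU
    | succ n ih =>
      intro S hS h1 h2
      rcases S.eq_empty_or_nonempty with hS0 | hne
      · exact ih S (by rw [hS0]; simp) h1 h2
      · obtain ⟨m, hm, hmin⟩ := S.exists_minimal hne
        have hlt : ∀ x ∈ S, ¬ x < m := fun x hx hxm => absurd (hmin hx hxm.le) (not_le_of_gt hxm)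
        have hc : (S.erase m).card ≤ n := by
          rw [card_erase_of_mem hm]
          omega
        have h3 := ih (S.erase m) hc (fun x hx => h1 x (mem_of_mem_erase hx))
          (fun x hx x' hU' hD' hxx => by
            refine mem_erase.2 ⟨fun he => ?_, h2 x (mem_of_mem_erase hx) x' hU' hD' hxx⟩
            exact hlt x (mem_of_mem_erase hx) (he ▸ hxx))
        have e1 : (fun x => U x ∧ x ∉ S.erase m) = fun x => (U x ∧ x ∉ S) ∨ x = m := by
          funext x
          rw [eq_iff_iff, mem_erase]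
          constructor
          · rintro ⟨hx, h4⟩
            by_cases hxm : x = m
            · exact Or.inr hxm
            · exact Or.inl ⟨hx, fun h5 => h4 ⟨hxm, h5⟩⟩
          · rintro (⟨hx, h4⟩ | hx)
            · exact ⟨hx, fun h5 => h4 h5.2⟩
            · exact ⟨hx ▸ (h1 m hm).1, fun h5 => h5.1 hx⟩
        rw [e1] at h3
        refine ac_del (fun h4 => h4.2 hm) ?_ h3
        have e2 : (fun x => (U x ∧ x ∉ S) ∧ (x ≤ m ∨ m ≤ x)) =
            fun x => (U x ∧ x < m) ∨ x ∈ univ.filter fun x => (U x ∧ x ∉ S) ∧ m < x := by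
          funext x
          rw [eq_iff_iff, mem_filter]
          constructor
          · rintro ⟨h4, h5 | h5⟩
            · refine Or.inl ⟨h4.1, lt_of_le_of_ne h5 fun he => h4.2 (he ▸ hm)⟩
            · exact Or.inr ⟨mem_univ _, h4, lt_of_le_of_ne h5 fun he => h4.2 (he ▸ hm)⟩
          · rintro (⟨h4, h5⟩ | ⟨-, h4, h5⟩)
            · exact ⟨⟨h4, fun h6 => hlt x h6 h5⟩, Or.inl h5.le⟩
            · exact ⟨h4, Or.inr h5.le⟩
        rw [e2]
        refine ac_join (h m (h1 m hm).1 (h1 m hm).2) _ _ le_rfl ?_ ?_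
        · rintro a ⟨-, ha⟩ b hb
          exact (ha.trans (mem_filter.1 hb).2.2).le
        · rintro b hb ⟨-, h4⟩
          exact absurd (h4.trans (mem_filter.1 hb).2.2) (lt_irrefl _)
  have h1 := key _ (univ.filter fun x => U x ∧ D x) le_rfl (fun m hm => (mem_filter.1 hm).2)
    (fun m _ m' h1 h2 _ => mem_filter.2 ⟨mem_univ _, h1, h2⟩)
  have e : (fun x => U x ∧ x ∉ univ.filter fun x => U x ∧ D x) = fun x => U x ∧ ¬ D x := by
    funext x
    rw [eq_iff_iff, mem_filter]
    exact ⟨fun h => ⟨h.1, fun h2 => h.2 ⟨mem_univ _, h.1, h2⟩⟩, fun h => ⟨h.1, fun h2 => h.2 h2.2.2⟩⟩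
  rwa [e] at h1

end poset

end H59T
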